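import Pool.Agent.Helper18.BT.Sys

/-!
# BT-A01: algebra of images and preimages in a name for an inverse system

PROOFS (all are short computations in the complete Boolean algebra `B`; use `iSup_inf_eq`,
`inf_iSup_eq`, `iSup_le`, `le_iSup_of_le`).

* `tri`: `⊤ = ⨆ x', P α β x' y` (total); for `x' = x` done; for `x' ≠ x`:
  `P α γ x z ⊓ P β γ y z ⊓ P α β x' y ≤ P α γ x z ⊓ P α γ x' z = ⊥` by `trans` and `func`.
* `pre_pre`: `≤` is `trans`; `≥`: `A x ⊓ P α γ x z ≤ ⨆ y, A x ⊓ P α γ x z ⊓ P β γ y z` (total) and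
  `tri`.
* `pre_inf`: `≤` clear; `≥`: `A x ⊓ P x y ⊓ A' x' ⊓ P x' y` is `⊥` unless `x = x'` (func).
* `pre_compl`: `pre Aᶜ ⊓ pre A = ⊥` by func and `pre Aᶜ ⊔ pre A = ⊤` by total.
* `img_pre_le`: `A x' ⊓ P x' y ⊓ P x y` is `⊥` unless `x = x'`.
* `le_pre_img`: `A y ≤ ⨆ x, P x y ⊓ A y` by total.
-/

open Cardinal

namespace BT

variable {B : Type} [CompleteBooleanAlgebra B] {I : Type} [Preorder I] {N : Type}
  (T : BSys B I N)

theorem BSys.tri {α β γ : I} (h1 : α ≤ β) (h2 : β ≤ γ) (x y z : N) :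
    T.P α γ x z ⊓ T.P β γ y z ≤ T.P α β x y := by
  classical
  calc T.P α γ x z ⊓ T.P β γ y z = (T.P α γ x z ⊓ T.P β γ y z) ⊓ ⨆ x', T.P α β x' y := by
        rw [T.total h1, inf_top_eq]
    _ ≤ T.P α β x y := by
        rw [inf_iSup_eq]
        refine iSup_le fun x' => ?_
        by_cases hx : x' = x
        · subst hx
          exact inf_le_right
        · have h3 : T.P α γ x z ⊓ T.P β γ y z ⊓ T.P α β x' y ≤ T.P α γ x z ⊓ T.P α γ x' z := by
            refine le_inf (inf_le_left.trans inf_le_left) ?_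
            exact (le_inf inf_le_right (inf_le_left.trans inf_le_right)).trans (T.trans h1 h2 x' y z)
          rw [T.func (h1.trans h2) x x' z (Ne.symm hx)] at h3
          exact h3.trans bot_le

theorem BSys.pre_pre {α β γ : I} (h1 : α ≤ β) (h2 : β ≤ γ) (A : N → B) :
    T.pre β γ (T.pre α β A) = T.pre α γ A := by
  funext z
  simp only [BSys.pre]
  apply le_antisymm
  · refine iSup_le fun y => ?_
    rw [iSup_inf_eq]
    refine iSup_le fun x => le_iSup_of_le x ?_
    refine le_inf (inf_le_left.trans inf_le_left) ?_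
    exact (le_inf (inf_le_left.trans inf_le_right) inf_le_right).trans (T.trans h1 h2 x y z)
  · refine iSup_le fun x => ?_
    calc A x ⊓ T.P α γ x z = (A x ⊓ T.P α γ x z) ⊓ ⨆ y, T.P β γ y z := by rw [T.total h2, inf_top_eq]
      _ ≤ _ := by
        rw [inf_iSup_eq]
        refine iSup_le fun y => le_iSup_of_le y ?_
        refine le_inf (le_iSup_of_le x (le_inf (inf_le_left.trans inf_le_left) ?_)) inf_le_right
        exact (le_inf (inf_le_left.trans inf_le_right) inf_le_right).trans (T.tri h1 h2 x y z)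

theorem BSys.pre_inf {α β : I} (h : α ≤ β) (A A' : N → B) :
    T.pre α β (fun x => A x ⊓ A' x) = fun y => T.pre α β A y ⊓ T.pre α β A' y := by
  classical
  funext y
  simp only [BSys.pre]
  apply le_antisymm
  · refine iSup_le fun x => le_inf ?_ ?_
    · exact le_iSup_of_le x (le_inf (inf_le_left.trans inf_le_left) inf_le_right)
    · exact le_iSup_of_le x (le_inf (inf_le_left.trans inf_le_right) inf_le_right)
  · rw [iSup_inf_eq]
    refine iSup_le fun x => ?_
    rw [inf_iSup_eq]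
    refine iSup_le fun x' => ?_
    by_cases hx : x = x'
    · subst hx
      exact le_iSup_of_le x (le_inf (le_inf (inf_le_left.trans inf_le_left)
        (inf_le_right.trans inf_le_left)) (inf_le_left.trans inf_le_right))
    · have h3 : A x ⊓ T.P α β x y ⊓ (A' x' ⊓ T.P α β x' y) ≤ T.P α β x y ⊓ T.P α β x' y :=
        inf_le_inf inf_le_right inf_le_right
      rw [T.func h x x' y hx] at h3
      exact h3.trans bot_le

theorem BSys.pre_compl {α β : I} (h : α ≤ β) (A : N → B) :
    T.pre α β (fun x => (A x)ᶜ) = fun y => (T.pre α β A y)ᶜ := by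
  classical
  funext y
  rw [eq_compl_iff_isCompl]
  constructor
  · rw [disjoint_iff]
    simp only [BSys.pre]
    rw [← le_bot_iff, iSup_inf_eq]
    refine iSup_le fun x => ?_
    rw [inf_iSup_eq]
    refine iSup_le fun x' => ?_
    by_cases hx : x = x'
    · subst hx
      calc (A x)ᶜ ⊓ T.P α β x y ⊓ (A x ⊓ T.P α β x y) ≤ (A x)ᶜ ⊓ A x :=
            inf_le_inf inf_le_left inf_le_left
        _ = ⊥ := compl_inf_self _
    · have h3 : (A x)ᶜ ⊓ T.P α β x y ⊓ (A x' ⊓ T.P α β x' y) ≤ T.P α β x y ⊓ T.P α β x' y :=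
        inf_le_inf inf_le_right inf_le_right
      rw [T.func h x x' y hx] at h3
      exact h3
  · rw [codisjoint_iff, ← top_le_iff, ← T.total h y]
    refine iSup_le fun x => ?_
    calc T.P α β x y = ((A x)ᶜ ⊔ A x) ⊓ T.P α β x y := by rw [compl_sup_eq_top, top_inf_eq]
      _ = (A x)ᶜ ⊓ T.P α β x y ⊔ A x ⊓ T.P α β x y := inf_sup_right _ _ _
      _ ≤ _ := sup_le_sup (le_iSup (fun x => (A x)ᶜ ⊓ T.P α β x y) x)
          (le_iSup (fun x => A x ⊓ T.P α β x y) x)

theorem BSys.pre_iSup (α β : I) {K : Type} (A : K → N → B) :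
    T.pre α β (fun x => ⨆ k, A k x) = fun y => ⨆ k, T.pre α β (A k) y := by
  funext y
  simp only [BSys.pre, iSup_inf_eq]
  exact iSup_comm

theorem BSys.img_iSup (α β : I) {K : Type} (A : K → N → B) :
    T.img α β (fun x => ⨆ k, A k x) = fun y => ⨆ k, T.img α β (A k) y := by
  funext y
  simp only [BSys.img, iSup_inf_eq]
  exact iSup_comm

theorem BSys.pre_mono (α β : I) {c : B} {A A' : N → B} (h : ∀ x, c ⊓ A x ≤ A' x) (y : N) :
    c ⊓ T.pre α β A y ≤ T.pre α β A' y := by
  simp only [BSys.pre, inf_iSup_eq]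
  refine iSup_mono fun x => ?_
  rw [← inf_assoc]
  exact inf_le_inf_right _ (h x)

theorem BSys.img_mono (α β : I) {c : B} {A A' : N → B} (h : ∀ x, c ⊓ A x ≤ A' x) (y : N) :
    c ⊓ T.img α β A y ≤ T.img α β A' y := by
  simp only [BSys.img, inf_iSup_eq]
  refine iSup_mono fun x => ?_
  rw [← inf_assoc]
  exact inf_le_inf_right _ (h x)

theorem BSys.img_pre_le {α β : I} (h : α ≤ β) (A : N → B) (x : N) :
    T.img α β (T.pre α β A) x ≤ A x := by
  classical
  simp only [BSys.img, BSys.pre]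
  refine iSup_le fun y => ?_
  rw [iSup_inf_eq]
  refine iSup_le fun x' => ?_
  by_cases hx : x' = x
  · subst hx
    exact inf_le_left.trans inf_le_left
  · have h3 : A x' ⊓ T.P α β x' y ⊓ T.P α β x y ≤ T.P α β x' y ⊓ T.P α β x y :=
      inf_le_inf_right _ inf_le_right
    rw [T.func h x' x y hx] at h3
    exact h3.trans bot_le

theorem BSys.le_pre_img {α β : I} (h : α ≤ β) (A : N → B) (y : N) :
    A y ≤ T.pre α β (T.img α β A) y := by
  calc A y = A y ⊓ ⨆ x, T.P α β x y := by rw [T.total h, inf_top_eq]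
    _ ≤ _ := by
      rw [inf_iSup_eq]
      refine iSup_mono fun x => le_inf ?_ inf_le_right
      exact le_iSup (fun y => A y ⊓ T.P α β x y) y

/-- The image of a small set is small. -/
theorem BSys.isFunc_img {α β : I} (h : α ≤ β) {Y : Type} {e : Y → N → B} (he : IsFunc e) :
    IsFunc (fun y x => ⨆ v, e y v ⊓ T.P α β x v) := by
  classical
  intro y x x' hx
  rw [← le_bot_iff, iSup_inf_eq]
  refine iSup_le fun v => ?_
  rw [inf_iSup_eq]
  refine iSup_le fun v' => ?_
  by_cases hv : v = v'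
  · subst hv
    calc e y v ⊓ T.P α β x v ⊓ (e y v ⊓ T.P α β x' v) ≤ T.P α β x v ⊓ T.P α β x' v :=
          inf_le_inf inf_le_right inf_le_right
      _ = ⊥ := T.func h x x' v hx
  · calc e y v ⊓ T.P α β x v ⊓ (e y v' ⊓ T.P α β x' v') ≤ e y v ⊓ e y v' :=
          inf_le_inf inf_le_left inf_le_left
      _ = ⊥ := he y v v' hv

theorem BSys.rng_img (α β : I) {Y : Type} (e : Y → N → B) :
    rng (fun y x => ⨆ v, e y v ⊓ T.P α β x v) = T.img α β (rng e) := by
  funext x
  simp only [rng, BSys.img, iSup_inf_eq]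
  exact iSup_comm

end BT
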