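import Pool.Agent.Helper18.BT.Sys

/-!
# BT-A02: the sets `hit`

PROOFS.  `T.hit d α A a = tv (α ≤ a) ⊓ ⨆ x, ⨆ y, A x ⊓ T.P α a x y ⊓ d a y`.  Use
`by_cases h : α ≤ a` (then `tv` is `⊤` or `⊥`).

* `hit_inf`: the product of the `(x, y)` term and the `(x', y')` term is `⊥` if `y ≠ y'` (`d` is a
  partial function) and if `y = y'`, `x ≠ x'` (func).
* `hit_img`: `α ≤ β ≤ a`: `A y ⊓ P β a y v ⊓ d a v ≤ ⨆ x, P α β x y ⊓ …` (total) and `trans`.
* `hit_pre`: `α ≤ β ≤ a`: `A x ⊓ P α a x v ⊓ d a v ≤ ⨆ y, … ⊓ P β a y v` (total) and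
  `P α a x v ⊓ P β a y v ≤ P α β x y` (reprove it from total, func, trans, or import A01).
-/

open Cardinal

namespace BT

variable {B : Type} [CompleteBooleanAlgebra B] {I : Type} [Preorder I] {N : Type}
  (T : BSys B I N)

theorem BSys.hit_mono (d : I → N → B) (α : I) {c : B} {A A' : N → B} (a : I)
    (h : ∀ x, c ⊓ A x ≤ A' x) : c ⊓ T.hit d α A a ≤ T.hit d α A' a := by
  unfold BSys.hit
  refine le_inf (inf_le_right.trans inf_le_left) ?_
  refine (inf_le_inf_left c inf_le_right).trans ?_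
  rw [inf_iSup_eq]
  refine iSup_le fun x => ?_
  rw [inf_iSup_eq]
  refine iSup_le fun y => ?_
  refine le_iSup_of_le x (le_iSup_of_le y ?_)
  have h1 : c ⊓ (A x ⊓ T.P α a x y ⊓ d a y) ≤ c ⊓ A x :=
    inf_le_inf_left c (inf_le_left.trans inf_le_left)
  exact le_inf (le_inf (h1.trans (h x)) (inf_le_right.trans (inf_le_left.trans inf_le_right)))
    (inf_le_right.trans inf_le_right)

/-- introduce a join equal to `⊤` -/
private lemma le_of_top {ι : Sort*} {b c : B} {φ : ι → B} (h : ⨆ i, φ i = ⊤)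
    (h1 : ∀ i, b ⊓ φ i ≤ c) : b ≤ c := by
  calc b = b ⊓ ⨆ i, φ i := by rw [h, inf_top_eq]
    _ = ⨆ i, b ⊓ φ i := inf_iSup_eq _ _
    _ ≤ c := iSup_le h1

private lemma tri_aux {α β γ : I} (h1 : α ≤ β) (h2 : β ≤ γ) (x y z : N) :
    T.P α γ x z ⊓ T.P β γ y z ≤ T.P α β x y := by
  refine le_of_top (T.total h1 y) fun x' => ?_
  by_cases hx : x = x'
  · subst hx; exact inf_le_right
  · have h3 : T.P α β x' y ⊓ T.P β γ y z ≤ T.P α γ x' z := T.trans h1 h2 x' y z
    have h4 := T.func (h1.trans h2) x x' z hx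
    have h5 : T.P α γ x z ⊓ T.P β γ y z ⊓ T.P α β x' y ≤ T.P α γ x z ⊓ T.P α γ x' z :=
      le_inf (inf_le_left.trans inf_le_left)
        ((le_inf inf_le_right (inf_le_left.trans inf_le_right)).trans h3)
    rw [h4] at h5
    exact h5.trans bot_le

private lemma hit_pos {d : I → N → B} {α : I} {A : N → B} {a : I} (h : α ≤ a) :
    T.hit d α A a = ⨆ x, ⨆ y, A x ⊓ T.P α a x y ⊓ d a y := by
  unfold BSys.hit
  rw [tv_true h, top_inf_eq]

private lemma hit_neg {d : I → N → B} {α : I} {A : N → B} {a : I} (h : ¬ α ≤ a) :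
    T.hit d α A a = ⊥ := by
  unfold BSys.hit
  rw [tv_false h, bot_inf_eq]

theorem BSys.hit_inf {d : I → N → B} (hd : IsFunc d) (α : I) (A A' : N → B) (a : I) :
    T.hit d α A a ⊓ T.hit d α A' a ≤ T.hit d α (fun x => A x ⊓ A' x) a := by
  by_cases h : α ≤ a
  · rw [hit_pos T h, hit_pos T h, hit_pos T h, iSup_inf_eq]
    refine iSup_le fun x => ?_
    rw [iSup_inf_eq]
    refine iSup_le fun y => ?_
    rw [inf_iSup_eq]
    refine iSup_le fun x' => ?_
    rw [inf_iSup_eq]
    refine iSup_le fun y' => ?_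
    by_cases hy : y = y'
    · subst hy
      by_cases hx : x = x'
      · subst hx
        refine le_iSup_of_le x (le_iSup_of_le y ?_)
        exact le_inf (le_inf (le_inf (inf_le_left.trans (inf_le_left.trans inf_le_left))
          (inf_le_right.trans (inf_le_left.trans inf_le_left)))
          (inf_le_left.trans (inf_le_left.trans inf_le_right))) (inf_le_left.trans inf_le_right)
      · have h4 := T.func h x x' y hx
        have h5 : A x ⊓ T.P α a x y ⊓ d a y ⊓ (A' x' ⊓ T.P α a x' y ⊓ d a y) ≤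
            T.P α a x y ⊓ T.P α a x' y :=
          le_inf (inf_le_left.trans (inf_le_left.trans inf_le_right))
            (inf_le_right.trans (inf_le_left.trans inf_le_right))
        rw [h4] at h5
        exact h5.trans bot_le
    · have h4 := hd a y y' hy
      have h5 : A x ⊓ T.P α a x y ⊓ d a y ⊓ (A' x' ⊓ T.P α a x' y' ⊓ d a y') ≤
          d a y ⊓ d a y' :=
        le_inf (inf_le_left.trans inf_le_right) (inf_le_right.trans inf_le_right)
      rw [h4] at h5
      exact h5.trans bot_le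
  · rw [hit_neg T h, bot_inf_eq]; exact bot_le

theorem BSys.hit_img (d : I → N → B) {α β : I} (h : α ≤ β) (A : N → B) (a : I) :
    T.hit d β A a ≤ T.hit d α (T.img α β A) a := by
  by_cases hβ : β ≤ a
  · rw [hit_pos T hβ, hit_pos T (h.trans hβ)]
    refine iSup_le fun v => iSup_le fun w => ?_
    refine le_of_top (T.total h v) fun x => ?_
    refine le_iSup_of_le x (le_iSup_of_le w ?_)
    have h1 : A v ⊓ T.P β a v w ⊓ d a w ⊓ T.P α β x v ≤ T.img α β A x := by
      unfold BSys.img
      exact le_iSup_of_le v (le_inf (inf_le_left.trans (inf_le_left.trans inf_le_left))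
        inf_le_right)
    have h2 : A v ⊓ T.P β a v w ⊓ d a w ⊓ T.P α β x v ≤ T.P α a x w :=
      (le_inf inf_le_right (inf_le_left.trans (inf_le_left.trans inf_le_right))).trans
        (T.trans h hβ x v w)
    exact le_inf (le_inf h1 h2) (inf_le_left.trans inf_le_right)
  · rw [hit_neg T hβ]; exact bot_le

theorem BSys.hit_pre (d : I → N → B) {α β : I} (h : α ≤ β) (A : N → B) (a : I) :
    T.hit d α A a ⊓ tv (β ≤ a) ≤ T.hit d β (T.pre α β A) a := by
  by_cases hβ : β ≤ a
  · rw [hit_pos T hβ, hit_pos T (h.trans hβ), tv_true hβ, inf_top_eq]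
    refine iSup_le fun x => iSup_le fun w => ?_
    refine le_of_top (T.total hβ w) fun y => ?_
    refine le_iSup_of_le y (le_iSup_of_le w ?_)
    have h2 : A x ⊓ T.P α a x w ⊓ d a w ⊓ T.P β a y w ≤ T.P α β x y :=
      (le_inf (inf_le_left.trans (inf_le_left.trans inf_le_right)) inf_le_right).trans
        (tri_aux T h hβ x y w)
    have h1 : A x ⊓ T.P α a x w ⊓ d a w ⊓ T.P β a y w ≤ T.pre α β A y := by
      unfold BSys.pre
      exact le_iSup_of_le x (le_inf (inf_le_left.trans (inf_le_left.trans inf_le_left)) h2)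
    exact le_inf (le_inf h1 inf_le_right) (inf_le_left.trans inf_le_right)
  · rw [tv_false hβ, inf_bot_eq]; exact bot_le

theorem BSys.hit_iSup (d : I → N → B) (α : I) {K : Type} (A : K → N → B) (a : I) :
    T.hit d α (fun x => ⨆ k, A k x) a = ⨆ k, T.hit d α (A k) a := by
  by_cases h : α ≤ a
  · rw [hit_pos T h]
    have h1 : ∀ k, T.hit d α (A k) a = ⨆ x, ⨆ y, A k x ⊓ T.P α a x y ⊓ d a y :=
      fun k => hit_pos T h
    simp only [h1]
    apply le_antisymm
    · refine iSup_le fun x => iSup_le fun y => ?_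
      rw [iSup_inf_eq, iSup_inf_eq]
      exact iSup_le fun k => le_iSup_of_le k (le_iSup_of_le x (le_iSup_of_le y le_rfl))
    · refine iSup_le fun k => iSup_le fun x => iSup_le fun y => ?_
      refine le_iSup_of_le x (le_iSup_of_le y ?_)
      exact inf_le_inf_right _ (inf_le_inf_right _ (le_iSup (fun k => A k x) k))
  · rw [hit_neg T h]
    have h1 : ∀ k, T.hit d α (A k) a = ⊥ := fun k => hit_neg T h
    simp [h1]

theorem BSys.hit_le (d : I → N → B) (α : I) (A : N → B) (a : I) :
    T.hit d α A a ≤ ⨆ x, A x := by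
  unfold BSys.hit
  refine inf_le_right.trans ?_
  refine iSup_le fun x => iSup_le fun y => ?_
  exact (inf_le_left.trans inf_le_left).trans (le_iSup A x)

theorem BSys.hit_le_tv (d : I → N → B) (α : I) (A : N → B) (a : I) :
    T.hit d α A a ≤ tv (α ≤ a) := by
  unfold BSys.hit
  exact inf_le_left

theorem BSys.hit_top {d : I → N → B} (hd : ∀ a, ⨆ y, d a y = ⊤) (α a : I) :
    tv (α ≤ a) ≤ T.hit d α (fun _ => ⊤) a := by
  by_cases h : α ≤ a
  · rw [hit_pos T h]
    refine le_of_top (hd a) fun y => ?_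
    refine le_of_top (T.total h y) fun x => ?_
    refine le_iSup_of_le x (le_iSup_of_le y ?_)
    rw [top_inf_eq]
    exact le_inf inf_le_right (inf_le_left.trans inf_le_right)
  · rw [tv_false h]; exact bot_le

end BT
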