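import Pool.Agent.Helper18.BT.Sys

/-!
# BT-A03: names for generic ultrafilters, basic lemmas

PROOFS.
* `decSub`: if `K` is empty then `A a ≤ ⊥` for all `a` and `F_ne` gives `F q A ≤ ⊥`.  Otherwise apply
  `dec` to `g' k a = g k a ⊔ (A a)ᶜ` (its join over `k` is `⊤` as `A a ≤ ⨆ k, g k a`), multiply by
  `F q A`, and use `F q A ⊓ le q' q ≤ F q' A` (`F_le`) and `F q' (g' k) ⊓ F q' A ≤ F q' (g k)`
  (`F_inf`, `F_mono` with `c = ⊤`, since `(g k a ⊔ (A a)ᶜ) ⊓ A a ≤ g k a`).
* `interNe`: let `b = ⨅ j, F q (A j)`.  Apply `dec` with `K = Option J`, `g (some j) a = (A j a)ᶜ`,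
  `g none a = ⨅ j, A j a` (join `⊤`: `(⨅ j, A j a)ᶜ = ⨆ j, (A j a)ᶜ`).  For `k = some j`:
  `b ⊓ le q' q ⊓ F q' ((A j)ᶜ) ≤ F q' (A j) ⊓ F q' ((A j)ᶜ) ≤ F q' ⊥ ≤ ⊥` (`F_inf`, `F_ne`).
  For `k = none`: `F q' (g none) = F q' (g none) ⊓ F q' (cone β) ≤ F q' (g none ⊓ cone β) ≤
  ⨆ a, (⨅ j, A j a) ⊓ tv (β ≤ a)`.
-/

open Cardinal

namespace BT

variable {B : Type} [CompleteBooleanAlgebra B] {I : Type} [Preorder I] {τ : Cardinal.{0}}
  (G : BUF B I τ)

theorem BUF.F_mono' (q : G.Q) {A A' : I → B} (h : ∀ a, A a ≤ A' a) : G.F q A ≤ G.F q A' := by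
  have h1 := G.F_mono q ⊤ A A' (fun a => by rw [top_inf_eq]; exact h a)
  rwa [top_inf_eq] at h1

theorem BUF.decSub (A : I → B) {K : Type} (g : K → I → B) (hK : #K ≤ τ)
    (h : ∀ a, A a ≤ ⨆ k, g k a) (q : G.Q) :
    G.F q A ≤ ⨆ q', ⨆ k, G.le q' q ⊓ G.F q' (g k) := by
  rcases isEmpty_or_nonempty K with hE | hN
  · refine (G.F_ne q A).trans (iSup_le fun a => (h a).trans ?_)
    rw [iSup_of_empty]
    exact bot_le
  · have htop : ∀ a, (⨆ k, (g k a ⊔ (A a)ᶜ)) = ⊤ := by
      intro a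
      rw [eq_top_iff]
      calc (⊤ : B) = A a ⊔ (A a)ᶜ := (sup_compl_eq_top).symm
        _ ≤ ⨆ k, (g k a ⊔ (A a)ᶜ) := by
            refine sup_le ((h a).trans (iSup_mono fun k => le_sup_left)) ?_
            obtain ⟨k⟩ := hN
            exact le_iSup_of_le k le_sup_right
    have hdec := G.dec K (fun k a => g k a ⊔ (A a)ᶜ) hK htop q
    calc G.F q A = G.F q A ⊓ ⨆ q', ⨆ k, G.le q' q ⊓ G.F q' (fun a => g k a ⊔ (A a)ᶜ) := by
          rw [hdec, inf_top_eq]
      _ ≤ ⨆ q', ⨆ k, G.le q' q ⊓ G.F q' (g k) := by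
          rw [inf_iSup_eq]
          refine iSup_le fun q' => ?_
          rw [inf_iSup_eq]
          refine iSup_le fun k => ?_
          refine le_iSup_of_le q' (le_iSup_of_le k ?_)
          refine le_inf (inf_le_right.trans inf_le_left) ?_
          have h1 : G.F q A ⊓ (G.le q' q ⊓ G.F q' (fun a => g k a ⊔ (A a)ᶜ)) ≤ G.F q' A :=
            (le_inf (inf_le_right.trans inf_le_left) inf_le_left).trans (G.F_le q q' A)
          have h2 := (le_inf h1 (inf_le_right.trans inf_le_right)).trans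
            (G.F_inf q' A (fun a => g k a ⊔ (A a)ᶜ))
          refine h2.trans (G.F_mono' q' fun a => ?_)
          rw [inf_sup_left, inf_compl_self, sup_bot_eq]
          exact inf_le_right

theorem BUF.interNe {J : Type} (hJ : #(Option J) ≤ τ) (q : G.Q) (A : J → I → B) (β : I) :
    (⨅ j, G.F q (A j)) ≤ ⨆ a, tv (β ≤ a) ⊓ ⨅ j, A j a := by
  let g : Option J → I → B := fun k => k.elim (fun a => ⨅ j, A j a) (fun j a => (A j a)ᶜ)
  have htop : ∀ a, (⨆ k, g k a) = ⊤ := by
    intro a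
    rw [eq_top_iff]
    calc (⊤ : B) = (⨅ j, A j a) ⊔ (⨅ j, A j a)ᶜ := (sup_compl_eq_top).symm
      _ ≤ ⨆ k, g k a := by
          refine sup_le (le_iSup (fun k => g k a) none) ?_
          rw [compl_iInf]
          exact iSup_le fun j => le_iSup (fun k => g k a) (some j)
  have hdec := G.dec (Option J) g hJ htop q
  calc (⨅ j, G.F q (A j)) = (⨅ j, G.F q (A j)) ⊓ ⨆ q', ⨆ k, G.le q' q ⊓ G.F q' (g k) := by
        rw [hdec, inf_top_eq]
    _ ≤ _ := by
        rw [inf_iSup_eq]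
        refine iSup_le fun q' => ?_
        rw [inf_iSup_eq]
        refine iSup_le fun k => ?_
        rcases k with _ | j
        · have h1 : (⨅ j, G.F q (A j)) ⊓ (G.le q' q ⊓ G.F q' (g none)) ≤
              G.F q' (g none) := inf_le_right.trans inf_le_right
          have h2 : G.F q' (g none) ≤ G.F q' (fun a => g none a ⊓ tv (β ≤ a)) := by
            calc G.F q' (g none) = G.F q' (g none) ⊓ G.F q' (fun a => tv (β ≤ a)) := by
                  rw [G.F_cone, inf_top_eq]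
              _ ≤ _ := G.F_inf q' _ _
          refine h1.trans (h2.trans ((G.F_ne q' _).trans (iSup_mono fun a => ?_)))
          exact le_inf inf_le_right inf_le_left
        · have h1 : (⨅ j, G.F q (A j)) ⊓ (G.le q' q ⊓ G.F q' (g (some j))) ≤ G.F q' (A j) :=
            (le_inf (inf_le_right.trans inf_le_left) (inf_le_left.trans (iInf_le _ j))).trans
              (G.F_le q q' (A j))
          have h2 := (le_inf h1 (inf_le_right.trans inf_le_right)).trans
            (G.F_inf q' (A j) (g (some j)))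
          refine h2.trans ((G.F_ne q' _).trans (iSup_le fun a => ?_))
          have h3 : A j a ⊓ g (some j) a = ⊥ := inf_compl_self _
          rw [h3]
          exact bot_le

/-- the set `{a ≥ β}` can be added -/
theorem BUF.F_inf_cone (q : G.Q) (A : I → B) (β : I) :
    G.F q A ≤ G.F q (fun a => A a ⊓ tv (β ≤ a)) := by
  calc G.F q A = G.F q A ⊓ G.F q (fun a => tv (β ≤ a)) := by rw [G.F_cone, inf_top_eq]
    _ ≤ _ := G.F_inf q _ _

end BT
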