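import Pool.Agent.Helper18.BT.A01
import Pool.Agent.Helper18.BT.A02
import Pool.Agent.Helper18.BT.A03

/-!
# BT-A04: the positive sets of a generic ultrafilter form a `PosSys`

PROOF.  `G.pos T d q₀ α A = ⨆ q, G.le q q₀ ⊓ G.F q (T.hit d α A)`.
* `mono`: `F_mono` and `hit_mono`.  * `img`: `F_mono'` and `hit_img`.
* `pre`: `F_inf_cone q _ β`, then `F_mono'` and `hit_pre`.
* `supr`: `hit_iSup` and `decSub` (with `A = hit (⨆ A k)`, `g k = hit (A k)`), `le_trans`.
* `ne`: `F_ne` and `hit_le`.
* `posSys_top`: if `d` is total then `F q₀ (hit ⊤) ≥ F q₀ (cone α) = ⊤` by `hit_top`; `q = q₀`.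
-/

open Cardinal

namespace BT

variable {B : Type} [CompleteBooleanAlgebra B] {I : Type} [Preorder I] {τ : Cardinal.{0}}
  (G : BUF B I τ) {N : Type} (T : BSys B I N)

/-- the positive sets of points with respect to a generic ultrafilter -/
def BUF.posSys {d : I → N → B} (hd : IsFunc d) (q₀ : G.Q) : PosSys T τ where
  pos := G.pos T d q₀
  mono := by
    intro α c A A' h
    unfold BUF.pos
    rw [inf_iSup_eq]
    refine iSup_mono fun q => ?_
    refine le_inf (inf_le_right.trans inf_le_left) ?_
    refine _root_.le_trans (inf_le_inf_left c inf_le_right) ?_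
    exact G.F_mono q c _ _ (fun a => T.hit_mono d α a h)
  img := by
    intro α β h A
    unfold BUF.pos
    refine iSup_mono fun q => inf_le_inf_left _ ?_
    exact G.F_mono' q (fun a => T.hit_img d h A a)
  pre := by
    intro α β h A
    unfold BUF.pos
    refine iSup_mono fun q => inf_le_inf_left _ ?_
    exact (G.F_inf_cone q _ β).trans (G.F_mono' q (fun a => T.hit_pre d h A a))
  supr := by
    intro α K A hK
    unfold BUF.pos
    refine iSup_le fun q => ?_
    have h1 : G.F q (T.hit d α (fun x => ⨆ k, A k x)) ≤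
        ⨆ q', ⨆ k, G.le q' q ⊓ G.F q' (T.hit d α (A k)) := by
      apply G.decSub _ (fun k => T.hit d α (A k)) hK
      intro a
      exact (T.hit_iSup d α A a).le
    refine (inf_le_inf_left _ h1).trans ?_
    rw [inf_iSup_eq]
    refine iSup_le fun q' => ?_
    rw [inf_iSup_eq]
    refine iSup_le fun k => ?_
    refine _root_.le_trans ?_ (le_iSup _ k)
    refine _root_.le_trans ?_ (le_iSup _ q')
    refine le_inf ?_ (inf_le_right.trans inf_le_right)
    exact (le_inf (inf_le_right.trans inf_le_left) inf_le_left).trans (G.le_trans q' q q₀)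
  ne := by
    intro α A
    unfold BUF.pos
    refine iSup_le fun q => ?_
    refine inf_le_right.trans ((G.F_ne q _).trans ?_)
    exact iSup_le fun a => T.hit_le d α A a

theorem BUF.posSys_top {d : I → N → B} (hd : ∀ a, ⨆ y, d a y = ⊤) (q₀ : G.Q) (α : I) :
    G.pos T d q₀ α (fun _ => ⊤) = ⊤ := by
  rw [eq_top_iff]
  unfold BUF.pos
  refine _root_.le_trans ?_ (le_iSup _ q₀)
  refine le_inf (G.le_refl q₀).ge ?_
  exact (G.F_cone q₀ α).ge.trans (G.F_mono' q₀ (fun a => T.hit_top hd α a))

end BT
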