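import Pool.Agent.Helper18.BT.A02
import Pool.Agent.Helper18.BT.A03

/-!
# BT-A05: saturation of the positive sets

If `b` is disjoint from the truth value `G.SP T d M q₀` of splitting then, below `b`, there is no
`M`-indexed family of pairwise disjoint positive sets on one level.

PROOF.  Let `b = (⨅ ζ, G.pos T d q₀ α (A ζ)) ⊓ dj A`.  For every `ζ`: `b ≤ G.pos T d q₀ α (A ζ) =
⨆ q, G.le q q₀ ⊓ G.F q (hit α (A ζ))`; by fullness (`Mix.full` for `G.mixQ hmix`; `hext`: if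
`c ≤ le q q' ⊓ le q' q` then `c ⊓ le q' q₀ ⊓ F q' X ≤ le q q₀ ⊓ F q X` by `le_trans`, `F_le`)
there is `c ζ` with `b ≤ G.le (c ζ) q₀ ⊓ G.F (c ζ) (T.hit d α (A ζ))`.  Take
`p = (c, fun ζ γ x => tv (γ = α) ⊓ A ζ x)` in the join defining `SP`:
first two factors clear (`T.hit d α (A ζ) a ≤ ⨆ γ, T.hit d γ (fun x => tv (γ = α) ⊓ A ζ x) a`, take
`γ = α`, `hit_mono`), third: `tv (γ = α) ⊓ A ζ x ⊓ (tv (γ' = α) ⊓ A ζ' x')` is `⊥` if `γ ≠ α` or
`γ' ≠ α`; if `γ = γ' = α` then the hypothesis `¬ (γ = γ' ∧ x ≠ x')` gives `x = x'` and `dj A` is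
below the complement of `A ζ x ⊓ A ζ' x`.  Fourth: `β = α`.
-/

open Cardinal

namespace BT

variable {B : Type} [CompleteBooleanAlgebra B] {I : Type} [Preorder I] {τ : Cardinal.{0}}
  (G : BUF B I τ) {N : Type} (T : BSys B I N)

theorem BUF.pos_dj_le_SP (hmix : G.Mixing) (d : I → N → B) (q₀ : G.Q) {M : Type} (α : I)
    (A : M → N → B) : (⨅ ζ, G.pos T d q₀ α (A ζ)) ⊓ dj A ≤ G.SP T d M q₀ := by
  have h1 : ∀ ζ, ∃ q : G.Q, (⨅ ζ, G.pos T d q₀ α (A ζ)) ⊓ dj A ≤
      G.le q q₀ ⊓ G.F q (T.hit d α (A ζ)) := by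
    intro ζ
    refine (G.mixQ hmix).full (fun q => G.le q q₀ ⊓ G.F q (T.hit d α (A ζ))) ?_ ?_
    · intro c x y hxy
      have hxy' : c ≤ G.le x y ⊓ G.le y x := hxy
      refine le_inf ?_ ?_
      · refine _root_.le_trans ?_ (G.le_trans x y q₀)
        exact le_inf (inf_le_left.trans (hxy'.trans inf_le_left)) (inf_le_right.trans inf_le_left)
      · refine _root_.le_trans ?_ (G.F_le y x (T.hit d α (A ζ)))
        exact le_inf (inf_le_left.trans (hxy'.trans inf_le_left)) (inf_le_right.trans inf_le_right)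
    · exact inf_le_left.trans (iInf_le _ ζ)
  choose c hc using h1
  have hdj : ∀ ζ ζ', ζ ≠ ζ' → ∀ x, dj A ≤ (A ζ x ⊓ A ζ' x)ᶜ := fun ζ ζ' h x =>
    (iInf_le _ ζ).trans ((iInf_le _ ζ').trans ((iInf_le _ h).trans (iInf_le _ x)))
  unfold BUF.SP
  refine le_iSup_of_le (c, fun ζ γ x => tv (γ = α) ⊓ A ζ x) ?_
  refine le_inf (le_inf (le_inf ?_ ?_) ?_) ?_
  · exact le_iInf fun ζ => (hc ζ).trans inf_le_left
  · refine le_iInf fun ζ => ((hc ζ).trans inf_le_right).trans ?_
    refine G.F_mono' _ fun a => le_iSup_of_le α ?_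
    have h2 := T.hit_mono d α (c := ⊤) (A := A ζ) (A' := fun x => tv (α = α) ⊓ A ζ x) a
      (fun x => by rw [tv_true rfl])
    rwa [top_inf_eq] at h2
  · refine le_iInf fun ζ => le_iInf fun ζ' => le_iInf fun hne => le_iInf fun γ => le_iInf fun x =>
      le_iInf fun γ' => le_iInf fun x' => le_iInf fun hnot => ?_
    by_cases hγ : γ = α
    · by_cases hγ' : γ' = α
      · have hx : x = x' := by
          by_contra hx
          exact hnot ⟨hγ.trans hγ'.symm, hx⟩
        subst hx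
        simp only [tv_true hγ, tv_true hγ', top_inf_eq]
        exact inf_le_right.trans (hdj ζ ζ' hne x)
      · simp only [tv_false hγ', bot_inf_eq, inf_bot_eq, compl_bot]
        exact le_top
    · simp only [tv_false hγ, bot_inf_eq, compl_bot]
      exact le_top
  · refine le_iSup_of_le α ?_
    refine le_iInf fun ζ => le_iInf fun γ => le_iInf fun hnot => le_iInf fun x => ?_
    have hγ : ¬ γ = α := fun h => hnot h.le
    simp only [tv_false hγ, bot_inf_eq, compl_bot]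
    exact le_top

end BT
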