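import Pool.Agent.Helper18.BT.A02
import Pool.Agent.Helper18.BT.A03

/-!
# BT-A06: choosing the witnesses of splitting by fullness

PROOF.  `G.SP T d M q = ⨆ p, Φ p` with `p ∈ (M → G.Q) × (M → I → N → B)` and `Φ p` the meet of four
truth values.  Apply `Mix.full` to the `Mix` of `(M → G.Q) × (M → I → N → B)` built from
`Mix.prod (Mix.pi fun _ => G.mixQ hmix) (Mix.pi fun _ => Mix.pi fun _ => Mix.sub B N)`.
`hext`: if `c` forces that `(p, p')` agree then `c ⊓ Φ p' ≤ Φ p`, factor by factor: `le_trans`;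
`F_le` and `F_mono` with `hit_mono` (`c ⊓ A' ζ α x ≤ A ζ α x`); for the last two factors
`c ⊓ A ζ α x = c ⊓ A' ζ α x` gives `c ⊓ (A' ζ α x)ᶜ ≤ (A ζ α x)ᶜ` etc.  The result is read off.
-/

open Cardinal

namespace BT

variable {B : Type} [CompleteBooleanAlgebra B] {I : Type} [Preorder I] {τ : Cardinal.{0}}
  (G : BUF B I τ) {N : Type} (T : BSys B I N)

private theorem inf_compl_le_aux {c X Y : B} (h : c ⊓ X ≤ Y) : c ⊓ Yᶜ ≤ Xᶜ := by
  apply le_compl_of_inf_eq_bot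
  rw [← le_bot_iff]
  calc c ⊓ Yᶜ ⊓ X ≤ Y ⊓ Yᶜ :=
        le_inf ((le_inf (inf_le_left.trans inf_le_left) inf_le_right).trans h)
          (inf_le_left.trans inf_le_right)
    _ = ⊥ := inf_compl_self _

theorem BUF.exists_of_le_SP (hmix : G.Mixing) (d : I → N → B) (M : Type) (q₀ : G.Q) {b : B}
    (hb : b ≤ G.SP T d M q₀) :
    ∃ (c : M → G.Q) (A : M → I → N → B), (∀ ζ, b ≤ G.le (c ζ) q₀) ∧
      (∀ ζ, b ≤ G.F (c ζ) (fun a => ⨆ α, T.hit d α (A ζ α) a)) ∧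
      (∀ ζ ζ', ζ ≠ ζ' → ∀ α x α' x', ¬ (α = α' ∧ x ≠ x') → b ⊓ A ζ α x ⊓ A ζ' α' x' = ⊥) ∧
      b ≤ ⨆ β, ⨅ ζ, ⨅ α, ⨅ _ : ¬ α ≤ β, ⨅ x, (A ζ α x)ᶜ := by
  let MX : Mix B ((M → G.Q) × (M → I → N → B)) :=
    Mix.prod (Mix.pi fun _ : M => G.mixQ hmix)
      (Mix.pi fun _ : M => Mix.pi fun _ : I => Mix.sub B N)
  have hfull := MX.full (b := b) (fun p : (M → G.Q) × (M → I → N → B) =>
    (⨅ ζ, G.le (p.1 ζ) q₀) ⊓ (⨅ ζ, G.F (p.1 ζ) (fun a => ⨆ α, T.hit d α (p.2 ζ α) a)) ⊓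
    (⨅ ζ, ⨅ ζ', ⨅ _ : ζ ≠ ζ', ⨅ α, ⨅ x, ⨅ α', ⨅ x', ⨅ _ : ¬ (α = α' ∧ x ≠ x'),
      (p.2 ζ α x ⊓ p.2 ζ' α' x')ᶜ) ⊓
    (⨆ β, ⨅ ζ, ⨅ α, ⨅ _ : ¬ α ≤ β, ⨅ x, (p.2 ζ α x)ᶜ)) ?_ hb
  · obtain ⟨p, hp⟩ := hfull
    refine ⟨p.1, p.2, ?_, ?_, ?_, ?_⟩
    · intro ζ
      exact hp.trans (inf_le_left.trans (inf_le_left.trans (inf_le_left.trans (iInf_le _ ζ))))
    · intro ζ
      exact hp.trans (inf_le_left.trans (inf_le_left.trans (inf_le_right.trans (iInf_le _ ζ))))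
    · intro ζ ζ' hζ α x α' x' hne
      have h1 : b ≤ (p.2 ζ α x ⊓ p.2 ζ' α' x')ᶜ := by
        refine hp.trans (inf_le_left.trans (inf_le_right.trans ?_))
        refine (iInf_le _ ζ).trans ((iInf_le _ ζ').trans ((iInf_le _ hζ).trans ?_))
        refine (iInf_le _ α).trans ((iInf_le _ x).trans ((iInf_le _ α').trans ?_))
        exact (iInf_le _ x').trans (iInf_le _ hne)
      rw [inf_assoc]
      exact inf_eq_bot_of_le_compl h1
    · exact hp.trans inf_le_right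
  · intro c p p' hag
    have hag1 : ∀ ζ, c ≤ G.le (p.1 ζ) (p'.1 ζ) ⊓ G.le (p'.1 ζ) (p.1 ζ) := hag.1
    have hag2 : ∀ ζ α y, c ⊓ p.2 ζ α y = c ⊓ p'.2 ζ α y := hag.2
    refine le_inf (le_inf (le_inf ?_ ?_) ?_) ?_
    · refine le_iInf fun ζ => ?_
      refine _root_.le_trans ?_ (G.le_trans (p.1 ζ) (p'.1 ζ) q₀)
      refine le_inf (inf_le_left.trans ((hag1 ζ).trans inf_le_left)) ?_
      exact inf_le_right.trans (inf_le_left.trans (inf_le_left.trans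
        (inf_le_left.trans (iInf_le _ ζ))))
    · refine le_iInf fun ζ => ?_
      have h1 : c ⊓ G.F (p'.1 ζ) (fun a => ⨆ α, T.hit d α (p'.2 ζ α) a) ≤
          G.F (p.1 ζ) (fun a => ⨆ α, T.hit d α (p'.2 ζ α) a) :=
        _root_.le_trans (inf_le_inf_right _ ((hag1 ζ).trans inf_le_left)) (G.F_le _ _ _)
      have h2 : c ⊓ G.F (p.1 ζ) (fun a => ⨆ α, T.hit d α (p'.2 ζ α) a) ≤
          G.F (p.1 ζ) (fun a => ⨆ α, T.hit d α (p.2 ζ α) a) := by
        apply G.F_mono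
        intro a
        rw [inf_iSup_eq]
        refine iSup_mono fun α => ?_
        apply T.hit_mono
        intro x
        rw [← hag2]
        exact inf_le_right
      calc _ ≤ c ⊓ (c ⊓ G.F (p'.1 ζ) (fun a => ⨆ α, T.hit d α (p'.2 ζ α) a)) := by
            refine le_inf inf_le_left (le_inf inf_le_left ?_)
            exact inf_le_right.trans (inf_le_left.trans (inf_le_left.trans
              (inf_le_right.trans (iInf_le _ ζ))))
        _ ≤ c ⊓ G.F (p.1 ζ) (fun a => ⨆ α, T.hit d α (p'.2 ζ α) a) := inf_le_inf_left _ h1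
        _ ≤ _ := h2
    · refine le_iInf fun ζ => le_iInf fun ζ' => le_iInf fun hζ => le_iInf fun α =>
        le_iInf fun x => le_iInf fun α' => le_iInf fun x' => le_iInf fun hne => ?_
      have h1 : c ⊓ (p.2 ζ α x ⊓ p.2 ζ' α' x') ≤ p'.2 ζ α x ⊓ p'.2 ζ' α' x' := by
        refine le_inf ?_ ?_
        · calc c ⊓ (p.2 ζ α x ⊓ p.2 ζ' α' x') ≤ c ⊓ p.2 ζ α x :=
                inf_le_inf_left _ inf_le_left
            _ = c ⊓ p'.2 ζ α x := hag2 ζ α x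
            _ ≤ _ := inf_le_right
        · calc c ⊓ (p.2 ζ α x ⊓ p.2 ζ' α' x') ≤ c ⊓ p.2 ζ' α' x' :=
                inf_le_inf_left _ inf_le_right
            _ = c ⊓ p'.2 ζ' α' x' := hag2 ζ' α' x'
            _ ≤ _ := inf_le_right
      refine _root_.le_trans (inf_le_inf_left _ ?_) (inf_compl_le_aux h1)
      refine inf_le_left.trans (inf_le_right.trans ?_)
      refine (iInf_le _ ζ).trans ((iInf_le _ ζ').trans ((iInf_le _ hζ).trans ?_))
      refine (iInf_le _ α).trans ((iInf_le _ x).trans ((iInf_le _ α').trans ?_))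
      exact (iInf_le _ x').trans (iInf_le _ hne)
    · refine (inf_le_inf_left _ inf_le_right).trans ?_
      rw [inf_iSup_eq]
      refine iSup_mono fun β => ?_
      refine le_iInf fun ζ => le_iInf fun α => le_iInf fun hα => le_iInf fun x => ?_
      have h1 : c ⊓ p.2 ζ α x ≤ p'.2 ζ α x := by
        rw [hag2]
        exact inf_le_right
      refine _root_.le_trans (inf_le_inf_left _ ?_) (inf_compl_le_aux h1)
      exact (iInf_le _ ζ).trans ((iInf_le _ α).trans ((iInf_le _ hα).trans (iInf_le _ x)))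

end BT
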