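import Pool.Agent.Helper18.TP.Split
import Pool.Agent.Helper18.BT.A02
import Pool.Agent.Helper18.BT.A03

/-!
# BT-A07: the splitting lemma

A closed forcing cannot split along all branches of `∏ M i`: this would give more than `ν` points
on one level.  PROOF (Boolean valued version of `Pool.Agent.Helper18.TP.split`; look at that file).

Suppose the conclusion fails.  Then for all `q₀`, `i`: `b ⊓ G.le q₀ q₁ ≤ G.SP T d (M i) q₀` (else
`c := b ⊓ G.le q₀ q₁ ⊓ (G.SP T d (M i) q₀)ᶜ ≠ ⊥` works).  Let `P := {q : G.Q // b ≤ G.le q q₁}` with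
the preorder `q ≤ q' := b ≤ G.le q q'` (make it a local `Preorder` instance: `le_refl`, `le_trans`).
By `hSP` (the hypothesis which is lemma A06) choose for `q : P`, `i` functions
`cc q i : M i → P` and `A q i : M i → I → N → B` with, for `b`, the four properties.
Use `Pool.Agent.Helper18.TP.qf cc f : Θ → P`, `qf_congr`, `exists_qlim` (closure: for a decreasing
sequence in `P` indexed by `J`, `#J ≤ #Θ ≤ θ`, use `hcl`; for empty `J` take `q₁`; a lower bound is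
in `P` by `le_trans`).
For `k = (i, s)` in `K := Σ i : Θ, ∀ j : {j // j < i}, M j.1` let `f_k` be an extension of `s` to
`∀ i, M i` and `φ k β := ⨅ ζ, ⨅ α, ⨅ _ : ¬ α ≤ β, ⨅ x, (A (qf cc f_k i) i ζ α x)ᶜ`; it is monotone in
`β` and `b ≤ ⨆ β, φ k β`.  By `Cov` get `c ≤ b`, `c ≠ ⊥`, `β` with `c ≤ φ k β` for all `k`; by
`qf_congr` (as in `TP.split`) for all `f`, `i`: (1) `c ≤ (A (qf cc f i) i ζ α x)ᶜ` if `¬ α ≤ β`.
For `f : ∀ i, M i` let `q_f` be a lower bound of the `cc (qf cc f i) i (f i)`; then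
`b ≤ G.F q_f (fun a => ⨆ α, T.hit d α (A (qf cc f i) i (f i) α) a)` for all `i` (`F_le`).  By
`interNe` (`J = Θ`): `b ≤ ⨆ a, tv (β ≤ a) ⊓ ⨅ i, ⨆ α, T.hit d α (A (qf cc f i) i (f i) α) a`.
Put `ψ f z := c ⊓ ⨅ i, ⨆ α, tv (α ≤ β) ⊓ ⨆ x, A (qf cc f i) i (f i) α x ⊓ T.P α β x z`.
(2) `c ≤ ⨆ z, ψ f z`: fix `a ≥ β` and let `t i v := ⨆ α, ⨆ x, tv (α ≤ a) ⊓ A_i α x ⊓ T.P α a x v`, so
`⨆ α, T.hit d α (A_i α) a = ⨆ v, d a v ⊓ t i v`.  As `d` is a partial function and `Θ` is nonempty,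
`⨅ i, ⨆ v, d a v ⊓ t i v ≤ ⨆ v, d a v ⊓ ⨅ i, t i v`.  For fixed `v`: `⊤ = ⨆ z, T.P β a z v` and
`c ⊓ T.P β a z v ⊓ ⨅ i, t i v ≤ ψ f z`, because terms with `¬ α ≤ β` vanish below `c` by (1), and for
`α ≤ β`: `T.P α a x v ⊓ T.P β a z v ≤ T.P α β x z` (`BSys.tri` of A01, or reprove).
(3) `f ≠ g → ψ f z ⊓ ψ g z = ⊥`: let `i` be minimal with `f i ≠ g i`; `qf cc f i = qf cc g i =: q`
(`qf_congr`); `ψ f z ⊓ ψ g z ≤ ⨆ … A q i (f i) α x ⊓ T.P α β x z ⊓ A q i (g i) α' x' ⊓ T.P α' β x' z`,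
which is `⊥`: if `¬ (α = α' ∧ x ≠ x')` by the third property, and otherwise by `func`.
So `fun z f => ψ f z` is a name for a partial function from `N` onto `∀ i, M i` with value `≥ c` for
onto: contradiction with `hns` and `c ≠ ⊥`.
-/

open Cardinal

namespace BT

variable {B : Type} [CompleteBooleanAlgebra B] {I : Type} [Preorder I] {τ : Cardinal.{0}}
  (G : BUF B I τ) {N : Type} (T : BSys B I N)

/-- the conditions forced by `b` to be below `q₁` -/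
def BUF.Below (b : B) (q₁ : G.Q) : Type := {q : G.Q // b ≤ G.le q q₁}

instance BUF.belowPreorder (b : B) (q₁ : G.Q) : Preorder (G.Below b q₁) where
  le q q' := b ≤ G.le q.1 q'.1
  le_refl q := by rw [G.le_refl]; exact le_top
  le_trans p q r h1 h2 := (le_inf h1 h2).trans (G.le_trans _ _ _)

theorem BUF.below_le_iff {b : B} {q₁ : G.Q} (q q' : G.Below b q₁) :
    q ≤ q' ↔ b ≤ G.le q.1 q'.1 := Iff.rfl

instance BUF.belowNonempty (b : B) (q₁ : G.Q) : Nonempty (G.Below b q₁) :=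
  ⟨⟨q₁, by rw [G.le_refl]; exact le_top⟩⟩

theorem BSys.tri_auxA07 {α β γ : I} (h1 : α ≤ β) (h2 : β ≤ γ) (x y z : N) :
    T.P α γ x z ⊓ T.P β γ y z ≤ T.P α β x y := by
  have h : T.P α γ x z ⊓ T.P β γ y z = T.P α γ x z ⊓ T.P β γ y z ⊓ ⨆ x', T.P α β x' y := by
    rw [T.total h1, inf_top_eq]
  rw [h, inf_iSup_eq]
  refine iSup_le (fun x' => ?_)
  by_cases hx : x = x'
  · subst hx; exact inf_le_right
  · have h3 : T.P α γ x z ⊓ T.P β γ y z ⊓ T.P α β x' y ≤ T.P α γ x z ⊓ T.P α γ x' z := by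
      refine le_inf (inf_le_left.trans inf_le_left) ?_
      exact (le_inf inf_le_right (inf_le_left.trans inf_le_right)).trans (T.trans h1 h2 x' y z)
    rw [T.func (h1.trans h2) x x' z hx] at h3
    exact h3.trans bot_le

/-- the name for the projections to level `β` of the points of `A` -/
def BSys.low (β : I) (A : I → N → B) (z : N) : B :=
  ⨆ α, tv (α ≤ β) ⊓ ⨆ x, A α x ⊓ T.P α β x z

/-- two point sets consisting of different points of the same level project to disjoint sets -/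
theorem BSys.low_disj (β : I) {c : B} {A A' : I → N → B}
    (h : ∀ α x α' x', ¬ (α = α' ∧ x ≠ x') → c ⊓ A α x ⊓ A' α' x' = ⊥) (z : N) :
    c ⊓ T.low β A z ⊓ T.low β A' z = ⊥ := by
  rw [← le_bot_iff]
  unfold BSys.low
  rw [inf_iSup_eq]
  refine iSup_le (fun α' => ?_)
  rw [inf_iSup_eq, iSup_inf_eq]
  refine iSup_le (fun α => ?_)
  by_cases h1 : α ≤ β
  swap
  · rw [tv_false h1]; simp
  by_cases h2 : α' ≤ β
  swap
  · rw [tv_false h2]; simp
  rw [tv_true h1, tv_true h2, top_inf_eq, top_inf_eq, inf_iSup_eq]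
  refine iSup_le (fun x' => ?_)
  rw [inf_iSup_eq, iSup_inf_eq]
  refine iSup_le (fun x => ?_)
  by_cases h3 : α = α' ∧ x ≠ x'
  · obtain ⟨h4, h5⟩ := h3
    subst h4
    have h6 := T.func h1 x x' z h5
    rw [← h6]
    refine le_inf (inf_le_left.trans (inf_le_right.trans inf_le_right))
      (inf_le_right.trans inf_le_right)
  · rw [← h α x α' x' h3]
    refine le_inf (le_inf (inf_le_left.trans inf_le_left)
      (inf_le_left.trans (inf_le_right.trans inf_le_left))) (inf_le_right.trans inf_le_left)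

/-- the projections to level `β` of a point in all the sets `A i` -/
theorem BSys.le_low {d : I → N → B} (hd : IsFunc d) {Θ : Type} [Nonempty Θ] (β a : I)
    (hβ : β ≤ a) {c : B} (A : Θ → I → N → B)
    (h : ∀ i α, ¬ α ≤ β → ∀ x, c ≤ (A i α x)ᶜ) :
    c ⊓ (⨅ i, ⨆ α, T.hit d α (A i α) a) ≤ ⨆ z, c ⊓ ⨅ i, T.low β (A i) z := by
  obtain ⟨i₀⟩ := (inferInstance : Nonempty Θ)
  -- step 1: below a value `v` of `d a`
  have key : ∀ v i, d a v ⊓ (⨆ α, T.hit d α (A i α) a) ≤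
      ⨆ α, ⨆ x, A i α x ⊓ tv (α ≤ a) ⊓ T.P α a x v := by
    intro v i
    rw [inf_iSup_eq]
    refine iSup_le (fun α => ?_)
    unfold BSys.hit
    rw [inf_iSup_eq, inf_iSup_eq]
    refine iSup_le (fun x => ?_)
    rw [inf_iSup_eq, inf_iSup_eq]
    refine iSup_le (fun v' => ?_)
    by_cases hv : v = v'
    · subst hv
      refine le_iSup_of_le α (le_iSup_of_le x ?_)
      refine le_inf (le_inf ?_ ?_) ?_
      · exact inf_le_right.trans (inf_le_right.trans (inf_le_left.trans inf_le_left))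
      · exact inf_le_right.trans inf_le_left
      · exact inf_le_right.trans (inf_le_right.trans (inf_le_left.trans inf_le_right))
    · have h1 : d a v ⊓ (tv (α ≤ a) ⊓ (A i α x ⊓ T.P α a x v' ⊓ d a v')) ≤ d a v ⊓ d a v' :=
        le_inf inf_le_left (inf_le_right.trans (inf_le_right.trans inf_le_right))
      rw [hd a v v' hv] at h1
      exact h1.trans bot_le
  -- step 2: some value
  have h2 : (⨅ i, ⨆ α, T.hit d α (A i α) a) ≤ ⨆ v, d a v := by
    refine (iInf_le _ i₀).trans (iSup_le (fun α => ?_))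
    unfold BSys.hit
    refine inf_le_right.trans (iSup_le (fun x => iSup_le (fun y => ?_)))
    exact inf_le_right.trans (le_iSup (d a) y)
  have h3 : c ⊓ (⨅ i, ⨆ α, T.hit d α (A i α) a) =
      c ⊓ (⨅ i, ⨆ α, T.hit d α (A i α) a) ⊓ ⨆ v, d a v :=
    (inf_eq_left.mpr (inf_le_right.trans h2)).symm
  rw [h3, inf_iSup_eq]
  refine iSup_le (fun v => ?_)
  -- step 3: fix the projection `z`
  have h4 : c ⊓ (⨅ i, ⨆ α, T.hit d α (A i α) a) ⊓ d a v =
      c ⊓ (⨅ i, ⨆ α, T.hit d α (A i α) a) ⊓ d a v ⊓ ⨆ z, T.P β a z v := by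
    rw [T.total hβ, inf_top_eq]
  rw [h4, inf_iSup_eq]
  refine iSup_le (fun z => le_iSup_of_le z ?_)
  refine le_inf (inf_le_left.trans (inf_le_left.trans inf_le_left)) (le_iInf (fun i => ?_))
  have h5 : c ⊓ (⨅ i, ⨆ α, T.hit d α (A i α) a) ⊓ d a v ⊓ T.P β a z v ≤
      c ⊓ T.P β a z v ⊓ ⨆ α, ⨆ x, A i α x ⊓ tv (α ≤ a) ⊓ T.P α a x v := by
    refine le_inf (le_inf (inf_le_left.trans (inf_le_left.trans inf_le_left)) inf_le_right) ?_
    refine (le_inf (inf_le_left.trans inf_le_right) ?_).trans (key v i)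
    exact inf_le_left.trans (inf_le_left.trans (inf_le_right.trans (iInf_le _ i)))
  refine h5.trans ?_
  rw [inf_iSup_eq]
  refine iSup_le (fun α => ?_)
  rw [inf_iSup_eq]
  refine iSup_le (fun x => ?_)
  by_cases hα : α ≤ β
  · unfold BSys.low
    refine le_iSup_of_le α ?_
    rw [tv_true hα, top_inf_eq]
    refine le_iSup_of_le x ?_
    refine le_inf (inf_le_right.trans (inf_le_left.trans inf_le_left)) ?_
    refine le_trans (le_inf (inf_le_right.trans inf_le_right) (inf_le_left.trans inf_le_right))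
      (T.tri_auxA07 hα hβ x z v)
  · have h6 : c ⊓ T.P β a z v ⊓ (A i α x ⊓ tv (α ≤ a) ⊓ T.P α a x v) ≤
        (A i α x)ᶜ ⊓ A i α x :=
      le_inf ((inf_le_left.trans inf_le_left).trans (h i α hα x))
        (inf_le_right.trans (inf_le_left.trans inf_le_left))
    rw [compl_inf_self] at h6
    exact h6.trans bot_le

theorem BUF.split {θ ν : Cardinal.{0}} (hmix : G.Mixing) (hcl : G.Closed θ) (hcov : Cov B I ν)
    {d : I → N → B} (hd : IsFunc d)
    (hSP : ∀ (M : Type) (q₀ : G.Q) (b : B), b ≤ G.SP T d M q₀ →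
      ∃ (c : M → G.Q) (A : M → I → N → B), (∀ ζ, b ≤ G.le (c ζ) q₀) ∧
      (∀ ζ, b ≤ G.F (c ζ) (fun a => ⨆ α, T.hit d α (A ζ α) a)) ∧
      (∀ ζ ζ', ζ ≠ ζ' → ∀ α x α' x', ¬ (α = α' ∧ x ≠ x') → b ⊓ A ζ α x ⊓ A ζ' α' x' = ⊥) ∧
      b ≤ ⨆ β, ⨅ ζ, ⨅ α, ⨅ _ : ¬ α ≤ β, ⨅ x, (A ζ α x)ᶜ)
    {Θ : Type} [LinearOrder Θ] [WellFoundedLT Θ] [Nonempty Θ] (hΘ : #Θ ≤ θ)
    (hΘτ : #(Option Θ) ≤ τ)
    (M : Θ → Type) [∀ i, Nonempty (M i)]
    (hsum : #(Σ i : Θ, ∀ j : {j : Θ // j < i}, M j.1) ≤ ν)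
    (hns : NoSurj B N (∀ i, M i)) {b : B} (hb : b ≠ ⊥) (q₁ : G.Q) :
    ∃ c ≤ b, c ≠ ⊥ ∧ ∃ q₀ i, c ≤ G.le q₀ q₁ ∧ c ⊓ G.SP T d (M i) q₀ = ⊥ := by
  classical
  by_contra hcon
  push Not at hcon
  -- everything splits below `q₁`
  have hSP' : ∀ (q : G.Below b q₁) (i : Θ), b ≤ G.SP T d (M i) q.1 := by
    intro q i
    by_contra h
    have h1 := inf_compl_ne_bot h
    exact hcon _ inf_le_left h1 q.1 i (inf_le_left.trans q.2)
      (by rw [inf_assoc, compl_inf_self, inf_bot_eq])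
  have H : ∀ (q : G.Below b q₁) (i : Θ), ∃ (c : M i → G.Below b q₁) (A : M i → I → N → B),
      (∀ ζ, c ζ ≤ q) ∧
      (∀ ζ, b ≤ G.F (c ζ).1 (fun a => ⨆ α, T.hit d α (A ζ α) a)) ∧
      (∀ ζ ζ', ζ ≠ ζ' → ∀ α x α' x', ¬ (α = α' ∧ x ≠ x') → b ⊓ A ζ α x ⊓ A ζ' α' x' = ⊥) ∧
      b ≤ ⨆ β, ⨅ ζ, ⨅ α, ⨅ _ : ¬ α ≤ β, ⨅ x, (A ζ α x)ᶜ := by
    intro q i
    obtain ⟨c, A, h1, h2, h3, h4⟩ := hSP (M i) q.1 b (hSP' q i)
    exact ⟨fun ζ => ⟨c ζ, (le_inf (h1 ζ) q.2).trans (G.le_trans _ _ _)⟩, A, h1, h2, h3, h4⟩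
  choose cc A hc hA hdis hbd using H
  have hcl' : ∀ (J : Type) [LinearOrder J] [WellFoundedLT J], #J ≤ #Θ →
      ∀ s : J → G.Below b q₁, Antitone s → ∃ q, ∀ j, q ≤ s j := by
    intro J _ _ hJ s hs
    rcases isEmpty_or_nonempty J with hE | ⟨⟨j0⟩⟩
    · exact ⟨⟨q₁, by rw [G.le_refl]; exact le_top⟩, fun j => (hE.false j).elim⟩
    · obtain ⟨q, hq⟩ := hcl J (hJ.trans hΘ) b (fun j => (s j).1) (fun i j h => hs h)
      exact ⟨⟨q, (le_inf (hq j0) (s j0).2).trans (G.le_trans _ _ _)⟩, hq⟩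
  -- a common upper bound for all levels
  let ext : (Σ i : Θ, ∀ j : {j : Θ // j < i}, M j.1) → ∀ i, M i := fun p j =>
    if h : j < p.1 then p.2 ⟨j, h⟩ else Classical.arbitrary _
  let φ : (Σ i : Θ, ∀ j : {j : Θ // j < i}, M j.1) → I → B := fun k β =>
    ⨅ ζ, ⨅ α, ⨅ _ : ¬ α ≤ β, ⨅ x, (A (Pool.Agent.Helper18.TP.qf cc (ext k) k.1) k.1 ζ α x)ᶜ
  have hφmono : ∀ k α β, α ≤ β → φ k α ≤ φ k β := by
    intro k β β' hβ
    refine le_iInf (fun ζ => le_iInf (fun α => le_iInf (fun hα => le_iInf (fun x => ?_))))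
    exact (iInf_le _ ζ).trans ((iInf_le _ α).trans
      ((iInf_le _ (fun h => hα (h.trans hβ))).trans (iInf_le _ x)))
  obtain ⟨c, hcb, hc0, β, hβ⟩ := hcov _ hsum φ hφmono b hb (fun k => hbd _ _)
  have hβ' : ∀ (f : ∀ i, M i) (i : Θ) (ζ : M i) (α : I), ¬ α ≤ β → ∀ x,
      c ≤ (A (Pool.Agent.Helper18.TP.qf cc f i) i ζ α x)ᶜ := by
    intro f i ζ α hα x
    have h1 := hβ ⟨i, fun j => f j.1⟩
    have h2 : Pool.Agent.Helper18.TP.qf cc (ext ⟨i, fun j => f j.1⟩) i = Pool.Agent.Helper18.TP.qf cc f i := by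
      apply Pool.Agent.Helper18.TP.qf_congr
      intro j hj
      simp only [ext]
      rw [dif_pos hj]
    simp only [φ] at h1
    rw [h2] at h1
    exact h1.trans ((iInf_le _ ζ).trans ((iInf_le _ α).trans
      ((iInf_le _ hα).trans (iInf_le _ x))))
  -- the name of the partial surjection
  let ψ : N → (∀ i, M i) → B := fun z f =>
    c ⊓ ⨅ i, T.low β (A (Pool.Agent.Helper18.TP.qf cc f i) i (f i)) z
  have hψ : IsFunc ψ := by
    intro z f g hne
    have hex : ∃ i, f i ≠ g i := by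
      by_contra h
      push Not at h
      exact hne (funext h)
    obtain ⟨i, hi, hmin⟩ := WellFounded.has_min (wellFounded_lt (α := Θ)) {i | f i ≠ g i} hex
    have hlt : ∀ j < i, f j = g j := by
      intro j hj
      by_contra h
      exact hmin j h hj
    have hq : Pool.Agent.Helper18.TP.qf cc f i = Pool.Agent.Helper18.TP.qf cc g i := Pool.Agent.Helper18.TP.qf_congr cc f g i hlt
    have h1 := T.low_disj β (hdis (Pool.Agent.Helper18.TP.qf cc f i) i (f i) (g i) hi) z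
    rw [← le_bot_iff, ← h1]
    refine le_inf (le_inf ((inf_le_left.trans inf_le_left).trans hcb)
      ((inf_le_left.trans inf_le_right).trans (iInf_le _ i))) ?_
    rw [hq]
    exact (inf_le_right.trans inf_le_right).trans (iInf_le _ i)
  have hsurj := hns ψ hψ
  apply hc0
  rw [← le_bot_iff, ← hsurj]
  refine le_iInf (fun f => ?_)
  obtain ⟨q, hq⟩ := Pool.Agent.Helper18.TP.exists_qlim cc hc hcl' f
  have h1 : b ≤ ⨅ i, G.F q.1 (fun a => ⨆ α, T.hit d α (A (Pool.Agent.Helper18.TP.qf cc f i) i (f i) α) a) := by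
    refine le_iInf (fun i => ?_)
    exact (le_inf (hq i) (hA _ _ _)).trans (G.F_le _ _ _)
  have h2 := h1.trans (G.interNe hΘτ q.1 _ β)
  have h3 : c = c ⊓ ⨆ a, tv (β ≤ a) ⊓ ⨅ i, ⨆ α, T.hit d α (A (Pool.Agent.Helper18.TP.qf cc f i) i (f i) α) a :=
    (inf_eq_left.mpr (hcb.trans h2)).symm
  rw [h3, inf_iSup_eq]
  refine iSup_le (fun a => ?_)
  by_cases ha : β ≤ a
  · rw [tv_true ha, top_inf_eq]
    exact T.le_low hd β a ha (fun i => A (Pool.Agent.Helper18.TP.qf cc f i) i (f i))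
      (fun i α hα x => hβ' f i (f i) α hα x)
  · rw [tv_false ha]; simp

end BT
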