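import Pool.Agent.Helper18.BT.A01

/-!
# BT-A08: a maximal small set

PROOF.  Let `S := {e : Y → N → B // IsFunc e}` (small sets: ranges of names of partial functions on
`Y`) and `Ψ e := ⨆ e' : S, Φ.pos α (fun x => rng e' x ⊓ (rng e x)ᶜ)`.
Claim `b ≤ ⨆ e : S, (Ψ e)ᶜ`.  Then `Mix.full` for `Mix.func B Y N` gives `e` with `b ≤ (Ψ e)ᶜ` which
is the assertion (`hext`: if `c ⊓ e x y = c ⊓ e' x y` for all `x`, `y` then `c ⊓ rng e x = c ⊓ rng e' x`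
and by `Φ.mono` `c ⊓ Ψ e ≤ Ψ e'`, hence `c ⊓ (Ψ e')ᶜ ≤ (Ψ e)ᶜ`).
Claim: otherwise `c := b ⊓ (⨆ e : S, (Ψ e)ᶜ)ᶜ ≠ ⊥` (`inf_compl_ne_bot`) and `c ≤ Ψ e` for all `e`; by
`Mix.full` again (for fixed `e`, the function `e' ↦ Φ.pos α (rng e' ⊓ (rng e)ᶜ)`) choose
`nx e : S` with `c ≤ Φ.pos α (fun x => rng (nx e) x ⊓ (rng e x)ᶜ)`.
Union of small sets: as `Y` is infinite and `#M ≤ #Y` there is a surjection
`Y → M × Y` (or a map `h : Y → Option (M × Y)` onto), so for `r : M → S` and `ζ : M` there is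
`un ζ r : S` with `rng (un ζ r) x = ⨆ ζ' : {ζ' // ζ' < ζ}, rng (r ζ') x`.
Recursion over `M` (`WellFounded.fix`, cf. `Pool.Agent.Helper18.TP.exists_maxSmall` in TP/Narrow.lean):
`e ζ := nx (un ζ e)`.  Let `A ζ x := rng (e ζ) x ⊓ (⨆ ζ' < ζ, rng (e ζ') x)ᶜ`.  Then
`c ≤ Φ.pos α (A ζ)` and `c ≤ dj A` (for `ζ' < ζ`: `A ζ' x ≤ rng (e ζ') x`, `A ζ x ≤ (rng (e ζ') x)ᶜ`).
By `hsat` `c = ⊥`, contradiction.
-/

open Cardinal

namespace BT

variable {B : Type} [CompleteBooleanAlgebra B] {I : Type} [Preorder I] {N : Type}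
  {T : BSys B I N} {τ : Cardinal.{0}}

theorem PosSys.exists_maxSmall (Φ : PosSys T τ) (b : B) (α : I) {M Y : Type} [LinearOrder M]
    [WellFoundedLT M] (hY : ℵ₀ ≤ #Y) (hM : #M ≤ #Y)
    (hsat : ∀ A : M → N → B, b ⊓ ((⨅ ζ, Φ.pos α (A ζ)) ⊓ dj A) = ⊥) :
    ∃ e : Y → N → B, IsFunc e ∧ ∀ e' : Y → N → B, IsFunc e' →
      b ⊓ Φ.pos α (fun x => rng e' x ⊓ (rng e x)ᶜ) = ⊥ := by
  classical
  let S : Type := {e : Y → N → B // IsFunc e}
  let Ψ : S → B := fun e => ⨆ e' : S, Φ.pos α (fun x => rng e'.1 x ⊓ (rng e.1 x)ᶜ)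
  have hrng : ∀ (c : B) (e f : S), (Mix.func B Y N).agree c e f → ∀ x, c ⊓ rng e.1 x = c ⊓ rng f.1 x := by
    intro c e f hef x
    have hef' : ∀ y x, c ⊓ e.1 y x = c ⊓ f.1 y x := hef
    unfold rng
    rw [inf_iSup_eq, inf_iSup_eq]
    exact iSup_congr fun y => hef' y x
  -- the claim
  have hclaim : b ≤ ⨆ e : S, (Ψ e)ᶜ := by
    by_contra hcl
    have hc := inf_compl_ne_bot hcl
    set c := b ⊓ (⨆ e : S, (Ψ e)ᶜ)ᶜ with hcdef
    have hcΨ : ∀ e : S, c ≤ Ψ e := by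
      intro e
      have h1 : (⨆ e : S, (Ψ e)ᶜ)ᶜ ≤ (Ψ e)ᶜᶜ := compl_le_compl (le_iSup (fun e : S => (Ψ e)ᶜ) e)
      rw [compl_compl] at h1
      exact inf_le_right.trans h1
    have hnx : ∀ e : S, ∃ e' : S, c ≤ Φ.pos α (fun x => rng e'.1 x ⊓ (rng e.1 x)ᶜ) := by
      intro e
      refine (Mix.func B Y N).full (fun e' : S => Φ.pos α (fun x => rng e'.1 x ⊓ (rng e.1 x)ᶜ)) ?_ (hcΨ e)
      intro d f g hfg
      refine Φ.mono fun x => ?_
      have h1 := hrng d f g hfg x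
      refine le_inf ?_ (inf_le_right.trans inf_le_right)
      have h2 : d ⊓ (rng g.1 x ⊓ (rng e.1 x)ᶜ) ≤ d ⊓ rng g.1 x := inf_le_inf_left d inf_le_left
      rw [← h1] at h2
      exact h2.trans inf_le_right
    choose nx hnx using hnx
    -- a surjection onto the pairs
    have hcard : #(Option (M × Y)) ≤ #Y := by
      rw [Cardinal.mk_option, Cardinal.mk_prod, Cardinal.lift_id, Cardinal.lift_id]
      have h1 : #M * #Y ≤ #Y := Cardinal.mul_le_of_le hY hM le_rfl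
      exact Cardinal.add_le_of_le hY h1 (Cardinal.one_le_aleph0.trans hY)
    obtain ⟨g⟩ := hcard
    obtain ⟨h, hh⟩ : ∃ h : Y → Option (M × Y), Function.Surjective h :=
      ⟨Function.invFun g, Function.invFun_surjective g.injective⟩
    have hunF : ∀ (ζ : M) (f : ∀ ζ', ζ' < ζ → S), IsFunc (fun (y : Y) (x : N) =>
        ((h y).elim ⊥ (fun p => if hlt : p.1 < ζ then (f p.1 hlt).1 p.2 x else ⊥) : B)) := by
      intro ζ f y x x' hxx
      simp only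
      cases h y with
      | none => simp
      | some p =>
        simp only [Option.elim_some]
        split_ifs with hlt
        · exact (f p.1 hlt).2 p.2 x x' hxx
        · simp
    let un : ∀ ζ : M, (∀ ζ', ζ' < ζ → S) → S := fun ζ f => ⟨_, hunF ζ f⟩
    let e : M → S := WellFounded.fix (wellFounded_lt (α := M)) (fun ζ f => nx (un ζ f))
    have he : ∀ ζ, e ζ = nx (un ζ (fun ζ' _ => e ζ')) := fun ζ =>
      WellFounded.fix_eq (wellFounded_lt (α := M)) (fun ζ f => nx (un ζ f)) ζ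
    have hun : ∀ ζ ζ', ζ' < ζ → ∀ x, rng (e ζ').1 x ≤ rng (un ζ (fun ζ' _ => e ζ')).1 x := by
      intro ζ ζ' hlt x
      refine iSup_le fun y' => ?_
      obtain ⟨y, hy⟩ := hh (some (ζ', y'))
      refine le_iSup_of_le y ?_
      show (e ζ').1 y' x ≤ (h y).elim ⊥ (fun p => if hlt : p.1 < ζ then (e p.1).1 p.2 x else ⊥)
      rw [hy, Option.elim_some, dif_pos hlt]
    let A : M → N → B := fun ζ x => rng (e ζ).1 x ⊓ (rng (un ζ (fun ζ' _ => e ζ')).1 x)ᶜ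
    have hA : ∀ ζ, c ≤ Φ.pos α (A ζ) := by
      intro ζ
      have h1 := hnx (un ζ (fun ζ' _ => e ζ'))
      rw [← he ζ] at h1
      exact h1
    have hdis : ∀ ζ ζ', ζ' < ζ → ∀ x, A ζ x ⊓ A ζ' x = ⊥ := by
      intro ζ ζ' hlt x
      rw [← le_bot_iff]
      calc A ζ x ⊓ A ζ' x ≤ (rng (un ζ (fun ζ' _ => e ζ')).1 x)ᶜ ⊓ rng (un ζ (fun ζ' _ => e ζ')).1 x :=
            le_inf (inf_le_left.trans inf_le_right) (inf_le_right.trans (inf_le_left.trans (hun ζ ζ' hlt x)))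
        _ = ⊥ := by rw [inf_comm, inf_compl_self]
    have hdj : dj A = ⊤ := by
      unfold dj
      rw [eq_top_iff]
      refine le_iInf fun ζ => le_iInf fun ζ' => le_iInf fun hne => le_iInf fun x => ?_
      rcases lt_or_gt_of_ne hne with hlt | hlt
      · rw [inf_comm, hdis ζ' ζ hlt x, compl_bot]
      · rw [hdis ζ ζ' hlt x, compl_bot]
    have h1 := hsat A
    rw [hdj, inf_top_eq] at h1
    have h2 : c ≤ b ⊓ ⨅ ζ, Φ.pos α (A ζ) := le_inf inf_le_left (le_iInf hA)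
    rw [h1] at h2
    exact hc (le_bot_iff.1 h2)
  obtain ⟨e, he⟩ := (Mix.func B Y N).full (fun e : S => (Ψ e)ᶜ) (by
    intro c e f hef
    refine le_compl_of_inf_eq_bot ?_
    have h1 : c ⊓ Ψ e ≤ Ψ f := by
      show c ⊓ (⨆ e' : S, Φ.pos α (fun x => rng e'.1 x ⊓ (rng e.1 x)ᶜ)) ≤ _
      rw [inf_iSup_eq]
      refine iSup_le fun e' => le_iSup_of_le e' ?_
      refine Φ.mono fun x => ?_
      refine le_inf (inf_le_right.trans inf_le_left) ?_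
      refine le_compl_of_inf_eq_bot ?_
      have h2 := hrng c e f hef x
      rw [← le_bot_iff]
      calc c ⊓ (rng e'.1 x ⊓ (rng e.1 x)ᶜ) ⊓ rng f.1 x ≤ (c ⊓ rng f.1 x) ⊓ (rng e.1 x)ᶜ :=
            le_inf (le_inf (inf_le_left.trans inf_le_left) inf_le_right)
              (inf_le_left.trans (inf_le_right.trans inf_le_right))
        _ = (c ⊓ rng e.1 x) ⊓ (rng e.1 x)ᶜ := by rw [h2]
        _ = ⊥ := by rw [inf_assoc, inf_compl_self, inf_bot_eq]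
    rw [← le_bot_iff]
    calc c ⊓ (Ψ f)ᶜ ⊓ Ψ e ≤ Ψ f ⊓ (Ψ f)ᶜ :=
          le_inf ((le_inf (inf_le_left.trans inf_le_left) inf_le_right).trans h1)
            (inf_le_left.trans inf_le_right)
      _ = ⊥ := inf_compl_self _) hclaim
  refine ⟨e.1, e.2, fun e' he' => ?_⟩
  rw [← le_bot_iff]
  have h1 : Φ.pos α (fun x => rng e' x ⊓ (rng e.1 x)ᶜ) ≤ Ψ e :=
    le_iSup (fun e' : S => Φ.pos α (fun x => rng e'.1 x ⊓ (rng e.1 x)ᶜ)) ⟨e', he'⟩
  calc b ⊓ Φ.pos α (fun x => rng e' x ⊓ (rng e.1 x)ᶜ) ≤ (Ψ e)ᶜ ⊓ Ψ e := inf_le_inf he h1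
    _ = ⊥ := by rw [inf_comm, inf_compl_self]

end BT
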