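import Pool.Agent.Helper18.BT.A01

/-!
# BT-A09: stabilization of the maximal small sets

PROOF.  Write `A α := rng (e α)` and for `x ≤ y` (in `I`)
`φ₀ x y := Φ.pos y (fun v => T.pre x y (A x) v ⊓ (A y v)ᶜ)`, `φ₀ x y := ⊥` if not `x ≤ y`
(`φ₀ x y = tv (x ≤ y) ⊓ …`).
(1) `b ⊓ φ₀ x y ≤ φ₀ x y'` for `y ≤ y'`: with `X := T.pre x y (A x) ⊓ (A y)ᶜ` (level `y`):
`Φ.pos y X ≤ Φ.pos y' (T.pre y y' X) ≤ Φ.pos y' (T.pre y y' X ⊓ (A y')ᶜ) ⊔ Φ.pos y' (T.pre y y' X ⊓ A y')`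
(`supr` with `K = Bool`-like type, `2 ≤ τ`).  First term `≤ φ₀ x y'` by `pre_pre` and `mono`.  Second
term `≤ Φ.pos y (T.img y y' (T.pre y y' X ⊓ A y')) ≤ Φ.pos y (T.img y y' (A y') ⊓ (A y)ᶜ)`, and
`T.img y y' (A y') = rng e''` with `e''` a partial function on `Y` (`isFunc_img`, `rng_img`), so it is
disjoint from `b` by `hmax`.
Suppose that the conclusion fails.  Then for every `x`: (2) `b ≤ ⨆ y, φ₀ x y` (otherwise
`c := b ⊓ (⨆ y, φ₀ x y)ᶜ`, `β₁ := x`).  Apply `Run` to `φ x y := ⨆ y₀, tv (y₀ ≤ y) ⊓ (b ⊓ φ₀ x y₀)`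
(monotone): get `c ≤ b`, `c ≠ ⊥`, `z, z' : M → I`, `t` with `z w ≤ z' w ≤ t`,
`c ≤ φ (z w) (z' w)`, hence `c ≤ φ₀ (z w) (z' w)` by (1), and `z' w ≤ z w'` for `w < w'`.
`A' w := ⨆ w' : {w' // w < w'}, T.img (z' w) (z w') (A (z w'))` (level `z' w`): it is the range of a
partial function on `Y` (`#M ≤ #Y`, `Y` infinite: surjection `Y → M × Y`; `rng_img`).
`E w := fun v => T.pre (z w) t (A (z w)) v ⊓ (T.pre (z' w) t (A' w) v)ᶜ` (level `t`).
(3) `c ≤ Φ.pos t (E w)`: with `X := T.pre (z w) (z' w) (A (z w)) ⊓ (A (z' w))ᶜ`, level `z' w`: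
`c ≤ Φ.pos X ≤ Φ.pos (X ⊓ A' w) ⊔ Φ.pos (X ⊓ (A' w)ᶜ)`, the first is disjoint from `b` by `hmax`
(`X ⊓ A' w ≤ A' w ⊓ (A (z' w))ᶜ`), the second is `≤ Φ.pos t (T.pre (z' w) t (X ⊓ (A' w)ᶜ)) ≤
Φ.pos t (E w)` (`pre_inf`, `pre_pre`, `pre_compl`).
(4) `c ≤ dj E`: for `w < w'`: `T.pre (z w') t (A (z w')) v ≤ T.pre (z' w) t (A' w) v`: by
`le_pre_img` (levels `z' w ≤ z w'`), `pre_pre` and `le_iSup`.
Now `hsat` for the level `t` gives `c = ⊥`.
-/

open Cardinal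

namespace BT

variable {B : Type} [CompleteBooleanAlgebra B] {I : Type} [Preorder I] {N : Type}
  {T : BSys B I N} {τ : Cardinal.{0}}

/-- a union of at most `#Y` many sets of size at most `#Y` -/
theorem exists_union_smallA09 {K Y : Type} (hY : ℵ₀ ≤ #Y) (hK : #K ≤ #Y) (r : K → Y → N → B)
    (hr : ∀ k, IsFunc (r k)) :
    ∃ e' : Y → N → B, IsFunc e' ∧ ∀ x, rng e' x = ⨆ k, rng (r k) x := by
  classical
  have h1 : #(K × Y) ≤ #Y := by
    rw [Cardinal.mk_prod, Cardinal.lift_id, Cardinal.lift_id]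
    calc #K * #Y ≤ #Y * #Y := mul_le_mul' hK le_rfl
      _ = #Y := Cardinal.mul_eq_self hY
  obtain ⟨g⟩ := Cardinal.le_def _ _ |>.mp h1
  refine ⟨fun y x => ⨆ p : K × Y, ⨆ _ : g p = y, r p.1 p.2 x, ?_, ?_⟩
  · intro y x x' hx
    rw [← le_bot_iff, iSup_inf_eq]
    refine iSup_le (fun p => ?_)
    rw [inf_iSup_eq]
    refine iSup_le (fun p' => ?_)
    rw [iSup_inf_eq]
    refine iSup_le (fun h2 => ?_)
    rw [inf_iSup_eq]
    refine iSup_le (fun h3 => ?_)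
    have h4 : p = p' := g.injective (h2.trans h3.symm)
    subst h4
    exact (hr p.1 p.2 x x' hx).le
  · intro x
    apply le_antisymm
    · refine iSup_le (fun y => iSup_le (fun p => iSup_le (fun _ => ?_)))
      exact le_iSup_of_le p.1 (le_iSup (fun y => r p.1 y x) p.2)
    · refine iSup_le (fun k => iSup_le (fun y => ?_))
      exact le_iSup_of_le (g (k, y)) (le_iSup_of_le (k, y) (le_iSup_of_le rfl le_rfl))

theorem PosSys.pos_monoA09 (Φ : PosSys T τ) {α : I} {A A' : N → B} (h : ∀ x, A x ≤ A' x) :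
    Φ.pos α A ≤ Φ.pos α A' := by
  have h1 := Φ.mono (α := α) (c := ⊤) (A := A) (A' := A') (fun x => by rw [top_inf_eq]; exact h x)
  rwa [top_inf_eq] at h1

theorem PosSys.pos_splitA09 (Φ : PosSys T τ) (hτ : 2 ≤ τ) (α : I) (X Z : N → B) :
    Φ.pos α X ≤ Φ.pos α (fun x => X x ⊓ Z x) ⊔ Φ.pos α (fun x => X x ⊓ (Z x)ᶜ) := by
  have h1 := Φ.supr α Bool (fun k x => if k then X x ⊓ Z x else X x ⊓ (Z x)ᶜ)
    (by rw [Cardinal.mk_bool]; exact hτ)
  have h2 : Φ.pos α X ≤ Φ.pos α (fun x => ⨆ k, (if k = true then X x ⊓ Z x else X x ⊓ (Z x)ᶜ)) := by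
    apply Φ.pos_monoA09
    intro x
    have h3 : X x = X x ⊓ Z x ⊔ X x ⊓ (Z x)ᶜ := by
      rw [← inf_sup_left, sup_compl_eq_top, inf_top_eq]
    conv_lhs => rw [h3]
    exact sup_le (le_iSup_of_le true (by simp)) (le_iSup_of_le false (by simp))
  refine (h2.trans h1).trans (iSup_le (fun k => ?_))
  cases k
  · simp
  · simp

theorem BSys.pre_mono'A09 (T : BSys B I N) (α β : I) {A A' : N → B} (h : ∀ x, A x ≤ A' x) (y : N) :
    T.pre α β A y ≤ T.pre α β A' y := by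
  have h1 := T.pre_mono α β (c := ⊤) (A := A) (A' := A') (fun x => by rw [top_inf_eq]; exact h x) y
  rwa [top_inf_eq] at h1

theorem BSys.img_mono'A09 (T : BSys B I N) (α β : I) {A A' : N → B} (h : ∀ x, A x ≤ A' x) (y : N) :
    T.img α β A y ≤ T.img α β A' y := by
  have h1 := T.img_mono α β (c := ⊤) (A := A) (A' := A') (fun x => by rw [top_inf_eq]; exact h x) y
  rwa [top_inf_eq] at h1

/-- step (1) -/
theorem PosSys.stable_stepA09 (Φ : PosSys T τ) (hτ : 2 ≤ τ) {b : B} {Y : Type}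
    (e : I → Y → N → B) (he : ∀ α, IsFunc (e α))
    (hmax : ∀ (α : I) (e' : Y → N → B), IsFunc e' →
      b ⊓ Φ.pos α (fun x => rng e' x ⊓ (rng (e α) x)ᶜ) = ⊥) {x y y' : I} (h1 : x ≤ y)
    (h2 : y ≤ y') :
    b ⊓ Φ.pos y (fun v => T.pre x y (rng (e x)) v ⊓ (rng (e y) v)ᶜ) ≤
      Φ.pos y' (fun v => T.pre x y' (rng (e x)) v ⊓ (rng (e y') v)ᶜ) := by
  set X : N → B := fun v => T.pre x y (rng (e x)) v ⊓ (rng (e y) v)ᶜ with hX
  have h3 : Φ.pos y X ≤ Φ.pos y' (fun v => T.pre y y' X v ⊓ rng (e y') v) ⊔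
      Φ.pos y' (fun v => T.pre y y' X v ⊓ (rng (e y') v)ᶜ) :=
    (Φ.pre h2 X).trans (Φ.pos_splitA09 hτ y' _ _)
  refine (inf_le_inf_left b h3).trans ?_
  rw [inf_sup_left]
  refine sup_le ?_ (inf_le_right.trans ?_)
  · have h4 : Φ.pos y' (fun v => T.pre y y' X v ⊓ rng (e y') v) ≤
        Φ.pos y (fun v => T.img y y' (rng (e y')) v ⊓ (rng (e y) v)ᶜ) := by
      refine (Φ.img h2 _).trans (Φ.pos_monoA09 (fun v => le_inf ?_ ?_))
      · exact T.img_mono'A09 y y' (fun u => inf_le_right) v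
      · refine (T.img_mono'A09 y y' (A' := T.pre y y' X) (fun u => inf_le_left) v).trans ?_
        exact (T.img_pre_le h2 X v).trans inf_le_right
    have h5 := hmax y (fun y₁ x => ⨆ v, e y' y₁ v ⊓ T.P y y' x v) (T.isFunc_img h2 (he y'))
    rw [T.rng_img] at h5
    exact ((inf_le_inf_left b h4).trans h5.le).trans bot_le
  · refine Φ.pos_monoA09 (fun v => inf_le_inf_right _ ?_)
    rw [← T.pre_pre h1 h2]
    exact T.pre_mono'A09 y y' (fun u => inf_le_left) v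

theorem PosSys.exists_stable (Φ : PosSys T τ) (hτ : 2 ≤ τ) {b : B} (hb : b ≠ ⊥) {M Y : Type}
    [LinearOrder M] [WellFoundedLT M] (hY : ℵ₀ ≤ #Y) (hM : #M ≤ #Y) (hrun : Run B I M)
    (hI : Nonempty I)
    (hsat : ∀ (α : I) (A : M → N → B), b ⊓ ((⨅ ζ, Φ.pos α (A ζ)) ⊓ dj A) = ⊥)
    (e : I → Y → N → B) (he : ∀ α, IsFunc (e α))
    (hmax : ∀ (α : I) (e' : Y → N → B), IsFunc e' →
      b ⊓ Φ.pos α (fun x => rng e' x ⊓ (rng (e α) x)ᶜ) = ⊥) :
    ∃ c ≤ b, c ≠ ⊥ ∧ ∃ β₁, ∀ β, β₁ ≤ β →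
      c ⊓ Φ.pos β (fun x => T.pre β₁ β (rng (e β₁)) x ⊓ (rng (e β) x)ᶜ) = ⊥ := by
  classical
  by_contra hcon
  push Not at hcon
  set A : I → N → B := fun α => rng (e α) with hA
  set φ₀ : I → I → B := fun x y =>
    tv (x ≤ y) ⊓ Φ.pos y (fun v => T.pre x y (A x) v ⊓ (A y v)ᶜ) with hφ₀
  -- step (1)
  have s1 : ∀ x y y', y ≤ y' → b ⊓ φ₀ x y ≤ φ₀ x y' := by
    intro x y y' h
    by_cases hx : x ≤ y
    · simp only [φ₀]
      rw [tv_true hx, tv_true (hx.trans h), top_inf_eq, top_inf_eq]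
      exact Φ.stable_stepA09 hτ e he hmax hx h
    · simp only [φ₀]
      rw [tv_false hx]; simp
  -- step (2)
  have s2 : ∀ x, b ≤ ⨆ y, φ₀ x y := by
    intro x
    apply le_iSup_of_dense
    intro c hc hc0
    obtain ⟨β, hβ, h1⟩ := hcon c hc hc0 x
    refine ⟨β, ?_⟩
    simp only [φ₀]
    rw [tv_true hβ, top_inf_eq]
    exact h1
  set φ : I → I → B := fun x y => ⨆ y₀, tv (y₀ ≤ y) ⊓ (b ⊓ φ₀ x y₀) with hφ
  have hφmono : ∀ x y y', y ≤ y' → φ x y ≤ φ x y' := by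
    intro x y y' h
    exact iSup_mono (fun y₀ => inf_le_inf_right _ (tv_mono (fun h1 => h1.trans h)))
  have hφ2 : ∀ x, b ≤ ⨆ y, φ x y := by
    intro x
    have h1 : b = b ⊓ ⨆ y, φ₀ x y := (inf_eq_left.mpr (s2 x)).symm
    have h2 : b ⊓ (⨆ y, φ₀ x y) ≤ ⨆ y, φ x y := by
      rw [inf_iSup_eq]
      refine iSup_mono (fun y => le_iSup_of_le y ?_)
      rw [tv_true le_rfl, top_inf_eq]
    exact h1.le.trans h2
  obtain ⟨c, hcb, hc0, z, z', t, hz, hzz⟩ := hrun φ hφmono b hb hφ2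
  have s3 : ∀ w, c ≤ φ₀ (z w) (z' w) := by
    intro w
    refine (hz w).2.2.trans (iSup_le (fun y₀ => ?_))
    by_cases hy : y₀ ≤ z' w
    · rw [tv_true hy, top_inf_eq]
      exact s1 _ _ _ hy
    · rw [tv_false hy]; simp
  set A' : M → N → B := fun w v =>
    ⨆ w' : {w' // w < w'}, T.img (z' w) (z w'.1) (A (z w'.1)) v with hA'
  have hA'small : ∀ w, ∃ e' : Y → N → B, IsFunc e' ∧ ∀ x, rng e' x = A' w x := by
    intro w
    obtain ⟨e', h1, h2⟩ := exists_union_smallA09 (K := {w' // w < w'}) hY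
      ((Cardinal.mk_subtype_le _).trans hM)
      (fun w' y x => ⨆ v, e (z w'.1) y v ⊓ T.P (z' w) (z w'.1) x v)
      (fun w' => T.isFunc_img (hzz w w'.1 w'.2) (he (z w'.1)))
    refine ⟨e', h1, fun x => ?_⟩
    rw [h2]
    simp only [A']
    refine iSup_congr (fun w' => ?_)
    rw [T.rng_img]
  set E : M → N → B := fun w v =>
    T.pre (z w) t (A (z w)) v ⊓ (T.pre (z' w) t (A' w) v)ᶜ with hE
  have s4 : ∀ w, c ≤ Φ.pos t (E w) := by
    intro w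
    obtain ⟨hzw, hzt, -⟩ := hz w
    set X : N → B := fun v => T.pre (z w) (z' w) (A (z w)) v ⊓ (A (z' w) v)ᶜ with hX
    have h1 : c ≤ Φ.pos (z' w) X := by
      have h2 := s3 w
      simp only [φ₀] at h2
      rw [tv_true hzw, top_inf_eq] at h2
      exact h2
    have h2 := h1.trans (Φ.pos_splitA09 hτ (z' w) X (A' w))
    obtain ⟨e', he', hre'⟩ := hA'small w
    have h3 : b ⊓ Φ.pos (z' w) (fun v => X v ⊓ A' w v) = ⊥ := by
      rw [← le_bot_iff]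
      refine le_trans (inf_le_inf_left b (Φ.pos_monoA09 (fun v => ?_))) (hmax (z' w) e' he').le
      rw [hre']
      exact le_inf inf_le_right (inf_le_left.trans inf_le_right)
    have h4 : c ≤ Φ.pos (z' w) (fun v => X v ⊓ (A' w v)ᶜ) := by
      have h5 : c ≤ b ⊓ (Φ.pos (z' w) (fun v => X v ⊓ A' w v) ⊔
          Φ.pos (z' w) (fun v => X v ⊓ (A' w v)ᶜ)) := le_inf hcb h2
      rw [inf_sup_left, h3, bot_sup_eq] at h5
      exact h5.trans inf_le_right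
    refine h4.trans ((Φ.pre hzt _).trans (Φ.pos_monoA09 (fun v => ?_)))
    have h6 : T.pre (z' w) t (fun v => X v ⊓ (A' w v)ᶜ) v ≤
        T.pre (z' w) t (fun v => T.pre (z w) (z' w) (A (z w)) v ⊓ (A' w v)ᶜ) v :=
      T.pre_mono'A09 (z' w) t (fun u => inf_le_inf_right _ inf_le_left) v
    refine h6.trans ?_
    rw [T.pre_inf hzt, T.pre_compl hzt]
    simp only [E]
    rw [← T.pre_pre hzw hzt]
  have s5 : ∀ w w', w < w' → ∀ v, E w v ⊓ E w' v = ⊥ := by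
    intro w w' hw v
    rw [← le_bot_iff]
    have h1 : E w' v ≤ T.pre (z' w) t (A' w) v := by
      refine inf_le_left.trans ?_
      have h2 : T.pre (z w') t (A (z w')) v ≤
          T.pre (z w') t (T.pre (z' w) (z w') (T.img (z' w) (z w') (A (z w')))) v :=
        T.pre_mono'A09 (z w') t (fun u => T.le_pre_img (hzz w w' hw) _ u) v
      refine h2.trans ?_
      rw [T.pre_pre (hzz w w' hw) ((hz w').1.trans (hz w').2.1)]
      refine T.pre_mono'A09 (z' w) t (fun u => ?_) v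
      exact le_iSup (fun w' : {w' // w < w'} => T.img (z' w) (z w'.1) (A (z w'.1)) u) ⟨w', hw⟩
    calc E w v ⊓ E w' v ≤ (T.pre (z' w) t (A' w) v)ᶜ ⊓ T.pre (z' w) t (A' w) v :=
          inf_le_inf inf_le_right h1
      _ = ⊥ := compl_inf_self _
  have s6 : c ≤ dj E := by
    unfold dj
    refine le_iInf (fun w => le_iInf (fun w' => le_iInf (fun hne => le_iInf (fun v => ?_))))
    rcases lt_or_gt_of_ne hne with h | h
    · rw [s5 w w' h v]; simp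
    · rw [inf_comm, s5 w' w h v]; simp
  apply hc0
  rw [← le_bot_iff, ← hsat t E]
  exact le_inf hcb (le_inf (le_iInf s4) s6)

end BT
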