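import Pool.Agent.Helper18.BT.A01

/-!
# BT-A10: positive small sets of uniformly bounded size, and the narrow subsystem

PROOF of `exists_uniform`.  `ρ i α := ⨆ e : {f : Bs i → N → B // IsFunc f}, Φ.pos α (rng e.1)`.
(1) for `α ≤ β`: `ρ i β ≤ ρ i α` (`Φ.img`, `rng_img`, `isFunc_img`).
(2) `b ≤ ⨆ i, ρ i α`: `b ≤ Φ.pos α ⊤ ≤ ⨆ i, Φ.pos α (fun x => tv (x ∈ Bs i))` (`supr`, `mono`) and
`fun x => tv (x ∈ Bs i)` is the range of `fun (y : Bs i) x => tv (y.1 = x)`.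
If for some `i` `c := b ⊓ ⨅ α, ρ i α ≠ ⊥` we are done.  Otherwise `b ≤ ⨆ α, (ρ i α)ᶜ` for all `i`; the
function `φ i α := (ρ i α)ᶜ` is monotone in `α` by (1); `Cov` (`K = Θ`) gives `c ≤ b`, `c ≠ ⊥`, `β` with
`c ≤ (ρ i β)ᶜ` for all `i`, contradiction with (2) for `β`.

PROOF of `exists_narrow`.  Let `A α := rng (e α)`.
(3) `c ≤ Φ.pos β₁ (A β₁)`: `c ≤ Φ.pos β₁ (rng e₁) ≤ Φ.pos β₁ (rng e₁ ⊓ (A β₁)ᶜ) ⊔ Φ.pos β₁ (A β₁)`
(`supr` with two pieces) and the first is disjoint from `c` by `hmax`.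
(4) For `β₁ ≤ α ≤ β`: with `X := T.pre β₁ β (A β₁)`:
`c ≤ Φ.pos β X ≤ Φ.pos β (X ⊓ (A β)ᶜ) ⊔ Φ.pos β (X ⊓ (T.pre α β (A α))ᶜ) ⊔ Φ.pos β (A β ⊓ T.pre α β (A α))`.
The first is disjoint from `c` by `hst`.  Second: `X ⊓ (T.pre α β (A α))ᶜ =
T.pre α β (T.pre β₁ α (A β₁) ⊓ (A α)ᶜ)`, so (`img`, `img_pre_le`, `mono`) it is
`≤ Φ.pos α (T.pre β₁ α (A β₁) ⊓ (A α)ᶜ)`, disjoint from `c` by `hst`.  So
`c ≤ Φ.pos β (A β ⊓ T.pre α β (A α)) ≤ ⨆ v, A β v ⊓ ⨆ x, A α x ⊓ T.P α β x v` (`ne`).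
-/

open Cardinal

namespace BT

variable {B : Type} [CompleteBooleanAlgebra B] {I : Type} [Preorder I] {N : Type}
  {T : BSys B I N} {τ : Cardinal.{0}}

private theorem a10_le_right {c x y : B} (h : c ≤ x ⊔ y) (h1 : c ⊓ x = ⊥) : c ≤ y := by
  calc c = c ⊓ (x ⊔ y) := (inf_eq_left.mpr h).symm
    _ = c ⊓ x ⊔ c ⊓ y := inf_sup_left _ _ _
    _ = c ⊓ y := by rw [h1, bot_sup_eq]
    _ ≤ y := inf_le_right

private theorem a10_mono (Φ : PosSys T τ) {α : I} {A A' : N → B} (h : ∀ x, A x ≤ A' x) :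
    Φ.pos α A ≤ Φ.pos α A' := by
  have := Φ.mono (α := α) (c := ⊤) (A := A) (A' := A') (fun x => by rw [top_inf_eq]; exact h x)
  rwa [top_inf_eq] at this

private theorem a10_sup (Φ : PosSys T τ) (hτ : 3 ≤ τ) {α : I} (A A' : N → B) :
    Φ.pos α (fun x => A x ⊔ A' x) ≤ Φ.pos α A ⊔ Φ.pos α A' := by
  have hB : #Bool ≤ τ := by
    have h2 : (#Bool : Cardinal.{0}) = 2 := by simp
    rw [h2]
    refine le_trans ?_ hτ
    exact_mod_cast (by norm_num : (2 : ℕ) ≤ 3)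
  have h1 := Φ.supr α Bool (fun k => if k then A else A') hB
  have h2 : (fun x => ⨆ k : Bool, (if k then A else A') x) = fun x => A x ⊔ A' x := by
    funext x
    rw [iSup_bool_eq]
    simp
  rw [h2, iSup_bool_eq] at h1
  simpa using h1

theorem PosSys.exists_uniform (Φ : PosSys T τ) {ν : Cardinal.{0}} (hcov : Cov B I ν) {b : B}
    (hb : b ≠ ⊥) {Θ : Type} (hΘ : #Θ ≤ ν) (hΘτ : #Θ ≤ τ) (Bs : Θ → Set N)
    (hBs : (⋃ i, Bs i) = Set.univ) (htop : ∀ α, b ≤ Φ.pos α (fun _ => ⊤)) :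
    ∃ c ≤ b, c ≠ ⊥ ∧ ∃ i, ∀ α,
      c ≤ ⨆ e : {f : Bs i → N → B // IsFunc f}, Φ.pos α (rng e.1) := by
  classical
  by_contra hcon
  push Not at hcon
  let ρ : Θ → I → B := fun i α => ⨆ e : {f : Bs i → N → B // IsFunc f}, Φ.pos α (rng e.1)
  have h1 : ∀ i α β, α ≤ β → ρ i β ≤ ρ i α := by
    intro i α β hαβ
    refine iSup_le fun e => ?_
    refine (Φ.img hαβ (rng e.1)).trans ?_
    rw [← T.rng_img α β e.1]
    exact le_iSup (fun e : {f : Bs i → N → B // IsFunc f} => Φ.pos α (rng e.1))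
      ⟨_, T.isFunc_img hαβ e.2⟩
  have h2 : ∀ α, b ≤ ⨆ i, ρ i α := by
    intro α
    refine (htop α).trans ?_
    have h3 : Φ.pos α (fun _ => ⊤) ≤ Φ.pos α (fun x => ⨆ i, tv (x ∈ Bs i)) := by
      refine a10_mono Φ fun x => ?_
      have hx : x ∈ ⋃ i, Bs i := by rw [hBs]; trivial
      obtain ⟨i, hi⟩ := Set.mem_iUnion.1 hx
      exact le_iSup_of_le i (le_tv hi _)
    refine h3.trans ?_
    refine (Φ.supr α Θ (fun i x => tv (x ∈ Bs i)) hΘτ).trans ?_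
    refine iSup_mono fun i => ?_
    have hf : IsFunc (fun (y : Bs i) (x : N) => (tv (y.1 = x) : B)) := by
      intro y x x' hx
      change (tv (y.1 = x) : B) ⊓ tv (y.1 = x') = ⊥
      by_cases h : y.1 = x
      · have h' : ¬ y.1 = x' := fun h4 => hx (h.symm.trans h4)
        rw [tv_false h', inf_bot_eq]
      · rw [tv_false h, bot_inf_eq]
    refine le_trans ?_ (le_iSup (fun e : {f : Bs i → N → B // IsFunc f} =>
      Φ.pos α (rng e.1)) ⟨_, hf⟩)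
    refine a10_mono Φ fun x => ?_
    by_cases hx : x ∈ Bs i
    · exact le_iSup_of_le (⟨x, hx⟩ : Bs i) (le_tv rfl _)
    · rw [tv_false hx]; exact bot_le
  have h4 : ∀ i, b ≤ ⨆ α, (ρ i α)ᶜ := by
    intro i
    by_contra h5
    rw [← compl_iInf] at h5
    have h6 : b ⊓ ⨅ α, ρ i α ≠ ⊥ := fun h7 => h5 (le_compl_of_inf_eq_bot h7)
    obtain ⟨α, hα⟩ := hcon _ inf_le_left h6 i
    exact hα (inf_le_right.trans (iInf_le _ α))
  obtain ⟨c, hcb, hc, β, hβ⟩ := hcov Θ hΘ (fun i α => (ρ i α)ᶜ)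
    (fun i α β hαβ => compl_le_compl (h1 i α β hαβ)) b hb h4
  obtain ⟨i, hi⟩ := exists_inf_ne_bot hc (hcb.trans (h2 β))
  exact hi (inf_eq_bot_of_le_compl (hβ i))

theorem PosSys.exists_narrow (Φ : PosSys T τ) (hτ : 3 ≤ τ) {c : B} {Y : Type}
    (e : I → Y → N → B)
    (hmax : ∀ (α : I) (e' : Y → N → B), IsFunc e' →
      c ⊓ Φ.pos α (fun x => rng e' x ⊓ (rng (e α) x)ᶜ) = ⊥)
    (β₁ : I) (hst : ∀ β, β₁ ≤ β →
      c ⊓ Φ.pos β (fun x => T.pre β₁ β (rng (e β₁)) x ⊓ (rng (e β) x)ᶜ) = ⊥)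
    (e₁ : Y → N → B) (he₁ : IsFunc e₁) (hpos : c ≤ Φ.pos β₁ (rng e₁)) :
    ∀ α β, β₁ ≤ α → α ≤ β → c ≤ ⨆ x, ⨆ v, rng (e α) x ⊓ rng (e β) v ⊓ T.P α β x v := by
  have h3 : c ≤ Φ.pos β₁ (rng (e β₁)) := by
    refine a10_le_right (x := Φ.pos β₁ (fun x => rng e₁ x ⊓ (rng (e β₁) x)ᶜ)) ?_
      (hmax β₁ e₁ he₁)
    refine hpos.trans (le_trans ?_ (a10_sup Φ hτ _ _))
    refine a10_mono Φ fun x => ?_
    rw [sup_inf_right, compl_sup_eq_top, inf_top_eq]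
    exact le_sup_left
  intro α β hα hαβ
  have hβ : β₁ ≤ β := hα.trans hαβ
  have h4 : c ≤ Φ.pos β (T.pre β₁ β (rng (e β₁))) := h3.trans (Φ.pre hβ _)
  have h5 : c ≤ Φ.pos β (fun x => (T.pre β₁ β (rng (e β₁)) x ⊓ (T.pre α β (rng (e α)) x)ᶜ) ⊔
      (rng (e β) x ⊓ T.pre α β (rng (e α)) x)) := by
    refine a10_le_right
      (x := Φ.pos β (fun x => T.pre β₁ β (rng (e β₁)) x ⊓ (rng (e β) x)ᶜ)) ?_ (hst β hβ)
    refine h4.trans (le_trans ?_ (a10_sup Φ hτ _ _))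
    refine a10_mono Φ fun x => ?_
    generalize T.pre β₁ β (rng (e β₁)) x = X
    generalize rng (e β) x = Y'
    generalize T.pre α β (rng (e α)) x = Z
    calc X = (X ⊓ Y') ⊔ (X ⊓ Y'ᶜ) := by rw [← inf_sup_left, sup_compl_eq_top, inf_top_eq]
      _ = ((X ⊓ Y' ⊓ Z) ⊔ (X ⊓ Y' ⊓ Zᶜ)) ⊔ (X ⊓ Y'ᶜ) := by
        have e2 : (X ⊓ Y' ⊓ Z) ⊔ (X ⊓ Y' ⊓ Zᶜ) = X ⊓ Y' := by
          rw [← inf_sup_left, sup_compl_eq_top, inf_top_eq]
        rw [e2]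
      _ ≤ X ⊓ Y'ᶜ ⊔ (X ⊓ Zᶜ ⊔ Y' ⊓ Z) := by
        refine sup_le (sup_le ?_ ?_) le_sup_left
        · exact le_sup_of_le_right (le_sup_of_le_right
            (le_inf (inf_le_left.trans inf_le_right) inf_le_right))
        · exact le_sup_of_le_right (le_sup_of_le_left
            (le_inf (inf_le_left.trans inf_le_left) inf_le_right))
  have h6 : c ⊓ Φ.pos β (fun x => T.pre β₁ β (rng (e β₁)) x ⊓ (T.pre α β (rng (e α)) x)ᶜ) = ⊥ := by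
    have e1 : (fun x => T.pre β₁ β (rng (e β₁)) x ⊓ (T.pre α β (rng (e α)) x)ᶜ) =
        T.pre α β (fun x => T.pre β₁ α (rng (e β₁)) x ⊓ (rng (e α) x)ᶜ) := by
      rw [T.pre_inf hαβ, T.pre_pre hα hαβ, T.pre_compl hαβ]
    rw [e1, ← le_bot_iff, ← hst α hα]
    refine inf_le_inf_left c ?_
    refine (Φ.img hαβ _).trans ?_
    exact a10_mono Φ fun x => T.img_pre_le hαβ _ x
  have h7 : c ≤ Φ.pos β (fun x => rng (e β) x ⊓ T.pre α β (rng (e α)) x) :=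
    a10_le_right (h5.trans (a10_sup Φ hτ _ _)) h6
  refine h7.trans ((Φ.ne β _).trans ?_)
  refine iSup_le fun v => ?_
  change rng (e β) v ⊓ (⨆ x, rng (e α) x ⊓ T.P α β x v) ≤ _
  rw [inf_iSup_eq]
  refine iSup_le fun x => ?_
  refine le_iSup_of_le x (le_iSup_of_le v ?_)
  exact le_inf (le_inf (inf_le_right.trans inf_le_left) inf_le_left)
    (inf_le_right.trans inf_le_right)

end BT
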