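import Pool.Agent.Helper18.BT.A02
import Pool.Agent.Helper18.BT.A03

/-!
# BT-A11: some index hits the narrow subsystem cofinally often

PROOF (cf. `stab` in `Pool.Agent.Helper18.TP.thread_of_narrow`, TP/Main.lean).
`d η := fun a => e a η`, `S α q := ⨆ α', tv (α ≤ α') ⊓ ⨆ q', G.le q' q ⊓ G.F q' (T.hit (d η) α' (rng (e α')))`
(depends on `η`; antitone in `α`; `G.le q' q ⊓ S η α q' ≤ S η α q`).
Suppose the conclusion fails: for all `c ≤ b`, `c ≠ ⊥`, `η`, `qs` with `c ≤ G.le qs q₁` there are `q`,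
`α ≥ β₁` with `¬ c ⊓ G.le q qs ≤ S η α q`.
Let `D η q := ⨆ α, tv (β₁ ≤ α) ⊓ (S η α q)ᶜ`; it is open: `G.le q' q ⊓ D η q ≤ D η q'`.
(1) For all `η`, `q`: `b ⊓ G.le q q₁ ≤ ⨆ q', G.le q' q ⊓ D η q'`: otherwise the difference `c` is
nonzero, and with `qs := q` there are `q'`, `α` with `c' := c ⊓ G.le q' q ⊓ (S η α q')ᶜ ≠ ⊥`, but
`c' ≤ G.le q' q ⊓ D η q'`.
To apply `hdis` (density is required for all `q`): use `D' η q := D η q ⊔ (b ⊓ G.le q q₁)ᶜ`?  Not open.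
Instead apply `hdis` to `D' η q := D η q ⊔ X q` where
`X q := (⨆ q', G.le q' q ⊓ G.le q' q₁)ᶜ` (no common extension with `q₁`), which is open, and dense
together with `D`: `b ≤ (⨆ q', G.le q' q ⊓ G.le q' q₁) ⊔ X q` and for each `q'` by (1)
`b ⊓ G.le q' q ⊓ G.le q' q₁ ≤ ⨆ q'', G.le q'' q' ⊓ G.le q' q ⊓ D η q''`.
Result for `q := q₁`: `b ≤ ⨆ q, G.le q q₁ ⊓ ⨅ η, D' η q`, and `G.le q q₁ ⊓ X q = ⊥` (take `q' = q`), so
there are `q` and `c := b ⊓ G.le q q₁ ⊓ ⨅ η, D η q ≠ ⊥` (if `Y` is empty, `D'` plays no role).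
`Cov` with `K = Y`, `φ η α := ⨆ α₀, tv (α₀ ≤ α) ⊓ (tv (β₁ ≤ α₀) ⊓ (S η α₀ q)ᶜ)` gives `c' ≤ c`,
`c' ≠ ⊥`, `α` with `c' ≤ φ η α`, hence (as `S` is antitone) `c' ≤ (S η α q)ᶜ` for all `η`; we may take
`β₁ ≤ α` (`hdir`, enlarge `α`).
By `hnar`: for `a ≥ α`: `b ≤ ⨆ η, T.hit (d η) α (rng (e α)) a` (because `rng (e a) v = ⨆ η, e a η v`).
`decSub` for `A a := c' ⊓ tv (α ≤ a)`, `g η a := T.hit (d η) α (rng (e α)) a`: `c' ≤ G.F q A` (`F_cone`,
`F_mono`), so `c' ≤ ⨆ q', ⨆ η, G.le q' q ⊓ G.F q' (g η) ≤ ⨆ η, S η α q`, contradiction.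
-/

open Cardinal

namespace BT

variable {B : Type} [CompleteBooleanAlgebra B] {I : Type} [Preorder I] {τ : Cardinal.{0}}
  (G : BUF B I τ) {N : Type} (T : BSys B I N)

theorem BUF.exists_stab {μ ν : Cardinal.{0}} (hdis : G.Distr μ) (hcov : Cov B I ν) {b : B}
    (hb : b ≠ ⊥) {Y : Type} (hYμ : #Y ≤ μ) (hYτ : #Y ≤ τ) (hYν : #Y ≤ ν)
    (hdir : ∀ α β : I, ∃ γ, α ≤ γ ∧ β ≤ γ)
    (e : I → Y → N → B) (β₁ : I)
    (hnar : ∀ α β, β₁ ≤ α → α ≤ β → b ≤ ⨆ x, ⨆ v, rng (e α) x ⊓ rng (e β) v ⊓ T.P α β x v)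
    (q₁ : G.Q) :
    ∃ c ≤ b, c ≠ ⊥ ∧ ∃ η qs, c ≤ G.le qs q₁ ∧ ∀ q α, β₁ ≤ α →
      c ⊓ G.le q qs ≤ ⨆ α', tv (α ≤ α') ⊓ ⨆ q', G.le q' q ⊓
        G.F q' (T.hit (fun a => e a η) α' (rng (e α'))) := by
  let S : Y → I → G.Q → B := fun η α q => ⨆ α', tv (α ≤ α') ⊓ ⨆ q', G.le q' q ⊓
        G.F q' (T.hit (fun a => e a η) α' (rng (e α')))
  have hSanti : ∀ η α α₂ q, α ≤ α₂ → S η α₂ q ≤ S η α q := by
    intro η α α₂ q h
    exact iSup_mono fun α' => inf_le_inf_right _ (tv_mono fun h' => h.trans h')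
  have hSmono : ∀ η α q q', G.le q' q ⊓ S η α q' ≤ S η α q := by
    intro η α q q'
    show G.le q' q ⊓ (⨆ α', tv (α ≤ α') ⊓ ⨆ q'', G.le q'' q' ⊓
        G.F q'' (T.hit (fun a => e a η) α' (rng (e α')))) ≤ _
    rw [inf_iSup_eq]
    refine iSup_le fun α' => le_iSup_of_le α' ?_
    refine le_inf (inf_le_right.trans inf_le_left) ?_
    refine (inf_le_inf_left _ inf_le_right).trans ?_
    rw [inf_iSup_eq]
    refine iSup_le fun q'' => le_iSup_of_le q'' ?_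
    refine le_inf ?_ (inf_le_right.trans inf_le_right)
    exact (le_inf (inf_le_right.trans inf_le_left) inf_le_left).trans (G.le_trans q'' q' q)
  by_contra hcon
  push Not at hcon
  let D : Y → G.Q → B := fun η q => ⨆ α, tv (β₁ ≤ α) ⊓ (S η α q)ᶜ
  have hDopen : ∀ η q q', G.le q' q ⊓ D η q ≤ D η q' := by
    intro η q q'
    show G.le q' q ⊓ (⨆ α, tv (β₁ ≤ α) ⊓ (S η α q)ᶜ) ≤ _
    rw [inf_iSup_eq]
    refine iSup_le fun α => le_iSup_of_le α ?_
    refine le_inf (inf_le_right.trans inf_le_left) ?_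
    refine le_compl_of_inf_eq_bot ?_
    rw [← le_bot_iff]
    calc G.le q' q ⊓ (tv (β₁ ≤ α) ⊓ (S η α q)ᶜ) ⊓ S η α q' ≤ S η α q ⊓ (S η α q)ᶜ :=
          le_inf ((le_inf (inf_le_left.trans inf_le_left) inf_le_right).trans (hSmono η α q q'))
            (inf_le_left.trans (inf_le_right.trans inf_le_right))
      _ = ⊥ := inf_compl_self _
  have h1 : ∀ η q, b ⊓ G.le q q₁ ≤ ⨆ q', G.le q' q ⊓ D η q' := by
    intro η q
    by_contra hn
    have hc := inf_compl_ne_bot hn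
    obtain ⟨q', α, hα, hnle⟩ := hcon _ (inf_le_left.trans inf_le_left) hc η q
      (inf_le_left.trans inf_le_right)
    apply inf_compl_ne_bot hnle
    rw [← le_bot_iff]
    calc b ⊓ G.le q q₁ ⊓ (⨆ q', G.le q' q ⊓ D η q')ᶜ ⊓ G.le q' q ⊓
          (⨆ α', tv (α ≤ α') ⊓ ⨆ q'', G.le q'' q' ⊓
            G.F q'' (T.hit (fun a => e a η) α' (rng (e α'))))ᶜ
        ≤ (⨆ q', G.le q' q ⊓ D η q') ⊓ (⨆ q', G.le q' q ⊓ D η q')ᶜ := by
          refine le_inf ?_ (inf_le_left.trans (inf_le_left.trans inf_le_right))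
          refine le_iSup_of_le q' (le_inf (inf_le_left.trans inf_le_right) ?_)
          refine le_iSup_of_le α (le_inf (le_tv hα _) inf_le_right)
      _ = ⊥ := inf_compl_self _
  let E : G.Q → B := fun q => ⨆ q', G.le q' q ⊓ G.le q' q₁
  have hEmono : ∀ q q', G.le q' q ⊓ E q' ≤ E q := by
    intro q q'
    show G.le q' q ⊓ (⨆ q'', G.le q'' q' ⊓ G.le q'' q₁) ≤ _
    rw [inf_iSup_eq]
    refine iSup_le fun q'' => le_iSup_of_le q'' ?_
    exact le_inf ((le_inf (inf_le_right.trans inf_le_left) inf_le_left).trans (G.le_trans q'' q' q))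
      (inf_le_right.trans inf_le_right)
  have h2 := hdis Y hYμ (fun η q => D η q ⊔ (E q)ᶜ) (by
    intro η q q'
    show G.le q' q ⊓ (D η q ⊔ (E q)ᶜ) ≤ D η q' ⊔ (E q')ᶜ
    rw [inf_sup_left]
    refine sup_le ((hDopen η q q').trans le_sup_left) (_root_.le_trans ?_ le_sup_right)
    refine le_compl_of_inf_eq_bot ?_
    rw [← le_bot_iff]
    calc G.le q' q ⊓ (E q)ᶜ ⊓ E q' ≤ E q ⊓ (E q)ᶜ :=
          le_inf ((le_inf (inf_le_left.trans inf_le_left) inf_le_right).trans (hEmono q q'))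
            (inf_le_left.trans inf_le_right)
      _ = ⊥ := inf_compl_self _) b (by
    intro η q
    show b ≤ ⨆ q', G.le q' q ⊓ (D η q' ⊔ (E q')ᶜ)
    have h3 : b = b ⊓ E q ⊔ b ⊓ (E q)ᶜ := by rw [← inf_sup_left, sup_compl_eq_top, inf_top_eq]
    rw [h3]
    refine sup_le ?_ ?_
    · show b ⊓ (⨆ q', G.le q' q ⊓ G.le q' q₁) ≤ _
      rw [inf_iSup_eq]
      refine iSup_le fun q' => ?_
      have h4 : b ⊓ (G.le q' q ⊓ G.le q' q₁) ≤ G.le q' q ⊓ ⨆ q'', G.le q'' q' ⊓ D η q'' :=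
        le_inf (inf_le_right.trans inf_le_left)
          ((le_inf inf_le_left (inf_le_right.trans inf_le_right)).trans (h1 η q'))
      refine h4.trans ?_
      rw [inf_iSup_eq]
      refine iSup_le fun q'' => le_iSup_of_le q'' ?_
      exact le_inf ((le_inf (inf_le_right.trans inf_le_left) inf_le_left).trans (G.le_trans q'' q' q))
        ((inf_le_right.trans inf_le_right).trans le_sup_left)
    · refine le_iSup_of_le q (le_inf ?_ (inf_le_right.trans le_sup_right))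
      rw [G.le_refl]
      exact le_top) q₁
  obtain ⟨q, hq⟩ := exists_inf_ne_bot hb h2
  set c := b ⊓ (G.le q q₁ ⊓ ⨅ η, (D η q ⊔ (E q)ᶜ)) with hc
  have hcE : c ≤ E q := by
    refine le_iSup_of_le q (le_inf ?_ (inf_le_right.trans inf_le_left))
    rw [G.le_refl]
    exact le_top
  have hcD : ∀ η, c ≤ D η q := by
    intro η
    have h3 : c ≤ D η q ⊔ (E q)ᶜ := inf_le_right.trans (inf_le_right.trans (iInf_le _ η))
    calc c ≤ (D η q ⊔ (E q)ᶜ) ⊓ E q := le_inf h3 hcE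
      _ = D η q ⊓ E q := by rw [inf_sup_right, inf_comm (E q)ᶜ, inf_compl_self, sup_bot_eq]
      _ ≤ D η q := inf_le_left
  obtain ⟨c', hc'c, hc', β, hβ⟩ := hcov Y hYν
    (fun η α => ⨆ α₀, tv (α₀ ≤ α) ⊓ (tv (β₁ ≤ α₀) ⊓ (S η α₀ q)ᶜ))
    (fun η α β h => iSup_mono fun α₀ => inf_le_inf_right _ (tv_mono fun h' => h'.trans h)) c hq
    (fun η => by
      refine (hcD η).trans ?_
      refine iSup_mono fun α => le_iSup_of_le α ?_
      rw [tv_true le_rfl, top_inf_eq])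
  obtain ⟨α, hβα, hβ₁α⟩ := hdir β β₁
  have hcS : ∀ η, c' ≤ (S η α q)ᶜ := by
    intro η
    refine (hβ η).trans (iSup_le fun α₀ => ?_)
    by_cases h : α₀ ≤ β
    · exact (inf_le_right.trans inf_le_right).trans (compl_le_compl (hSanti η α₀ α q (h.trans hβα)))
    · rw [tv_false h, bot_inf_eq]
      exact bot_le
  have hA : c' ≤ G.F q (fun a => c' ⊓ tv (α ≤ a)) := by
    have h3 := G.F_mono q c' (fun a => tv (α ≤ a)) (fun a => c' ⊓ tv (α ≤ a)) (fun a => le_rfl)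
    rwa [G.F_cone, inf_top_eq] at h3
  have hcov2 : ∀ a, c' ⊓ tv (α ≤ a) ≤ ⨆ η, T.hit (fun a => e a η) α (rng (e α)) a := by
    intro a
    by_cases h : α ≤ a
    · have h3 := hnar α a hβ₁α h
      have h4 : c' ≤ b := hc'c.trans inf_le_left
      refine inf_le_left.trans (h4.trans (h3.trans ?_))
      refine iSup_le fun x => iSup_le fun v => ?_
      have h5 : rng (e α) x ⊓ rng (e a) v ⊓ T.P α a x v =
          ⨆ η, rng (e α) x ⊓ e a η v ⊓ T.P α a x v := by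
        unfold rng
        rw [inf_iSup_eq, iSup_inf_eq]
      rw [h5]
      refine iSup_mono fun η => ?_
      unfold BSys.hit
      rw [tv_true h, top_inf_eq]
      refine le_iSup_of_le x (le_iSup_of_le v ?_)
      exact le_inf (le_inf (inf_le_left.trans inf_le_left) inf_le_right) (inf_le_left.trans inf_le_right)
    · rw [tv_false h, inf_bot_eq]
      exact bot_le
  have h6 := G.decSub (fun a => c' ⊓ tv (α ≤ a)) (fun η => T.hit (fun a => e a η) α (rng (e α)))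
    hYτ hcov2 q
  have h7 : c' ≤ ⨆ η, S η α q := by
    refine hA.trans (h6.trans ?_)
    refine iSup_le fun q' => iSup_le fun η => le_iSup_of_le η ?_
    refine le_iSup_of_le α ?_
    rw [tv_true le_rfl, top_inf_eq]
    exact le_iSup_of_le q' le_rfl
  apply hc'
  rw [← le_bot_iff]
  calc c' ≤ (⨆ η, S η α q) ⊓ (⨆ η, S η α q)ᶜ := by
        refine le_inf h7 ?_
        rw [compl_iSup]
        exact le_iInf hcS
    _ = ⊥ := inf_compl_self _

end BT
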