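import Pool.Agent.Helper18.BT.A04

/-!
# BT-A12: deciding a point of the branch

PROOF.  `d a := e a η` (a name for a partial function, `IsFunc d` from `he`).
(1) For all `q`, `α`: `c ⊓ G.le q q₀ ≤ ⨆ α', tv (α ≤ α') ⊓ ⨆ q'', ⨆ u, G.le q'' q ⊓
G.F q'' (T.hit d α' (fun v => tv (v = u)))`.  Take `α₁ ≥ α, β₁` (`hdir`); by `hstab` (for `α₁`, and
`G.le q q₀ ⊓ c ≤ G.le q qs`) we get `α' ≥ α₁`, `q'` with `F q' (hit d α' (rng (e α')))`; `decSub` with
`K = Y`, `g y := T.hit d α' (e α' y)` (`hit_iSup`) gives `q'' ≤ q'`, `y` with `F q'' (hit d α' (e α' y))`,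
and `F q'' (hit d α' (e α' y)) ≤ ⨆ u, e α' y u` (`F_ne`, `hit_le`), and
`e α' y u ⊓ F q'' (hit d α' (e α' y)) ≤ F q'' (hit d α' (tv (· = u)))` (`F_mono` with
`c := e α' y u`, `hit_mono`: `e α' y u ⊓ e α' y v ≤ tv (v = u)` as `e α' y` is functional).
First claim: `G.pos T d q₀ α X = ⨆ q, le q q₀ ⊓ F q (hit α X)`; for `q`: by (1) and `F_le`, `F_inf`,
`F_mono'` with `hit_pre` (note `T.hit d α' _ a ≤ tv (α' ≤ a)`, `hit_le_tv`) and `hit_inf`:
`F q'' (hit α X) ⊓ F q'' (hit α' {u}) ≤ F q'' (hit α' (T.pre α α' X ⊓ {u}))`.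
Second claim: (1) for `q = q₀` gives `c ≤ ⨆ …, F q'' (hit d α' {u})`, and `hit d α' {u} ≤ hit d α ⊤`
(`hit_img`, `hit_mono`), so `c ≤ G.pos T d q₀ α ⊤`.
-/

open Cardinal

namespace BT

variable {B : Type} [CompleteBooleanAlgebra B] {I : Type} [Preorder I] {τ : Cardinal.{0}}
  (G : BUF B I τ) {N : Type} (T : BSys B I N)

theorem BUF.pos_point {Y : Type} (hYτ : #Y ≤ τ) (hdir : ∀ α β : I, ∃ γ, α ≤ γ ∧ β ≤ γ)
    (e : I → Y → N → B) (he : ∀ α, IsFunc (e α)) (β₁ : I) {c : B} (η : Y) (qs q₀ : G.Q)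
    (hq₀ : c ≤ G.le q₀ qs)
    (hstab : ∀ q α, β₁ ≤ α → c ⊓ G.le q qs ≤ ⨆ α', tv (α ≤ α') ⊓ ⨆ q', G.le q' q ⊓
        G.F q' (T.hit (fun a => e a η) α' (rng (e α')))) :
    (∀ α X, c ⊓ G.pos T (fun a => e a η) q₀ α X ≤ ⨆ α', tv (α ≤ α') ⊓
      ⨆ u, G.pos T (fun a => e a η) q₀ α' (fun v => T.pre α α' X v ⊓ tv (v = u))) ∧
    (∀ α, c ≤ G.pos T (fun a => e a η) q₀ α (fun _ => ⊤)) := by
  have hd : IsFunc (fun a => e a η) := fun a y y' hy => he a η y y' hy
  have key : ∀ q α, c ⊓ G.le q q₀ ≤ ⨆ α', tv (α ≤ α') ⊓ ⨆ q'', ⨆ u, G.le q'' q ⊓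
      G.F q'' (T.hit (fun a => e a η) α' (fun v => tv (v = u))) := by
    intro q α
    obtain ⟨γ, hαγ, hβγ⟩ := hdir α β₁
    have h1 : c ⊓ G.le q q₀ ≤ c ⊓ G.le q qs :=
      le_inf inf_le_left ((le_inf inf_le_right (inf_le_left.trans hq₀)).trans
        (G.le_trans q q₀ qs))
    refine (h1.trans (hstab q γ hβγ)).trans ?_
    refine iSup_mono fun α' => ?_
    refine inf_le_inf (tv_mono fun h => hαγ.trans h) ?_
    refine iSup_le fun q' => ?_
    have h2 : G.F q' (T.hit (fun a => e a η) α' (rng (e α'))) ≤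
        ⨆ q'', ⨆ y, G.le q'' q' ⊓ G.F q'' (T.hit (fun a => e a η) α' (e α' y)) := by
      apply G.decSub _ (fun y => T.hit (fun a => e a η) α' (e α' y)) hYτ
      intro a
      exact (T.hit_iSup (fun a => e a η) α' (e α') a).le
    refine (inf_le_inf_left _ h2).trans ?_
    rw [inf_iSup_eq]
    refine iSup_le fun q'' => ?_
    rw [inf_iSup_eq]
    refine iSup_le fun y => ?_
    refine _root_.le_trans ?_ (le_iSup _ q'')
    have h3 : G.F q'' (T.hit (fun a => e a η) α' (e α' y)) ≤ ⨆ u, e α' y u :=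
      (G.F_ne q'' _).trans (iSup_le fun a => T.hit_le _ α' _ a)
    have h4 : G.le q' q ⊓ (G.le q'' q' ⊓ G.F q'' (T.hit (fun a => e a η) α' (e α' y))) ≤
        G.le q'' q :=
      (le_inf (inf_le_right.trans inf_le_left) inf_le_left).trans (G.le_trans q'' q' q)
    have h5 : G.le q' q ⊓ (G.le q'' q' ⊓ G.F q'' (T.hit (fun a => e a η) α' (e α' y))) ≤
        G.le q'' q ⊓ (G.F q'' (T.hit (fun a => e a η) α' (e α' y)) ⊓ ⨆ u, e α' y u) :=
      le_inf h4 (le_inf (inf_le_right.trans inf_le_right)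
        ((inf_le_right.trans inf_le_right).trans h3))
    refine h5.trans ?_
    rw [inf_iSup_eq, inf_iSup_eq]
    refine iSup_mono fun u => inf_le_inf_left _ ?_
    rw [inf_comm]
    refine G.F_mono q'' (e α' y u) _ _ (fun a => T.hit_mono _ α' a fun v => ?_)
    by_cases hv : v = u
    · exact le_tv hv _
    · rw [inf_comm, he α' y v u hv]; exact bot_le
  constructor
  · intro α X
    have hexp : c ⊓ G.pos T (fun a => e a η) q₀ α X =
        ⨆ q, c ⊓ (G.le q q₀ ⊓ G.F q (T.hit (fun a => e a η) α X)) := by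
      unfold BUF.pos
      rw [inf_iSup_eq]
    rw [hexp]
    refine iSup_le fun q => ?_
    have h1 : c ⊓ (G.le q q₀ ⊓ G.F q (T.hit (fun a => e a η) α X)) ≤
        (c ⊓ (G.le q q₀ ⊓ G.F q (T.hit (fun a => e a η) α X))) ⊓
        ⨆ α', tv (α ≤ α') ⊓ ⨆ q'', ⨆ u, G.le q'' q ⊓
          G.F q'' (T.hit (fun a => e a η) α' (fun v => tv (v = u))) :=
      le_inf le_rfl ((le_inf inf_le_left (inf_le_right.trans inf_le_left)).trans (key q α))
    refine h1.trans ?_
    rw [inf_iSup_eq]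
    refine iSup_mono fun α' => ?_
    by_cases hα : α ≤ α'
    · rw [tv_true hα, top_inf_eq, top_inf_eq, inf_iSup_eq]
      refine iSup_le fun q'' => ?_
      rw [inf_iSup_eq]
      refine iSup_mono fun u => ?_
      unfold BUF.pos
      refine _root_.le_trans ?_ (le_iSup _ q'')
      refine le_inf ?_ ?_
      · exact (le_inf (inf_le_right.trans inf_le_left)
          (inf_le_left.trans (inf_le_right.trans inf_le_left))).trans (G.le_trans q'' q q₀)
      · have h2 : c ⊓ (G.le q q₀ ⊓ G.F q (T.hit (fun a => e a η) α X)) ⊓ (G.le q'' q ⊓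
            G.F q'' (T.hit (fun a => e a η) α' (fun v => tv (v = u)))) ≤
            G.F q'' (T.hit (fun a => e a η) α X) :=
          (le_inf (inf_le_right.trans inf_le_left)
            (inf_le_left.trans (inf_le_right.trans inf_le_right))).trans (G.F_le q q'' _)
        have h3 := (le_inf h2 (inf_le_right.trans inf_le_right)).trans
          (G.F_inf q'' (T.hit (fun a => e a η) α X)
            (T.hit (fun a => e a η) α' (fun v => tv (v = u))))
        refine h3.trans (G.F_mono' q'' fun a => ?_)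
        have h4 : T.hit (fun a => e a η) α X a ⊓
            T.hit (fun a => e a η) α' (fun v => tv (v = u)) a ≤
            T.hit (fun a => e a η) α' (T.pre α α' X) a :=
          (inf_le_inf_left _ (T.hit_le_tv _ α' _ a)).trans (T.hit_pre _ hα X a)
        exact (le_inf h4 inf_le_right).trans (T.hit_inf hd α' _ _ a)
    · rw [tv_false hα, bot_inf_eq, inf_bot_eq]
      exact bot_le
  · intro α
    have h1 : c ≤ c ⊓ G.le q₀ q₀ := le_inf le_rfl (by rw [G.le_refl]; exact le_top)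
    refine (h1.trans (key q₀ α)).trans ?_
    refine iSup_le fun α' => ?_
    by_cases hα : α ≤ α'
    · refine inf_le_right.trans ?_
      refine iSup_le fun q'' => iSup_le fun u => ?_
      unfold BUF.pos
      refine _root_.le_trans ?_ (le_iSup _ q'')
      refine inf_le_inf_left _ (G.F_mono' q'' fun a => ?_)
      refine (T.hit_img _ hα _ a).trans ?_
      have h2 := T.hit_mono (fun a => e a η) α (c := ⊤)
        (A := T.img α α' (fun v => tv (v = u))) (A' := fun _ => ⊤) a (fun x => le_top)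
      rwa [top_inf_eq] at h2
    · rw [tv_false hα, bot_inf_eq]; exact bot_le

end BT
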