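import Pool.Agent.Helper18.BT.A01

/-!
# BT-A13: the set of positive points of a level is the range of a function on `M`

PROOF.  `E x := Φ.pos α (fun v => tv (v = x))`.  `S := {e : M → N → B // IsFunc e}`,
`Ψ e := ⨆ x, E x ⊓ (rng e x)ᶜ`.  If `b ≤ ⨆ e : S, (Ψ e)ᶜ` then `Mix.full` for `Mix.func B M N` gives `e`
with `b ≤ (Ψ e)ᶜ`, that is, `b ⊓ E x ≤ rng e x`.  Otherwise `c := b ⊓ (⨆ e : S, (Ψ e)ᶜ)ᶜ ≠ ⊥` and
`c ≤ Ψ e` for all `e`; by `exists_disjoint` for every `e` there is `u : N → B` with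
`u x ≤ E x ⊓ (rng e x)ᶜ`, `u x ⊓ u x' = ⊥` for `x ≠ x'`, `c ≤ ⨆ x, u x`.  Recursion over `M`
(`WellFounded.fix`): `u ζ` is the `u` for `e := fun ζ' => if ζ' < ζ then u ζ' else ⊥`
(work with the subtype of `u : N → B` with disjoint values so that `e` is a partial function).
Then (i) `c ≤ Φ.pos α (u ζ)`: `u ζ x ⊓ Φ.pos α {x} ≤ Φ.pos α (u ζ)` by `mono`
(`u ζ x ⊓ tv (v = x) ≤ u ζ v`) and `u ζ x ≤ E x`; (ii) `c ≤ dj u` (`u ζ x ≤ (u ζ' x)ᶜ` for `ζ' < ζ`).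
By `hsat` `c = ⊥`, contradiction.
-/

open Cardinal

namespace BT

variable {B : Type} [CompleteBooleanAlgebra B] {I : Type} [Preorder I] {N : Type}
  {T : BSys B I N} {τ : Cardinal.{0}}

theorem PosSys.exists_enum (Φ : PosSys T τ) (b : B) (α : I) {M : Type} [LinearOrder M]
    [WellFoundedLT M]
    (hsat : ∀ A : M → N → B, b ⊓ ((⨅ ζ, Φ.pos α (A ζ)) ⊓ dj A) = ⊥) :
    ∃ e : M → N → B, IsFunc e ∧ ∀ x, b ⊓ Φ.pos α (fun v => tv (v = x)) ≤ rng e x := by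
  classical
  set E : N → B := fun x => Φ.pos α (fun v => tv (v = x)) with hE
  let Ψ : {e : M → N → B // IsFunc e} → B := fun e => ⨆ x, E x ⊓ (rng e.1 x)ᶜ
  by_cases hb : b ≤ ⨆ e : {e : M → N → B // IsFunc e}, (Ψ e)ᶜ
  · obtain ⟨e, he⟩ := (Mix.func B M N).full (b := b) (fun e => (Ψ e)ᶜ) (by
      intro c e e' hag
      have hr : ∀ x, c ⊓ rng e.1 x = c ⊓ rng e'.1 x := by
        intro x
        simp only [rng, inf_iSup_eq]
        exact iSup_congr fun ζ => hag ζ x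
      have hr2 : ∀ x, c ⊓ (rng e.1 x)ᶜ = c ⊓ (rng e'.1 x)ᶜ := by
        intro x
        rw [← sdiff_eq, ← sdiff_eq, ← sdiff_inf_self_left c (rng e.1 x), hr x, sdiff_inf_self_left]
      have h1 : c ⊓ Ψ e = c ⊓ Ψ e' := by
        simp only [Ψ, inf_iSup_eq]
        refine iSup_congr fun x => ?_
        rw [inf_left_comm, hr2 x, inf_left_comm]
      apply le_compl_of_inf_eq_bot
      rw [← le_bot_iff]
      calc c ⊓ (Ψ e')ᶜ ⊓ Ψ e = (c ⊓ Ψ e) ⊓ (Ψ e')ᶜ := by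
            rw [inf_right_comm]
        _ = (c ⊓ Ψ e') ⊓ (Ψ e')ᶜ := by rw [h1]
        _ ≤ Ψ e' ⊓ (Ψ e')ᶜ := inf_le_inf_right _ inf_le_right
        _ = ⊥ := inf_compl_self _) hb
    refine ⟨e.1, e.2, fun x => ?_⟩
    apply le_of_inf_compl_eq_bot
    rw [← le_bot_iff]
    calc b ⊓ E x ⊓ (rng e.1 x)ᶜ ≤ (Ψ e)ᶜ ⊓ Ψ e := by
          rw [inf_assoc]
          exact inf_le_inf he (le_iSup (fun x => E x ⊓ (rng e.1 x)ᶜ) x)
      _ = ⊥ := compl_inf_self _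
  · exfalso
    set c := b ⊓ (⨆ e : {e : M → N → B // IsFunc e}, (Ψ e)ᶜ)ᶜ with hc
    have hc0 : c ≠ ⊥ := inf_compl_ne_bot hb
    have hcΨ : ∀ e, c ≤ Ψ e := by
      intro e
      have h1 : (Ψ e)ᶜ ≤ ⨆ e : {e : M → N → B // IsFunc e}, (Ψ e)ᶜ :=
        le_iSup (fun e => (Ψ e)ᶜ) e
      have h2 := compl_le_compl h1
      rw [compl_compl] at h2
      exact inf_le_right.trans h2
    have hch : ∀ e : {e : M → N → B // IsFunc e}, ∃ u : N → B,
        (∀ x, u x ≤ E x ⊓ (rng e.1 x)ᶜ) ∧ (∀ x x', x ≠ x' → u x ⊓ u x' = ⊥) ∧ c ≤ ⨆ x, u x := by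
      intro e
      obtain ⟨u, h1, h2, h3⟩ := exists_disjoint (fun x => E x ⊓ (rng e.1 x)ᶜ)
      exact ⟨u, h1, h2, (hcΨ e).trans h3.ge⟩
    choose w hw1 hw2 hw3 using hch
    let U := {u : N → B // ∀ x x', x ≠ x' → u x ⊓ u x' = ⊥}
    have hfun : ∀ (ζ : M) (g : ∀ ζ', ζ' < ζ → U),
        IsFunc (fun ζ' => if h : ζ' < ζ then (g ζ' h).1 else (⊥ : N → B)) := by
      intro ζ g ζ' x x' hx
      by_cases h : ζ' < ζ
      · simp only [dif_pos h]
        exact (g ζ' h).2 x x' hx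
      · simp only [dif_neg h]
        exact bot_inf_eq _
    let G : ∀ ζ : M, (∀ ζ', ζ' < ζ → U) → U := fun ζ g =>
      ⟨w ⟨fun ζ' => if h : ζ' < ζ then (g ζ' h).1 else (⊥ : N → B), hfun ζ g⟩, hw2 _⟩
    let u : M → U := WellFounded.fix (wellFounded_lt (α := M)) G
    have hu : ∀ ζ, u ζ = G ζ (fun ζ' _ => u ζ') := fun ζ => WellFounded.fix_eq _ _ _
    have hu1 : ∀ ζ x, (u ζ).1 x ≤ E x ⊓ (rng (fun ζ' => if ζ' < ζ then (u ζ').1 else (⊥ : N → B)) x)ᶜ := by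
      intro ζ x
      have h1 := hw1 ⟨fun ζ' => if h : ζ' < ζ then ((fun ζ' _ => u ζ') ζ' h : U).1 else (⊥ : N → B),
        hfun ζ (fun ζ' _ => u ζ')⟩ x
      have h2 : (u ζ).1 = w ⟨fun ζ' => if h : ζ' < ζ then ((fun ζ' _ => u ζ') ζ' h : U).1 else (⊥ : N → B),
        hfun ζ (fun ζ' _ => u ζ')⟩ := by
        rw [hu ζ]
      rw [h2]
      exact h1
    have hu3 : ∀ ζ, c ≤ ⨆ x, (u ζ).1 x := by
      intro ζ
      have h2 : (u ζ).1 = w ⟨fun ζ' => if h : ζ' < ζ then ((fun ζ' _ => u ζ') ζ' h : U).1 else (⊥ : N → B),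
        hfun ζ (fun ζ' _ => u ζ')⟩ := by
        rw [hu ζ]
      rw [h2]
      exact hw3 _
    have hpos : ∀ ζ, c ≤ Φ.pos α (u ζ).1 := by
      intro ζ
      refine (hu3 ζ).trans (iSup_le fun x => ?_)
      calc (u ζ).1 x ≤ (u ζ).1 x ⊓ Φ.pos α (fun v => tv (v = x)) :=
            le_inf le_rfl ((hu1 ζ x).trans inf_le_left)
        _ ≤ Φ.pos α (u ζ).1 := by
            apply Φ.mono
            intro v
            by_cases hv : v = x
            · subst hv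
              exact inf_le_left
            · rw [tv_false hv, inf_bot_eq]
              exact bot_le
    have hlt : ∀ ζ ζ' x, ζ' < ζ → (u ζ).1 x ⊓ (u ζ').1 x = ⊥ := by
      intro ζ ζ' x h
      rw [← le_bot_iff]
      have h1 : (u ζ').1 x ≤ rng (fun ζ' => if ζ' < ζ then (u ζ').1 else (⊥ : N → B)) x := by
        refine le_iSup_of_le ζ' ?_
        simp only [if_pos h]
        exact le_rfl
      calc (u ζ).1 x ⊓ (u ζ').1 x ≤ (rng (fun ζ' => if ζ' < ζ then (u ζ').1 else (⊥ : N → B)) x)ᶜ ⊓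
            rng (fun ζ' => if ζ' < ζ then (u ζ').1 else (⊥ : N → B)) x :=
            inf_le_inf ((hu1 ζ x).trans inf_le_right) h1
        _ = ⊥ := compl_inf_self _
    have hdj : c ≤ dj (fun ζ => (u ζ).1) := by
      unfold dj
      refine le_iInf fun ζ => le_iInf fun ζ' => le_iInf fun hne => le_iInf fun x => ?_
      have h0 : (u ζ).1 x ⊓ (u ζ').1 x = ⊥ := by
        rcases lt_or_gt_of_ne hne with h | h
        · rw [inf_comm]
          exact hlt ζ' ζ x h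
        · exact hlt ζ ζ' x h
      rw [h0, compl_bot]
      exact le_top
    apply hc0
    rw [← le_bot_iff, ← hsat (fun ζ => (u ζ).1)]
    exact le_inf inf_le_left (le_inf (le_iInf hpos) hdj)

end BT
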