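import Pool.Agent.Helper18.BT.A01

/-!
# BT-A14: threads through systems with small levels (Kurepa), Boolean valued

PROOF.  For `x ≤ y` let `br x y := ⨆ f, ⨆ g, tv (f ≠ g) ⊓ E y f ⊓ E y g ⊓ ⨆ z, T.P x y z f ⊓ T.P x y z g`
and `br x y := ⊥` if not `x ≤ y`.
(1) `b ⊓ br x y ≤ br x y'` for `y ≤ y'`: by `hsurj` `f`, `g` have extensions `f'`, `g'` in `E y'`
(`E y f ≤ ⨆ f', E y' f' ⊓ T.P y y' f f'`), `f' ≠ g'` since `T.P y y' f f' ⊓ T.P y y' g f' = ⊥`, and the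
projections to `x` agree by `trans`.
Case 1: there is `x₀` with `c := b ⊓ (⨆ y, br x₀ y)ᶜ ≠ ⊥`.  By `hne x₀` there is `u₀ : N` with
`c' := c ⊓ E x₀ u₀ ≠ ⊥`.  Put
`R a x := ⨆ y, tv (x₀ ≤ y ∧ a ≤ y) ⊓ ⨆ v, E y v ⊓ T.P x₀ y u₀ v ⊓ T.P a y x v`.
Claim: below `c'`, if `x₀ ≤ y, y'` and `v ∈ E y`, `v' ∈ E y'` project to `u₀` then for `y'' ≥ y, y'`
(`hdir`) there are extensions `w, w' ∈ E y''` of `v`, `v'`, which project to `u₀`, so `w = w'` (as
`br x₀ y''` is disjoint from `c`).  Hence `IsThread T c' R`: total: take `y ≥ x₀, a`, by `hsurj` some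
`v ∈ E y` projects to `u₀`, and total.  func: `x`, `x'` are both the projection of the same `w`.
coh: if `R α x`, `R β y` then `x`, `y` are projections of the same `w` of a level `≥ α, β`, so
`T.P α β x y` by `BSys.tri` (A01).
Case 2: `b ≤ ⨆ y, br x y` for all `x`.  `Run` for `φ x y := ⨆ y₀, tv (y₀ ≤ y) ⊓ (b ⊓ br x y₀)` gives
`c ≤ b`, `c ≠ ⊥`, `z, z' : W → I`, `t` with (by (1)) `c ≤ br (z w) (z' w)`, `z w ≤ z' w ≤ t`,
`z' w ≤ z w'` for `w < w'`.  For `w : W`, `p : M × M` let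
`ψ p w := c ⊓ ⨆ f, ⨆ g, e t p.1 f ⊓ e t p.2 g ⊓ (⨆ y, T.P (z w) t y f ⊓ T.P (z w) t y g) ⊓
(⨆ y, T.P (z' w) t y f ⊓ T.P (z' w) t y g)ᶜ`.  Then `c ≤ ⨆ p, ψ p w` (extend the two points from `z' w`
to `t` by `hsurj`; `hE t`; the projections to `z' w` are different, `func`), and for `w < w'`
`ψ p w ⊓ ψ p w' = ⊥`: `f`, `g` are the same (`e t` functional), equal projections to `z w'` give equal
projections to `z' w ≤ z w'` (`pre`/`trans`, total).  So `ψ` is a name for a partial function from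
`M × M` onto `W` (below `c`): contradiction with `hns`.
-/

open Cardinal

namespace BT

variable {B : Type} [CompleteBooleanAlgebra B] {I : Type} [Preorder I] {N : Type}
  (T : BSys B I N)

private lemma fpick {ι : Sort*} {c : B} (hc : c ≠ ⊥) {φ : ι → B} (h : c ≤ ⨆ i, φ i) :
    ∃ i, ∃ d, d ≤ c ∧ d ≠ ⊥ ∧ d ≤ φ i := by
  obtain ⟨i, hi⟩ := exists_inf_ne_bot hc h
  exact ⟨i, c ⊓ φ i, inf_le_left, hi, inf_le_right⟩

private lemma fdense {u v : B}
    (h : ∀ c, c ≤ u → c ≠ ⊥ → ∃ d, d ≤ c ∧ d ≠ ⊥ ∧ d ≤ v) : u ≤ v := by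
  apply le_of_inf_compl_eq_bot
  by_contra hne
  obtain ⟨d, h1, h2, h3⟩ := h _ inf_le_left hne
  exact h2 (le_bot_iff.1 ((le_inf h3 (h1.trans inf_le_right)).trans (inf_compl_self v).le))

private lemma ftv {p : Prop} {c : B} (hc : c ≠ ⊥) (h : c ≤ tv p) : p := by
  by_contra hp
  rw [tv_false hp] at h
  exact hc (le_bot_iff.1 h)

private lemma ftop {c d : B} (h : c = ⊤) : d ≤ c := by
  rw [h]
  exact le_top

private lemma ffunc {α β : I} (h : α ≤ β) {x x' y : N} {d : B} (hd : d ≠ ⊥)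
    (h1 : d ≤ T.P α β x y) (h2 : d ≤ T.P α β x' y) : x = x' := by
  by_contra hne
  exact hd (le_bot_iff.1 ((le_inf h1 h2).trans (T.func h x x' y hne).le))

private lemma ftrans {α β γ : I} (h : α ≤ β) (h' : β ≤ γ) {x y z : N} {d : B}
    (h1 : d ≤ T.P α β x y) (h2 : d ≤ T.P β γ y z) : d ≤ T.P α γ x z :=
  (le_inf h1 h2).trans (T.trans h h' x y z)

private def brv (E : I → N → B) (x y : I) : B :=
  tv (x ≤ y) ⊓ ⨆ f, ⨆ g, tv (f ≠ g) ⊓ (E y f ⊓ E y g ⊓ ⨆ z, T.P x y z f ⊓ T.P x y z g)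

private lemma le_brv (E : I → N → B) {x y : I} (hxy : x ≤ y) {f g z : N} (hfg : f ≠ g) {d : B}
    (h1 : d ≤ E y f) (h2 : d ≤ E y g) (h3 : d ≤ T.P x y z f) (h4 : d ≤ T.P x y z g) :
    d ≤ brv T E x y := by
  unfold brv
  refine le_inf (le_tv hxy _) ?_
  refine le_iSup_of_le f (le_iSup_of_le g ?_)
  exact le_inf (le_tv hfg _) (le_inf (le_inf h1 h2) (le_iSup_of_le z (le_inf h3 h4)))

private lemma brv_pick (E : I → N → B) {x y : I} {d : B} (hd : d ≠ ⊥) (h : d ≤ brv T E x y) :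
    x ≤ y ∧ ∃ f g z : N, ∃ d', d' ≤ d ∧ d' ≠ ⊥ ∧ f ≠ g ∧ d' ≤ E y f ∧ d' ≤ E y g ∧
      d' ≤ T.P x y z f ∧ d' ≤ T.P x y z g := by
  unfold brv at h
  refine ⟨ftv hd (h.trans inf_le_left), ?_⟩
  obtain ⟨f, d1, a1, n1, h1⟩ := fpick hd (h.trans inf_le_right)
  obtain ⟨g, d2, a2, n2, h2⟩ := fpick n1 h1
  obtain ⟨z, d3, a3, n3, h3⟩ := fpick n2 ((h2.trans inf_le_right).trans inf_le_right)
  refine ⟨f, g, z, d3, a3.trans (a2.trans a1), n3, ftv n2 (h2.trans inf_le_left),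
    a3.trans (((h2.trans inf_le_right).trans inf_le_left).trans inf_le_left),
    a3.trans (((h2.trans inf_le_right).trans inf_le_left).trans inf_le_right),
    h3.trans inf_le_left, h3.trans inf_le_right⟩

private lemma fext (E : I → N → B) {b : B}
    (hsurj : ∀ α β, α ≤ β → ∀ x, b ⊓ E α x ≤ ⨆ y, E β y ⊓ T.P α β x y) {α β : I} (h : α ≤ β)
    {x : N} {d : B} (hd : d ≠ ⊥) (hb : d ≤ b) (h1 : d ≤ E α x) :
    ∃ y, ∃ d', d' ≤ d ∧ d' ≠ ⊥ ∧ d' ≤ E β y ∧ d' ≤ T.P α β x y := by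
  obtain ⟨y, d', a, n, h2⟩ := fpick hd ((le_inf hb h1).trans (hsurj α β h x))
  exact ⟨y, d', a, n, h2.trans inf_le_left, h2.trans inf_le_right⟩

private lemma brv_mono (E : I → N → B) {b : B}
    (hsurj : ∀ α β, α ≤ β → ∀ x, b ⊓ E α x ≤ ⨆ y, E β y ⊓ T.P α β x y) {x y y' : I}
    (hy : y ≤ y') : b ⊓ brv T E x y ≤ brv T E x y' := by
  apply fdense
  intro c hc hne
  obtain ⟨hxy, f, g, z, d1, a1, n1, hfg, e1, e2, e3, e4⟩ :=
    brv_pick T E hne (hc.trans inf_le_right)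
  have b1 : d1 ≤ b := a1.trans (hc.trans inf_le_left)
  obtain ⟨f', d2, a2, n2, e5, e6⟩ := fext T E hsurj hy n1 b1 e1
  obtain ⟨g', d3, a3, n3, e7, e8⟩ := fext T E hsurj hy n2 (a2.trans b1) (a2.trans e2)
  have hfg' : f' ≠ g' := by
    intro he
    subst he
    exact hfg (ffunc T hy n3 (a3.trans e6) e8)
  exact ⟨d3, a3.trans (a2.trans a1), n3, le_brv T E (hxy.trans hy) hfg' (a3.trans e5) e7
    (ftrans T hxy hy (a3.trans (a2.trans e3)) (a3.trans e6))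
    (ftrans T hxy hy (a3.trans (a2.trans e4)) e8)⟩

theorem thread_of_small (E : I → N → B) {b : B} (hb : b ≠ ⊥)
    (hdir : ∀ α β : I, ∃ γ, α ≤ γ ∧ β ≤ γ) (hI : Nonempty I)
    (hsurj : ∀ α β, α ≤ β → ∀ x, b ⊓ E α x ≤ ⨆ y, E β y ⊓ T.P α β x y)
    (hne : ∀ α, b ≤ ⨆ x, E α x) {M : Type} (e : I → M → N → B) (he : ∀ α, IsFunc (e α))
    (hE : ∀ α x, b ⊓ E α x ≤ rng (e α) x) {W : Type} [LinearOrder W] (hrun : Run B I W)
    (hns : NoSurj B (M × M) W) : ∃ c ≤ b, c ≠ ⊥ ∧ ∃ R, IsThread T c R := by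
  by_cases hcase : ∃ x₀, b ⊓ (⨆ y, brv T E x₀ y)ᶜ ≠ ⊥
  · obtain ⟨x₀, hx₀⟩ := hcase
    obtain ⟨u₀, c, a0, n0, hu₀⟩ := fpick hx₀ (inf_le_left.trans (hne x₀))
    have hcb : c ≤ b := a0.trans inf_le_left
    have hcn : c ≤ (⨆ y, brv T E x₀ y)ᶜ := a0.trans inf_le_right
    let R : I → N → B := fun a x =>
      ⨆ y, tv (x₀ ≤ y ∧ a ≤ y) ⊓ ⨆ v, E y v ⊓ T.P x₀ y u₀ v ⊓ T.P a y x v
    have hR : ∀ {a : I} {x : N} {d : B}, d ≠ ⊥ → d ≤ R a x → ∃ y v, ∃ d', d' ≤ d ∧ d' ≠ ⊥ ∧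
        x₀ ≤ y ∧ a ≤ y ∧ d' ≤ E y v ∧ d' ≤ T.P x₀ y u₀ v ∧ d' ≤ T.P a y x v := by
      intro a x d hd h
      obtain ⟨y, d1, a1, n1, h1⟩ := fpick hd h
      have h2 := ftv n1 (h1.trans inf_le_left)
      obtain ⟨v, d2, a2, n2, h3⟩ := fpick n1 (h1.trans inf_le_right)
      exact ⟨y, v, d2, a2.trans a1, n2, h2.1, h2.2, (h3.trans inf_le_left).trans inf_le_left,
        (h3.trans inf_le_left).trans inf_le_right, h3.trans inf_le_right⟩
    have merge : ∀ {a a' : I} {x x' : N} {d : B}, d ≠ ⊥ → d ≤ c → d ≤ R a x → d ≤ R a' x' →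
        ∃ y w, ∃ d', d' ≤ d ∧ d' ≠ ⊥ ∧ a ≤ y ∧ a' ≤ y ∧ d' ≤ T.P a y x w ∧
          d' ≤ T.P a' y x' w := by
      intro a a' x x' d hd hdc h h'
      obtain ⟨y, v, d1, a1, n1, hxy, hay, e1, e2, e3⟩ := hR hd h
      obtain ⟨y', v', d2, a2, n2, hxy', hay', e1', e2', e3'⟩ := hR n1 (a1.trans h')
      obtain ⟨y'', hy, hy'⟩ := hdir y y'
      have b2 : d2 ≤ b := a2.trans (a1.trans (hdc.trans hcb))
      obtain ⟨w, d3, a3, n3, f1, f2⟩ := fext T E hsurj hy n2 b2 (a2.trans e1)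
      obtain ⟨w', d4, a4, n4, f1', f2'⟩ := fext T E hsurj hy' n3 (a3.trans b2) (a3.trans e1')
      have g1 : d4 ≤ T.P x₀ y'' u₀ w :=
        ftrans T hxy hy ((a4.trans (a3.trans a2)).trans e2) (a4.trans f2)
      have g2 : d4 ≤ T.P x₀ y'' u₀ w' := ftrans T hxy' hy' ((a4.trans a3).trans e2') f2'
      have hw : w = w' := by
        by_contra hww
        have h5 : d4 ≤ ⨆ y, brv T E x₀ y :=
          le_iSup_of_le y'' (le_brv T E (hxy.trans hy) hww (a4.trans f1) f1' g1 g2)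
        have h6 : d4 ≤ (⨆ y, brv T E x₀ y)ᶜ :=
          (a4.trans (a3.trans (a2.trans (a1.trans hdc)))).trans hcn
        exact n4 (le_bot_iff.1 ((le_inf h5 h6).trans (inf_compl_self _).le))
      subst hw
      exact ⟨y'', w, d4, a4.trans (a3.trans (a2.trans a1)), n4, hay.trans hy, hay'.trans hy',
        ftrans T hay hy ((a4.trans (a3.trans a2)).trans e3) (a4.trans f2),
        ftrans T hay' hy' ((a4.trans a3).trans e3') f2'⟩
    refine ⟨c, hcb, n0, R, ?_, ?_, ?_⟩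
    · intro a
      apply fdense
      intro d hd hdn
      obtain ⟨y, hy1, hy2⟩ := hdir x₀ a
      obtain ⟨v, d1, a1, n1, e1, e2⟩ := fext T E hsurj hy1 hdn (hd.trans hcb) (hd.trans hu₀)
      obtain ⟨x, d2, a2, n2, e3⟩ := fpick n1 (ftop (d := d1) (T.total hy2 v))
      refine ⟨d2, a2.trans a1, n2, le_iSup_of_le x (le_iSup_of_le y ?_)⟩
      exact le_inf (le_tv ⟨hy1, hy2⟩ _) (le_iSup_of_le v
        (le_inf (le_inf (a2.trans e1) (a2.trans e2)) e3))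
    · intro a x x' hxx
      by_contra hcon
      obtain ⟨y, w, d, a1, n1, h1, h2, e1, e2⟩ := merge hcon (inf_le_left.trans inf_le_left)
        (inf_le_left.trans inf_le_right) inf_le_right
      exact hxx (ffunc T h1 n1 e1 e2)
    · intro α β hαβ x y
      apply fdense
      intro d hd hdn
      obtain ⟨y'', w, d', a1, n1, h1, h2, e1, e2⟩ := merge hdn
        ((hd.trans inf_le_left).trans inf_le_left) ((hd.trans inf_le_left).trans inf_le_right)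
        (hd.trans inf_le_right)
      exact ⟨d', a1, n1, (le_inf e1 e2).trans (T.tri hαβ h2 x y w)⟩
  · push Not at hcase
    exfalso
    have hall : ∀ x, b ≤ ⨆ y, brv T E x y := fun x => le_of_inf_compl_eq_bot (hcase x)
    let φ : I → I → B := fun x y => ⨆ y₀, tv (y₀ ≤ y) ⊓ (b ⊓ brv T E x y₀)
    obtain ⟨c, hcb, hc, z, z', t, hz, hz'⟩ := hrun φ
      (fun x y y' hy => iSup_mono fun y₀ => inf_le_inf_right _ (tv_mono fun h => h.trans hy)) b hb
      (fun x => by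
        calc b ≤ b ⊓ ⨆ y, brv T E x y := le_inf le_rfl (hall x)
          _ = ⨆ y, b ⊓ brv T E x y := inf_iSup_eq _ _
          _ ≤ ⨆ y, φ x y := iSup_mono fun y => le_iSup_of_le y (le_inf (le_tv le_rfl _) le_rfl))
    have hbr : ∀ w, c ≤ brv T E (z w) (z' w) := by
      intro w
      refine (hz w).2.2.trans (iSup_le fun y₀ => ?_)
      by_cases hy : y₀ ≤ z' w
      · exact inf_le_right.trans (brv_mono T E hsurj hy)
      · rw [tv_false hy, bot_inf_eq]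
        exact bot_le
    let ψ : M × M → W → B := fun p w => c ⊓ ⨆ f, ⨆ g, (e t p.1 f ⊓ e t p.2 g) ⊓
      ((⨆ y, T.P (z w) t y f ⊓ T.P (z w) t y g) ⊓ (⨆ y, T.P (z' w) t y f ⊓ T.P (z' w) t y g)ᶜ)
    have hψ : ∀ {p : M × M} {w : W} {d : B}, d ≠ ⊥ → d ≤ ψ p w → ∃ f g, ∃ d', d' ≤ d ∧ d' ≠ ⊥ ∧
        d' ≤ e t p.1 f ∧ d' ≤ e t p.2 g ∧ d' ≤ (⨆ y, T.P (z w) t y f ⊓ T.P (z w) t y g) ∧
        d' ≤ (⨆ y, T.P (z' w) t y f ⊓ T.P (z' w) t y g)ᶜ := by
      intro p w d hd h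
      obtain ⟨f, d1, a1, n1, h1⟩ := fpick hd (h.trans inf_le_right)
      obtain ⟨g, d2, a2, n2, h2⟩ := fpick n1 h1
      exact ⟨f, g, d2, a2.trans a1, n2, (h2.trans inf_le_left).trans inf_le_left,
        (h2.trans inf_le_left).trans inf_le_right, (h2.trans inf_le_right).trans inf_le_left,
        (h2.trans inf_le_right).trans inf_le_right⟩
    have key : ∀ p w w', w < w' → ψ p w ⊓ ψ p w' = ⊥ := by
      intro p w w' hw
      by_contra hcon
      obtain ⟨f, g, d1, a1, n1, e1, e2, e3, e4⟩ := hψ hcon inf_le_left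
      obtain ⟨f', g', d2, a2, n2, e1', e2', e3', e4'⟩ := hψ n1 (a1.trans inf_le_right)
      have hf : f = f' := by
        by_contra hne'
        exact n2 (le_bot_iff.1 ((le_inf (a2.trans e1) e1').trans (he t p.1 f f' hne').le))
      have hg : g = g' := by
        by_contra hne'
        exact n2 (le_bot_iff.1 ((le_inf (a2.trans e2) e2').trans (he t p.2 g g' hne').le))
      subst hf
      subst hg
      obtain ⟨y, d3, a3, n3, h3⟩ := fpick n2 e3'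
      have hzz := hz' w w' hw
      have hzt : z w' ≤ t := (hz w').1.trans (hz w').2.1
      obtain ⟨u, d4, a4, n4, h4⟩ := fpick n3 (ftop (d := d3) (T.total hzz y))
      have h5 : d4 ≤ ⨆ y, T.P (z' w) t y f ⊓ T.P (z' w) t y g :=
        le_iSup_of_le u (le_inf (ftrans T hzz hzt h4 (a4.trans (h3.trans inf_le_left)))
          (ftrans T hzz hzt h4 (a4.trans (h3.trans inf_le_right))))
      have h6 := (a4.trans (a3.trans a2)).trans e4
      exact n4 (le_bot_iff.1 ((le_inf h5 h6).trans (inf_compl_self _).le))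
    have hfun : IsFunc ψ := by
      intro p w w' hne'
      rcases lt_or_gt_of_ne hne' with h | h
      · exact key p w w' h
      · rw [inf_comm]
        exact key p w' w h
    have hsur : c ≤ ⨅ w, ⨆ p, ψ p w := by
      refine le_iInf fun w => ?_
      apply fdense
      intro d hd hdn
      obtain ⟨hzz, f, g, y, d1, a1, n1, hfg, e1, e2, e3, e4⟩ :=
        brv_pick T E hdn (hd.trans (hbr w))
      have hzt := (hz w).2.1
      have b1 : d1 ≤ b := a1.trans (hd.trans hcb)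
      obtain ⟨f', d2, a2, n2, e5, e6⟩ := fext T E hsurj hzt n1 b1 e1
      obtain ⟨g', d3, a3, n3, e7, e8⟩ := fext T E hsurj hzt n2 (a2.trans b1) (a2.trans e2)
      obtain ⟨m1, d4, a4, n4, e9⟩ := fpick n3 ((le_inf ((a3.trans a2).trans b1)
        (a3.trans e5)).trans (hE t f'))
      obtain ⟨m2, d5, a5, n5, e10⟩ := fpick n4 ((le_inf ((a4.trans (a3.trans a2)).trans b1)
        (a4.trans e7)).trans (hE t g'))
      have s3 : d5 ≤ d3 := a5.trans a4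
      have s2 : d5 ≤ d2 := s3.trans a3
      have s1 : d5 ≤ d1 := s2.trans a2
      refine ⟨d5, s1.trans a1, n5, le_iSup_of_le (m1, m2) (le_inf (s1.trans (a1.trans hd)) ?_)⟩
      refine le_iSup_of_le f' (le_iSup_of_le g' (le_inf (le_inf (a5.trans e9) e10)
        (le_inf ?_ ?_)))
      · exact le_iSup_of_le y (le_inf (ftrans T hzz hzt (s1.trans e3) (s2.trans e6))
          (ftrans T hzz hzt (s1.trans e4) (s3.trans e8)))
      · apply le_compl_of_inf_eq_bot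
        by_contra hcon
        obtain ⟨y', d6, a6, n6, e11⟩ := fpick hcon inf_le_right
        have s6 : d6 ≤ d5 := a6.trans inf_le_left
        have q1 := ffunc T hzt n6 (e11.trans inf_le_left) ((s6.trans s2).trans e6)
        have q2 := ffunc T hzt n6 (e11.trans inf_le_right) ((s6.trans s3).trans e8)
        exact hfg (q1.symm.trans q2)
    rw [hns ψ hfun] at hsur
    exact hc (le_bot_iff.1 hsur)

/-- Threads can be glued. -/
theorem thread_glue (h : ∀ b : B, b ≠ ⊥ → ∃ c ≤ b, c ≠ ⊥ ∧ ∃ R, IsThread T c R) :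
    ∃ R, IsThread T ⊤ R := by
  let S : Type := {c : B // ∃ R, IsThread T c R}
  choose R hR using fun i : S => i.2
  obtain ⟨ψ, h1, h2, h3⟩ := exists_disjoint (fun i : S => i.1)
  have hsup : (⨆ i, ψ i) = ⊤ := by
    rw [h3]
    apply top_le_iff.1
    apply fdense
    intro c _ hc
    obtain ⟨d, hd, hdn, hd'⟩ := h c hc
    exact ⟨d, hd, hdn, le_iSup (fun i : S => i.1) ⟨d, hd'⟩⟩
  let Q : I → N → B := fun α x => ⨆ i, ψ i ⊓ R i α x
  have hQ : ∀ {α : I} {x : N} {d : B}, d ≠ ⊥ → d ≤ Q α x → ∃ i, ∃ d', d' ≤ d ∧ d' ≠ ⊥ ∧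
      d' ≤ ψ i ∧ d' ≤ R i α x := by
    intro α x d hd h4
    obtain ⟨i, d1, a1, n1, h5⟩ := fpick hd h4
    exact ⟨i, d1, a1, n1, h5.trans inf_le_left, h5.trans inf_le_right⟩
  have two : ∀ {α β : I} {x y : N} {d : B}, d ≠ ⊥ → d ≤ Q α x → d ≤ Q β y → ∃ i, ∃ d',
      d' ≤ d ∧ d' ≠ ⊥ ∧ d' ≤ i.1 ∧ d' ≤ R i α x ∧ d' ≤ R i β y := by
    intro α β x y d hd h4 h5
    obtain ⟨i, d1, a1, n1, e1, e2⟩ := hQ hd h4
    obtain ⟨j, d2, a2, n2, e3, e4⟩ := hQ n1 (a1.trans h5)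
    have hij : i = j := by
      by_contra hne'
      exact n2 (le_bot_iff.1 ((le_inf (a2.trans e1) e3).trans (h2 i j hne').le))
    subst hij
    exact ⟨i, d2, a2.trans a1, n2, e3.trans (h1 i), a2.trans e2, e4⟩
  refine ⟨Q, ?_, ?_, ?_⟩
  · intro α
    rw [← hsup]
    refine iSup_le fun i => ?_
    calc ψ i ≤ ψ i ⊓ ⨆ x, R i α x := le_inf le_rfl ((h1 i).trans ((hR i).total α))
      _ = ⨆ x, ψ i ⊓ R i α x := inf_iSup_eq _ _
      _ ≤ ⨆ x, Q α x := iSup_mono fun x => le_iSup (fun i => ψ i ⊓ R i α x) i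
  · intro α x x' hxx
    by_contra hcon
    obtain ⟨i, d, a1, n1, e1, e2, e3⟩ := two hcon (inf_le_left.trans inf_le_right) inf_le_right
    exact n1 (le_bot_iff.1 ((le_inf (le_inf e1 e2) e3).trans ((hR i).func α x x' hxx).le))
  · intro α β hαβ x y
    apply fdense
    intro d hd hdn
    obtain ⟨i, d', a1, n1, e1, e2, e3⟩ := two hdn ((hd.trans inf_le_left).trans inf_le_right)
      (hd.trans inf_le_right)
    exact ⟨d', a1, n1, (le_inf (le_inf e1 e2) e3).trans ((hR i).coh α β hαβ x y)⟩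

end BT
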