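import Pool.Agent.Helper18.TP.Card
import Pool.Agent.Helper18.BT.A04
import Pool.Agent.Helper18.BT.A05
import Pool.Agent.Helper18.BT.A06
import Pool.Agent.Helper18.BT.A07
import Pool.Agent.Helper18.BT.A08
import Pool.Agent.Helper18.BT.A09
import Pool.Agent.Helper18.BT.A10

/-!
# BT-A15: the narrow subsystem

PROOF (cf. `Pool.Agent.Helper18.TP.narrow_step`).  Fix `x₀ : N`, `d a x := tv (x = x₀)` (a total
function).  `G` is nonempty: take `q₁`.  `BUF.split` (A07, with `BUF.exists_of_le_SP` for `hSP`) gives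
`c ≤ b`, `c ≠ ⊥`, `q₀`, `i₀` with `c ⊓ G.SP T d (D.M i₀) q₀ = ⊥`.  `Φ := G.posSys T hd q₀`
(`Φ.pos = G.pos T d q₀` by `rfl`); by A05 (`hsat`): `c ⊓ ((⨅ ζ, Φ.pos α (A ζ)) ⊓ dj A) = ⊥`.
`exists_uniform` for the cover `Bs` of `N` given by `D.hcov N hN`: `c₁ ≤ c`, `c₁ ≠ ⊥`, `i₁`.
`Y := (max (max #(Bs i₁) #(D.M i₀)) ℵ₀).out`; `ℵ₀ ≤ #Y < ν`.
`exists_maxSmall` for `c₁` and each `α` (A08); choose `e α`.
`exists_stable` (A09) gives `c₂ ≤ c₁`, `c₂ ≠ ⊥`, `β₁`.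
By `Mix.full` (`Mix.func B (Bs i₁) N`) there is a name `f` of a partial function on `Bs i₁` with
`c₂ ≤ Φ.pos β₁ (rng f)`; reindex it to `e₁ : Y → N → B` (an injection `Bs i₁ → Y`; `e₁ y = f x` if `y` is
the image of `x`, else `⊥`).  `exists_narrow` (A10).
-/

open Cardinal

namespace BT

variable {B : Type} [CompleteBooleanAlgebra B] {I : Type} [Preorder I] {τ : Cardinal.{0}}
  (G : BUF B I τ) {N : Type} (T : BSys B I N)

theorem BUF.exists_narrow {ν : Cardinal.{0}} (hν : ℵ₀ < ν) (D : Pool.Agent.Helper18.TP.Data ν)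
    (hN : #N ≤ ν) (hNne : Nonempty N) (hI : Nonempty I)
    (hΘτ : #(Option D.Θ) ≤ τ) (hτ : ℵ₀ ≤ τ) (hΘν : #D.Θ ≤ ν)
    (hmix : G.Mixing) (hcl : G.Closed #D.Θ)
    (hcov : Cov B I ν)
    (hrun : ∀ (W : Type) [LinearOrder W] [WellFoundedLT W], #W < ν → Run B I W)
    (hns : NoSurj B N (∀ i, D.M i)) {b : B} (hb : b ≠ ⊥) :
    ∃ c ≤ b, c ≠ ⊥ ∧ ∃ (Y : Type) (e : I → Y → N → B) (β₁ : I), ℵ₀ ≤ #Y ∧ #Y < ν ∧
      (∀ α, IsFunc (e α)) ∧
      ∀ α β, β₁ ≤ α → α ≤ β → c ≤ ⨆ x, ⨆ v, rng (e α) x ⊓ rng (e β) v ⊓ T.P α β x v := by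
  classical
  obtain ⟨x₀⟩ := hNne
  obtain ⟨d, hdd⟩ : ∃ d : I → N → B, d = fun _ x => tv (x = x₀) := ⟨_, rfl⟩
  have hd : IsFunc d := by
    intro a x x' hx
    rw [hdd]
    by_cases h : x = x₀
    · have h' : ¬ x' = x₀ := fun h1 => hx (h.trans h1.symm)
      change (tv (x = x₀) : B) ⊓ tv (x' = x₀) = ⊥
      rw [tv_false h', inf_bot_eq]
    · change (tv (x = x₀) : B) ⊓ tv (x' = x₀) = ⊥
      rw [tv_false h, bot_inf_eq]
  have hdtop : ∀ a, ⨆ y, d a y = ⊤ := by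
    intro a
    rw [eq_top_iff, hdd]
    exact le_iSup_of_le x₀ (le_tv rfl _)
  obtain ⟨q₁⟩ := G.ne
  have hΘne : Nonempty D.Θ := by
    by_contra hcon
    rw [not_nonempty_iff] at hcon
    have h1 : #(∀ i, D.M i) ≤ 1 := by
      rw [Cardinal.le_one_iff_subsingleton]
      infer_instance
    have h2 := D.hprod.trans_le h1
    exact absurd (h2.trans Cardinal.one_lt_aleph0) (not_lt.2 hν.le)
  obtain ⟨c, hcb, hc, q₀, i₀, _, hSP0⟩ := G.split T hmix hcl hcov hd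
    (fun M q₀ b hb => G.exists_of_le_SP T hmix d M q₀ hb) (_root_.le_refl #D.Θ) hΘτ D.M D.hsum hns hb q₁
  obtain ⟨Φ, hΦ⟩ : ∃ Φ : PosSys T τ, Φ = G.posSys T hd q₀ := ⟨_, rfl⟩
  have hΦpos : ∀ α A, Φ.pos α A = G.pos T d q₀ α A := by
    intro α A; rw [hΦ]; rfl
  have hsat : ∀ (c' : B), c' ≤ c → ∀ (α : I) (A : D.M i₀ → N → B),
      c' ⊓ ((⨅ ζ, Φ.pos α (A ζ)) ⊓ dj A) = ⊥ := by
    intro c' hc' α A
    rw [← le_bot_iff, ← hSP0]
    refine inf_le_inf hc' ?_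
    have h1 := G.pos_dj_le_SP T hmix d q₀ α A
    simp only [hΦpos]
    exact h1
  obtain ⟨Bs, hBs1, hBs2⟩ := D.hcov N hN
  have hΘτ' : #D.Θ ≤ τ := by
    refine _root_.le_trans ?_ hΘτ
    rw [Cardinal.mk_option]
    exact self_le_add_right _ _
  have htop : ∀ α, c ≤ Φ.pos α (fun _ => ⊤) := by
    intro α
    rw [hΦpos, G.posSys_top T hdtop q₀ α]
    exact le_top
  obtain ⟨c₁, hc₁c, hc₁, i₁, hunif⟩ := Φ.exists_uniform hcov hc hΘν hΘτ' Bs hBs2 htop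
  obtain ⟨κY, hκY⟩ : ∃ κY : Cardinal.{0}, κY = max (max #(Bs i₁) #(D.M i₀)) ℵ₀ := ⟨_, rfl⟩
  have hYmk : #(κY.out) = κY := Cardinal.mk_out κY
  have hY : ℵ₀ ≤ #(κY.out) := by rw [hYmk, hκY]; exact le_max_right _ _
  have hYν : #(κY.out) < ν := by
    rw [hYmk, hκY]
    exact max_lt (max_lt ((hBs1 i₁).trans_lt (D.hκ i₁)) (D.hMν i₀)) hν
  have hM : #(D.M i₀) ≤ #(κY.out) := by
    rw [hYmk, hκY]; exact (le_max_right _ _).trans (le_max_left _ _)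
  have hBY : #(Bs i₁) ≤ #(κY.out) := by
    rw [hYmk, hκY]; exact (le_max_left _ _).trans (le_max_left _ _)
  have hmaxS := fun α => Φ.exists_maxSmall c₁ α hY hM (fun A => hsat c₁ hc₁c α A)
  choose e he hmax using hmaxS
  have h2τ : (2 : Cardinal.{0}) ≤ τ :=
    ((Cardinal.natCast_lt_aleph0 (n := 2)).le).trans hτ
  have h3τ : (3 : Cardinal.{0}) ≤ τ :=
    ((Cardinal.natCast_lt_aleph0 (n := 3)).le).trans hτ
  obtain ⟨c₂, hc₂c, hc₂, β₁, hst⟩ := Φ.exists_stable h2τ hc₁ hY hM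
    (hrun (D.M i₀) (D.hMν i₀)) hI (fun α A => hsat c₁ hc₁c α A) e he hmax
  -- a name for a small positive set on level `β₁`
  obtain ⟨f, hf⟩ := (Mix.func B (Bs i₁) N).full (b := c₂) (fun f => Φ.pos β₁ (rng f.1))
    (by
      intro c' f g hfg
      have hfg' : ∀ x y, c' ⊓ f.1 x y = c' ⊓ g.1 x y := hfg
      apply Φ.mono
      intro z
      unfold rng
      rw [inf_iSup_eq]
      refine iSup_mono fun y => ?_
      rw [← hfg']
      exact inf_le_right) (hc₂c.trans (hunif β₁))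
  obtain ⟨g⟩ : Nonempty (Bs i₁ ↪ κY.out) := hBY
  obtain ⟨e₁, he₁d⟩ : ∃ e₁ : κY.out → N → B, e₁ = fun y x => ⨆ z, tv (g z = y) ⊓ f.1 z x :=
    ⟨_, rfl⟩
  have he₁ : IsFunc e₁ := by
    intro y x x' hx
    rw [he₁d, ← le_bot_iff]
    change (⨆ z, tv (g z = y) ⊓ f.1 z x) ⊓ (⨆ z, tv (g z = y) ⊓ f.1 z x') ≤ ⊥
    rw [iSup_inf_eq]
    refine iSup_le fun z => ?_
    rw [inf_iSup_eq]
    refine iSup_le fun z' => ?_
    by_cases hz : g z = y
    · by_cases hz' : g z' = y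
      · have hzz : z = z' := g.injective (hz.trans hz'.symm)
        subst hzz
        rw [← f.2 z x x' hx]
        exact le_inf (inf_le_left.trans inf_le_right) (inf_le_right.trans inf_le_right)
      · rw [tv_false hz', bot_inf_eq, inf_bot_eq]
    · rw [tv_false hz, bot_inf_eq, bot_inf_eq]
  have hpos : c₂ ≤ Φ.pos β₁ (rng e₁) := by
    have h1 := Φ.mono (α := β₁) (c := ⊤) (A := rng f.1) (A' := rng e₁) (by
      intro x
      rw [top_inf_eq]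
      unfold rng
      refine iSup_le fun z => ?_
      refine le_iSup_of_le (g z) ?_
      rw [he₁d]
      exact le_iSup_of_le z (le_inf (le_tv rfl _) le_rfl))
    rw [top_inf_eq] at h1
    exact hf.trans h1
  have hmax₂ : ∀ (α : I) (e' : κY.out → N → B), IsFunc e' →
      c₂ ⊓ Φ.pos α (fun x => rng e' x ⊓ (rng (e α) x)ᶜ) = ⊥ := by
    intro α e' he'
    rw [← le_bot_iff, ← hmax α e' he']
    exact inf_le_inf_right _ hc₂c
  have hnar := Φ.exists_narrow h3τ e hmax₂ β₁ hst e₁ he₁ hpos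
  exact ⟨c₂, hc₂c.trans (hc₁c.trans hcb), hc₂, κY.out, e, β₁, hY, hYν, he, hnar⟩

end BT
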