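import Pool.Agent.Helper18.TP.Card
import Pool.Agent.Helper18.BT.A04
import Pool.Agent.Helper18.BT.A05
import Pool.Agent.Helper18.BT.A06
import Pool.Agent.Helper18.BT.A07
import Pool.Agent.Helper18.BT.A11
import Pool.Agent.Helper18.BT.A12
import Pool.Agent.Helper18.BT.A13
import Pool.Agent.Helper18.BT.A14

/-!
# BT-A16: from the narrow subsystem to a thread

PROOF (cf. `Pool.Agent.Helper18.TP.thread_of_narrow`).  Take `q₁ : G.Q`.  `exists_stab` (A11, with
`μ = #Y`) gives `c ≤ b`, `η`, `qs`; `d a := e a η`, `IsFunc d`.  `BUF.split` (A07, `hSP` from A06)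
below `qs` gives `c₁ ≤ c`, `c₁ ≠ ⊥`, `q₀`, `i₀` with `c₁ ≤ G.le q₀ qs`,
`c₁ ⊓ G.SP T d (D.M i₀) q₀ = ⊥`.
`Φ := G.posSys T hd q₀`, `hsat` from A05.  `E α x := Φ.pos α (fun v => tv (v = x))`,
`M := D.M i₀`, `eE α` from A13.  `W` with `NoSurj B (M × M) W` from `hns2 (M × M)`
(`#(M × M) < ν` as `ν` is a limit cardinal above `ℵ₀`: `mul_lt_of_lt`).
`hsurj` of A14: `E α x = pos α {x} ≤ pos β (pre {x})` (`Φ.pre`) and by A12 (first part, for the level
`β`): `≤ ⨆ α' ≥ β, ⨆ u, pos α' (pre β α' (pre α β {x}) ⊓ {u})`; for each `α'`, `u` this is (`pre_pre`)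
`≤ T.P α α' x u` (`Φ.ne`: the join over `v` of `pre α α' {x} v ⊓ tv (v = u)`) and `≤ pos α' {u} = E α' u`
(`mono`), and `⊤ = ⨆ y, T.P β α' y u`; `T.P β α' y u ⊓ E α' u ≤ E β y` (`Φ.img` and `mono` with
`c := T.P β α' y u`, since `T.P β α' y' u ⊓ T.P β α' y u ≤ tv (y' = y)`), and
`T.P α α' x u ⊓ T.P β α' y u ≤ T.P α β x y` (`BSys.tri`).
`hne`: A12 (second part) `c₁ ≤ pos α ⊤`, then A12 (first part, `X = ⊤`) gives `α' ≥ α`, `u` with
`pos α' {u}`, then project to `α` as above.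
-/

open Cardinal

namespace BT

variable {B : Type} [CompleteBooleanAlgebra B] {I : Type} [Preorder I] {τ : Cardinal.{0}}
  (G : BUF B I τ) {N : Type} (T : BSys B I N)

/-- projecting a positive point -/
private lemma projE (Φ : PosSys T τ) {α β : I} (h : α ≤ β) (u : N) :
    Φ.pos β (fun v => tv (v = u)) ≤ ⨆ y, Φ.pos α (fun v => tv (v = y)) ⊓ T.P α β y u := by
  have h1 : Φ.pos β (fun v => tv (v = u)) =
      Φ.pos β (fun v => tv (v = u)) ⊓ ⨆ y, T.P α β y u := by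
    rw [T.total h, inf_top_eq]
  rw [h1, inf_iSup_eq]
  refine iSup_mono fun y => le_inf ?_ inf_le_right
  have h2 : T.P α β y u ⊓ Φ.pos α (T.img α β (fun v => tv (v = u))) ≤
      Φ.pos α (fun v => tv (v = y)) := by
    apply Φ.mono
    intro y'
    unfold BSys.img
    rw [inf_iSup_eq]
    refine iSup_le fun v => ?_
    by_cases hv : v = u
    · subst hv
      by_cases hy : y' = y
      · exact le_tv hy _
      · have h3 := T.func h y y' v (fun h => hy h.symm)
        calc T.P α β y v ⊓ (tv (v = v) ⊓ T.P α β y' v) ≤ T.P α β y v ⊓ T.P α β y' v :=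
              inf_le_inf_left _ inf_le_right
          _ = ⊥ := h3
          _ ≤ _ := bot_le
    · beta_reduce
      rw [tv_false hv, bot_inf_eq, inf_bot_eq]
      exact bot_le
  refine _root_.le_trans ?_ h2
  exact le_inf inf_le_right (inf_le_left.trans (Φ.img h _))

/-- the truth value of the preimage of a point -/
private lemma pre_pt {α β : I} (x : N) (v : N) :
    T.pre α β (fun x' => tv (x' = x)) v ≤ T.P α β x v := by
  unfold BSys.pre
  refine iSup_le fun x' => ?_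
  by_cases hx : x' = x
  · subst hx
    exact inf_le_right
  · beta_reduce
    rw [tv_false hx, bot_inf_eq]
    exact bot_le

theorem BUF.exists_thread {ν : Cardinal.{0}} (hν : ℵ₀ < ν) (D : Pool.Agent.Helper18.TP.Data ν)
    (hI : Nonempty I) (hdir : ∀ α β : I, ∃ γ, α ≤ γ ∧ β ≤ γ)
    (hΘτ : #(Option D.Θ) ≤ τ)
    (hmix : G.Mixing) (hcl : G.Closed #D.Θ) (hcov : Cov B I ν)
    (hrun : ∀ (W : Type) [LinearOrder W] [WellFoundedLT W], #W < ν → Run B I W)
    (hns : NoSurj B N (∀ i, D.M i))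
    (hns2 : ∀ X : Type, #X < ν → ∃ (W : Type) (_ : LinearOrder W) (_ : WellFoundedLT W),
      #W < ν ∧ NoSurj B X W)
    {Y : Type} (hY : #Y < ν) (hYτ : #Y ≤ τ) (hdis : G.Distr #Y)
    (e : I → Y → N → B) (he : ∀ α, IsFunc (e α)) (β₁ : I)
    {b : B} (hb : b ≠ ⊥)
    (hnar : ∀ α β, β₁ ≤ α → α ≤ β → b ≤ ⨆ x, ⨆ v, rng (e α) x ⊓ rng (e β) v ⊓ T.P α β x v) :
    ∃ c ≤ b, c ≠ ⊥ ∧ ∃ R, IsThread T c R := by
  classical
  have hΘne : Nonempty D.Θ := by
    by_contra hcon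
    rw [not_nonempty_iff] at hcon
    have h1 := D.hprod
    have h2 : #(∀ i, D.M i) = 1 := by
      rw [Cardinal.eq_one_iff_unique]
      exact ⟨inferInstance, inferInstance⟩
    rw [h2] at h1
    exact absurd (hν.trans h1) (not_lt.mpr Cardinal.one_le_aleph0)
  obtain ⟨q₁⟩ := G.ne
  obtain ⟨c, hcb, hc, η, qs, -, hstab⟩ := G.exists_stab T hdis hcov hb le_rfl hYτ hY.le hdir e β₁
    hnar q₁
  have hd : IsFunc (fun a => e a η) := fun a v v' h => he a η v v' h
  obtain ⟨c₁, hc₁c, hc₁, q₀, i₀, hq₀, hsp⟩ := G.split T hmix hcl hcov hd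
    (fun M q₀ b hb => G.exists_of_le_SP T hmix _ M q₀ hb) (Θ := D.Θ) le_rfl hΘτ D.M D.hsum hns hc qs
  let Φ : PosSys T τ := G.posSys T hd q₀
  have hpos : ∀ α A, Φ.pos α A = G.pos T (fun a => e a η) q₀ α A := fun _ _ => rfl
  have hsat : ∀ α (A : D.M i₀ → N → B), c₁ ⊓ ((⨅ ζ, Φ.pos α (A ζ)) ⊓ dj A) = ⊥ := by
    intro α A
    rw [← le_bot_iff, ← hsp]
    exact inf_le_inf_left _ (G.pos_dj_le_SP T hmix _ q₀ α A)
  have hen := fun α => Φ.exists_enum c₁ α (M := D.M i₀) (hsat α)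
  choose eE heE hE using hen
  have hMM : #(D.M i₀ × D.M i₀) < ν := by
    rw [Cardinal.mk_prod, Cardinal.lift_id]
    exact Cardinal.mul_lt_of_lt hν.le (D.hMν i₀) (D.hMν i₀)
  obtain ⟨W, hW1, hW2, hWν, hnsW⟩ := hns2 (D.M i₀ × D.M i₀) hMM
  have hpp := G.pos_point T hYτ hdir e he β₁ (c := c₁) η qs q₀ hq₀ (fun q α hα =>
    (inf_le_inf_right _ hc₁c).trans (hstab q α hα))
  have hmono : ∀ {α : I} {A A' : N → B}, (∀ x, A x ≤ A' x) → Φ.pos α A ≤ Φ.pos α A' := by
    intro α A A' h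
    have h1 := Φ.mono (α := α) (c := ⊤) (A := A) (A' := A') (fun x => by
      rw [top_inf_eq]
      exact h x)
    rwa [top_inf_eq] at h1
  have hsurj : ∀ α β, α ≤ β → ∀ x, c₁ ⊓ Φ.pos α (fun v => tv (v = x)) ≤
      ⨆ y, Φ.pos β (fun v => tv (v = y)) ⊓ T.P α β x y := by
    intro α β hαβ x
    have h1 : c₁ ⊓ Φ.pos α (fun v => tv (v = x)) ≤
        c₁ ⊓ Φ.pos β (T.pre α β (fun v => tv (v = x))) := inf_le_inf_left _ (Φ.pre hαβ _)
    refine h1.trans ((hpp.1 β _).trans ?_)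
    refine iSup_le fun α' => ?_
    by_cases hα' : β ≤ α'
    · refine inf_le_right.trans (iSup_le fun u => ?_)
      rw [← hpos, T.pre_pre hαβ hα']
      have h2 : Φ.pos α' (fun v => T.pre α α' (fun v => tv (v = x)) v ⊓ tv (v = u)) ≤
          T.P α α' x u := by
        refine (Φ.ne _ _).trans (iSup_le fun v => ?_)
        by_cases hv : v = u
        · subst hv
          exact inf_le_left.trans (pre_pt T x v)
        · rw [tv_false hv, inf_bot_eq]
          exact bot_le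
      have h3 : Φ.pos α' (fun v => T.pre α α' (fun v => tv (v = x)) v ⊓ tv (v = u)) ≤
          Φ.pos α' (fun v => tv (v = u)) := hmono fun v => inf_le_right
      have h4 := h3.trans (projE T Φ hα' u)
      refine (le_inf h2 h4).trans ?_
      rw [inf_iSup_eq]
      refine iSup_mono fun y => ?_
      refine le_inf (inf_le_right.trans inf_le_left) ?_
      exact (inf_le_inf_left _ inf_le_right).trans (T.tri hαβ hα' x y u)
    · rw [tv_false hα', bot_inf_eq]
      exact bot_le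
  have hne : ∀ α, c₁ ≤ ⨆ x, Φ.pos α (fun v => tv (v = x)) := by
    intro α
    have h1 : c₁ ≤ c₁ ⊓ G.pos T (fun a => e a η) q₀ α (fun _ => ⊤) := le_inf le_rfl (hpp.2 α)
    refine h1.trans ((hpp.1 α _).trans ?_)
    refine iSup_le fun α' => ?_
    by_cases hα' : α ≤ α'
    · refine inf_le_right.trans (iSup_le fun u => ?_)
      rw [← hpos]
      have h3 : Φ.pos α' (fun v => T.pre α α' (fun _ => ⊤) v ⊓ tv (v = u)) ≤
          Φ.pos α' (fun v => tv (v = u)) := hmono fun v => inf_le_right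
      refine h3.trans ((projE T Φ hα' u).trans ?_)
      exact iSup_mono fun y => inf_le_left
    · rw [tv_false hα', bot_inf_eq]
      exact bot_le
  obtain ⟨c₂, h1, h2, R, hR⟩ := thread_of_small T (fun α x => Φ.pos α (fun v => tv (v = x)))
    (b := c₁) hc₁ hdir hI hsurj hne eE heE hE (hrun W hWν) hnsW
  exact ⟨c₂, h1.trans (hc₁c.trans hcb), h2, R, hR⟩

end BT
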