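import Pool.Agent.Helper18.BT.A15
import Pool.Agent.Helper18.BT.A16

/-!
# BT-A17: the main theorem for names of inverse systems

PROOF (cf. `Pool.Agent.Helper18.TP.main` in TP/Card.lean).  `D` from `TP.exists_data hν hsing`.
`hns1` applies to `∀ i, D.M i` (`D.hprod`), and to `N` (`#N ≤ ν`).
By `thread_glue` (A14) it is enough to find, below every `b ≠ ⊥`, some `c ≠ ⊥` and a thread below `c`.
`hG ν.ord.cof` and A15 (`#(Option D.Θ) = ν.ord.cof`) give `c`, `Y`, `e`, `β₁`; then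
`hG (max #Y ν.ord.cof)` and A16.
-/

open Cardinal

namespace BT

variable {B : Type} [CompleteBooleanAlgebra B] {I : Type} [Preorder I] {N : Type}

theorem exists_thread_top (T : BSys B I N) {ν : Cardinal.{0}} (hν : ν.IsStrongLimit)
    (hsing : ν.ord.cof < ν) (hN : #N ≤ ν) (hNne : Nonempty N) (hI : Nonempty I)
    (hdir : ∀ α β : I, ∃ γ, α ≤ γ ∧ β ≤ γ) (hcov : Cov B I ν)
    (hrun : ∀ (W : Type) [LinearOrder W] [WellFoundedLT W], #W < ν → Run B I W)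
    (hns1 : ∀ X Z : Type, #X ≤ ν → ν < #Z → NoSurj B X Z)
    (hns2 : ∀ X : Type, #X < ν → ∃ (W : Type) (_ : LinearOrder W) (_ : WellFoundedLT W),
      #W < ν ∧ NoSurj B X W)
    (hG : ∀ τ < ν, ∃ G : BUF B I τ, G.Mixing ∧ G.Closed ν.ord.cof ∧ G.Distr τ) :
    ∃ R, IsThread T ⊤ R := by
  obtain ⟨D⟩ := Pool.Agent.Helper18.TP.exists_data hν hsing
  have hθ0 : ℵ₀ ≤ ν.ord.cof := Pool.Agent.Helper18.TP.aleph0_le_cof' hν
  have hν1 : ℵ₀ < ν := hθ0.trans_lt hsing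
  have hns : NoSurj B N (∀ i, D.M i) := hns1 _ _ hN D.hprod
  apply thread_glue
  intro b hb
  obtain ⟨G, hmix, hcl, hdis⟩ := hG _ hsing
  obtain ⟨c, hcb, hc, Y, e, β₁, hY0, hYν, he, hnar⟩ := BUF.exists_narrow G T hν1 D hN hNne hI
    D.hopt.le hθ0 (D.hΘ.le.trans hsing.le) hmix (by rw [D.hΘ]; exact hcl) hcov hrun hns hb
  obtain ⟨G', hmix', hcl', hdis'⟩ := hG (max #Y ν.ord.cof) (max_lt hYν hsing)
  obtain ⟨c', hc'b, hc', R, hR⟩ := BUF.exists_thread G' T hν1 D hI hdir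
    (D.hopt.le.trans (le_max_right _ _)) hmix' (by rw [D.hΘ]; exact hcl') hcov hrun hns hns2 hYν
    (le_max_left _ _) (fun K hK => hdis' K (hK.trans (le_max_left _ _))) e he β₁ hc hnar
  exact ⟨c', hc'b.trans hcb, hc', R, hR⟩

end BT
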