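import Pool.Agent.Helper18.BT.Defs

/-!
# BT-C01: names for complete ultrafilters

PROOFS.
* `inf2`: `inf` with `K = Bool` (`iInf_bool_eq`).
* `mono'`: `φ = φ ⊓ ψ`, so `U φ = U φ ⊓ U ψ`.
* `mono`: `c ⊓ U φ = U (fun _ => c) ⊓ U φ = U (fun a => c ⊓ φ a) ≤ U ψ`.
* `sup`: `⨆ k, φ k a = (⨅ k, (φ k a)ᶜ)ᶜ`, `compl`, `inf`.
* `ne`: with `s := ⨆ a, φ a`: `U φ ≤ U (fun _ => s) = s`.
* `push`: all clear; cone: `U (fun a => tv (β ≤ s a)) ≥ U (fun a => tv (α ≤ a)) = ⊤`.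
* `NormalUlt.ultC`: cone: for `α : PK κ X`, `tv (α ≤ a) = ⨅ x : α.1, tv (x.1 ∈ a.1)` and `#α.1 < κ`.
* `RO.princ`: `{q : ∀ r ≤ q, ∃ r' ≤ r, r' ≤ p}`.
-/

open Cardinal

namespace BT

open Pool.Agent.Helper18.TP (PK)

section

variable {A : Type} [CompleteBooleanAlgebra A] {I : Type} [Preorder I] {κ : Cardinal.{0}}
  {U : (I → A) → A}

theorem UltC.inf2 (hU : UltC κ U) (hκ : ℵ₀ ≤ κ) (φ ψ : I → A) :
    U (fun a => φ a ⊓ ψ a) = U φ ⊓ U ψ := by
  have h := hU.inf Bool (fun b => if b then φ else ψ)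
    ((Cardinal.mk_lt_aleph0 (α := Bool)).trans_le hκ)
  simpa [iInf_bool_eq] using h

theorem UltC.mono' (hU : UltC κ U) (hκ : ℵ₀ ≤ κ) {φ ψ : I → A} (h : ∀ a, φ a ≤ ψ a) :
    U φ ≤ U ψ := by
  have h1 := hU.inf2 hκ φ ψ
  have h2 : (fun a => φ a ⊓ ψ a) = φ := funext fun a => inf_eq_left.mpr (h a)
  rw [h2] at h1
  exact inf_eq_left.mp h1.symm

theorem UltC.mono (hU : UltC κ U) (hκ : ℵ₀ ≤ κ) {c : A} {φ ψ : I → A}
    (h : ∀ a, c ⊓ φ a ≤ ψ a) : c ⊓ U φ ≤ U ψ := by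
  have h1 := hU.inf2 hκ (fun _ => c) φ
  rw [hU.const] at h1
  rw [← h1]
  exact hU.mono' hκ h

theorem UltC.top (hU : UltC κ U) : U (fun _ => ⊤) = ⊤ := hU.const ⊤

theorem UltC.sup (hU : UltC κ U) (K : Type) (φ : K → I → A) (hK : #K < κ) :
    U (fun a => ⨆ k, φ k a) = ⨆ k, U (φ k) := by
  have h1 : (fun a => ⨆ k, φ k a) = fun a => (⨅ k, (φ k a)ᶜ)ᶜ := by
    funext a
    rw [compl_iInf]
    simp
  rw [h1, hU.compl, hU.inf K (fun k a => (φ k a)ᶜ) hK, compl_iInf]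
  refine iSup_congr fun k => ?_
  rw [hU.compl, compl_compl]

theorem UltC.ne (hU : UltC κ U) (hκ : ℵ₀ ≤ κ) (φ : I → A) : U φ ≤ ⨆ a, φ a := by
  have h := hU.mono' hκ (φ := φ) (ψ := fun _ => ⨆ a, φ a) (fun a => le_iSup φ a)
  rwa [hU.const] at h

theorem UltC.push {I' : Type} [Preorder I'] (hU : UltC κ U) (hκ : ℵ₀ ≤ κ) (s : I → I')
    (hs : ∀ β, ∃ α, ∀ a, α ≤ a → β ≤ s a) :
    UltC κ (fun φ : I' → A => U (fun a => φ (s a))) where
  const c := hU.const c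
  compl φ := hU.compl _
  inf K φ hK := hU.inf K (fun k a => φ k (s a)) hK
  cone β := by
    obtain ⟨α, hα⟩ := hs β
    rw [eq_top_iff, ← hU.cone α]
    exact hU.mono' hκ fun a => tv_mono (hα a)

end

theorem NormalUlt.ultC {A : Type} [CompleteBooleanAlgebra A] {κ : Cardinal.{0}} {X : Type}
    {U : (PK κ X → A) → A} (hU : NormalUlt κ X U) : UltC κ U where
  const := hU.const
  compl := hU.compl
  inf := hU.inf
  cone α := by
    have h1 : (fun a : PK κ X => (tv (α ≤ a) : A)) =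
        fun a => ⨅ x : {x // x ∈ α.1}, tv (x.1 ∈ a.1) := by
      funext a
      by_cases h : α ≤ a
      · rw [tv_true h]
        refine (eq_top_iff.mpr (le_iInf fun x => ?_)).symm
        exact le_tv (h x.2) _
      · rw [tv_false h]
        have h2 : ∃ x, x ∈ α.1 ∧ x ∉ a.1 := by
          by_contra hcon
          push Not at hcon
          exact h fun x hx => hcon x hx
        obtain ⟨x, hx1, hx2⟩ := h2
        refine (eq_bot_iff.mpr ?_).symm
        refine (iInf_le _ ⟨x, hx1⟩).trans ?_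
        rw [tv_false hx2]
    rw [h1, hU.inf _ (fun (x : {x // x ∈ α.1}) (a : PK κ X) => (tv (x.1 ∈ a.1) : A)) α.2]
    simp [hU.fine]

namespace RO

variable {P : Type} [Preorder P]

/-- the regular open set generated by `p` -/
def princ (p : P) : RO P := cl (fun q => q ≤ p) (fun _ _ h1 h2 => h1.trans h2)

theorem mem_princ {p q : P} (h : q ≤ p) : (princ p).1 q :=
  fun r hr => ⟨r, le_refl _, hr.trans h⟩

theorem princ_le {p : P} {x : RO P} (h : x.1 p) : princ p ≤ x := by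
  intro q hq
  refine x.of_dense fun r hr => ?_
  obtain ⟨r', hr', h1⟩ := hq r hr
  exact ⟨r', hr', x.down h1 h⟩

theorem princ_ne_bot (p : P) : princ p ≠ ⊥ := by
  intro h
  exact RO.eq_bot_iff.mp h p (mem_princ (le_refl p))

/-- A nonzero element contains a condition. -/
theorem exists_mem {x : RO P} (hx : x ≠ ⊥) : ∃ p, x.1 p := by
  by_contra hcon
  push Not at hcon
  exact hx (RO.eq_bot_iff.mpr hcon)

/-- A condition in a nonzero element below `princ p` can be taken below `p`. -/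
theorem exists_mem_le {x : RO P} (hx : x ≠ ⊥) {p : P} (h : x ≤ princ p) : ∃ q ≤ p, x.1 q := by
  obtain ⟨r, hr⟩ := exists_mem hx
  obtain ⟨q, hq, h1⟩ := h r hr r (le_refl r)
  exact ⟨q, h1, x.down hq hr⟩

end RO

end BT
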