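import Pool.Agent.Helper18.BT.C01

/-!
# BT-C02: the truth values `W` and the forced sets

Recall: `h : QC Rel χ U` is a name for a function `I → Pf` with empty standard part,
`QC.W hχ h s t X a = ⨆ u, h.1 a u ⊓ sec s (Pf.merge hχ t u) (X a)`.

PROOFS.
* `avoid`: `⨅ x : {x // t.f x ≠ none}, ⨆ u, tv (u.f x = none) ⊓ h.1 a u ≤
  ⨆ u, tv (∀ x, t.f x ≠ none → u.f x = none) ⊓ h.1 a u` (multiply by `⊤ = ⨆ u, h.1 a u`; `h.1 a` is
  functional); apply `U` (`inf` for the index set `{x // t.f x ≠ none}`, of size `< χ ≤ κ`, and the third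
  property of `QC`).
* `W_open`: `c' ∈ U (W s t X)`, and `U (avoid a) = ⊤` for `t'`; pointwise
  `W s t X a ⊓ avoid a ≤ W s' t' X a` (same `u`; `(s', merge t' u, c) ≤ (s, merge t u, c)` by
  `Pf.merge_mono_left`).
* `W_inf`: `h.1 a` is functional.
-/

open Cardinal

namespace BT

variable {D V : Type} {Rel : D → V → Prop} {χ κ : Cardinal.{0}} {S C I : Type} [Preorder S]
  [Preorder C] [Preorder I] {U : (I → RO C) → RO C}

theorem iSup_inf_func {B X Y : Type} [CompleteBooleanAlgebra B] {f : X → Y → B} (hf : IsFunc f)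
    (x : X) (y : Y) (c : Y → B) : (⨆ y', c y' ⊓ f x y') ⊓ f x y = c y ⊓ f x y := by
  apply le_antisymm
  · rw [iSup_inf_eq]
    refine iSup_le fun y' => ?_
    by_cases hy : y' = y
    · subst hy
      exact inf_le_left
    · have h1 := hf x y' y hy
      calc c y' ⊓ f x y' ⊓ f x y ≤ f x y' ⊓ f x y := inf_le_inf_right _ inf_le_right
        _ = ⊥ := h1
        _ ≤ _ := bot_le
  · exact le_inf (le_iSup (fun y' => c y' ⊓ f x y') y) inf_le_right

/-- `h(a)` avoids the domain of `t` for almost all `a`. -/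
theorem QC.avoid (hU : UltC κ U) (hχκ : χ ≤ κ) (hχ : ℵ₀ ≤ χ) (h : QC Rel χ U)
    (t : Pf D V Rel χ) :
    U (fun a => ⨆ u, tv (∀ x, t.f x ≠ none → u.f x = none) ⊓ h.1 a u) = ⊤ := by
  have hK : #{x : D // t.f x ≠ none} < κ := t.small.trans_le hχκ
  have h1 := hU.inf {x : D // t.f x ≠ none}
    (fun x a => ⨆ u, tv (u.f x.1 = none) ⊓ h.1 a u) hK
  have h2 : (⨅ x : {x : D // t.f x ≠ none},
      U (fun a => ⨆ u : Pf D V Rel χ, tv (u.f x.1 = none) ⊓ h.1 a u)) = ⊤ := by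
    rw [iInf_eq_top]
    intro x
    exact h.2.2.2 x.1
  rw [h2] at h1
  refine top_le_iff.mp (h1.symm.le.trans ?_)
  refine hU.mono' (hχ.trans hχκ) fun a => ?_
  have h3 : (⨅ x : {x : D // t.f x ≠ none},
      ⨆ u : Pf D V Rel χ, tv (u.f x.1 = none) ⊓ h.1 a u) =
      ⨆ u, (⨅ x : {x : D // t.f x ≠ none},
      ⨆ u : Pf D V Rel χ, tv (u.f x.1 = none) ⊓ h.1 a u) ⊓ h.1 a u := by
    rw [← inf_iSup_eq, h.2.2.1 a, inf_top_eq]
  rw [h3]
  refine iSup_mono fun u => ?_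
  by_cases hu : ∀ x, t.f x ≠ none → u.f x = none
  · rw [tv_true hu, top_inf_eq]
    exact inf_le_right
  · push Not at hu
    obtain ⟨x, hx1, hx2⟩ := hu
    calc _ ≤ (⨆ u : Pf D V Rel χ, tv (u.f x = none) ⊓ h.1 a u) ⊓ h.1 a u :=
          inf_le_inf_right _ (iInf_le _ (⟨x, hx1⟩ : {x : D // t.f x ≠ none}))
      _ = tv (u.f x = none) ⊓ h.1 a u :=
          iSup_inf_func h.2.1 a u (fun u => tv (u.f x = none))
      _ ≤ _ := by rw [tv_false hx2, bot_inf_eq]; exact bot_le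

theorem QC.W_open (hU : UltC κ U) (hχκ : χ ≤ κ) (hχ : ℵ₀ ≤ χ) (h : QC Rel χ U)
    (X : I → RO (S × Pf D V Rel χ × C)) (p q : S × Pf D V Rel χ × C) (hq : q ≤ p)
    (hp : (U (QC.W hχ h p.1 p.2.1 X)).1 p.2.2) : (U (QC.W hχ h q.1 q.2.1 X)).1 q.2.2 := by
  have key : U (QC.W hχ h p.1 p.2.1 X) ≤ U (QC.W hχ h q.1 q.2.1 X) := by
    have h1 : U (QC.W hχ h p.1 p.2.1 X) = U (fun a => QC.W hχ h p.1 p.2.1 X a ⊓
        ⨆ u, tv (∀ x, q.2.1.f x ≠ none → u.f x = none) ⊓ h.1 a u) := by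
      rw [hU.inf2 (hχ.trans hχκ), QC.avoid hU hχκ hχ h q.2.1, inf_top_eq]
    rw [h1]
    refine hU.mono' (hχ.trans hχκ) fun a => ?_
    unfold QC.W
    rw [iSup_inf_eq]
    refine iSup_mono fun u => ?_
    have h2 : (⨆ u, tv (∀ x, q.2.1.f x ≠ none → u.f x = none) ⊓ h.1 a u) ⊓ h.1 a u =
        tv (∀ x, q.2.1.f x ≠ none → u.f x = none) ⊓ h.1 a u :=
      iSup_inf_func h.2.1 a u (fun u => tv (∀ x, q.2.1.f x ≠ none → u.f x = none))
    refine le_inf (inf_le_left.trans inf_le_left) ?_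
    by_cases hu : ∀ x, q.2.1.f x ≠ none → u.f x = none
    · refine (inf_le_left.trans inf_le_right).trans ?_
      intro c hc
      exact (X a).down (show (q.1, Pf.merge hχ q.2.1 u, c) ≤ (p.1, Pf.merge hχ p.2.1 u, c) from
        ⟨hq.1, Pf.merge_mono_left hχ hq.2.1 hu, le_refl _⟩) hc
    · calc _ ≤ (⨆ u, tv (∀ x, q.2.1.f x ≠ none → u.f x = none) ⊓ h.1 a u) ⊓ h.1 a u :=
            le_inf inf_le_right (inf_le_left.trans inf_le_left)
        _ = _ := h2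
        _ ≤ _ := by rw [tv_false hu, bot_inf_eq]; exact bot_le
  exact (U (QC.W hχ h q.1 q.2.1 X)).down hq.2.2 (key _ hp)

theorem QC.W_inf (hχ : ℵ₀ ≤ χ) (h : QC Rel χ U) (s : S) (t : Pf D V Rel χ)
    (X X' : I → RO (S × Pf D V Rel χ × C)) (a : I) :
    QC.W hχ h s t X a ⊓ QC.W hχ h s t X' a ≤ QC.W hχ h s t (fun a => X a ⊓ X' a) a := by
  unfold QC.W
  rw [iSup_inf_eq]
  refine iSup_mono fun u => ?_
  have h2 : (⨆ u, sec s (Pf.merge hχ t u) (X' a) ⊓ h.1 a u) ⊓ h.1 a u =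
      sec s (Pf.merge hχ t u) (X' a) ⊓ h.1 a u :=
    iSup_inf_func h.2.1 a u (fun u => sec s (Pf.merge hχ t u) (X' a))
  have h3 : (⨆ u, h.1 a u ⊓ sec s (Pf.merge hχ t u) (X' a)) =
      ⨆ u, sec s (Pf.merge hχ t u) (X' a) ⊓ h.1 a u := iSup_congr fun u => inf_comm _ _
  rw [h3]
  refine le_inf (inf_le_left.trans inf_le_left) ?_
  have h4 : sec s (Pf.merge hχ t u) (X a) ⊓ sec s (Pf.merge hχ t u) (X' a) ≤
      sec s (Pf.merge hχ t u) (X a ⊓ X' a) := fun c hc => ⟨hc.1, hc.2⟩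
  refine le_trans ?_ h4
  refine le_inf (inf_le_left.trans inf_le_right) ?_
  calc _ ≤ (⨆ u, sec s (Pf.merge hχ t u) (X' a) ⊓ h.1 a u) ⊓ h.1 a u :=
        le_inf inf_le_right (inf_le_left.trans inf_le_left)
    _ = _ := h2
    _ ≤ _ := inf_le_left

/-- The truth value of: `h` forces the set with the name `X` into the generic ultrafilter. -/
def QC.F (hU : UltC κ U) (hχκ : χ ≤ κ) (hχ : ℵ₀ ≤ χ) (h : QC Rel χ U)
    (X : I → RO (S × Pf D V Rel χ × C)) : RO (S × Pf D V Rel χ × C) :=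
  RO.cl (fun p => (U (QC.W hχ h p.1 p.2.1 X)).1 p.2.2) (QC.W_open hU hχκ hχ h X)

theorem lift_inf {S E C : Type} [Preorder S] [Preorder E] [Preorder C] (x y : RO C) :
    (lift (x ⊓ y) : RO (S × E × C)) = lift x ⊓ lift y := by
  ext p
  exact Iff.rfl

theorem lift_iInf {S E C : Type} [Preorder S] [Preorder E] [Preorder C] {ι : Sort*}
    (x : ι → RO C) : (lift (⨅ i, x i) : RO (S × E × C)) = ⨅ i, lift (x i) := by
  ext p
  rw [mem_lift, RO.mem_iInf, RO.mem_iInf]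
  exact Iff.rfl

theorem lift_mono {S E C : Type} [Preorder S] [Preorder E] [Preorder C] {x y : RO C}
    (h : x ≤ y) : (lift x : RO (S × E × C)) ≤ lift y :=
  fun p hp => h p.2.2 hp

theorem lift_top {S E C : Type} [Preorder S] [Preorder E] [Preorder C] :
    (lift ⊤ : RO (S × E × C)) = ⊤ := by
  ext p
  exact ⟨fun _ => RO.mem_top p, fun _ => RO.mem_top p.2.2⟩

end BT
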