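import Pool.Agent.Helper18.BT.C02

/-!
# BT-C03: the axioms of `BUF` for `QC` (all but deciding)

PROOFS.  Members of `RO P` are treated as sets of conditions `(s, t, c)`, `RO.mem_inf`, `RO.mem_cl` …
* `le_refl`: `⨆ u', ⨆ u, tv (u' ≤ u) ⊓ h a u' ⊓ h a u ≥ ⨆ u, h a u = ⊤`.
* `le_trans`: `U` of the pointwise meet; `tv (u' ≤ u) ⊓ p a u' ⊓ q a u ⊓ tv (v' ≤ v) ⊓ q a v' ⊓ r a v` is
  `⊥` unless `u = v'`, and then `u' ≤ v`.
* `F_mono`: let `p ∈ c ⊓ F h X`.  Densely below `p` there is `(s, t, c₀) ∈ c` with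
  `c₀ ∈ U (W s t X)`.  Pointwise `sec s t c ⊓ W s t X a ≤ W s t X' a`: for `c' ∈ sec s t c`,
  `(s, merge t u, c') ≤ (s, t, c')` is in `c` and in `X a`, so in `X' a`.  `UltC.mono`.
* `F_inf`: two extensions and `W_open`, then `UltC.inf2` and `W_inf`.
* `F_ne`: densely `(s, t, c₀)` with `c₀ ∈ U (W s t X) ≤ ⨆ a, W s t X a` (`UltC.ne`): so there are
  `c' ≤ c₀`, `a`, `u` with `c' ∈ h a u`, `(s, merge t u, c') ∈ X a`, and `(s, merge t u, c') ≤ (s, t, c₀)`.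
* `F_cone`: `W s t (fun a => tv (α ≤ a)) a = tv (α ≤ a)` (`sec s t (tv p) = tv p`, `h.1 a` total),
  `UltC.cone`.
* `F_le`: pointwise `(⨆ u', ⨆ u, tv (u' ≤ u) ⊓ h' a u' ⊓ h a u) ⊓ W_h s t X a ≤ W_{h'} s t X a` by
  `Pf.merge_mono_right`.
-/

open Cardinal

namespace BT

variable {D V : Type} {Rel : D → V → Prop} {χ κ : Cardinal.{0}} {S C I : Type} [Preorder S]
  [Preorder C] [Preorder I] {U : (I → RO C) → RO C}

private theorem iSup2_inf_le {A : Type} [CompleteBooleanAlgebra A] {J K : Type}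
    {f : J → K → A} {b z : A} (h : ∀ i j, f i j ⊓ b ≤ z) : (⨆ i, ⨆ j, f i j) ⊓ b ≤ z := by
  rw [iSup_inf_eq]
  refine iSup_le fun i => ?_
  rw [iSup_inf_eq]
  exact iSup_le fun j => h i j

private theorem inf_iSup2_le {A : Type} [CompleteBooleanAlgebra A] {J K : Type}
    {f : J → K → A} {b z : A} (h : ∀ i j, b ⊓ f i j ≤ z) : b ⊓ (⨆ i, ⨆ j, f i j) ≤ z := by
  rw [inf_iSup_eq]
  refine iSup_le fun i => ?_
  rw [inf_iSup_eq]
  exact iSup_le fun j => h i j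

private theorem inf_iSup1_le {A : Type} [CompleteBooleanAlgebra A] {J : Type}
    {f : J → A} {b z : A} (h : ∀ i, b ⊓ f i ≤ z) : b ⊓ (⨆ i, f i) ≤ z := by
  rw [inf_iSup_eq]
  exact iSup_le fun i => h i

/-- the name of the constant function with value the empty condition -/
def QC.one (hU : UltC κ U) (hχ : ℵ₀ ≤ χ) : QC Rel χ U :=
  ⟨fun _ u => tv (u = Pf.empty hχ), by
    refine ⟨?_, ?_, ?_⟩
    · intro a y y' hy
      change (tv (y = Pf.empty hχ) : RO C) ⊓ tv (y' = Pf.empty hχ) = ⊥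
      by_cases h1 : y = Pf.empty hχ
      · by_cases h2 : y' = Pf.empty hχ
        · exact absurd (h1.trans h2.symm) hy
        · rw [tv_false h2, inf_bot_eq]
      · rw [tv_false h1, bot_inf_eq]
    · intro a
      rw [_root_.eq_top_iff]
      exact (tv_true (rfl : Pf.empty hχ = Pf.empty hχ)).ge.trans
        (le_iSup (fun u : Pf D V Rel χ => (tv (u = Pf.empty hχ) : RO C)) (Pf.empty hχ))
    · intro x
      have h1 : (fun _ : I => ⨆ u : Pf D V Rel χ,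
          (tv (u.f x = none) ⊓ tv (u = Pf.empty hχ) : RO C)) = fun _ => ⊤ := by
        funext a
        rw [_root_.eq_top_iff]
        have h2 : (⊤ : RO C) ≤ tv ((Pf.empty hχ : Pf D V Rel χ).f x = none) ⊓
            tv ((Pf.empty hχ : Pf D V Rel χ) = Pf.empty hχ) := by
          exact le_inf (tv_true rfl).ge (tv_true rfl).ge
        exact h2.trans (le_iSup (fun u : Pf D V Rel χ =>
          (tv (u.f x = none) ⊓ tv (u = Pf.empty hχ) : RO C)) (Pf.empty hχ))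
      rw [h1]
      exact hU.top⟩

theorem QC.le_refl' (hU : UltC κ U) (h : QC Rel χ U) : QC.le h h = ⊤ := by
  unfold QC.le
  have h1 : (fun a : I => ⨆ u' : Pf D V Rel χ, ⨆ u : Pf D V Rel χ,
      (tv (u' ≤ u) ⊓ h.1 a u' ⊓ h.1 a u : RO C)) = fun _ => ⊤ := by
    funext a
    rw [_root_.eq_top_iff]
    refine (h.2.2.1 a).ge.trans ?_
    refine iSup_mono fun u => ?_
    refine _root_.le_trans ?_
      (le_iSup (fun u₁ : Pf D V Rel χ => (tv (u ≤ u₁) ⊓ h.1 a u ⊓ h.1 a u₁ : RO C)) u)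
    exact le_inf (le_inf (le_tv (_root_.le_refl u) _) (_root_.le_refl _)) (_root_.le_refl _)
  rw [h1]
  exact hU.top

theorem QC.le_trans' (hU : UltC κ U) (hκ : ℵ₀ ≤ κ) (p q r : QC Rel χ U) :
    QC.le p q ⊓ QC.le q r ≤ QC.le p r := by
  unfold QC.le
  rw [← hU.inf2 hκ]
  apply hU.mono' hκ
  intro a
  refine iSup2_inf_le fun u' u => inf_iSup2_le fun v' v => ?_
  by_cases huv : u = v'
  · subst huv
    refine _root_.le_trans ?_ (le_iSup (fun w : Pf D V Rel χ => ⨆ w' : Pf D V Rel χ,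
      (tv (w ≤ w') ⊓ p.1 a w ⊓ r.1 a w' : RO C)) u')
    refine _root_.le_trans ?_ (le_iSup (fun w' : Pf D V Rel χ =>
      (tv (u' ≤ w') ⊓ p.1 a u' ⊓ r.1 a w' : RO C)) v)
    by_cases h1 : u' ≤ u
    · by_cases h2 : u ≤ v
      · refine le_inf (le_inf (le_tv (h1.trans h2) _) ?_) (inf_le_right.trans inf_le_right)
        exact inf_le_left.trans (inf_le_left.trans inf_le_right)
      · have h3 : (tv (u ≤ v) : RO C) = ⊥ := tv_false h2
        rw [h3, bot_inf_eq, bot_inf_eq, inf_bot_eq]; exact bot_le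
    · have h3 : (tv (u' ≤ u) : RO C) = ⊥ := tv_false h1
      rw [h3, bot_inf_eq, bot_inf_eq, bot_inf_eq]; exact bot_le
  · have h1 : q.1 a u ⊓ q.1 a v' = ⊥ := q.2.1 a u v' huv
    have h2 : tv (u' ≤ u) ⊓ p.1 a u' ⊓ q.1 a u ⊓ (tv (v' ≤ v) ⊓ q.1 a v' ⊓ r.1 a v) ≤
        q.1 a u ⊓ q.1 a v' :=
      le_inf (inf_le_left.trans inf_le_right)
        (inf_le_right.trans (inf_le_left.trans inf_le_right))
    exact h2.trans (h1.le.trans bot_le)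

theorem QC.F_mono (hU : UltC κ U) (hχκ : χ ≤ κ) (hχ : ℵ₀ ≤ χ) (h : QC Rel χ U)
    (c : RO (S × Pf D V Rel χ × C)) (X X' : I → RO (S × Pf D V Rel χ × C))
    (hX : ∀ a, c ⊓ X a ≤ X' a) : c ⊓ QC.F hU hχκ hχ h X ≤ QC.F hU hχκ hχ h X' := by
  intro p hp q hq
  obtain ⟨r, hr, h1⟩ := hp.2 q hq
  refine ⟨r, hr, ?_⟩
  have hrc : c.1 r := c.down (hr.trans hq) hp.1
  have h2 : sec r.1 r.2.1 c ⊓ U (QC.W hχ h r.1 r.2.1 X) ≤ U (QC.W hχ h r.1 r.2.1 X') := by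
    apply hU.mono (hχ.trans hχκ)
    intro a
    unfold QC.W
    rw [inf_iSup_eq]
    refine iSup_mono fun u => ?_
    intro c' hc'
    refine ⟨hc'.2.1, ?_⟩
    have h3 : c.1 (r.1, Pf.merge hχ r.2.1 u, c') :=
      c.down (show (r.1, Pf.merge hχ r.2.1 u, c') ≤ (r.1, r.2.1, c') from
        ⟨_root_.le_refl _, Pf.merge_le_left hχ r.2.1 u, _root_.le_refl _⟩) hc'.1
    exact hX a _ ⟨h3, hc'.2.2⟩
  exact h2 r.2.2 ⟨hrc, h1⟩

theorem QC.F_inf (hU : UltC κ U) (hχκ : χ ≤ κ) (hχ : ℵ₀ ≤ χ) (h : QC Rel χ U)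
    (X X' : I → RO (S × Pf D V Rel χ × C)) :
    QC.F hU hχκ hχ h X ⊓ QC.F hU hχκ hχ h X' ≤ QC.F hU hχκ hχ h (fun a => X a ⊓ X' a) := by
  intro p hp q hq
  obtain ⟨r, hr, h1⟩ := hp.1 q hq
  obtain ⟨r', hr', h2⟩ := hp.2 r (hr.trans hq)
  refine ⟨r', hr'.trans hr, ?_⟩
  have h3 := QC.W_open hU hχκ hχ h X r r' hr' h1
  have hκ := hχ.trans hχκ
  have h4 : U (QC.W hχ h r'.1 r'.2.1 X) ⊓ U (QC.W hχ h r'.1 r'.2.1 X') ≤
      U (QC.W hχ h r'.1 r'.2.1 (fun a => X a ⊓ X' a)) := by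
    rw [← hU.inf2 hκ]
    apply hU.mono' hκ
    intro a
    exact QC.W_inf hχ h _ _ X X' a
  exact h4 r'.2.2 ⟨h3, h2⟩

theorem QC.F_ne (hU : UltC κ U) (hχκ : χ ≤ κ) (hχ : ℵ₀ ≤ χ) (h : QC Rel χ U)
    (X : I → RO (S × Pf D V Rel χ × C)) : QC.F hU hχκ hχ h X ≤ ⨆ a, X a := by
  intro p hp
  rw [RO.mem_iSup]
  intro q hq
  obtain ⟨r, hr, h1⟩ := hp q hq
  have h2 := hU.ne (hχ.trans hχκ) (QC.W hχ h r.1 r.2.1 X) r.2.2 h1
  rw [RO.mem_iSup] at h2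
  obtain ⟨c1, hc1, a, h3⟩ := h2 r.2.2 (_root_.le_refl _)
  unfold QC.W at h3
  rw [RO.mem_iSup] at h3
  obtain ⟨c2, hc2, u, h4⟩ := h3 c1 (_root_.le_refl _)
  refine ⟨(r.1, Pf.merge hχ r.2.1 u, c2), ?_, a, h4.2⟩
  refine _root_.le_trans ?_ hr
  exact ⟨_root_.le_refl _, Pf.merge_le_left hχ r.2.1 u, hc2.trans hc1⟩

theorem QC.F_cone (hU : UltC κ U) (hχκ : χ ≤ κ) (hχ : ℵ₀ ≤ χ) (h : QC Rel χ U) (α : I) :
    QC.F (S := S) hU hχκ hχ h (fun a => tv (α ≤ a)) = ⊤ := by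
  rw [RO.eq_top_iff]
  intro p q _
  refine ⟨q, _root_.le_refl _, ?_⟩
  have h1 : U (QC.W hχ h q.1 q.2.1 (fun a => tv (α ≤ a))) = ⊤ := by
    rw [_root_.eq_top_iff, ← hU.cone α]
    apply hU.mono' (hχ.trans hχκ)
    intro a
    by_cases ha : α ≤ a
    · rw [tv_true ha]
      refine (h.2.2.1 a).ge.trans ?_
      unfold QC.W
      refine iSup_mono fun u => ?_
      intro c hc
      refine ⟨hc, ?_⟩
      have h5 : (⊤ : RO (S × Pf D V Rel χ × C)) ≤ tv (α ≤ a) := (tv_true ha).ge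
      exact h5 _ (RO.mem_top _)
    · rw [tv_false ha]; exact bot_le
  exact h1.ge _ (RO.mem_top _)

theorem QC.F_le (hU : UltC κ U) (hχκ : χ ≤ κ) (hχ : ℵ₀ ≤ χ) (h h' : QC Rel χ U)
    (X : I → RO (S × Pf D V Rel χ × C)) :
    lift (QC.le h' h) ⊓ QC.F hU hχκ hχ h X ≤ QC.F hU hχκ hχ h' X := by
  intro p hp q hq
  obtain ⟨r, hr, h1⟩ := hp.2 q hq
  refine ⟨r, hr, ?_⟩
  have hκ := hχ.trans hχκ
  have hle : (QC.le h' h).1 r.2.2 := (QC.le h' h).down (hr.trans hq).2.2 hp.1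
  have h2 : QC.le h' h ⊓ U (QC.W hχ h r.1 r.2.1 X) ≤ U (QC.W hχ h' r.1 r.2.1 X) := by
    unfold QC.le
    rw [← hU.inf2 hκ]
    apply hU.mono' hκ
    intro a
    unfold QC.W
    refine iSup2_inf_le fun u' u => inf_iSup1_le fun v => ?_
    by_cases huv : u = v
    · subst huv
      by_cases h3 : u' ≤ u
      · refine _root_.le_trans ?_ (le_iSup (fun w : Pf D V Rel χ =>
          (h'.1 a w ⊓ sec r.1 (Pf.merge hχ r.2.1 w) (X a) : RO C)) u')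
        intro c hc
        refine ⟨hc.1.1.2, ?_⟩
        have h4 : (X a).1 (r.1, Pf.merge hχ r.2.1 u, c) := hc.2.2
        exact (X a).down (show (r.1, Pf.merge hχ r.2.1 u', c) ≤ (r.1, Pf.merge hχ r.2.1 u, c) from
          ⟨_root_.le_refl _, Pf.merge_mono_right hχ r.2.1 h3, _root_.le_refl _⟩) h4
      · have h5 : (tv (u' ≤ u) : RO C) = ⊥ := tv_false h3
        rw [h5, bot_inf_eq, bot_inf_eq, bot_inf_eq]; exact bot_le
    · have h3 : h.1 a u ⊓ h.1 a v = ⊥ := h.2.1 a u v huv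
      have h4 : tv (u' ≤ u) ⊓ h'.1 a u' ⊓ h.1 a u ⊓
          (h.1 a v ⊓ sec r.1 (Pf.merge hχ r.2.1 v) (X a)) ≤ h.1 a u ⊓ h.1 a v :=
        le_inf (inf_le_left.trans inf_le_right) (inf_le_right.trans inf_le_left)
      exact h4.trans (h3.le.trans bot_le)
  exact h2 r.2.2 ⟨hle, h1⟩

end BT
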