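import Pool.Agent.Helper18.BT.C01

/-!
# BT-C04: the standard part

`BDist A μ`: names of at most `μ` many ground model objects can be decided simultaneously.

PROOF of `exists_stdpart`.  For `x : D`, `o : Option V` let `n x o := U (fun a => ⨆ u, tv (u.f x = o) ⊓ f a u)`.
(i) `⨆ o, n x o = ⊤`: with `K_x := Option {y // Rel x y}`, `#K_x < κ`, `⊤ = ⨆ u, f a u ≤
⨆ (o : K_x), ⨆ u, tv (u.f x = o) ⊓ f a u` (`u.rel`), `UltC.top`, `UltC.sup`.
`BDist` for `J = D` gives `c ≤ b`, `c ≠ ⊥`, `g : D → Option V` with `c ≤ n x (g x)` for all `x`.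
(ii) `g x = some y → Rel x y`: otherwise `tv (u.f x = some y) = ⊥` for all `u`, and `U (fun _ => ⊥) = ⊥`.
(iii) `#{x // g x ≠ none} < χ`: otherwise there is a set `X'` of such `x` with `#X' = χ < κ`;
`c ≤ ⨅ x : X', n x (g x) = U (fun a => ⨅ x : X', ⨆ u, tv (u.f x = g x) ⊓ f a u)` and the function is
`⊥`: `f a` is functional, so `⨅ x : X', … ≤ ⨆ u, tv (∀ x : X', u.f x = g x) ⊓ f a u` (`X'` is
nonempty) and no `u` has a domain containing `X'` (`u.small`).  So `c = ⊥`.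
Let `t := ⟨g, …⟩`.  First claim: `{x // g x ≠ none}` has size `< χ < κ`, so
`c ≤ U (fun a => ⨅ x : {x // g x ≠ none}, ⨆ u, tv (u.f x = g x) ⊓ f a u)`, which is
`≤ U (fun a => ⨆ u, tv (u ≤ t) ⊓ f a u)` (multiply by `⊤ = ⨆ u, f a u`).  Second claim:
`c ≤ n x none`.
-/

open Cardinal

namespace BT

/-- Names of at most `μ` many elements of ground model sets can be decided simultaneously. -/
def BDist (A : Type) [CompleteBooleanAlgebra A] (μ : Cardinal.{0}) : Prop :=
  ∀ (J : Type), #J ≤ μ → ∀ (Y : Type) (n : J → Y → A), ∀ b : A, b ≠ ⊥ →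
    (∀ j, b ≤ ⨆ y, n j y) → ∃ c ≤ b, c ≠ ⊥ ∧ ∃ f : J → Y, ∀ j, c ≤ n j (f j)

variable {D V : Type} {Rel : D → V → Prop} {χ κ : Cardinal.{0}} {A I : Type}
  [CompleteBooleanAlgebra A] [Preorder I] {U : (I → A) → A}

theorem iInf_func {B X Y K : Type} [CompleteBooleanAlgebra B] {f : X → Y → B} (hf : IsFunc f)
    (x : X) (hx : ⨆ y, f x y = ⊤) (P : K → Y → Prop) :
    (⨅ k, ⨆ y, tv (P k y) ⊓ f x y) ≤ ⨆ y, tv (∀ k, P k y) ⊓ f x y := by
  have h3 : (⨅ k, ⨆ y, tv (P k y) ⊓ f x y) =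
      ⨆ y, (⨅ k, ⨆ y, tv (P k y) ⊓ f x y) ⊓ f x y := by
    rw [← inf_iSup_eq, hx, inf_top_eq]
  rw [h3]
  refine iSup_mono fun y => ?_
  by_cases hy : ∀ k, P k y
  · rw [tv_true hy, top_inf_eq]
    exact inf_le_right
  · push Not at hy
    obtain ⟨k, hk⟩ := hy
    refine (inf_le_inf_right _ (iInf_le _ k)).trans ?_
    rw [iSup_inf_eq]
    refine iSup_le fun y' => ?_
    by_cases hy' : y' = y
    · subst hy'
      rw [tv_false hk, bot_inf_eq, bot_inf_eq]
      exact bot_le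
    · calc tv (P k y') ⊓ f x y' ⊓ f x y ≤ f x y' ⊓ f x y := inf_le_inf_right _ inf_le_right
        _ = ⊥ := hf x y' y hy'
        _ ≤ _ := bot_le

theorem exists_stdpart (hU : UltC κ U) (hκ : ℵ₀ ≤ κ) (hχκ : χ < κ) (hχ : ℵ₀ ≤ χ)
    (hV : ∀ x, #(Option {y // Rel x y}) < κ) (hdist : BDist A #D)
    (f : I → Pf D V Rel χ → A) (hf : IsFunc f) (hft : ∀ a, ⨆ u, f a u = ⊤) {b : A}
    (hb : b ≠ ⊥) :
    ∃ c ≤ b, c ≠ ⊥ ∧ ∃ t : Pf D V Rel χ, c ≤ U (fun a => ⨆ u, tv (u ≤ t) ⊓ f a u) ∧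
      ∀ x, t.f x = none → c ≤ U (fun a => ⨆ u, tv (u.f x = none) ⊓ f a u) := by
  have hi : ∀ x, (⨆ o : Option V, U (fun a => ⨆ u : Pf D V Rel χ, tv (u.f x = o) ⊓ f a u)) = ⊤ := by
    intro x
    have h1 := hU.sup (Option {y // Rel x y})
      (fun o a => ⨆ u : Pf D V Rel χ, tv (u.f x = o.map Subtype.val) ⊓ f a u) (hV x)
    have h2 : (fun a => ⨆ o : Option {y // Rel x y}, ⨆ u : Pf D V Rel χ,
        tv (u.f x = o.map Subtype.val) ⊓ f a u) = fun _ => ⊤ := by
      funext a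
      rw [eq_top_iff, ← hft a]
      refine iSup_le fun u => ?_
      cases hx : u.f x with
      | none =>
        refine le_iSup_of_le none (le_iSup_of_le u ?_)
        rw [hx]
        rw [tv_true (by rfl), top_inf_eq]
      | some y =>
        refine le_iSup_of_le (some ⟨y, u.rel x y hx⟩) (le_iSup_of_le u ?_)
        rw [hx]
        rw [tv_true (by rfl), top_inf_eq]
    rw [h2, hU.top] at h1
    rw [eq_top_iff, h1]
    exact iSup_le fun o => le_iSup
      (fun o : Option V => U (fun a => ⨆ u : Pf D V Rel χ, tv (u.f x = o) ⊓ f a u))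
      (o.map Subtype.val)
  obtain ⟨c, hcb, hc, g, hg⟩ := hdist D le_rfl (Option V)
    (fun x o => U (fun a => ⨆ u : Pf D V Rel χ, tv (u.f x = o) ⊓ f a u)) b hb
    (fun x => le_top.trans (hi x).ge)
  have hbot : U (fun _ => ⊥) = ⊥ := hU.const ⊥
  have hrel : ∀ x y, g x = some y → Rel x y := by
    intro x y hxy
    by_contra hcon
    apply hc
    rw [eq_bot_iff]
    calc c ≤ U (fun a => ⨆ u : Pf D V Rel χ, tv (u.f x = g x) ⊓ f a u) := hg x
      _ ≤ U (fun _ => ⊥) := by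
          refine hU.mono' hκ fun a => iSup_le fun u => ?_
          have h1 : ¬ u.f x = g x := by
            intro h2
            exact hcon (u.rel x y (h2.trans hxy))
          rw [tv_false h1, bot_inf_eq]
      _ = ⊥ := hbot
  have hU2 : ∀ (K : Type) (e : K → D), #K < κ →
      c ≤ U (fun a => ⨆ u : Pf D V Rel χ, tv (∀ k, u.f (e k) = g (e k)) ⊓ f a u) := by
    intro K e hK
    calc c ≤ ⨅ k, U (fun a => ⨆ u : Pf D V Rel χ, tv (u.f (e k) = g (e k)) ⊓ f a u) :=
          le_iInf fun k => hg (e k)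
      _ = U (fun a => ⨅ k, ⨆ u : Pf D V Rel χ, tv (u.f (e k) = g (e k)) ⊓ f a u) :=
          (hU.inf K (fun k a => ⨆ u : Pf D V Rel χ, tv (u.f (e k) = g (e k)) ⊓ f a u) hK).symm
      _ ≤ _ := hU.mono' hκ fun a =>
          iInf_func hf a (hft a) (fun k (u : Pf D V Rel χ) => u.f (e k) = g (e k))
  have hsmall : #{x // g x ≠ none} < χ := by
    by_contra hcon
    rw [not_lt, Cardinal.le_mk_iff_exists_set] at hcon
    obtain ⟨p, hp⟩ := hcon
    apply hc
    rw [eq_bot_iff]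
    refine (hU2 p (fun k => k.1.1) (by rw [hp]; exact hχκ)).trans ?_
    rw [← hbot]
    refine hU.mono' hκ fun a => iSup_le fun u => ?_
    have h1 : ¬ ∀ k : p, u.f k.1.1 = g k.1.1 := by
      intro h2
      have h3 : #p ≤ #{x : D // u.f x ≠ none} := by
        refine Cardinal.mk_le_of_injective (f := fun k : p =>
          (⟨k.1.1, by rw [h2 k]; exact k.1.2⟩ : {x : D // u.f x ≠ none})) ?_
        intro k k' hkk
        have h4 : k.1.1 = k'.1.1 := by
          simpa using hkk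
        exact Subtype.ext (Subtype.ext h4)
      rw [hp] at h3
      exact absurd u.small (not_lt.mpr h3)
    rw [tv_false h1, bot_inf_eq]
  refine ⟨c, hcb, hc, ⟨g, hsmall, hrel⟩, ?_, ?_⟩
  · refine (hU2 {x // g x ≠ none} (fun k => k.1) (hsmall.trans hχκ)).trans ?_
    refine hU.mono' hκ fun a => iSup_mono fun u => inf_le_inf_right _ (tv_mono ?_)
    intro h x y hxy
    have hxy' : g x = some y := hxy
    have h1 := h ⟨x, by rw [hxy']; simp⟩
    exact h1.trans hxy'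
  · intro x hx
    have hx' : g x = none := hx
    have h1 := hg x
    rw [hx'] at h1
    exact h1

end BT
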