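import Pool.Agent.Helper18.BT.C03
import Pool.Agent.Helper18.BT.C04

/-!
# BT-C05: every cover into few pieces is decided

PROOF.  By `RO.eq_top_iff` and `RO.mem_iSup` it is enough to find, for every `q = (s, t, c)`, some
`r ≤ q`, `h'`, `k` with `r ∈ lift (QC.le h' h)` and `r ∈ QC.F h' (g k)`.
(i) For `z = (s', v, k) : S × Pf × K` let
`e a z := ⨆ u, h.1 a u ⊓ tv (s' ≤ s ∧ v ≤ t ∧ v ≤ u) ⊓ sec s' v (g k a)`.
`U (fun a => ⨆ z, e a z) = ⊤`: by `QC.avoid` (for `t`) it is enough that pointwise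
`⨆ u, tv (∀ x, t.f x ≠ none → u.f x = none) ⊓ h.1 a u ≤ ⨆ z, e a z`: if `c'` is in
`h.1 a u` with such a `u` then `(s, merge t u, c') ∈ ⨆ k, g k a = ⊤`, so there are `k` and
`(s', v, c'') ≤ (s, merge t u, c')` in `g k a`, and `v ≤ merge t u ≤ t`, `≤ u` (`merge_le_right`);
so `c'' ∈ e a (s', v, k)`.
(ii) By `exists_disjoint` for each `a` there are `n a z ≤ e a z`, pairwise disjoint, with the same join.
Let `m s' k a := ⨆ v, n a (s', v, k)`.  `⊤ = U (fun a => ⨆ (s', k), m s' k a) = ⨆ (s', k), U (m s' k)`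
(`UltC.sup`, `#(S × K) < κ`), so there are `s*`, `k*` with `b₁ := RO.princ c ⊓ U (m s* k*) ≠ ⊥`.
(iii) `f a v := n a (s*, v, k*) ⊔ tv (v = empty) ⊓ (m s* k* a)ᶜ` is functional and total.
`exists_stdpart` for `f`, `b₁`: `c₁ ≤ b₁`, `c₁ ≠ ⊥`, `t*`.
(iv) `β := U (m s* k*) ⊓ U (fun a => ⨆ u, tv (u ≤ t*) ⊓ f a u) ⊓
⨅ x, ⨅ _ : t*.f x = none, U (fun a => ⨆ u, tv (u.f x = none) ⊓ f a u)`; `c₁ ≤ β`.
`h' a w := (β ⊓ ⨆ v, tv (Pf.diff v t* = w) ⊓ f a v) ⊔ (βᶜ ⊓ tv (w = empty))`.  It is in `QC`: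
functional and total clear; third property: `⊤ = β ⊔ βᶜ`; `βᶜ ≤ U (…)` since pointwise
`βᶜ ≤ ⨆ w, tv (w.f x = none) ⊓ h' a w` (`w = empty`); `β ≤ U (…)`: if `t*.f x ≠ none` then
`(Pf.diff v t*).f x = none` for all `v`; if `t*.f x = none` then `(Pf.diff v t*).f x = v.f x` and
`β ≤ U (fun a => ⨆ u, tv (u.f x = none) ⊓ f a u)`.
(v) `t* ≤ t` and `s* ≤ s`: if `t.f x = some y` but `t*.f x ≠ some y` then, if `t*.f x = none`:
`c₁ ≤ U (m s* k*) ⊓ U (fun a => ⨆ u, tv (u.f x = none) ⊓ f a u) = U (…)` and the pointwise meet is `⊥`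
(`m s* k* a ⊓ f a v ≤ n a (s*, v, k*) ≤ e a _ ≤ tv (v ≤ t)`); if `t*.f x = some z`, `z ≠ y`, use
`U (fun a => ⨆ u, tv (u ≤ t*) ⊓ f a u)` in the same way.  `s* ≤ s` similarly (`U (m s* k*) ≠ ⊥`).
(vi) `RO.exists_mem_le` gives `c'' ≤ c` with `c'' ∈ c₁`; `r := (s*, t*, c'')`.
(vii) `r ∈ lift (QC.le h' h)`: `c'' ∈ β`, `U (m s* k*)`, and `U (avoid t*) = ⊤` (`QC.avoid` for `t*`);
pointwise `β ⊓ m s* k* a ⊓ avoid a ≤ ⨆ u', ⨆ u, tv (u' ≤ u) ⊓ h' a u' ⊓ h a u`, with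
`u' = Pf.diff v t*`, `v ≤ u`, `u` avoids the domain of `t*` (`Pf.diff_le_of_le`).
(viii) `r ∈ QC.F h' (g k*)`: `c'' ∈ U (QC.W h' s* t* (g k*))`: pointwise
`β ⊓ m s* k* a ⊓ ⨆ v, tv (v ≤ t*) ⊓ f a v ≤ W a`, `w = Pf.diff v t*`, `Pf.merge t* w = v`
(`merge_diff`), `n a (s*, v, k*) ≤ sec s* v (g k* a)`.
-/

open Cardinal

namespace BT

variable {D V : Type} {Rel : D → V → Prop} {χ κ : Cardinal.{0}} {S C I : Type} [Preorder S]
  [Preorder C] [Preorder I] {U : (I → RO C) → RO C}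

private theorem c05_mem_tv {P : Type} [Preorder P] {Q : Prop} {p : P} :
    (tv Q : RO P).1 p ↔ Q := by
  by_cases h : Q
  · rw [tv_true h]
    exact ⟨fun _ => h, fun _ => RO.mem_top p⟩
  · rw [tv_false h]
    exact ⟨fun h1 => absurd h1 (RO.not_mem_bot p), fun h1 => absurd h1 h⟩

private theorem c05_elim {P : Type} [Preorder P] {ι : Sort*} {x : RO P} {f : ι → RO P} {p : P}
    (hp : (⨆ i, f i).1 p) (H : ∀ r, r ≤ p → ∀ i, (f i).1 r → x.1 r) : x.1 p := by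
  refine x.of_dense fun q hq => ?_
  obtain ⟨r, hr, i, hi⟩ := RO.mem_iSup.1 hp q hq
  exact ⟨r, hr, H r (hr.trans hq) i hi⟩

private theorem c05_intro {P : Type} [Preorder P] {ι : Sort*} {f : ι → RO P} {p : P} (i : ι)
    (h : (f i).1 p) : (⨆ i, f i).1 p := (le_iSup f i) p h

/-- The construction of the standard part and of the new condition, in terms of conditions. -/
private theorem c05_main (hU : UltC κ U) (hκ : ℵ₀ ≤ κ) (hχκ : χ < κ) (hχ : ℵ₀ ≤ χ)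
    (hV : ∀ x, #(Option {y // Rel x y}) < κ) (hdist : BDist (RO C) #D) (K : Type)
    (g : K → I → RO (S × Pf D V Rel χ × C)) (h : QC Rel χ U) (s ss : S) (t : Pf D V Rel χ) (c : C)
    (ks : K) (n : I → Pf D V Rel χ → RO C)
    (hn1 : ∀ a v, n a v ≤ ⨆ u, h.1 a u ⊓ tv (ss ≤ s ∧ v ≤ t ∧ v ≤ u) ⊓ sec ss v (g ks a))
    (hn2 : ∀ a v v', v ≠ v' → n a v ⊓ n a v' = ⊥)
    (hm : RO.princ c ⊓ U (fun a => ⨆ v, n a v) ≠ ⊥) :
    ∃ r, r ≤ (s, t, c) ∧ ∃ h' : QC Rel χ U, (lift (QC.le h' h)).1 r ∧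
      (QC.F hU hχκ.le hχ h' (g ks)).1 r := by
  classical
  set m : I → RO C := fun a => ⨆ v, n a v with hmdef
  have hnm : ∀ a v, n a v ≤ m a := fun a v => le_iSup (n a) v
  let f : I → Pf D V Rel χ → RO C := fun a v => n a v ⊔ tv (v = Pf.empty hχ) ⊓ (m a)ᶜ
  have hnf : ∀ a v, n a v ≤ f a v := fun a v => le_sup_left
  have hmf : ∀ a v, m a ⊓ f a v ≤ n a v := by
    intro a v
    rw [inf_sup_left]
    refine sup_le inf_le_right ?_
    have : m a ⊓ (tv (v = Pf.empty hχ) ⊓ (m a)ᶜ) ≤ m a ⊓ (m a)ᶜ :=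
      inf_le_inf le_rfl inf_le_right
    rw [inf_compl_self] at this
    exact this.trans bot_le
  have hf : IsFunc f := by
    intro a v v' hv
    rw [← le_bot_iff]
    have e1 : n a v ⊓ (m a)ᶜ = ⊥ := inf_compl_eq_bot_of_le (hnm a v)
    have e2 : n a v' ⊓ (m a)ᶜ = ⊥ := inf_compl_eq_bot_of_le (hnm a v')
    intro p hp
    obtain ⟨h1, h2⟩ := RO.mem_inf.1 hp
    obtain ⟨r, hr, h1'⟩ := RO.mem_sup.1 h1 p le_rfl
    obtain ⟨r', hr', h2'⟩ := RO.mem_sup.1 ((f a v').down hr h2) r le_rfl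
    exfalso
    rcases h1' with h1' | h1'
    · rcases h2' with h2' | h2'
      · have h3 : (n a v ⊓ n a v').1 r' := RO.mem_inf.2 ⟨(n a v).down hr' h1', h2'⟩
        rw [hn2 a v v' hv] at h3
        exact RO.not_mem_bot _ h3
      · have h3 : (n a v ⊓ (m a)ᶜ).1 r' :=
          RO.mem_inf.2 ⟨(n a v).down hr' h1', (RO.mem_inf.1 h2').2⟩
        rw [e1] at h3
        exact RO.not_mem_bot _ h3
    · rcases h2' with h2' | h2'
      · have h3 : (n a v' ⊓ (m a)ᶜ).1 r' :=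
          RO.mem_inf.2 ⟨h2', ((m a)ᶜ).down hr' (RO.mem_inf.1 h1').2⟩
        rw [e2] at h3
        exact RO.not_mem_bot _ h3
      · have h3 := c05_mem_tv.1 (RO.mem_inf.1 h1').1
        have h4 := c05_mem_tv.1 (RO.mem_inf.1 h2').1
        exact hv (h3.trans h4.symm)
  have hft : ∀ a, ⨆ v, f a v = ⊤ := by
    intro a
    rw [← top_le_iff, ← sup_compl_eq_top (x := m a)]
    refine sup_le ?_ ?_
    · exact iSup_mono (fun v => hnf a v)
    · refine le_trans ?_ (le_iSup (f a) (Pf.empty hχ))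
      refine le_trans ?_ le_sup_right
      rw [tv_true rfl, top_inf_eq]
  obtain ⟨c₁, hc₁, hc₁ne, ts, hts1, hts2⟩ :=
    exists_stdpart hU hκ hχκ hχ hV hdist f hf hft hm
  have hc₁m : c₁ ≤ U m := hc₁.trans inf_le_right
  set β : RO C := U m ⊓ U (fun a => ⨆ u, tv (u ≤ ts) ⊓ f a u) ⊓
    ⨅ x, ⨅ _ : ts.f x = none, U (fun a => ⨆ u, tv (u.f x = none) ⊓ f a u) with hβ
  have hc₁β : c₁ ≤ β := by
    refine le_inf (le_inf hc₁m hts1) ?_
    exact le_iInf fun x => le_iInf fun hx => hts2 x hx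
  have hβx : ∀ x, ts.f x = none → β ≤ U (fun a => ⨆ u, tv (u.f x = none) ⊓ f a u) := by
    intro x hx
    exact inf_le_right.trans (iInf_le_of_le x (iInf_le _ hx))
  -- the new condition
  let A : I → Pf D V Rel χ → RO C := fun a w => ⨆ v, tv (Pf.diff v ts = w) ⊓ f a v
  let h'f : I → Pf D V Rel χ → RO C := fun a w =>
    (β ⊓ A a w) ⊔ (βᶜ ⊓ tv (w = Pf.empty hχ))
  have hh'1 : ∀ a v, β ⊓ f a v ≤ h'f a (Pf.diff v ts) := by
    intro a v
    refine le_trans ?_ le_sup_left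
    refine inf_le_inf le_rfl ?_
    refine le_trans ?_ (le_iSup (fun v' => tv (Pf.diff v' ts = Pf.diff v ts) ⊓ f a v') v)
    rw [tv_true rfl, top_inf_eq]
  have hh'2 : ∀ a, βᶜ ≤ h'f a (Pf.empty hχ) := by
    intro a
    refine le_trans ?_ le_sup_right
    rw [tv_true rfl, inf_top_eq]
  have hfunc' : IsFunc h'f := by
    intro a w w' hw
    rw [← le_bot_iff]
    intro p hp
    obtain ⟨h1, h2⟩ := RO.mem_inf.1 hp
    obtain ⟨r, hr, h1'⟩ := RO.mem_sup.1 h1 p le_rfl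
    obtain ⟨r', hr', h2'⟩ := RO.mem_sup.1 ((h'f a w').down hr h2) r le_rfl
    exfalso
    have hbc : ∀ q, β.1 q → (βᶜ).1 q → False := by
      intro q h3 h4
      exact h4 q le_rfl h3
    rcases h1' with h1' | h1'
    · rcases h2' with h2' | h2'
      · have h3 : (A a w).1 r' := (A a w).down hr' (RO.mem_inf.1 h1').2
        have h4 : (A a w').1 r' := (RO.mem_inf.1 h2').2
        obtain ⟨r1, hr1, v, hv⟩ := RO.mem_iSup.1 h3 r' le_rfl
        obtain ⟨r2, hr2, v', hv'⟩ := RO.mem_iSup.1 h4 r1 hr1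
        have h5 := (c05_mem_tv.1 (RO.mem_inf.1 hv).1)
        have h6 := (c05_mem_tv.1 (RO.mem_inf.1 hv').1)
        by_cases hvv : v = v'
        · subst hvv
          exact hw (h5.symm.trans h6)
        · have h7 : (f a v ⊓ f a v').1 r2 :=
            RO.mem_inf.2 ⟨(f a v).down hr2 (RO.mem_inf.1 hv).2, (RO.mem_inf.1 hv').2⟩
          rw [hf a v v' hvv] at h7
          exact RO.not_mem_bot _ h7
      · exact hbc r' (β.down hr' (RO.mem_inf.1 h1').1) (RO.mem_inf.1 h2').1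
    · rcases h2' with h2' | h2'
      · exact hbc r' (RO.mem_inf.1 h2').1 ((βᶜ).down hr' (RO.mem_inf.1 h1').1)
      · have h3 := c05_mem_tv.1 (RO.mem_inf.1 h1').2
        have h4 := c05_mem_tv.1 (RO.mem_inf.1 h2').2
        exact hw (h3.trans h4.symm)
  have htot' : ∀ a, ⨆ w, h'f a w = ⊤ := by
    intro a
    rw [← top_le_iff, ← sup_compl_eq_top (x := β)]
    refine sup_le ?_ ?_
    · have h1 : β = β ⊓ ⨆ v, f a v := by rw [hft a, inf_top_eq]
      rw [h1, inf_iSup_eq]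
      exact iSup_le fun v => (hh'1 a v).trans (le_iSup (h'f a) _)
    · exact (hh'2 a).trans (le_iSup (h'f a) _)
  have hstd' : ∀ x, U (fun a => ⨆ w, tv (w.f x = none) ⊓ h'f a w) = ⊤ := by
    intro x
    rw [← top_le_iff, ← sup_compl_eq_top (x := β)]
    refine sup_le ?_ ?_
    · by_cases hx : ts.f x = none
      · have h1 : β = β ⊓ U (fun a => ⨆ u, tv (u.f x = none) ⊓ f a u) :=
          (inf_eq_left.2 (hβx x hx)).symm
        rw [h1]
        refine hU.mono hκ ?_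
        intro a
        rw [inf_iSup_eq]
        refine iSup_le fun u => ?_
        refine le_trans ?_ (le_iSup (fun w => tv (w.f x = none) ⊓ h'f a w) (Pf.diff u ts))
        refine le_inf ?_ ?_
        · refine (inf_le_right.trans inf_le_left).trans (tv_mono ?_)
          intro h2
          rw [Pf.diff_f, if_pos hx, h2]
        · exact (inf_le_inf le_rfl inf_le_right).trans (hh'1 a u)
      · have h1 : β = β ⊓ U (fun _ => ⊤) := by rw [hU.top, inf_top_eq]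
        rw [h1]
        refine hU.mono hκ ?_
        intro a
        rw [← hft a, inf_iSup_eq]
        refine iSup_le fun u => ?_
        refine le_trans ?_ (le_iSup (fun w => tv (w.f x = none) ⊓ h'f a w) (Pf.diff u ts))
        refine le_inf ?_ (hh'1 a u)
        refine le_tv ?_ _
        rw [Pf.diff_f, if_neg hx]
    · have h1 : βᶜ = βᶜ ⊓ U (fun _ => ⊤) := by rw [hU.top, inf_top_eq]
      rw [h1]
      refine hU.mono hκ ?_
      intro a
      refine le_trans ?_ (le_iSup (fun w => tv (w.f x = none) ⊓ h'f a w) (Pf.empty hχ))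
      refine le_inf (le_tv rfl _) (inf_le_left.trans (hh'2 a))
  let h' : QC Rel χ U := ⟨h'f, hfunc', htot', hstd'⟩
  -- bounds for the standard parts
  have hne : ∀ a v, (∃ p, (n a v).1 p) → ss ≤ s ∧ v ≤ t := by
    rintro a v ⟨p, hp⟩
    obtain ⟨r, _, u, hu⟩ := RO.mem_iSup.1 (hn1 a v p hp) p le_rfl
    have h1 := c05_mem_tv.1 (RO.mem_inf.1 (RO.mem_inf.1 hu).1).2
    exact ⟨h1.1, h1.2.1⟩
  have hUbot : U (fun _ => ⊥) = ⊥ := hU.const ⊥
  have hss : ss ≤ s := by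
    by_contra hcon
    apply hc₁ne
    rw [← le_bot_iff]
    refine hc₁m.trans ?_
    rw [← hUbot]
    refine hU.mono' hκ ?_
    intro a
    refine iSup_le fun v p hp => ?_
    exact absurd (hne a v ⟨p, hp⟩).1 hcon
  have htt : ts ≤ t := by
    intro x y hy
    by_contra hcon
    apply hc₁ne
    rw [← le_bot_iff]
    cases hx : ts.f x with
    | none =>
      have h1 : c₁ ≤ U m ⊓ U (fun a => ⨆ u, tv (u.f x = none) ⊓ f a u) :=
        le_inf hc₁m (hts2 x hx)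
      refine h1.trans ?_
      rw [← hU.inf2 hκ, ← hUbot]
      refine hU.mono' hκ ?_
      intro a p hp
      obtain ⟨h2, h3⟩ := RO.mem_inf.1 hp
      refine c05_elim h3 ?_
      intro r hr u hu
      exfalso
      obtain ⟨h4, h5⟩ := RO.mem_inf.1 hu
      have h6 : (n a u).1 r := hmf a u r (RO.mem_inf.2 ⟨(m a).down hr h2, h5⟩)
      have h7 := (hne a u ⟨r, h6⟩).2 x y hy
      rw [c05_mem_tv.1 h4] at h7
      simp at h7
    | some z =>
      have h1 : c₁ ≤ U m ⊓ U (fun a => ⨆ u, tv (u ≤ ts) ⊓ f a u) :=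
        le_inf hc₁m hts1
      refine h1.trans ?_
      rw [← hU.inf2 hκ, ← hUbot]
      refine hU.mono' hκ ?_
      intro a p hp
      obtain ⟨h2, h3⟩ := RO.mem_inf.1 hp
      refine c05_elim h3 ?_
      intro r hr u hu
      exfalso
      obtain ⟨h4, h5⟩ := RO.mem_inf.1 hu
      have h6 : (n a u).1 r := hmf a u r (RO.mem_inf.2 ⟨(m a).down hr h2, h5⟩)
      have h7 := (hne a u ⟨r, h6⟩).2 x y hy
      have h8 := (c05_mem_tv.1 h4) x z hx
      rw [h8] at h7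
      apply hcon
      rw [hx, h7]
  -- the condition
  obtain ⟨c'', hc'', hmem⟩ := RO.exists_mem_le hc₁ne (hc₁.trans inf_le_left)
  refine ⟨(ss, ts, c''), ⟨hss, htt, hc''⟩, h', ?_, ?_⟩
  · -- the new condition is an extension
    have key : c₁ ≤ QC.le h' h := by
      have h1 : c₁ ≤ β ⊓ U (fun a => m a ⊓
          ⨆ u, tv (∀ x, ts.f x ≠ none → u.f x = none) ⊓ h.1 a u) := by
        rw [hU.inf2 hκ, QC.avoid hU hχκ.le hχ h ts, inf_top_eq]
        exact le_inf hc₁β hc₁m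
      refine h1.trans (hU.mono hκ ?_)
      intro a p hp
      obtain ⟨h2, h3⟩ := RO.mem_inf.1 hp
      obtain ⟨h4, h5⟩ := RO.mem_inf.1 h3
      refine c05_elim h4 ?_
      intro r hr v hv
      refine c05_elim (hn1 a v r hv) ?_
      intro r1 hr1 u hu
      obtain ⟨h6, h7⟩ := RO.mem_inf.1 (RO.mem_inf.1 hu).1
      have h8 := c05_mem_tv.1 h7
      have h9 := RO.down _ (hr1.trans hr) h5
      refine c05_elim h9 ?_
      intro r2 hr2 u2 hu2
      obtain ⟨h10, h11⟩ := RO.mem_inf.1 hu2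
      have h12 := c05_mem_tv.1 h10
      have huu : u = u2 := by
        by_contra hne'
        have h13 : (h.1 a u ⊓ h.1 a u2).1 r2 := RO.mem_inf.2 ⟨(h.1 a u).down hr2 h6, h11⟩
        rw [h.2.1 a u u2 hne'] at h13
        exact RO.not_mem_bot _ h13
      subst huu
      refine c05_intro (Pf.diff v ts) (c05_intro u ?_)
      refine RO.mem_inf.2 ⟨RO.mem_inf.2 ⟨c05_mem_tv.2 (Pf.diff_le_of_le h8.2.2 h12), ?_⟩, h11⟩
      refine hh'1 a v r2 (RO.mem_inf.2 ⟨β.down ((hr2.trans hr1).trans hr) h2, ?_⟩)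
      exact hnf a v r2 ((n a v).down (hr2.trans hr1) hv)
    exact key c'' hmem
  · -- it forces the set
    have key : c₁ ≤ U (QC.W hχ h' ss ts (g ks)) := by
      have h1 : c₁ ≤ β ⊓ U (fun a => m a ⊓ ⨆ u, tv (u ≤ ts) ⊓ f a u) := by
        rw [hU.inf2 hκ]
        exact le_inf hc₁β (le_inf hc₁m hts1)
      refine h1.trans (hU.mono hκ ?_)
      intro a p hp
      obtain ⟨h2, h3⟩ := RO.mem_inf.1 hp
      obtain ⟨h4, h5⟩ := RO.mem_inf.1 h3
      refine c05_elim h5 ?_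
      intro r hr v hv
      obtain ⟨h6, h7⟩ := RO.mem_inf.1 hv
      have h6' := c05_mem_tv.1 h6
      have h8 : (n a v).1 r := hmf a v r (RO.mem_inf.2 ⟨(m a).down hr h4, h7⟩)
      refine c05_elim (hn1 a v r h8) ?_
      intro r1 hr1 u hu
      obtain ⟨h9, h10⟩ := RO.mem_inf.1 hu
      refine c05_intro (Pf.diff v ts) (RO.mem_inf.2 ⟨?_, ?_⟩)
      · exact hh'1 a v r1 (RO.mem_inf.2 ⟨β.down (hr1.trans hr) h2, (f a v).down hr1 h7⟩)
      · rw [Pf.merge_diff hχ h6']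
        exact h10
    have h1 := key c'' hmem
    intro q hq
    exact ⟨q, le_rfl, QC.W_open hU hχκ.le hχ h' (g ks) (ss, ts, c'') q hq h1⟩

theorem QC.dec (hU : UltC κ U) (hκ : ℵ₀ ≤ κ) (hχκ : χ < κ) (hχ : ℵ₀ ≤ χ) (hS : #S < κ)
    (hV : ∀ x, #(Option {y // Rel x y}) < κ) (hdist : BDist (RO C) #D) (K : Type) (hK : #K < κ)
    (g : K → I → RO (S × Pf D V Rel χ × C)) (hg : ∀ a, ⨆ k, g k a = ⊤) (h : QC Rel χ U) :
    ⨆ h' : QC Rel χ U, ⨆ k, lift (QC.le h' h) ⊓ QC.F hU hχκ.le hχ h' (g k) = ⊤ := by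
  classical
  rw [RO.eq_top_iff]
  intro q0
  rw [RO.mem_iSup]
  rintro ⟨s, t, c⟩ _
  suffices hsuff : ∃ r, r ≤ (s, t, c) ∧ ∃ (h' : QC Rel χ U) (k : K), (lift (QC.le h' h)).1 r ∧
      (QC.F hU hχκ.le hχ h' (g k)).1 r by
    obtain ⟨r, hr, h', k, h1, h2⟩ := hsuff
    exact ⟨r, hr, h', c05_intro k (RO.mem_inf.2 ⟨h1, h2⟩)⟩
  let e : I → S × Pf D V Rel χ × K → RO C := fun a z =>
    ⨆ u, h.1 a u ⊓ tv (z.1 ≤ s ∧ z.2.1 ≤ t ∧ z.2.1 ≤ u) ⊓ sec z.1 z.2.1 (g z.2.2 a)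
  have he : U (fun a => ⨆ z, e a z) = ⊤ := by
    rw [← top_le_iff, ← QC.avoid hU hχκ.le hχ h t]
    refine hU.mono' hκ ?_
    intro a p hp
    refine c05_elim hp ?_
    intro r hr u hu
    obtain ⟨h1, h2⟩ := RO.mem_inf.1 hu
    have h1' := c05_mem_tv.1 h1
    refine RO.of_dense _ fun q hq => ?_
    have h3 : (⨆ k, g k a).1 (s, Pf.merge hχ t u, q) := by rw [hg a]; exact RO.mem_top _
    obtain ⟨⟨s', v, c'⟩, hr', k, hk⟩ := RO.mem_iSup.1 h3 _ le_rfl
    refine ⟨c', hr'.2.2, c05_intro (s', v, k) (c05_intro u ?_)⟩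
    refine RO.mem_inf.2 ⟨RO.mem_inf.2 ⟨(h.1 a u).down (hr'.2.2.trans hq) h2,
      c05_mem_tv.2 ⟨hr'.1, hr'.2.1.trans (Pf.merge_le_left hχ t u),
        hr'.2.1.trans (Pf.merge_le_right hχ t u h1')⟩⟩, hk⟩
  choose n hn1 hn2 hn3 using fun a => exists_disjoint (e a)
  have hsup : ⨆ sk : S × K, U (fun a => ⨆ v, n a (sk.1, v, sk.2)) = ⊤ := by
    rw [← hU.sup (S × K) (fun sk a => ⨆ v, n a (sk.1, v, sk.2)) (by
      rw [Cardinal.mk_prod, Cardinal.lift_id, Cardinal.lift_id]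
      exact Cardinal.mul_lt_of_lt hκ hS hK), ← he]
    congr 1
    funext a
    rw [← hn3 a]
    apply le_antisymm
    · exact iSup_le fun sk => iSup_le fun v => le_iSup (n a) (sk.1, v, sk.2)
    · refine iSup_le fun z => ?_
      exact le_iSup_of_le (z.1, z.2.2) (le_iSup (fun v => n a (z.1, v, z.2.2)) z.2.1)
  obtain ⟨⟨ss, ks⟩, hsk⟩ := exists_inf_ne_bot (RO.princ_ne_bot c)
    (show RO.princ c ≤ ⨆ sk : S × K, U (fun a => ⨆ v, n a (sk.1, v, sk.2)) by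
      rw [hsup]; exact le_top)
  obtain ⟨r, hr, h', h1, h2⟩ := c05_main hU hκ hχκ hχ hV hdist K g h s ss t c ks
    (fun a v => n a (ss, v, ks)) (fun a v => hn1 a (ss, v, ks))
    (fun a v v' hv => hn2 a _ _ (fun heq => hv (by
      have := congrArg (fun z : S × Pf D V Rel χ × K => z.2.1) heq
      exact this))) hsk
  exact ⟨r, hr, h', ks, h1, h2⟩

end BT
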