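import Pool.Agent.Helper18.BT.C03
import Pool.Agent.Helper18.BT.C04

/-!
# BT-C06: lower bounds of decreasing sequences in `QC`

PROOF.  For `a : I`, `σ : J → Pf` let `j a σ := ⨅ i, (s i).1 a (σ i)`.  (1) `⨆ σ, j a σ = ⊤` by `BDist`
(`le_iSup_of_dense`: for `b' ≠ ⊥` there are `c ≤ b'`, `σ` with `c ≤ j a σ`).  (2) `j a σ ⊓ j a σ' = ⊥` for
`σ ≠ σ'`.  If `σ` is antitone let `un σ` be the union (`Pf.exists_union hχ`, `#J < χ`), otherwise
`un σ := Pf.empty`.  `h a w := ⨆ σ, tv (un σ = w) ⊓ j a σ` is functional and total.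
Third property: for `x : D`: `⊤ = ⨅ i, U (fun a => ⨆ u, tv (u.f x = none) ⊓ (s i).1 a u) =
U (fun a => ⨅ i, …)` (`#J < χ ≤ κ`), and pointwise
`⨅ i, (⨆ u, tv (u.f x = none) ⊓ (s i).1 a u) ≤ ⨆ w, tv (w.f x = none) ⊓ h a w`: multiply with (1);
on `j a σ` all `(σ i).f x = none` ((`s i`).1 a is functional), so `(un σ).f x = none` (second
property in `exists_union`).
`b ≤ QC.le h (s i)`: `b ≤ ⨅ p : {p : J × J // p.1 ≤ p.2}, QC.le (s p.2) (s p.1) =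
U (fun a => ⨅ p, ⨆ u', ⨆ u, tv (u' ≤ u) ⊓ (s p.2).1 a u' ⊓ (s p.1).1 a u)`, and pointwise this is
`≤ ⨆ w, ⨆ u, tv (w ≤ u) ⊓ h a w ⊓ (s i).1 a u`: multiply with (1); on `j a σ` we get that `σ` is
antitone, so `un σ ≤ σ i`.
-/

open Cardinal

namespace BT

variable {D V : Type} {Rel : D → V → Prop} {χ κ : Cardinal.{0}} {C I : Type}
  [Preorder C] [Preorder I] {U : (I → RO C) → RO C}

private lemma fun_one {A Y : Type} [CompleteBooleanAlgebra A] {f : Y → A}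
    (hf : ∀ y y', y ≠ y' → f y ⊓ f y' = ⊥) (P : Y → Prop) (v : Y) :
    (⨆ u, tv (P u) ⊓ f u) ⊓ f v ≤ tv (P v) := by
  rw [iSup_inf_eq]
  refine iSup_le fun u => ?_
  by_cases h : u = v
  · subst h
    exact inf_le_left.trans inf_le_left
  · have h1 : tv (P u) ⊓ f u ⊓ f v ≤ f u ⊓ f v := inf_le_inf_right _ inf_le_right
    rw [hf u v h] at h1
    exact h1.trans bot_le

private lemma fun_two {A Y : Type} [CompleteBooleanAlgebra A] {f g : Y → A}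
    (hf : ∀ y y', y ≠ y' → f y ⊓ f y' = ⊥) (hg : ∀ y y', y ≠ y' → g y ⊓ g y' = ⊥)
    (R : Y → Y → Prop) (v' v : Y) :
    (⨆ u', ⨆ u, tv (R u' u) ⊓ f u' ⊓ g u) ⊓ (f v' ⊓ g v) ≤ tv (R v' v) := by
  rw [iSup_inf_eq]
  refine iSup_le fun u' => ?_
  rw [iSup_inf_eq]
  refine iSup_le fun u => ?_
  by_cases h' : u' = v'
  · by_cases h : u = v
    · subst h' h
      exact inf_le_left.trans (inf_le_left.trans inf_le_left)
    · have h1 : tv (R u' u) ⊓ f u' ⊓ g u ⊓ (f v' ⊓ g v) ≤ g u ⊓ g v :=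
        le_inf (inf_le_left.trans inf_le_right) (inf_le_right.trans inf_le_right)
      rw [hg u v h] at h1
      exact h1.trans bot_le
  · have h1 : tv (R u' u) ⊓ f u' ⊓ g u ⊓ (f v' ⊓ g v) ≤ f u' ⊓ f v' :=
      le_inf (inf_le_left.trans (inf_le_left.trans inf_le_right)) (inf_le_right.trans inf_le_left)
    rw [hf u' v' h'] at h1
    exact h1.trans bot_le

private lemma le_of_top' {A : Type} [CompleteBooleanAlgebra A] {ι : Sort*} {b c : A} {φ : ι → A}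
    (h : ⨆ i, φ i = ⊤) (h1 : ∀ i, b ⊓ φ i ≤ c) : b ≤ c := by
  calc b = b ⊓ ⨆ i, φ i := by rw [h, inf_top_eq]
    _ = ⨆ i, b ⊓ φ i := inf_iSup_eq _ _
    _ ≤ c := iSup_le h1

theorem QC.exists_lb (hU : UltC κ U) (hκ : ℵ₀ ≤ κ) (hχ : χ.IsRegular) (hχκ : χ ≤ κ)
    (J : Type) [LinearOrder J] (hJ : #J < χ) (hdist : BDist (RO C) #J)
    (s : J → QC Rel χ U) (b : RO C) (hs : ∀ i j, i ≤ j → b ≤ QC.le (s j) (s i)) :
    ∃ h : QC Rel χ U, ∀ j, b ≤ QC.le h (s j) := by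
  classical
  have hfun : ∀ i a u u', u ≠ u' → (s i).1 a u ⊓ (s i).1 a u' = ⊥ := fun i => (s i).2.1
  let j : I → (J → Pf D V Rel χ) → RO C := fun a σ => ⨅ i, (s i).1 a (σ i)
  have hj : ∀ a σ i, j a σ ≤ (s i).1 a (σ i) := fun a σ i => iInf_le _ i
  have hj1 : ∀ a, ⨆ σ, j a σ = ⊤ := by
    intro a
    rw [_root_.eq_top_iff]
    refine le_iSup_of_dense fun c _ hc => ?_
    obtain ⟨c', hc'c, hc', σ, hσ⟩ := hdist J le_rfl (Pf D V Rel χ) (fun i u => (s i).1 a u) c hc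
      (fun i => by rw [(s i).2.2.1 a]; exact le_top)
    exact ⟨σ, ne_bot_of_le (le_inf hc'c (le_iInf hσ)) hc'⟩
  have hj2 : ∀ a σ σ', σ ≠ σ' → j a σ ⊓ j a σ' = ⊥ := by
    intro a σ σ' hne
    obtain ⟨i, hi⟩ := Function.ne_iff.1 hne
    rw [← le_bot_iff, ← hfun i a _ _ hi]
    exact inf_le_inf (hj a σ i) (hj a σ' i)
  have hun : ∀ σ : J → Pf D V Rel χ, ∃ u : Pf D V Rel χ, (Antitone σ → ∀ i, u ≤ σ i) ∧
      ∀ x, (∀ i, (σ i).f x = none) → u.f x = none := by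
    intro σ
    by_cases hσ : Antitone σ
    · obtain ⟨u, hu1, hu2⟩ := Pf.exists_union hχ hJ σ (fun i i' =>
        ⟨max i i', hσ (le_max_left _ _), hσ (le_max_right _ _)⟩)
      refine ⟨u, fun _ => hu1, fun x hx => ?_⟩
      cases hy : u.f x with
      | none => rfl
      | some y =>
        obtain ⟨i, hi⟩ := hu2 x y hy
        rw [hx i] at hi
        exact absurd hi (by simp)
    · exact ⟨Pf.empty hχ.aleph0_le, fun h => absurd h hσ, fun x _ => rfl⟩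
  choose un hun1 hun2 using hun
  let h : I → Pf D V Rel χ → RO C := fun a w => ⨆ σ, tv (un σ = w) ⊓ j a σ
  have hjh : ∀ a σ, j a σ ≤ h a (un σ) := by
    intro a σ
    refine le_iSup_of_le σ (le_inf (le_tv rfl _) le_rfl)
  have hhf : IsFunc h := by
    intro a w w' hw
    rw [← le_bot_iff]
    show (⨆ σ, tv (un σ = w) ⊓ j a σ) ⊓ (⨆ σ, tv (un σ = w') ⊓ j a σ) ≤ ⊥
    rw [iSup_inf_eq]
    refine iSup_le fun σ => ?_
    rw [inf_iSup_eq]
    refine iSup_le fun σ' => ?_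
    by_cases hσ : σ = σ'
    · subst hσ
      by_cases h1 : un σ = w
      · have h2 : ¬ un σ = w' := fun h2 => hw (h1.symm.trans h2)
        rw [tv_false h2, bot_inf_eq, inf_bot_eq]
      · rw [tv_false h1, bot_inf_eq, bot_inf_eq]
    · rw [← hj2 a σ σ' hσ]
      exact inf_le_inf inf_le_right inf_le_right
  have hht : ∀ a, ⨆ w, h a w = ⊤ := by
    intro a
    rw [_root_.eq_top_iff, ← hj1 a]
    exact iSup_le fun σ => le_iSup_of_le (un σ) (hjh a σ)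
  have hJκ : #J < κ := hJ.trans_le hχκ
  have hh3 : ∀ x, U (fun a => ⨆ w, tv (w.f x = none) ⊓ h a w) = ⊤ := by
    intro x
    rw [_root_.eq_top_iff]
    have h1 : U (fun a => ⨅ i, ⨆ u, tv (u.f x = none) ⊓ (s i).1 a u) = ⊤ := by
      rw [hU.inf J _ hJκ]
      simp only [fun i => (s i).2.2.2 x, iInf_top]
    rw [← h1]
    refine hU.mono' hκ fun a => ?_
    refine le_of_top' (hj1 a) fun σ => ?_
    by_cases hσ : ∀ i, (σ i).f x = none
    · refine le_iSup_of_le (un σ) (le_inf (le_tv (hun2 σ x hσ) _) (inf_le_right.trans (hjh a σ)))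
    · push Not at hσ
      obtain ⟨i, hi⟩ := hσ
      have h2 := fun_one (hfun i a) (fun u => u.f x = none) (σ i)
      rw [tv_false hi] at h2
      have h3 : (⨅ i, ⨆ u, tv (u.f x = none) ⊓ (s i).1 a u) ⊓ j a σ ≤
          (⨆ u, tv (u.f x = none) ⊓ (s i).1 a u) ⊓ (s i).1 a (σ i) :=
        inf_le_inf (iInf_le _ i) (hj a σ i)
      exact (h3.trans h2).trans bot_le
  refine ⟨⟨h, hhf, hht, hh3⟩, fun i => ?_⟩
  have hcard : #{p : J × J // p.1 ≤ p.2} < κ := by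
    refine lt_of_le_of_lt (Cardinal.mk_subtype_le _) ?_
    rw [Cardinal.mk_prod, Cardinal.lift_id]
    exact (Cardinal.mul_lt_of_lt hχ.aleph0_le hJ hJ).trans_le hχκ
  have h1 : b ≤ U (fun a => ⨅ p : {p : J × J // p.1 ≤ p.2}, ⨆ u', ⨆ u,
      tv (u' ≤ u) ⊓ (s p.1.2).1 a u' ⊓ (s p.1.1).1 a u) := by
    rw [hU.inf _ _ hcard]
    exact le_iInf fun p => hs p.1.1 p.1.2 p.2
  refine h1.trans ?_
  show _ ≤ U (fun a => ⨆ u', ⨆ u, tv (u' ≤ u) ⊓ h a u' ⊓ (s i).1 a u)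
  refine hU.mono' hκ fun a => ?_
  refine le_of_top' (hj1 a) fun σ => ?_
  by_cases hσ : Antitone σ
  · refine le_iSup_of_le (un σ) (le_iSup_of_le (σ i) ?_)
    exact le_inf (le_inf (le_tv (hun1 σ hσ i) _) (inf_le_right.trans (hjh a σ)))
      (inf_le_right.trans (hj a σ i))
  · have hσ' : ∃ i₁ i₂, i₁ ≤ i₂ ∧ ¬ σ i₂ ≤ σ i₁ := by
      by_contra hcon
      push Not at hcon
      exact hσ fun i₁ i₂ h12 => hcon i₁ i₂ h12
    obtain ⟨i₁, i₂, h12, hn⟩ := hσ'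
    have h2 := fun_two (hfun i₂ a) (hfun i₁ a) (fun u' u => u' ≤ u) (σ i₂) (σ i₁)
    rw [tv_false hn] at h2
    have h3 : (⨅ p : {p : J × J // p.1 ≤ p.2}, ⨆ u', ⨆ u,
      tv (u' ≤ u) ⊓ (s p.1.2).1 a u' ⊓ (s p.1.1).1 a u) ⊓ j a σ ≤
        (⨆ u', ⨆ u, tv (u' ≤ u) ⊓ (s i₂).1 a u' ⊓ (s i₁).1 a u) ⊓
          ((s i₂).1 a (σ i₂) ⊓ (s i₁).1 a (σ i₁)) :=
      inf_le_inf (iInf_le _ (⟨(i₁, i₂), h12⟩ : {p : J × J // p.1 ≤ p.2}))
        (le_inf (hj a σ i₂) (hj a σ i₁))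
    exact (h3.trans h2).trans bot_le

end BT
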