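import Pool.Agent.Helper18.BT.Closed
import Pool.Agent.Helper18.TP.Split

/-!
# BT-D01: the reduction lemma (Easton)

`S` is small, `E` is closed.  Given at most `μ` many dense open subsets `D k` of `S × E`, one `e ≤ e₀`
reduces all of them to `S`.

PROOF.  Choose a well-order of type `≤` (any well-order) on `K × S` (`exists_wellFoundedLT`), write
`Λ := K × S`, `#Λ ≤ μ` (`μ` infinite).  Recursion over `Λ` (`WellFounded.fix`): `e λ ≤ e₀` for
`λ = (k, s)` is a condition below all `e λ'`, `λ' < λ` (they form a decreasing sequence; lower bound by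
`hE` in the set of conditions `≤ e₀`: apply `hE` to the sequence on `{λ' // λ' < λ}`, and use `e₀` if it
is empty), such that there is `s' ≤ s` with `D k s' (e λ)` (`hdense`).  As in
`Pool.Agent.Helper18.TP.qf` (TP/Split.lean) it may be convenient to use `TP.LB`, `TP.qf`,
`TP.qf_le`, `TP.exists_qlim` with `P := {e : E // e ≤ e₀}`, `Θ := Λ`, `M := fun _ => Unit` and
`c e (k, s) _ := ` a condition `≤ e` in `P` for which there is `s' ≤ s` with `D k s' _`.
The final lower bound `e` of all the `e λ` works by `hopen`.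
-/

open Cardinal

namespace BT

theorem exists_red {S E : Type} [Preorder S] [Preorder E] {μ : Cardinal.{0}} (hμ : ℵ₀ ≤ μ)
    (hS : #S ≤ μ) (hE : SeqClosed E μ) {K : Type} (hK : #K ≤ μ) (D : K → S → E → Prop)
    (e₀ : E)
    (hopen : ∀ k s e e', e' ≤ e → D k s e → D k s e')
    (hdense : ∀ k s e, e ≤ e₀ → ∃ s' ≤ s, ∃ e' ≤ e, D k s' e') :
    ∃ e ≤ e₀, ∀ k s, ∃ s' ≤ s, D k s' e := by
  classical
  obtain ⟨r, hr⟩ := exists_wellFoundedLT (K × S)
  let P : Type := {e : E // e ≤ e₀}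
  have : Nonempty P := ⟨⟨e₀, le_rfl⟩⟩
  have hΛ : #(K × S) ≤ μ := by
    rw [Cardinal.mk_prod, Cardinal.lift_id, Cardinal.lift_id]
    calc #K * #S ≤ μ * μ := mul_le_mul' hK hS
      _ = μ := Cardinal.mul_eq_self hμ
  have hc : ∀ (q : P) (l : K × S), ∃ q' : P, q' ≤ q ∧ ∃ s' ≤ l.2, D l.1 s' q'.1 := by
    rintro q ⟨k, s⟩
    obtain ⟨s', hs', e', he', hD⟩ := hdense k s q.1 q.2
    exact ⟨⟨e', he'.trans q.2⟩, he', s', hs', hD⟩
  choose c hc1 hc2 using hc
  have hcl : ∀ (J : Type) [LinearOrder J] [WellFoundedLT J], #J ≤ #(K × S) →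
      ∀ s : J → P, Antitone s → ∃ q, ∀ j, q ≤ s j := by
    intro J _ _ hJ s hs
    rcases isEmpty_or_nonempty J with hJe | ⟨⟨j0⟩⟩
    · exact ⟨⟨e₀, le_rfl⟩, fun j => (hJe.false j).elim⟩
    · obtain ⟨q, hq⟩ := hE J (hJ.trans hΛ) (fun j => (s j).1) (fun a b h => hs h)
      exact ⟨⟨q, (hq j0).trans (s j0).2⟩, hq⟩
  obtain ⟨q, hq⟩ := Pool.Agent.Helper18.TP.exists_qlim (Θ := K × S) (M := fun _ => Unit) (P := P)
    (fun q l _ => c q l) (fun q l _ => hc1 q l) hcl (fun _ => ())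
  refine ⟨q.1, q.2, fun k s => ?_⟩
  obtain ⟨s', hs', hD⟩ := hc2 (Pool.Agent.Helper18.TP.qf (M := fun _ => Unit) (fun q l _ => c q l)
    (fun _ => ()) (k, s)) (k, s)
  exact ⟨s', hs', hopen k s' _ _ (hq (k, s)) hD⟩

end BT
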