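import Pool.Agent.Helper18.BT.C06
import Pool.Agent.Helper18.BT.D01

/-!
# BT-C07: distributivity of `QC` over the small forcing `S`

PROOF.  It is enough to show: for every condition `p = (s₀, t₀, c₀) ∈ b` there is `q ≤ p` in
`⨆ h', lift (QC.le h' h) ⊓ ⨅ k, Dn k h'` (then `p` is in it, `RO.of_dense`, as `b` is open).
Let `S' := {s // s ≤ s₀}` and let `E` be the preorder of all `(t, c, h')`, `t : Pf`, `c : C`,
`h' : QC Rel χ U`, with `(t', c', h'') ≤ (t, c, h')` iff `t' ≤ t ∧ c' ≤ c ∧ c' ∈ QC.le h'' h'`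
(transitive by `QC.le_trans'`).  `SeqClosed E μ`: for a decreasing sequence `(t_j, c_j, h_j)` let `t` be
the union of the `t_j` (`Pf.exists_union`, `#J ≤ μ < χ`), `c` a lower bound of the `c_j` (`hC`), and `h'`
from `QC.exists_lb` for `b := RO.princ c` (`RO.princ c ≤ QC.le (h_j) (h_i)` by `RO.princ_le`).
`exists_red` for `S'`, `E`, `e₀ := (t₀, c₀, h)` and
`D k s (t, c, h') := (s, t, c) ∈ Dn k h'`.  Open: `(s, t', c') ∈ Dn k h'` and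
`(s, t', c') ∈ lift (QC.le h'' h')`, use `hopen`.  Dense: for `e = (t, c, h') ≤ e₀`: `(s, t, c) ∈ b`, so by
`hdense` there are `(s', t', c') ≤ (s, t, c)` and `h''` with `(s', t', c') ∈ lift (QC.le h'' h')` and
`∈ Dn k h''`.
Result: `(t*, c*, h*) ≤ e₀` such that for all `k` and `s ≤ s₀` there is `s' ≤ s` with
`(s', t*, c*) ∈ Dn k h*`; hence (`RO.of_dense`) `q := (s₀, t*, c*) ∈ Dn k h*` for all `k`, and
`q ∈ lift (QC.le h* h)`.
-/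

open Cardinal

namespace BT

variable {D V : Type} {Rel : D → V → Prop} {χ κ : Cardinal.{0}} {S C I : Type} [Preorder S]
  [Preorder C] [Preorder I] {U : (I → RO C) → RO C}

private structure EE (Rel : D → V → Prop) (χ : Cardinal.{0}) (U : (I → RO C) → RO C) : Type where
  t : Pf D V Rel χ
  c : C
  h : QC Rel χ U

private def EE.pre (hU : UltC κ U) (hκ : ℵ₀ ≤ κ) : Preorder (EE Rel χ U) where
  le x y := x.t ≤ y.t ∧ x.c ≤ y.c ∧ (QC.le x.h y.h).1 x.c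
  le_refl x := ⟨le_rfl, le_rfl, by rw [QC.le_refl' hU]; exact RO.mem_top _⟩
  le_trans x y z h1 h2 := ⟨h1.1.trans h2.1, h1.2.1.trans h2.2.1,
    QC.le_trans' hU hκ x.h y.h z.h x.c ⟨h1.2.2, (QC.le y.h z.h).down h1.2.1 h2.2.2⟩⟩

theorem QC.distr (hU : UltC κ U) (hκ : ℵ₀ ≤ κ) (hχ : χ.IsRegular) (hχκ : χ ≤ κ)
    {μ : Cardinal.{0}} (hμ : ℵ₀ ≤ μ) (hμχ : μ < χ) (hS : #S ≤ μ) (hC : SeqClosed C μ)
    (hdist : BDist (RO C) μ) (K : Type) (hK : #K ≤ μ)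
    (Dn : K → QC Rel χ U → RO (S × Pf D V Rel χ × C))
    (hopen : ∀ k h h', lift (QC.le h' h) ⊓ Dn k h ≤ Dn k h') (b : RO (S × Pf D V Rel χ × C))
    (hdense : ∀ k h, b ≤ ⨆ h', lift (QC.le h' h) ⊓ Dn k h') (h : QC Rel χ U) :
    b ≤ ⨆ h', lift (QC.le h' h) ⊓ ⨅ k, Dn k h' := by
  letI : Preorder (EE Rel χ U) := EE.pre hU hκ
  have hle : ∀ x y : EE Rel χ U, x ≤ y ↔ x.t ≤ y.t ∧ x.c ≤ y.c ∧ (QC.le x.h y.h).1 x.c :=
    fun x y => Iff.rfl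
  have hE : SeqClosed (EE Rel χ U) μ := by
    intro J _ _ hJ s hs
    have hJχ : #J < χ := hJ.trans_lt hμχ
    obtain ⟨t, ht, -⟩ := Pf.exists_union hχ hJχ (fun j => (s j).t) (fun i j =>
      ⟨max i j, (hs (le_max_left i j)).1, (hs (le_max_right i j)).1⟩)
    obtain ⟨c, hc⟩ := hC J hJ (fun j => (s j).c) (fun i j hij => (hs hij).2.1)
    obtain ⟨h', hh'⟩ := QC.exists_lb hU hκ hχ hχκ J hJχ
      (fun J' hJ' => hdist J' (hJ'.trans hJ)) (fun j => (s j).h) (RO.princ c) (fun i j hij =>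
        RO.princ_le ((QC.le (s j).h (s i).h).down (hc j) (hs hij).2.2))
    exact ⟨⟨t, c, h'⟩, fun j => ⟨ht j, hc j, hh' j c (RO.mem_princ le_rfl)⟩⟩
  intro p hp
  rw [RO.mem_iSup]
  intro q hq
  have hqb : b.1 q := b.down hq hp
  have hS' : #{s : S // s ≤ q.1} ≤ μ := (Cardinal.mk_subtype_le _).trans hS
  obtain ⟨e, he, hred⟩ := exists_red hμ hS' hE hK
    (fun k (s : {s : S // s ≤ q.1}) (e : EE Rel χ U) => (Dn k e.h).1 (s.1, e.t, e.c))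
    ⟨q.2.1, q.2.2, h⟩
    (fun k s e e' hee hD => by
      refine hopen k e.h e'.h (s.1, e'.t, e'.c) ⟨hee.2.2, ?_⟩
      exact (Dn k e.h).down (show (s.1, e'.t, e'.c) ≤ (s.1, e.t, e.c) from
        ⟨le_rfl, hee.1, hee.2.1⟩) hD)
    (fun k s e hee => by
      have h1 : b.1 (s.1, e.t, e.c) := b.down (show (s.1, e.t, e.c) ≤ q from
        ⟨s.2, hee.1, hee.2.1⟩) hqb
      have h2 := hdense k e.h _ h1
      rw [RO.mem_iSup] at h2
      obtain ⟨r, hr, h'', h3, h4⟩ := h2 _ le_rfl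
      exact ⟨⟨r.1, hr.1.trans s.2⟩, hr.1, ⟨r.2.1, r.2.2, h''⟩, ⟨hr.2.1, hr.2.2, h3⟩, h4⟩)
  refine ⟨(q.1, e.t, e.c), ⟨le_rfl, he.1, he.2.1⟩, e.h, he.2.2, ?_⟩
  rw [RO.mem_iInf]
  intro k
  refine (Dn k e.h).of_dense fun q' hq' => ?_
  obtain ⟨s', hs', hD⟩ := hred k ⟨q'.1, hq'.1⟩
  refine ⟨(s'.1, q'.2.1, q'.2.2), ⟨hs', le_rfl, le_rfl⟩, ?_⟩
  exact (Dn k e.h).down (show (s'.1, q'.2.1, q'.2.2) ≤ (s'.1, e.t, e.c) from
    ⟨le_rfl, hq'.2.1, hq'.2.2⟩) hD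

end BT
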