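import Pool.Agent.Helper18.BT.A03
import Pool.Agent.Helper18.BT.C04

/-!
# BT-C08: from ground model conditions to names of conditions

`G.names` has as conditions the names `n` of elements of the ground model set `G.Q`.

PROOFS.  `n : {n : G.Q → B // (∀ q q', q ≠ q' → n q ⊓ n q' = ⊥) ∧ ⨆ q, n q = ⊤}`.
* `le_refl`: `⨆ q, n q ⊓ n q ⊓ le q q = ⊤`.  `le_trans`: `n' q' ⊓ n' q''` is `⊥` unless `q' = q''`.
* `F_mono`, `F_inf` (functional), `F_ne`, `F_cone` (total), `F_le` (functional): termwise.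
* `dec`: `n q ≤ ⨆ q', ⨆ k, n q ⊓ le q' q ⊓ F q' (g k)`, and for the name `pn q'` of `q'`
  (`pn q' r = tv (r = q')`): `n q ⊓ le q' q ≤ le (pn q') n`, `F (pn q') X = F q' X`.
* `names_mixing`: `r q := (⨆ k, b k ⊓ (n k).1 q) ⊔ ((⨆ k, b k)ᶜ ⊓ tv (q = q₀))`; `b k ⊓ r q = b k ⊓ (n k).1 q`.
* `names_closed`: for `b`: it is enough (fullness, `Mix.full` for `G.names.mixQ` and
  `Φ n := ⨅ j, le n (s j)`) that `b ≤ ⨆ n, ⨅ j, le n (s j)`; `le_iSup_of_dense`: for `b' ≤ b`, `b' ≠ ⊥`, by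
  `BDist` there are `c ≤ b'`, `c ≠ ⊥`, `f : J → G.Q` with `c ≤ (s j).1 (f j)`; then
  `c ≤ G.le (f j) (f i)` for `i ≤ j` (functional), so by `hcl` there is `q` with `c ≤ G.le q (f j)` for all
  `j`, and `n := pn q` satisfies `c ≤ ⨅ j, le n (s j)`.
* `names_distr`: for `D : K → names → B` open let `D' k q := D k (pn q)`; it is open
  (`le (pn q') (pn q) = le q' q`) and dense: `b ≤ ⨆ n', le n' (pn q) ⊓ D k n'` and
  `n' q' ⊓ le n' (pn q) ⊓ D k n' ≤ G.le q' q ⊓ D' k q'` (`le (pn q') n' ≥ n' q'`).  For a name `n`: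
  `n q ⊓ b ≤ ⨆ q', n q ⊓ G.le q' q ⊓ ⨅ k, D' k q' ≤ ⨆ q', le (pn q') n ⊓ ⨅ k, D k (pn q')`.
-/

open Cardinal

namespace BT

variable {B : Type} [CompleteBooleanAlgebra B] {I : Type} [Preorder I] {τ : Cardinal.{0}}

private theorem split {Y : Type} {n : Y → B} (hn : ⨆ q, n q = ⊤) {c d : B}
    (h : ∀ q, n q ⊓ c ≤ d) : c ≤ d := by
  calc c = (⨆ q, n q) ⊓ c := by rw [hn, top_inf_eq]
    _ = ⨆ q, n q ⊓ c := iSup_inf_eq _ _
    _ ≤ d := iSup_le h

private theorem le_intro (G : BUF B I τ) (n n' : G.Q → B) (q q' : G.Q) :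
    n q ⊓ n' q' ⊓ G.le q q' ≤ ⨆ q, ⨆ q', n q ⊓ n' q' ⊓ G.le q q' :=
  le_iSup_of_le q (le_iSup_of_le q' le_rfl)

private theorem le_elim (G : BUF B I τ) {n n' : G.Q → B} (hn : ∀ q q', q ≠ q' → n q ⊓ n q' = ⊥)
    (hn' : ∀ q q', q ≠ q' → n' q ⊓ n' q' = ⊥) (q q' : G.Q) :
    n q ⊓ n' q' ⊓ (⨆ q, ⨆ q', n q ⊓ n' q' ⊓ G.le q q') ≤ G.le q q' := by
  rw [inf_iSup_eq]
  refine iSup_le fun r => ?_
  rw [inf_iSup_eq]
  refine iSup_le fun r' => ?_
  by_cases h : q = r
  · by_cases h' : q' = r'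
    · subst h h'
      exact inf_le_right.trans inf_le_right
    · refine _root_.le_trans ?_ (bot_le (a := G.le q q'))
      rw [← hn' q' r' h']
      exact le_inf (inf_le_left.trans inf_le_right)
        (inf_le_right.trans (inf_le_left.trans inf_le_right))
  · refine _root_.le_trans ?_ (bot_le (a := G.le q q'))
    rw [← hn q r h]
    exact le_inf (inf_le_left.trans inf_le_left)
      (inf_le_right.trans (inf_le_left.trans inf_le_left))

private theorem F_intro (G : BUF B I τ) (n : G.Q → B) (X : I → B) (q : G.Q) :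
    n q ⊓ G.F q X ≤ ⨆ q, n q ⊓ G.F q X :=
  le_iSup (fun q => n q ⊓ G.F q X) q

private theorem F_elim (G : BUF B I τ) {n : G.Q → B} (hn : ∀ q q', q ≠ q' → n q ⊓ n q' = ⊥)
    (X : I → B) (q : G.Q) : n q ⊓ (⨆ q, n q ⊓ G.F q X) ≤ G.F q X := by
  rw [inf_iSup_eq]
  refine iSup_le fun r => ?_
  by_cases h : q = r
  · subst h
    exact inf_le_right.trans inf_le_right
  · refine _root_.le_trans ?_ (bot_le (a := G.F q X))
    rw [← hn q r h]
    exact le_inf inf_le_left (inf_le_right.trans inf_le_left)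

private theorem pn_disj {Y : Type} (x : Y) (q q' : Y) (h : q ≠ q') :
    (tv (q = x) : B) ⊓ tv (q' = x) = ⊥ := by
  by_cases h1 : q = x
  · rw [tv_false (fun h2 => h (h1.trans h2.symm) : ¬ q' = x), inf_bot_eq]
  · rw [tv_false h1, bot_inf_eq]

private theorem pn_top {Y : Type} (x : Y) : ⨆ q, (tv (q = x) : B) = ⊤ :=
  le_antisymm le_top (le_iSup_of_le x (by rw [tv_true rfl]))

/-- the names of conditions -/
def BUF.names (G : BUF B I τ) : BUF B I τ where
  Q := {n : G.Q → B // (∀ q q', q ≠ q' → n q ⊓ n q' = ⊥) ∧ ⨆ q, n q = ⊤}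
  ne := by
    obtain ⟨q₀⟩ := G.ne
    exact ⟨⟨fun q => tv (q = q₀), pn_disj q₀, pn_top q₀⟩⟩
  le n n' := ⨆ q, ⨆ q', n.1 q ⊓ n'.1 q' ⊓ G.le q q'
  le_refl := by
    intro n
    refine le_antisymm le_top (split n.2.2 fun q => ?_)
    refine _root_.le_trans ?_ (le_intro G n.1 n.1 q q)
    rw [G.le_refl, inf_top_eq, inf_idem, inf_top_eq]
  le_trans := by
    intro p q r
    refine split p.2.2 fun x => split q.2.2 fun y => split r.2.2 fun z => ?_
    set A : B := ⨆ q_1, ⨆ q', p.1 q_1 ⊓ q.1 q' ⊓ G.le q_1 q'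
    set C : B := ⨆ q_1, ⨆ q', q.1 q_1 ⊓ r.1 q' ⊓ G.le q_1 q'
    have hz : r.1 z ⊓ (q.1 y ⊓ (p.1 x ⊓ (A ⊓ C))) ≤ r.1 z := inf_le_left
    have hy : r.1 z ⊓ (q.1 y ⊓ (p.1 x ⊓ (A ⊓ C))) ≤ q.1 y := inf_le_right.trans inf_le_left
    have hx : r.1 z ⊓ (q.1 y ⊓ (p.1 x ⊓ (A ⊓ C))) ≤ p.1 x :=
      inf_le_right.trans (inf_le_right.trans inf_le_left)
    have hA : r.1 z ⊓ (q.1 y ⊓ (p.1 x ⊓ (A ⊓ C))) ≤ A :=
      inf_le_right.trans (inf_le_right.trans (inf_le_right.trans inf_le_left))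
    have hC : r.1 z ⊓ (q.1 y ⊓ (p.1 x ⊓ (A ⊓ C))) ≤ C :=
      inf_le_right.trans (inf_le_right.trans (inf_le_right.trans inf_le_right))
    have h1 := (le_inf (le_inf hx hy) hA).trans (le_elim G p.2.1 q.2.1 x y)
    have h2 := (le_inf (le_inf hy hz) hC).trans (le_elim G q.2.1 r.2.1 y z)
    exact (le_inf (le_inf hx hz) ((le_inf h1 h2).trans (G.le_trans x y z))).trans
      (le_intro G p.1 r.1 x z)
  F n X := ⨆ q, n.1 q ⊓ G.F q X
  F_mono := by
    intro n c A A' h
    refine split n.2.2 fun q => ?_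
    have h1 : n.1 q ⊓ (c ⊓ ⨆ q, n.1 q ⊓ G.F q A) ≤ G.F q A :=
      (le_inf inf_le_left (inf_le_right.trans inf_le_right)).trans (F_elim G n.2.1 A q)
    exact (le_inf inf_le_left ((le_inf (inf_le_right.trans inf_le_left) h1).trans
      (G.F_mono q c A A' h))).trans (F_intro G n.1 A' q)
  F_inf := by
    intro n A A'
    refine split n.2.2 fun q => ?_
    have h1 : n.1 q ⊓ ((⨆ q, n.1 q ⊓ G.F q A) ⊓ ⨆ q, n.1 q ⊓ G.F q A') ≤ G.F q A :=
      (le_inf inf_le_left (inf_le_right.trans inf_le_left)).trans (F_elim G n.2.1 A q)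
    have h2 : n.1 q ⊓ ((⨆ q, n.1 q ⊓ G.F q A) ⊓ ⨆ q, n.1 q ⊓ G.F q A') ≤ G.F q A' :=
      (le_inf inf_le_left (inf_le_right.trans inf_le_right)).trans (F_elim G n.2.1 A' q)
    exact (le_inf inf_le_left ((le_inf h1 h2).trans (G.F_inf q A A'))).trans
      (F_intro G n.1 (fun a => A a ⊓ A' a) q)
  F_ne := by
    intro n A
    exact iSup_le fun q => inf_le_right.trans (G.F_ne q A)
  F_cone := by
    intro n α
    refine le_antisymm le_top (split n.2.2 fun q => ?_)
    refine _root_.le_trans ?_ (F_intro G n.1 (fun a => tv (α ≤ a)) q)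
    rw [G.F_cone]
  F_le := by
    intro n n' A
    refine split n'.2.2 fun q' => split n.2.2 fun q => ?_
    set C : B := ⨆ q, ⨆ q', n'.1 q ⊓ n.1 q' ⊓ G.le q q'
    have hq : n.1 q ⊓ (n'.1 q' ⊓ (C ⊓ ⨆ q, n.1 q ⊓ G.F q A)) ≤ n.1 q := inf_le_left
    have hq' : n.1 q ⊓ (n'.1 q' ⊓ (C ⊓ ⨆ q, n.1 q ⊓ G.F q A)) ≤ n'.1 q' :=
      inf_le_right.trans inf_le_left
    have hC : n.1 q ⊓ (n'.1 q' ⊓ (C ⊓ ⨆ q, n.1 q ⊓ G.F q A)) ≤ C :=
      inf_le_right.trans (inf_le_right.trans inf_le_left)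
    have hF : n.1 q ⊓ (n'.1 q' ⊓ (C ⊓ ⨆ q, n.1 q ⊓ G.F q A)) ≤ ⨆ q, n.1 q ⊓ G.F q A :=
      inf_le_right.trans (inf_le_right.trans inf_le_right)
    have h1 := (le_inf (le_inf hq' hq) hC).trans (le_elim G n'.2.1 n.2.1 q' q)
    have h2 := (le_inf hq hF).trans (F_elim G n.2.1 A q)
    exact (le_inf hq' ((le_inf h1 h2).trans (G.F_le q q' A))).trans (F_intro G n'.1 A q')
  dec := by
    intro K g hK htop n
    refine le_antisymm le_top (split n.2.2 fun q => ?_)
    rw [inf_top_eq]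
    calc n.1 q = n.1 q ⊓ ⨆ q', ⨆ k, G.le q' q ⊓ G.F q' (g k) := by
          rw [G.dec K g hK htop q, inf_top_eq]
      _ ≤ _ := by
          rw [inf_iSup_eq]
          refine iSup_le fun q' => ?_
          rw [inf_iSup_eq]
          refine iSup_le fun k => ?_
          refine le_iSup_of_le ⟨fun r => tv (r = q'), pn_disj q', pn_top q'⟩
            (le_iSup_of_le k (le_inf ?_ ?_))
          · refine _root_.le_trans ?_ (le_intro G (fun r => tv (r = q')) n.1 q' q)
            rw [tv_true rfl, top_inf_eq]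
            exact le_inf inf_le_left (inf_le_right.trans inf_le_left)
          · refine _root_.le_trans ?_ (F_intro G (fun r => tv (r = q')) (g k) q')
            rw [tv_true rfl, top_inf_eq]
            exact inf_le_right.trans inf_le_right

/-- the name of a condition of the ground model set -/
private def pn (G : BUF B I τ) (q : G.Q) : G.names.Q :=
  ⟨fun r => tv (r = q), pn_disj q, pn_top q⟩

private theorem pn_self (G : BUF B I τ) (q : G.Q) : (pn G q).1 q = ⊤ := tv_true rfl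

private theorem nle_intro (G : BUF B I τ) (n n' : G.names.Q) (q q' : G.Q) {c : B}
    (h1 : c ≤ n.1 q) (h2 : c ≤ n'.1 q') (h3 : c ≤ G.le q q') : c ≤ G.names.le n n' :=
  (le_inf (le_inf h1 h2) h3).trans (le_intro G n.1 n'.1 q q')

private theorem nle_elim (G : BUF B I τ) (n n' : G.names.Q) (q q' : G.Q) {c : B}
    (h1 : c ≤ n.1 q) (h2 : c ≤ n'.1 q') (h3 : c ≤ G.names.le n n') : c ≤ G.le q q' :=
  (le_inf (le_inf h1 h2) h3).trans (le_elim G n.2.1 n'.2.1 q q')

theorem BUF.names_mixing (G : BUF B I τ) : G.names.Mixing := by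
  intro K b n hb
  obtain ⟨q₀⟩ := G.ne
  let r : G.Q → B := fun q => (⨆ k, b k ⊓ (n k).1 q) ⊔ ((⨆ k, b k)ᶜ ⊓ tv (q = q₀))
  have hbr : ∀ k q, b k ⊓ r q ≤ (n k).1 q := by
    intro k q
    simp only [r]
    rw [inf_sup_left]
    refine sup_le ?_ ?_
    · rw [inf_iSup_eq]
      refine iSup_le fun l => ?_
      by_cases h : k = l
      · subst h
        exact inf_le_right.trans inf_le_right
      · exact (le_inf inf_le_left (inf_le_right.trans inf_le_left)).trans
          ((hb k l h).le.trans bot_le)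
    · exact (le_inf (inf_le_left.trans (le_iSup b k)) (inf_le_right.trans inf_le_left)).trans
        ((inf_compl_self (⨆ k, b k)).le.trans bot_le)
  have hcr : ∀ q, (⨆ k, b k)ᶜ ⊓ r q ≤ tv (q = q₀) := by
    intro q
    simp only [r]
    rw [inf_sup_left]
    refine sup_le ?_ (inf_le_right.trans inf_le_right)
    exact (le_inf (inf_le_right.trans (iSup_mono fun k => inf_le_left)) inf_le_left).trans
      ((inf_compl_self (⨆ k, b k)).le.trans bot_le)
  have hcov : ∀ {c d : B}, (∀ k, b k ⊓ c ≤ d) → (⨆ k, b k)ᶜ ⊓ c ≤ d → c ≤ d := by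
    intro c d h1 h2
    calc c = ((⨆ k, b k) ⊔ (⨆ k, b k)ᶜ) ⊓ c := by rw [sup_compl_eq_top, top_inf_eq]
      _ = ((⨆ k, b k) ⊓ c) ⊔ ((⨆ k, b k)ᶜ ⊓ c) := inf_sup_right _ _ _
      _ ≤ d := by
          refine sup_le ?_ h2
          rw [iSup_inf_eq]
          exact iSup_le h1
  have hdisj : ∀ q q', q ≠ q' → r q ⊓ r q' = ⊥ := by
    intro q q' h
    rw [← le_bot_iff]
    refine hcov (fun k => ?_) ?_
    · rw [← (n k).2.1 q q' h]
      exact le_inf ((le_inf inf_le_left (inf_le_right.trans inf_le_left)).trans (hbr k q))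
        ((le_inf inf_le_left (inf_le_right.trans inf_le_right)).trans (hbr k q'))
    · rw [← pn_disj (B := B) q₀ q q' h]
      exact le_inf ((le_inf inf_le_left (inf_le_right.trans inf_le_left)).trans (hcr q))
        ((le_inf inf_le_left (inf_le_right.trans inf_le_right)).trans (hcr q'))
  have hrb : ∀ k q, b k ⊓ (n k).1 q ≤ r q := fun k q =>
    (le_iSup (fun k => b k ⊓ (n k).1 q) k).trans le_sup_left
  have htop : ⨆ q, r q = ⊤ := by
    rw [eq_top_iff]
    refine hcov (fun k => ?_) ?_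
    · rw [inf_top_eq]
      refine split (n k).2.2 fun q => ?_
      rw [inf_comm]
      exact (hrb k q).trans (le_iSup r q)
    · refine le_iSup_of_le q₀ (_root_.le_trans ?_ le_sup_right)
      rw [tv_true rfl]
  refine ⟨⟨r, hdisj, htop⟩, fun k => ?_⟩
  refine split (n k).2.2 fun q => ?_
  have h1 : (n k).1 q ⊓ b k ≤ r q := by
    rw [inf_comm]
    exact hrb k q
  have h2 : (n k).1 q ⊓ b k ≤ (n k).1 q := inf_le_left
  have h3 : (n k).1 q ⊓ b k ≤ G.le q q := by
    rw [G.le_refl]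
    exact le_top
  exact le_inf (nle_intro G ⟨r, hdisj, htop⟩ (n k) q q h1 h2 h3)
    (nle_intro G (n k) ⟨r, hdisj, htop⟩ q q h2 h1 h3)

theorem BUF.names_closed (G : BUF B I τ) {θ : Cardinal.{0}} (hdist : BDist B θ)
    (hcl : G.Closed θ) : G.names.Closed θ := by
  intro J _ _ hJ b s hs
  have hfull := (G.names.mixQ G.names_mixing).full (b := b)
    (fun n => ⨅ j, G.names.le n (s j)) ?_ ?_
  · obtain ⟨n, hn⟩ := hfull
    exact ⟨n, fun j => hn.trans (iInf_le _ j)⟩
  · intro c x y hxy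
    have hxy' : c ≤ G.names.le x y ⊓ G.names.le y x := hxy
    refine le_iInf fun j => ?_
    exact (le_inf (inf_le_left.trans (hxy'.trans inf_le_left))
      (inf_le_right.trans (iInf_le _ j))).trans (G.names.le_trans x y (s j))
  · refine le_iSup_of_dense fun c hcb hc => ?_
    obtain ⟨c', hc', hc'0, f, hf⟩ := hdist J hJ G.Q (fun j y => (s j).1 y) c hc
      (fun j => by rw [(s j).2.2]; exact le_top)
    obtain ⟨q, hq⟩ := hcl J hJ c' f (fun i j hij =>
      nle_elim G (s j) (s i) (f j) (f i) (hf j) (hf i) ((hc'.trans hcb).trans (hs i j hij)))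
    refine ⟨pn G q, ne_bot_of_le (le_inf hc' (le_iInf fun j => ?_)) hc'0⟩
    exact nle_intro G (pn G q) (s j) q (f j) (by rw [pn_self]; exact le_top) (hf j) (hq j)

theorem BUF.names_distr (G : BUF B I τ) {μ : Cardinal.{0}} (hd : G.Distr μ) :
    G.names.Distr μ := by
  intro K hK D hop b hden n
  have h1 := hd K hK (fun k q => D k (pn G q)) (by
    intro k q q'
    refine _root_.le_trans (le_inf ?_ inf_le_right) (hop k (pn G q) (pn G q'))
    exact nle_intro G (pn G q') (pn G q) q' q (by rw [pn_self]; exact le_top)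
      (by rw [pn_self]; exact le_top) inf_le_left) b (by
    intro k q
    refine (hden k (pn G q)).trans (iSup_le fun n' => split n'.2.2 fun q' => ?_)
    refine le_iSup_of_le q' (le_inf ?_ ?_)
    · exact nle_elim G n' (pn G q) q' q inf_le_left (by rw [pn_self]; exact le_top)
        (inf_le_right.trans inf_le_left)
    · refine _root_.le_trans (le_inf ?_ (inf_le_right.trans inf_le_right)) (hop k n' (pn G q'))
      exact nle_intro G (pn G q') n' q' q' (by rw [pn_self]; exact le_top) inf_le_left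
        (by rw [G.le_refl]; exact le_top))
  refine split n.2.2 fun q => ?_
  refine (inf_le_inf_left (n.1 q) (h1 q)).trans ?_
  rw [inf_iSup_eq]
  refine iSup_le fun q' => ?_
  refine le_iSup_of_le (pn G q') (le_inf ?_ (inf_le_right.trans inf_le_right))
  exact nle_intro G (pn G q') n q' q (by rw [pn_self]; exact le_top) inf_le_left
    (inf_le_right.trans inf_le_left)

end BT
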