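import Pool.Agent.Helper18.BT.C04

/-!
# BT-C09: transport along isomorphisms of complete Boolean algebras

PROOFS.  `e : B ≃o B'` preserves `⊓`, `⨆`, `⨅`, `ᶜ`, `⊤`, `⊥`, `tv` (`OrderIso.map_iSup`, `map_inf`, …).
For `BUF.congr` put `le' q q' := e (G.le q q')`, `F' q X := e (G.F q (fun a => e.symm (X a)))`.
For the other statements move the given data by `e.symm` and the result by `e`.
-/

open Cardinal

namespace BT

variable {B B' : Type} [CompleteBooleanAlgebra B] [CompleteBooleanAlgebra B'] {I : Type}
  [Preorder I] {τ : Cardinal.{0}}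

private lemma map_tv' (e : B ≃o B') (p : Prop) : e (tv p) = tv p := by
  by_cases hp : p
  · rw [tv_true hp, tv_true hp, map_top]
  · rw [tv_false hp, tv_false hp, map_bot]

private lemma le_of_symm_le (e : B ≃o B') {x y : B'} (h : e.symm x ≤ e.symm y) : x ≤ y :=
  e.symm.le_iff_le.1 h

/-- the transported name for a generic ultrafilter -/
private def bufCongr (e : B ≃o B') (G : BUF B I τ) : BUF B' I τ where
  Q := G.Q
  ne := G.ne
  le q q' := e (G.le q q')
  le_refl q := by rw [G.le_refl, map_top]
  le_trans p q r := by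
    rw [← map_inf]
    exact e.monotone (G.le_trans p q r)
  F q X := e (G.F q (fun a => e.symm (X a)))
  F_mono q c A A' h := by
    apply le_of_symm_le e
    rw [map_inf, e.symm_apply_apply, e.symm_apply_apply]
    refine G.F_mono q _ _ _ (fun a => ?_)
    rw [← map_inf]
    exact e.symm.monotone (h a)
  F_inf q A A' := by
    rw [← map_inf]
    refine e.monotone ((G.F_inf q _ _).trans ?_)
    simp only [map_inf]
    exact le_rfl
  F_ne q A := by
    refine (e.monotone (G.F_ne q _)).trans ?_
    rw [e.map_iSup]
    simp only [e.apply_symm_apply]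
    exact le_rfl
  F_cone q α := by
    simp only [map_tv' e.symm]
    rw [G.F_cone, map_top]
  F_le q q' A := by
    rw [← map_inf]
    exact e.monotone (G.F_le q q' _)
  dec K g hK hg q := by
    have h1 := G.dec K (fun k a => e.symm (g k a)) hK (fun a => by
      rw [← e.symm.map_iSup, hg a, map_top]) q
    have h2 := congrArg e h1
    rw [map_top, e.map_iSup] at h2
    simp only [e.map_iSup, map_inf] at h2
    exact h2

theorem exists_buf_congr (e : B ≃o B') {θ μ : Cardinal.{0}}
    (h : ∃ G : BUF B I τ, G.Mixing ∧ G.Closed θ ∧ G.Distr μ) :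
    ∃ G : BUF B' I τ, G.Mixing ∧ G.Closed θ ∧ G.Distr μ := by
  obtain ⟨G, h1, h2, h3⟩ := h
  refine ⟨bufCongr e G, ?_, ?_, ?_⟩
  · intro K b q hb
    obtain ⟨r, hr⟩ := h1 K (fun k => e.symm (b k)) q (fun k l hkl => by
      rw [← map_inf, hb k l hkl, map_bot])
    refine ⟨r, fun k => ?_⟩
    have h4 : e (e.symm (b k)) ≤ e (G.le r (q k) ⊓ G.le (q k) r) := e.monotone (hr k)
    rw [e.apply_symm_apply, map_inf] at h4
    exact h4
  · intro J _ _ hJ b s hs
    obtain ⟨q, hq⟩ := h2 J hJ (e.symm b) s (fun i j hij => by
      have h4 : e.symm b ≤ e.symm (e (G.le (s j) (s i))) := e.symm.monotone (hs i j hij)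
      rw [e.symm_apply_apply] at h4
      exact h4)
    refine ⟨q, fun j => ?_⟩
    have h4 : e (e.symm b) ≤ e (G.le q (s j)) := e.monotone (hq j)
    rw [e.apply_symm_apply] at h4
    exact h4
  · intro K hK D hD b hb q
    have h4 := h3 K hK (fun k q => e.symm (D k q)) (fun k q q' => by
      have h5 : e.symm (e (G.le q' q) ⊓ D k q) ≤ e.symm (D k q') := e.symm.monotone (hD k q q')
      rw [map_inf, e.symm_apply_apply] at h5
      exact h5) (e.symm b) (fun k q => by
      have h5 : e.symm b ≤ e.symm (⨆ q', e (G.le q' q) ⊓ D k q') := e.symm.monotone (hb k q)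
      rw [e.symm.map_iSup] at h5
      simp only [map_inf, e.symm_apply_apply] at h5
      exact h5) q
    have h5 := e.monotone h4
    rw [e.apply_symm_apply, e.map_iSup] at h5
    simp only [map_inf, e.map_iInf, e.apply_symm_apply] at h5
    exact h5

theorem noSurj_congr (e : B ≃o B') {X Y : Type} (h : NoSurj B X Y) : NoSurj B' X Y := by
  intro f hf
  have h1 := h (fun x y => e.symm (f x y)) (fun x y y' hy => by
    rw [← map_inf, hf x y y' hy, map_bot])
  have h2 := congrArg e h1
  rw [map_bot, e.map_iInf] at h2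
  simp only [e.map_iSup, e.apply_symm_apply] at h2
  exact h2

theorem run_congr (e : B ≃o B') {W : Type} [LinearOrder W] (h : Run B I W) : Run B' I W := by
  intro φ hφ b hb hb'
  obtain ⟨c, hc, hc0, z, z', t, h1, h2⟩ := h (fun x y => e.symm (φ x y))
    (fun x y y' hy => e.symm.monotone (hφ x y y' hy)) (e.symm b)
    (fun h0 => hb (by rw [← e.apply_symm_apply b, h0, map_bot]))
    (fun x => by
      rw [← e.symm.map_iSup]
      exact e.symm.monotone (hb' x))
  refine ⟨e c, ?_, fun h0 => hc0 (by rw [← e.symm_apply_apply c, h0, map_bot]), z, z', t,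
    fun w => ⟨(h1 w).1, (h1 w).2.1, ?_⟩, h2⟩
  · have h4 := e.monotone hc
    rw [e.apply_symm_apply] at h4
    exact h4
  · have h4 := e.monotone (h1 w).2.2
    rw [e.apply_symm_apply] at h4
    exact h4

/-- isomorphic forcing notions have isomorphic regular open algebras -/
def ROcongr {P P' : Type} [Preorder P] [Preorder P'] (e : P ≃o P') : RO P ≃o RO P' where
  toFun x := ⟨fun p => x.1 (e.symm p), by
    intro p
    constructor
    · intro h q hq
      exact ⟨q, le_refl _, x.down (e.symm.monotone hq) h⟩
    · intro h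
      refine x.of_dense fun q hq => ?_
      obtain ⟨r, hr, h3⟩ := h (e q) (by rwa [← e.le_symm_apply])
      exact ⟨e.symm r, by rwa [e.symm_apply_le], h3⟩⟩
  invFun x := ⟨fun p => x.1 (e p), by
    intro p
    constructor
    · intro h q hq
      exact ⟨q, le_refl _, x.down (e.monotone hq) h⟩
    · intro h
      refine x.of_dense fun q hq => ?_
      obtain ⟨r, hr, h3⟩ := h (e.symm q) (by rwa [e.symm_apply_le])
      exact ⟨e r, by rwa [← e.le_symm_apply], h3⟩⟩
  left_inv := by
    intro x
    apply RO.ext
    intro p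
    change x.1 (e.symm (e p)) ↔ x.1 p
    rw [e.symm_apply_apply]
  right_inv := by
    intro x
    apply RO.ext
    intro p
    change x.1 (e (e.symm p)) ↔ x.1 p
    rw [e.apply_symm_apply]
  map_rel_iff' := by
    intro x y
    constructor
    · intro h p hp
      have h1 := h (e p) (by
        change x.1 (e.symm (e p))
        rwa [e.symm_apply_apply])
      change y.1 (e.symm (e p)) at h1
      rwa [e.symm_apply_apply] at h1
    · intro h p hp
      exact h _ hp

end BT
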