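import Pool.Agent.Helper18.BT.C05
import Pool.Agent.Helper18.BT.C07
import Pool.Agent.Helper18.BT.C08

/-!
# BT-C10: the generic ultrafilter over `S × Pf × C`

PROOF.  `G₀ : BUF (RO (S × Pf × C)) I τ` with `Q := QC Rel χ U`, `ne := ⟨QC.one hU hχ⟩`,
`le q q' := lift (QC.le q q')`, `F := QC.F hU …`, axioms from C03 (`lift_mono`, `lift_inf`, `lift_top` of
C02), `dec` from C05 (`#K ≤ τ < κ`).  `G₀.Closed θ`: given `b ≤ lift (QC.le (s j) (s i))` for `i ≤ j`, let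
`β := ⨅ i, ⨅ j, ⨅ _ : i ≤ j, QC.le (s j) (s i)`, `b ≤ lift β` (`lift_iInf`), `QC.exists_lb` for `β` (`#J ≤ θ ≤ μ < χ`)
(the empty `J` is included).  `G₀.Distr μ`: C07.  Then take `G := G₀.names` (C08).
-/

open Cardinal

namespace BT

variable {D V : Type} {Rel : D → V → Prop} {χ κ : Cardinal.{0}} {S C I : Type} [Preorder S]
  [Preorder C] [Preorder I] {U : (I → RO C) → RO C}

/-- the forcing notion `QC` with its generic ultrafilter -/
private noncomputable def baseBuf (hU : UltC κ U) (hκ : ℵ₀ ≤ κ) (hχκ : χ < κ) (hχ : ℵ₀ ≤ χ)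
    (hS : #S < κ) (hV : ∀ x, #(Option {y // Rel x y}) < κ) (hdist : BDist (RO C) #D)
    {τ : Cardinal.{0}} (hτ : τ < κ) : BUF (RO (S × Pf D V Rel χ × C)) I τ where
  Q := QC Rel χ U
  ne := ⟨QC.one hU hχ⟩
  le q q' := lift (QC.le q q')
  le_refl q := by rw [QC.le_refl' hU q, lift_top]
  le_trans p q r := by
    rw [← lift_inf]
    exact lift_mono (QC.le_trans' hU hκ p q r)
  F q X := QC.F hU hχκ.le hχ q X
  F_mono q c A A' h := QC.F_mono hU hχκ.le hχ q c A A' h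
  F_inf q A A' := QC.F_inf hU hχκ.le hχ q A A'
  F_ne q A := QC.F_ne hU hχκ.le hχ q A
  F_cone q α := QC.F_cone hU hχκ.le hχ q α
  F_le q q' A := QC.F_le hU hχκ.le hχ q q' A
  dec K g hK hg q := QC.dec hU hκ hχκ hχ hS hV hdist K (hK.trans_lt hτ) g hg q

private theorem BDist.mono' {A : Type} [CompleteBooleanAlgebra A] {μ ν : Cardinal.{0}}
    (h : BDist A μ) (hν : ν ≤ μ) : BDist A ν :=
  fun J hJ => h J (hJ.trans hν)

/-- deciding only (no smallness of `S` beyond `#S < κ`) -/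
theorem exists_buf_dec (hU : UltC κ U) (hκ : ℵ₀ ≤ κ) (hχκ : χ < κ) (hχ : ℵ₀ ≤ χ) (hS : #S < κ)
    (hV : ∀ x, #(Option {y // Rel x y}) < κ) (hdist : BDist (RO C) #D) {τ : Cardinal.{0}}
    (hτ : τ < κ) : Nonempty (BUF (RO (S × Pf D V Rel χ × C)) I τ) := by
  exact ⟨baseBuf hU hκ hχκ hχ hS hV hdist hτ⟩

theorem exists_buf (hU : UltC κ U) (hκ : ℵ₀ ≤ κ) (hχ : χ.IsRegular) (hχκ : χ < κ)
    (hV : ∀ x, #(Option {y // Rel x y}) < κ) (hdistD : BDist (RO C) #D)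
    {μ θ τ : Cardinal.{0}} (hμ : ℵ₀ ≤ μ) (hμχ : μ < χ) (hθμ : θ ≤ μ) (hτ : τ < κ)
    (hS : #S ≤ μ) (hC : SeqClosed C μ) (hdist : BDist (RO C) μ)
    (hdistP : BDist (RO (S × Pf D V Rel χ × C)) θ) :
    ∃ G : BUF (RO (S × Pf D V Rel χ × C)) I τ, G.Mixing ∧ G.Closed θ ∧ G.Distr μ := by
  have hSκ : #S < κ := (hS.trans hμχ.le).trans_lt hχκ
  let G₀ : BUF (RO (S × Pf D V Rel χ × C)) I τ :=
    baseBuf hU hκ hχκ hχ.aleph0_le hSκ hV hdistD hτ
  have hcl : G₀.Closed θ := by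
    intro J _ _ hJ b s hs
    let s' : J → QC Rel χ U := s
    let β : RO C := ⨅ i, ⨅ j, ⨅ _ : i ≤ j, QC.le (s' j) (s' i)
    have hbβ : b ≤ (lift β : RO (S × Pf D V Rel χ × C)) := by
      have : (lift β : RO (S × Pf D V Rel χ × C)) =
          ⨅ i, ⨅ j, ⨅ _ : i ≤ j, lift (QC.le (s' j) (s' i)) := by
        simp only [β, lift_iInf]
      rw [this]
      exact le_iInf fun i => le_iInf fun j => le_iInf fun hij => hs i j hij
    have hJχ : #J < χ := (hJ.trans hθμ).trans_lt hμχ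
    obtain ⟨h, hh⟩ := QC.exists_lb hU hκ hχ hχκ.le J hJχ
      (BDist.mono' hdist (hJ.trans hθμ)) s' β
      (fun i j hij => iInf_le_of_le i (iInf_le_of_le j (iInf_le _ hij)))
    exact ⟨h, fun j => hbβ.trans (lift_mono (hh j))⟩
  have hd : G₀.Distr μ := by
    intro K hK Dn hopen b hdense q
    exact QC.distr hU hκ hχ hχκ.le hμ hμχ hS hC hdist K hK Dn
      (fun k h h' => hopen k h h') b (fun k h => hdense k h) q
  exact ⟨G₀.names, G₀.names_mixing, G₀.names_closed hdistP hcl, G₀.names_distr hd⟩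

end BT
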