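import Pool.Agent.Helper18.BT.A03

/-!
# BT-C11: a generic ultrafilter on `I` prevents surjections from small sets onto `I`

PROOF.  Let `f : X → I → B` be functional and `b := ⨅ y, ⨆ x, f x y`.  Suppose `b ≠ ⊥`.  Take `q : G.Q`.
`decSub` with `A a := b`, `g x a := f x a`, `K = X`: `b = b ⊓ F q (fun _ => ⊤) ≤ F q (fun _ => b)` (`F_mono`,
`F_cone` gives `F q ⊤ = ⊤`; `I` is nonempty, otherwise … see below), so
`b ≤ ⨆ q', ⨆ x, G.le q' q ⊓ G.F q' (f x)`.  So there are `q'`, `x` with `b₁ := b ⊓ G.F q' (f x) ≠ ⊥`;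
`G.F q' (f x) ≤ ⨆ a, f x a` (`F_ne`), so there is `α` with `b₂ := b₁ ⊓ f x α ≠ ⊥`.  Choose `β` with
`¬ β ≤ α` (`hI`).  `F q' (f x) ≤ F q' (fun a => f x a ⊓ tv (β ≤ a)) ≤ ⨆ a, f x a ⊓ tv (β ≤ a)`
(`F_inf_cone`, `F_ne`); but `f x α ⊓ f x a = ⊥` for `a ≠ α`, and `tv (β ≤ α) = ⊥`.  So `b₂ = ⊥`.
(`hne : Nonempty I`; `F q (fun _ => ⊤) ≥ F q (cone α) = ⊤`.)
-/

open Cardinal

namespace BT

variable {B : Type} [CompleteBooleanAlgebra B] {I : Type} [Preorder I] {τ : Cardinal.{0}}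

theorem BUF.noSurj (G : BUF B I τ) {X : Type} (hX : #X ≤ τ) (hne : Nonempty I)
    (hI : ∀ α : I, ∃ β : I, ¬ β ≤ α) : NoSurj B X I := by
  intro f hf
  obtain ⟨α₀⟩ := hne
  obtain ⟨q⟩ := G.ne
  set b : B := ⨅ y, ⨆ x, f x y with hb
  have hF : ∀ (q' : G.Q) (x : X), G.F q' (f x) = ⊥ := by
    intro q' x
    have h1 : G.F q' (f x) = G.F q' (f x) ⊓ ⨆ a, f x a :=
      (inf_eq_left.mpr (G.F_ne q' (f x))).symm
    rw [h1, inf_iSup_eq, ← le_bot_iff]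
    refine iSup_le (fun α => ?_)
    obtain ⟨β, hβ⟩ := hI α
    have h2 : G.F q' (f x) ≤ ⨆ a, f x a ⊓ tv (β ≤ a) :=
      (G.F_inf_cone q' (f x) β).trans (G.F_ne q' _)
    refine (inf_le_inf_right _ h2).trans ?_
    rw [iSup_inf_eq]
    refine iSup_le (fun a => ?_)
    by_cases ha : a = α
    · subst ha
      rw [tv_false hβ]; simp
    · rw [← hf x a α ha]
      exact inf_le_inf_right _ inf_le_left
  have h3 : b ≤ G.F q (fun _ => b) := by
    have h4 := G.F_mono q b (fun a => tv (α₀ ≤ a)) (fun _ => b) (fun a => inf_le_left)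
    rwa [G.F_cone, inf_top_eq] at h4
  have h5 := h3.trans (G.decSub (fun _ => b) f hX (fun a => iInf_le _ a) q)
  rw [← le_bot_iff]
  refine h5.trans (iSup_le (fun q' => iSup_le (fun x => ?_)))
  rw [hF]
  exact inf_le_right

end BT
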