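import Pool.Agent.Helper18.BT.C04

/-!
# Closure, covering
-/

open Cardinal

namespace BT

/-- decreasing sequences of length at most `μ` (indexed by well-ordered sets of size at most `μ`) have
lower bounds -/
def SeqClosed (E : Type) [Preorder E] (μ : Cardinal.{0}) : Prop :=
  ∀ (J : Type) [LinearOrder J] [WellFoundedLT J], #J ≤ μ → ∀ s : J → E, Antitone s →
    ∃ e, ∀ j, e ≤ s j

/-- Every family of at most `μ` names of ground model objects is covered by a ground model set of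
size at most `μ`. -/
def CovN (B : Type) [CompleteBooleanAlgebra B] (μ : Cardinal.{0}) : Prop :=
  ∀ (K : Type), #K ≤ μ → ∀ (Y : Type) (φ : K → Y → B) (b : B), b ≠ ⊥ → (∀ k, b ≤ ⨆ y, φ k y) →
    ∃ c ≤ b, c ≠ ⊥ ∧ ∃ Z : Set Y, #Z ≤ μ ∧ ∀ k, c ≤ ⨆ y : Z, φ k y.1

end BT
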