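import Mathlib

/-!
# Boolean values: basic lemmas

`B` is a complete Boolean algebra.  `tv p` is the truth value of the proposition `p` of the ground
model.  A name for a subset of a ground model set `Y` is a function `Y → B`; a name `f` for a
partial function from `X` to `Y` is a function `X → Y → B` with `IsFunc f`, `f x y` being the truth
value of `f(x) = y`.
-/

open Cardinal

namespace BT

section

variable {B : Type} [CompleteBooleanAlgebra B]

/-- the truth value of a ground model statement -/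
def tv (p : Prop) : B := ⨆ _ : p, ⊤

@[simp] lemma tv_true {p : Prop} (h : p) : (tv p : B) = ⊤ := by
  unfold tv
  exact iSup_pos h

@[simp] lemma tv_false {p : Prop} (h : ¬ p) : (tv p : B) = ⊥ := by
  unfold tv
  exact iSup_neg h

lemma tv_mono {p q : Prop} (h : p → q) : (tv p : B) ≤ tv q := by
  by_cases hp : p
  · rw [tv_true hp, tv_true (h hp)]
  · rw [tv_false hp]; exact bot_le

lemma le_tv {p : Prop} (h : p) (b : B) : b ≤ tv p := by
  rw [tv_true h]; exact le_top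

/-- if `b` is below a join and nonzero, some piece meets `b` -/
lemma exists_inf_ne_bot {ι : Sort*} {b : B} {φ : ι → B} (hb : b ≠ ⊥) (h : b ≤ ⨆ i, φ i) :
    ∃ i, b ⊓ φ i ≠ ⊥ := by
  by_contra hcon
  push Not at hcon
  apply hb
  have h1 : b = b ⊓ ⨆ i, φ i := (inf_eq_left.mpr h).symm
  rw [h1, inf_iSup_eq]
  simp [hcon]

/-- a dense criterion for being below a join -/
lemma le_iSup_of_dense {ι : Sort*} {b : B} {φ : ι → B}
    (h : ∀ c ≤ b, c ≠ ⊥ → ∃ i, c ⊓ φ i ≠ ⊥) : b ≤ ⨆ i, φ i := by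
  by_contra hcon
  have h1 : b ⊓ (⨆ i, φ i)ᶜ ≠ ⊥ := fun h2 =>
    hcon (disjoint_compl_right_iff.mp (disjoint_iff.mpr h2))
  obtain ⟨i, hi⟩ := h _ inf_le_left h1
  apply hi
  have h2 : φ i ≤ ⨆ i, φ i := le_iSup φ i
  rw [← le_bot_iff]
  calc b ⊓ (⨆ i, φ i)ᶜ ⊓ φ i ≤ (⨆ i, φ i)ᶜ ⊓ ⨆ i, φ i :=
        le_inf (inf_le_left.trans inf_le_right) (inf_le_right.trans h2)
    _ = ⊥ := by rw [inf_comm, inf_compl_self]

lemma le_of_inf_compl_eq_bot {b c : B} (h : b ⊓ cᶜ = ⊥) : b ≤ c :=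
  disjoint_compl_right_iff.mp (disjoint_iff.mpr h)

lemma inf_compl_eq_bot_of_le {b c : B} (h : b ≤ c) : b ⊓ cᶜ = ⊥ :=
  disjoint_iff.mp (disjoint_compl_right_iff.mpr h)

/-- if `b ≤ c` fails then some nonzero element below `b` is disjoint from `c` -/
lemma inf_compl_ne_bot {b c : B} (h : ¬ b ≤ c) : b ⊓ cᶜ ≠ ⊥ :=
  fun h1 => h (le_of_inf_compl_eq_bot h1)

lemma le_compl_of_inf_eq_bot {b c : B} (h : b ⊓ c = ⊥) : b ≤ cᶜ :=
  le_compl_iff_disjoint_right.mpr (disjoint_iff.mpr h)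

lemma inf_eq_bot_of_le_compl {b c : B} (h : b ≤ cᶜ) : b ⊓ c = ⊥ :=
  disjoint_iff.mp (le_compl_iff_disjoint_right.mp h)

lemma ne_bot_of_le {b c : B} (h : b ≤ c) (hb : b ≠ ⊥) : c ≠ ⊥ :=
  fun h1 => hb (le_bot_iff.mp (h.trans h1.le))

/-- `f` is a name for a partial function from `X` to `Y`. -/
def IsFunc {X Y : Type*} (f : X → Y → B) : Prop := ∀ x y y', y ≠ y' → f x y ⊓ f x y' = ⊥

/-- A family of truth values can be disjointified without changing the join. -/
lemma exists_disjoint {ι : Type*} (φ : ι → B) :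
    ∃ ψ : ι → B, (∀ i, ψ i ≤ φ i) ∧ (∀ i j, i ≠ j → ψ i ⊓ ψ j = ⊥) ∧ (⨆ i, ψ i) = ⨆ i, φ i := by
  classical
  obtain ⟨r, hr⟩ := exists_wellFoundedLT ι
  let ψ : ι → B := fun i => φ i ⊓ (⨆ j : {j // j < i}, φ j.1)ᶜ
  have key : ∀ i j, i < j → ψ i ⊓ ψ j = ⊥ := by
    intro i j hij
    rw [← le_bot_iff]
    have h1 : ψ i ≤ ⨆ k : {k // k < j}, φ k.1 :=
      inf_le_left.trans (le_iSup (fun k : {k // k < j} => φ k.1) ⟨i, hij⟩)
    calc ψ i ⊓ ψ j ≤ (⨆ k : {k // k < j}, φ k.1) ⊓ (⨆ k : {k // k < j}, φ k.1)ᶜ :=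
          le_inf (inf_le_left.trans h1) (inf_le_right.trans inf_le_right)
      _ = ⊥ := inf_compl_self _
  refine ⟨ψ, fun i => inf_le_left, ?_, ?_⟩
  · intro i j hij
    rcases lt_or_gt_of_ne hij with h | h
    · exact key i j h
    · rw [inf_comm]; exact key j i h
  · apply le_antisymm
    · exact iSup_mono (fun i => inf_le_left)
    · refine iSup_le (fun i => ?_)
      induction i using WellFoundedLT.induction with
      | ind i ih =>
        have h1 : φ i = φ i ⊓ (⨆ j : {j // j < i}, φ j.1) ⊔ ψ i := by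
          rw [← inf_sup_left, sup_compl_eq_top, inf_top_eq]
        rw [h1]
        refine sup_le (inf_le_right.trans (iSup_le fun j => ih j.1 j.2)) (le_iSup ψ i)

end

end BT
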