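import Pool.Agent.Helper18.BT.Defs
import Pool.Agent.Helper18.BT.Closed

/-!
# BT-D02: closure of the forcing notions, distributivity of their regular open algebras

PROOFS.
* `Pf.seqClosed`: `Pf.exists_union` (`#J ≤ μ < χ`, decreasing sequences are directed: take the larger
  index).  `Pf.dirClosed`: `Pf.exists_union` for the family of the members of `s`.
* Products: take lower bounds coordinatewise.  For `DirClosed` of a product: the image of `s` in a
  coordinate is nonempty, directed, of size `≤ #s < κ`.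
* `bdist`: let `p ∈ b` (`RO.exists_mem`; this is in C01, or unfold).  Choose a well-order on `J`
  (`exists_wellFoundedLT`).  Recursion over `J` (use `Pool.Agent.Helper18.TP.qf`, `qf_le`, `exists_qlim`
  of TP/Split.lean with `M := fun _ => Unit`, `P := {q : P // q ≤ p}`): `p_j ≤ p` decreasing, such that for
  some `y`, `p_j ∈ n j y` (`RO.mem_iSup`: since `p ∈ b ≤ ⨆ y, n j y`, densely below `p`).  Let `q` be a lower
  bound of all `p_j`, `c := b ⊓ {q' : dense below q' there is r ≤ q}` (the regular open set generated by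
  `q`); `c ≤ n j (f j)` by regularity and `q ≤ p_j`.
-/

open Cardinal

namespace BT

theorem Pf.seqClosed {D V : Type} (Rel : D → V → Prop) {χ μ : Cardinal.{0}} (hχ : χ.IsRegular)
    (hμ : μ < χ) : SeqClosed (Pf D V Rel χ) μ := by
  intro J _ _ hJ s hs
  obtain ⟨u, hu, _⟩ := Pf.exists_union hχ (hJ.trans_lt hμ) s
    (fun i j => ⟨max i j, hs (le_max_left i j), hs (le_max_right i j)⟩)
  exact ⟨u, hu⟩

theorem Pf.dirClosed {D V : Type} (Rel : D → V → Prop) {χ κ : Cardinal.{0}} (hχ : χ.IsRegular)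
    (hκ : κ ≤ χ) : DirClosed κ (Pf D V Rel χ) := by
  intro s _ hs hd
  obtain ⟨u, hu, _⟩ := Pf.exists_union hχ (hs.trans_le hκ) (fun j : s => j.1)
    (fun i j => by
      obtain ⟨k, hk, h1, h2⟩ := hd i.1 i.2 j.1 j.2
      exact ⟨⟨k, hk⟩, h1, h2⟩)
  exact ⟨u, fun x hx => hu ⟨x, hx⟩⟩

theorem SeqClosed.pi {Z : Type} {P : Z → Type} [∀ z, Preorder (P z)] {μ : Cardinal.{0}}
    (h : ∀ z, SeqClosed (P z) μ) : SeqClosed (∀ z, P z) μ := by
  intro J _ _ hJ s hs
  have h1 : ∀ z, ∃ e : P z, ∀ j, e ≤ s j z := fun z =>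
    h z J hJ (fun j => s j z) (fun i j hij => hs hij z)
  choose e he using h1
  exact ⟨e, fun j z => he z j⟩

theorem DirClosed.pi {Z : Type} {P : Z → Type} [∀ z, Preorder (P z)] {κ : Cardinal.{0}}
    (h : ∀ z, DirClosed κ (P z)) : DirClosed κ (∀ z, P z) := by
  intro s hne hs hd
  have h1 : ∀ z, ∃ e : P z, ∀ x ∈ s, e ≤ x z := by
    intro z
    obtain ⟨e, he⟩ := h z ((fun x => x z) '' s) (hne.image _)
      (Cardinal.mk_image_le.trans_lt hs) (by
        rintro _ ⟨a, ha, rfl⟩ _ ⟨b, hb, rfl⟩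
        obtain ⟨k, hk, h1, h2⟩ := hd a ha b hb
        exact ⟨k z, ⟨k, hk, rfl⟩, h1 z, h2 z⟩)
    exact ⟨e, fun x hx => he _ ⟨x, hx, rfl⟩⟩
  choose e he using h1
  exact ⟨e, fun x hx z => he z x hx⟩

theorem SeqClosed.prod {E C : Type} [Preorder E] [Preorder C] {μ : Cardinal.{0}}
    (h : SeqClosed E μ) (h' : SeqClosed C μ) : SeqClosed (E × C) μ := by
  intro J _ _ hJ s hs
  obtain ⟨e, he⟩ := h J hJ (fun j => (s j).1) (fun i j hij => (hs hij).1)
  obtain ⟨c, hc⟩ := h' J hJ (fun j => (s j).2) (fun i j hij => (hs hij).2)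
  exact ⟨(e, c), fun j => ⟨he j, hc j⟩⟩

theorem SeqClosed.mono {E : Type} [Preorder E] {μ μ' : Cardinal.{0}}
    (h : SeqClosed E μ) (h' : μ' ≤ μ) : SeqClosed E μ' :=
  fun J _ _ hJ s hs => h J (hJ.trans h') s hs

theorem SeqClosed.bdist {P : Type} [Preorder P] {μ : Cardinal.{0}} (h : SeqClosed P μ) :
    BDist (RO P) μ := by
  classical
  intro J hJ Y n b hb hn
  obtain ⟨p, hp⟩ : ∃ p, b.1 p := by
    by_contra hcon
    push Not at hcon
    exact hb (RO.eq_bot_iff.2 hcon)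
  obtain ⟨r, hr⟩ := exists_wellFoundedLT J
  let P' : Type := {q : P // q ≤ p}
  have : Nonempty P' := ⟨⟨p, le_rfl⟩⟩
  have H : ∀ (q : P') (j : J), ∃ q' : P', q' ≤ q ∧ ∃ y, (n j y).1 q'.1 := by
    intro q j
    have h1 : (⨆ y, n j y).1 q.1 := hn j q.1 (b.down q.2 hp)
    rw [RO.mem_iSup] at h1
    obtain ⟨q', hq', y, hy⟩ := h1 q.1 le_rfl
    exact ⟨⟨q', hq'.trans q.2⟩, hq', y, hy⟩
  choose c hc y hy using H
  have hcl : ∀ (J' : Type) [LinearOrder J'] [WellFoundedLT J'], #J' ≤ #J →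
      ∀ s : J' → P', Antitone s → ∃ q, ∀ j, q ≤ s j := by
    intro J' _ _ hJ' s hs
    rcases isEmpty_or_nonempty J' with hE | ⟨⟨j0⟩⟩
    · exact ⟨⟨p, le_rfl⟩, fun j => (hE.false j).elim⟩
    · obtain ⟨q, hq⟩ := h J' (hJ'.trans hJ) (fun j => (s j).1) (fun a b h => hs h)
      exact ⟨⟨q, (hq j0).trans (s j0).2⟩, hq⟩
  obtain ⟨q, hq⟩ := Pool.Agent.Helper18.TP.exists_qlim (Θ := J) (M := fun _ => Unit) (P := P')
    (fun q j _ => c q j) (fun q j _ => hc q j) hcl (fun _ => ())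
  let qq : J → P' := Pool.Agent.Helper18.TP.qf (Θ := J) (M := fun _ => Unit) (P := P')
    (fun q j _ => c q j) (fun _ => ())
  refine ⟨b ⊓ ⨅ j, n j (y (qq j) j), inf_le_left, ?_, fun j => y (qq j) j,
    fun j => inf_le_right.trans (iInf_le _ j)⟩
  intro hbot
  refine RO.not_mem_bot q.1 ?_
  rw [← hbot, RO.mem_inf]
  refine ⟨b.down q.2 hp, ?_⟩
  rw [RO.mem_iInf]
  intro j
  exact (n j (y (qq j) j)).down (hq j) (hy (qq j) j)

end BT
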