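import Pool.Agent.Helper18.BT.Closed

/-!
# BT-D03: consequences of covering and of distributivity

PROOFS.
* `BDist.covN`: `BDist` gives `f : K → Y` with `c ≤ φ k (f k)`; `Z := Set.range f`.
* `CovN.noSurj`: `f : X → Z' → B` functional, `b := ⨅ z, ⨆ x, f x z`, suppose `b ≠ ⊥`.  Apply `CovN` to
  `K = X`, `Y = Option Z'`, `φ x (some z) := f x z`, `φ x none := (⨆ z, f x z)ᶜ`: `c ≤ b`, `c ≠ ⊥`,
  `Z ⊆ Option Z'`, `#Z ≤ μ < #Z'`, so there is `z : Z'` with `some z ∉ Z`.  `c ≤ ⨆ x, f x z`: there is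
  `x` with `c ⊓ f x z ≠ ⊥`; but `c ≤ ⨆ y ∈ Z, φ x y` and `f x z ⊓ φ x y = ⊥` for `y ∈ Z`.
* `CovN.cov`: `CovN` gives `Z ⊆ I` with `#Z ≤ μ`, an upper bound `β` of `Z` (`hub`), monotonicity.
* `NoSurj.mono`: if `#X ≤ #X'` and `#Y' ≤ #Y` then from `f : X → Y → B` one gets `f' : X' → Y' → B`:
  `f' x' y' := f x (ι y')` if `x' = j x`, else `⊥`, for injections `j : X → X'`, `ι : Y' → Y`
  (functional, since `ι` is injective); contrapositive: `NoSurj B X' Y' → NoSurj B X Y`.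
-/

open Cardinal

namespace BT

variable {B : Type} [CompleteBooleanAlgebra B]

theorem BDist.covN {μ : Cardinal.{0}} (h : BDist B μ) : CovN B μ := by
  intro K hK Y φ b hb hφ
  obtain ⟨c, hc, hc0, f, hf⟩ := h K hK Y φ b hb hφ
  refine ⟨c, hc, hc0, Set.range f, Cardinal.mk_range_le.trans hK, fun k => ?_⟩
  exact (hf k).trans (le_iSup (fun y : Set.range f => φ k y.1) ⟨f k, ⟨k, rfl⟩⟩)

theorem BDist.mono {μ μ' : Cardinal.{0}} (h : BDist B μ) (h' : μ' ≤ μ) : BDist B μ' :=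
  fun J hJ => h J (hJ.trans h')

theorem CovN.noSurj {μ : Cardinal.{0}} (h : CovN B μ) {X Z' : Type} (hX : #X ≤ μ)
    (hZ : μ < #Z') : NoSurj B X Z' := by
  classical
  intro f hf
  by_contra hb
  obtain ⟨φ, hφ⟩ : ∃ φ : X → Option Z' → B, φ = fun x o =>
      match o with
      | some z => f x z
      | none => (⨆ z, f x z)ᶜ := ⟨_, rfl⟩
  have h1 : ∀ x, (⨅ z, ⨆ x, f x z) ≤ ⨆ y, φ x y := by
    intro x
    have h2 : (⨆ z, f x z) ⊔ (⨆ z, f x z)ᶜ ≤ ⨆ y, φ x y := by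
      refine sup_le (iSup_le fun z => ?_) ?_
      · have h3 : φ x (some z) ≤ ⨆ y, φ x y := le_iSup (φ x) (some z)
        have h4 : φ x (some z) = f x z := by rw [hφ]
        rw [h4] at h3
        exact h3
      · have h3 : φ x none ≤ ⨆ y, φ x y := le_iSup (φ x) none
        have h4 : φ x none = (⨆ z, f x z)ᶜ := by rw [hφ]
        rw [h4] at h3
        exact h3
    rw [sup_compl_eq_top] at h2
    exact le_top.trans h2
  obtain ⟨c, hc, hc0, Z, hZ', hcZ⟩ := h X hX (Option Z') φ _ hb h1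
  -- some value is missed
  obtain ⟨z, hz⟩ : ∃ z : Z', some z ∉ Z := by
    by_contra hcon
    push Not at hcon
    have h2 : #Z' ≤ #Z :=
      Cardinal.mk_le_of_injective (f := fun z => (⟨some z, hcon z⟩ : Z)) (by
        intro z z' hzz
        have := congrArg Subtype.val hzz
        exact Option.some.inj this)
    exact absurd (lt_of_lt_of_le hZ (h2.trans hZ')) (lt_irrefl _)
  obtain ⟨x, hx⟩ := exists_inf_ne_bot hc0 (hc.trans (iInf_le (fun z => ⨆ x, f x z) z))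
  apply hx
  rw [← le_bot_iff]
  calc c ⊓ f x z ≤ (⨆ y : Z, φ x y.1) ⊓ f x z := inf_le_inf_right _ (hcZ x)
    _ = ⨆ y : Z, φ x y.1 ⊓ f x z := iSup_inf_eq _ _
    _ ≤ ⊥ := by
        refine iSup_le fun y => ?_
        obtain ⟨y, hy⟩ := y
        cases y with
        | none =>
          have h4 : φ x none = (⨆ z, f x z)ᶜ := by rw [hφ]
          change φ x none ⊓ f x z ≤ ⊥
          rw [h4]
          calc (⨆ z, f x z)ᶜ ⊓ f x z ≤ (⨆ z, f x z)ᶜ ⊓ (⨆ z, f x z) :=
                inf_le_inf_left _ (le_iSup (f x) z)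
            _ = ⊥ := by rw [inf_comm, inf_compl_self]
        | some z' =>
          have h4 : φ x (some z') = f x z' := by rw [hφ]
          change φ x (some z') ⊓ f x z ≤ ⊥
          rw [h4]
          have h5 : z' ≠ z := by
            intro h6
            rw [h6] at hy
            exact hz hy
          exact (hf x z' z h5).le

theorem CovN.cov {μ : Cardinal.{0}} (h : CovN B μ) {I : Type} [Preorder I]
    (hub : ∀ Z : Set I, #Z ≤ μ → ∃ β, ∀ z ∈ Z, z ≤ β) : Cov B I μ := by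
  intro K hK φ hmono b hb hφ
  obtain ⟨c, hc, hc0, Z, hZ, hcZ⟩ := h K hK I φ b hb hφ
  obtain ⟨β, hβ⟩ := hub Z hZ
  refine ⟨c, hc, hc0, β, fun k => (hcZ k).trans (iSup_le fun z => hmono k _ _ (hβ z.1 z.2))⟩

theorem NoSurj.mono {X X' Y Y' : Type} (h : NoSurj B X' Y') (hX : #X ≤ #X') (hY : #Y' ≤ #Y) :
    NoSurj B X Y := by
  classical
  intro f hf
  obtain ⟨j⟩ := hX
  obtain ⟨ι⟩ := hY
  have h1 := h (fun x' y' => ⨆ x : {x : X // j x = x'}, f x.1 (ι y')) (by
    intro x' y y' hyy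
    rw [← le_bot_iff, iSup_inf_eq]
    refine iSup_le fun x => ?_
    rw [inf_iSup_eq]
    refine iSup_le fun x₂ => ?_
    have h2 : x₂.1 = x.1 := j.injective (x₂.2.trans x.2.symm)
    rw [h2]
    exact (hf x.1 (ι y) (ι y') (fun h3 => hyy (ι.injective h3))).le)
  rw [← le_bot_iff, ← h1]
  refine le_iInf fun y' => (iInf_le _ (ι y')).trans (iSup_le fun x => ?_)
  refine le_trans ?_ (le_iSup _ (j x))
  exact le_iSup (fun x₂ : {x₂ : X // j x₂ = j x} => f x₂.1 (ι y')) ⟨x, rfl⟩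

end BT
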