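import Pool.Agent.Helper18.BT.D01
import Pool.Agent.Helper18.BT.RO

/-!
# BT-D04: covering and runs for `S × E`, `S` small, `E` closed

PROOF of `covN_prod`.  Let `p = (s₀, e₀) ∈ b` (if `b ≠ ⊥` then it has a member, else `b ≤ ⊥`).
`exists_red` for `S' := {s // s ≤ s₀}`, `E`, `e₀`, `K`, `D k s e := ∃ y, (s, e) ∈ φ k y` (dense, since
`(s, e) ≤ p ∈ b ≤ ⨆ y, φ k y`, `RO.mem_iSup`).  We get `e* ≤ e₀` and for `k`, `s` some `s' ≤ s` and
`y_{k,s}` with `(s', e*) ∈ φ k y_{k,s}`.  `Z := {y_{k,s}}` has size `≤ #K * #S ≤ μ`.  `c :=` the regular open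
set generated by `(s₀, e*)` (i.e. `RO.cl (· ≤ (s₀, e*))`), `c ≤ b`; `c ≤ ⨆ y : Z, φ k y`: for
`(s, e) ≤ (s₀, e*)`: `(s', e) ≤ (s', e*)` is in `φ k y_{k,s}`.

PROOF of `run_prod`.  Let `p = (s₀, e₀) ∈ b`.  Claim: for `e ≤ e₀` and `x : I` there are `e' ≤ e` and
`y ≥ x` with `(s, e') ∈ φ x y` for all `s ≤ s₀`: `exists_red` with `K = Unit`,
`D _ s e := ∃ y, (s, e) ∈ φ x y` gives `e'`, and `s' ≤ s`, `y_s` with `(s', e') ∈ φ x y_s`; let `y` be an upper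
bound of `x` and all `y_s` (`hub`, `#S ≤ μ` infinite); by monotonicity densely below `(s, e')` (for each
`(s₁, e₁) ≤ (s, e')` take `s₁'`) we are in `φ x y`, so `(s, e') ∈ φ x y` (`RO.of_dense`).
Recursion over `W` (`WellFounded.fix` with values in `{e // e ≤ e₀} × I × I`, or `TP.qf`-like): at `w`,
`e` is a lower bound of the previous `e_{w'}` (and `e₀`), `z w` an upper bound of the previous `z' w'`
(`hub`), and `e_w`, `z' w` are the `e'`, `y` of the claim for `e`, `x := z w`.  To know that the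
previous `e_{w'}` are decreasing prove it by well-founded induction as in `TP.qf_le`.
Finally `e_∞` a lower bound of all `e_w`, `t` an upper bound of all `z' w`, `c` the regular open set
generated by `(s₀, e_∞)`: `c ≤ φ (z w) (z' w)` because `(s, e_∞) ≤ (s, e_w)` for all `s ≤ s₀`.
-/

open Cardinal

namespace BT

private theorem exists_mem {P : Type} [Preorder P] {b : RO P} (hb : b ≠ ⊥) : ∃ p, b.1 p := by
  by_contra h
  push Not at h
  exact hb (RO.eq_bot_iff.2 h)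

private theorem down2 {S E : Type} [Preorder S] [Preorder E] (U : RO (S × E)) {s s' : S}
    {e e' : E} (hs : s' ≤ s) (he : e' ≤ e) (h : U.1 (s, e)) : U.1 (s', e') :=
  U.down (⟨hs, he⟩ : (s', e') ≤ (s, e)) h

private def gen {P : Type} [Preorder P] (p₀ : P) : RO P :=
  RO.cl (fun q => q ≤ p₀) (fun _ _ h1 h2 => h1.trans h2)

private theorem gen_le {P : Type} [Preorder P] {p₀ : P} {b : RO P} (h : b.1 p₀) : gen p₀ ≤ b := by
  intro p hp
  refine b.of_dense fun q hq => ?_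
  obtain ⟨r, hr, hr'⟩ := hp q hq
  exact ⟨r, hr, b.down hr' h⟩

private theorem gen_ne {P : Type} [Preorder P] (p₀ : P) : gen p₀ ≠ ⊥ := by
  intro h
  have h1 : (gen p₀).1 p₀ := fun q hq => ⟨q, le_rfl, hq⟩
  exact RO.eq_bot_iff.1 h p₀ h1

theorem covN_prod {S E : Type} [Preorder S] [Preorder E] {μ : Cardinal.{0}} (hμ : ℵ₀ ≤ μ)
    (hS : #S ≤ μ) (hE : SeqClosed E μ) : CovN (RO (S × E)) μ := by
  intro K hK Y φ b hb hcov
  obtain ⟨⟨s₀, e₀⟩, hp⟩ := exists_mem hb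
  have hS' : #{s : S // s ≤ s₀} ≤ μ := (Cardinal.mk_subtype_le _).trans hS
  obtain ⟨es, hes, hred⟩ := exists_red (S := {s : S // s ≤ s₀}) hμ hS' hE hK
    (fun k s e => ∃ y, (φ k y).1 (s.1, e)) e₀
    (by
      rintro k s e e' he ⟨y, hy⟩
      exact ⟨y, down2 (φ k y) le_rfl he hy⟩)
    (by
      intro k s e he
      have h1 : (⨆ y, φ k y).1 (s.1, e) := hcov k _ (down2 b s.2 he hp)
      obtain ⟨⟨s', e'⟩, hr, y, hy⟩ := RO.mem_iSup.1 h1 _ le_rfl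
      exact ⟨⟨s', hr.1.trans s.2⟩, hr.1, e', hr.2, y, hy⟩)
  choose sp hsp yy hyy using hred
  refine ⟨gen (s₀, es), gen_le (down2 b le_rfl hes hp), gen_ne _,
    Set.range (fun x : K × {s : S // s ≤ s₀} => yy x.1 x.2), ?_, ?_⟩
  · refine Cardinal.mk_range_le.trans ?_
    rw [Cardinal.mk_prod, Cardinal.lift_id, Cardinal.lift_id]
    calc #K * #{s : S // s ≤ s₀} ≤ μ * μ := mul_le_mul' hK hS'
      _ = μ := Cardinal.mul_eq_self hμ
  · intro k p hpc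
    rw [RO.mem_iSup]
    intro q hq
    obtain ⟨⟨s, e⟩, hr, hr'⟩ := hpc q hq
    refine ⟨((sp k ⟨s, hr'.1⟩).1, e), ?_, ⟨yy k ⟨s, hr'.1⟩, ⟨(k, ⟨s, hr'.1⟩), rfl⟩⟩, ?_⟩
    · have h1 : (sp k ⟨s, hr'.1⟩).1 ≤ s := hsp k ⟨s, hr'.1⟩
      exact le_trans (⟨h1, le_rfl⟩ : ((sp k ⟨s, hr'.1⟩).1, e) ≤ (s, e)) hr
    · exact down2 (φ k _) le_rfl hr'.2 (hyy k ⟨s, hr'.1⟩)

theorem run_prod {S E : Type} [Preorder S] [Preorder E] {μ : Cardinal.{0}} (hμ : ℵ₀ ≤ μ)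
    (hS : #S ≤ μ) (hE : SeqClosed E μ) {I : Type} [Preorder I] (hI : Nonempty I)
    (hub : ∀ Z : Set I, #Z ≤ μ → ∃ β, ∀ z ∈ Z, z ≤ β) (W : Type) [LinearOrder W]
    [WellFoundedLT W] (hW : #W ≤ μ) : Run (RO (S × E)) I W := by
  intro φ hφ b hb hcov
  obtain ⟨⟨s₀, e₀⟩, hp⟩ := exists_mem hb
  have hS' : #{s : S // s ≤ s₀} ≤ μ := (Cardinal.mk_subtype_le _).trans hS
  have claim : ∀ (q : {e : E // e ≤ e₀} × Iᵒᵈ), ∃ q' : {e : E // e ≤ e₀} × Iᵒᵈ, q' ≤ q ∧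
      ∀ s ≤ s₀, (φ (OrderDual.ofDual q.2) (OrderDual.ofDual q'.2)).1 (s, q'.1.1) := by
    rintro ⟨⟨e, he⟩, x⟩
    obtain ⟨x, rfl⟩ := OrderDual.toDual.surjective x
    obtain ⟨e', he', hred⟩ := exists_red (S := {s : S // s ≤ s₀}) (K := Unit) hμ hS' hE
      (by
        rw [Cardinal.mk_fintype, Fintype.card_unit, Nat.cast_one]
        exact Cardinal.one_le_aleph0.trans hμ)
      (fun _ s e => ∃ y, (φ x y).1 (s.1, e)) e
      (by
        rintro k s e e' he ⟨y, hy⟩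
        exact ⟨y, down2 (φ x y) le_rfl he hy⟩)
      (by
        intro k s e1 he1
        have h1 : (⨆ y, φ x y).1 (s.1, e1) := hcov x _ (down2 b s.2 (he1.trans he) hp)
        obtain ⟨⟨s', e'⟩, hr, y, hy⟩ := RO.mem_iSup.1 h1 _ le_rfl
        exact ⟨⟨s', hr.1.trans s.2⟩, hr.1, e', hr.2, y, hy⟩)
    choose sp hsp yy hyy using hred ()
    obtain ⟨y, hy⟩ := hub (insert x (Set.range yy)) (by
      refine (Cardinal.mk_insert_le).trans ?_
      refine (add_le_add (Cardinal.mk_range_le.trans hS') le_rfl).trans ?_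
      rw [Cardinal.add_one_eq hμ])
    refine ⟨(⟨e', he'.trans he⟩, OrderDual.toDual y), ⟨he', ?_⟩, ?_⟩
    · exact hy x (Set.mem_insert _ _)
    · intro s hs
      refine (φ x y).of_dense ?_
      rintro ⟨s1, e1⟩ hq
      have hs1 : s1 ≤ s₀ := hq.1.trans hs
      refine ⟨((sp ⟨s1, hs1⟩).1, e1), ⟨hsp ⟨s1, hs1⟩, le_rfl⟩, ?_⟩
      refine hφ x (yy ⟨s1, hs1⟩) y (hy _ (Set.mem_insert_of_mem _ ⟨_, rfl⟩)) _ ?_
      exact down2 (φ x _) le_rfl hq.2 (hyy ⟨s1, hs1⟩)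
  choose c hc1 hc2 using claim
  have : Nonempty ({e : E // e ≤ e₀} × Iᵒᵈ) := ⟨(⟨e₀, le_rfl⟩, OrderDual.toDual hI.some)⟩
  have hcl : ∀ (J : Type) [LinearOrder J] [WellFoundedLT J], #J ≤ #W →
      ∀ s : J → {e : E // e ≤ e₀} × Iᵒᵈ, Antitone s → ∃ q, ∀ j, q ≤ s j := by
    intro J _ _ hJ s hs
    rcases isEmpty_or_nonempty J with hJe | ⟨⟨j0⟩⟩
    · exact ⟨this.some, fun j => (hJe.false j).elim⟩
    · obtain ⟨q, hq⟩ := hE J (hJ.trans hW) (fun j => (s j).1.1) (fun a b h => (hs h).1)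
      obtain ⟨y, hy⟩ := hub (Set.range fun j => OrderDual.ofDual (s j).2)
        (Cardinal.mk_range_le.trans (hJ.trans hW))
      exact ⟨(⟨q, (hq j0).trans (s j0).1.2⟩, OrderDual.toDual y),
        fun j => ⟨hq j, hy _ ⟨j, rfl⟩⟩⟩
  have hc' : ∀ (q : {e : E // e ≤ e₀} × Iᵒᵈ) (w : W) (_ : Unit), c q ≤ q := fun q _ _ => hc1 q
  obtain ⟨q, hq⟩ := Pool.Agent.Helper18.TP.exists_qlim (Θ := W) (M := fun _ => Unit)
    (P := {e : E // e ≤ e₀} × Iᵒᵈ) (fun q _ _ => c q) hc' hcl (fun _ => ())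
  have hle := Pool.Agent.Helper18.TP.qf_le (Θ := W) (M := fun _ => Unit)
    (P := {e : E // e ≤ e₀} × Iᵒᵈ) (fun q _ _ => c q) hc' hcl (fun _ => ())
  refine ⟨gen (s₀, q.1.1), gen_le (down2 b le_rfl q.1.2 hp), gen_ne _,
    fun w => OrderDual.ofDual (Pool.Agent.Helper18.TP.qf (M := fun _ => Unit)
      (fun q _ _ => c q) (fun _ => ()) w).2,
    fun w => OrderDual.ofDual (c (Pool.Agent.Helper18.TP.qf (M := fun _ => Unit)
      (fun q _ _ => c q) (fun _ => ()) w)).2, OrderDual.ofDual q.2, ?_, ?_⟩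
  · intro w
    refine ⟨(hc1 _).2, (hq w).2, ?_⟩
    apply gen_le
    exact down2 (φ _ _) le_rfl (hq w).1 (hc2 (Pool.Agent.Helper18.TP.qf (M := fun _ => Unit)
      (fun q _ _ => c q) (fun _ => ()) w) s₀ le_rfl)
  · intro w w' hww
    exact (hle w' w hww).2

end BT
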