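import Pool.Agent.Helper18.BT.Pf

/-!
# BT-D05: cardinal arithmetic at an inaccessible cardinal

PROOFS.
* `mk_small_sets`: w.l.o.g. `X = κ.ord.ToType` (injection `X → κ.ord.ToType`).  A subset of size `< κ`
  of `κ.ord.ToType` is bounded (`κ` regular), so contained in `Set.Iio α` for some `α`;
  `#{s ⊆ Iio α} = 2 ^ #(Iio α) < κ` (strong limit) and there are `κ` many `α`:
  `#{s // #s < κ} ≤ ∑ α, 2 ^ #(Iio α) ≤ κ * κ = κ`.
* `mk_fun_le`: the graph of `f : Z → X` is a subset of `Z × X` of size `#Z < κ`, injective in `f`.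
* `mk_pi_le`: `∀ z, P z` embeds into `Z → Σ z, P z`.
* `mk_Pf_le`: `t ↦ {(x, y) // t.f x = some y} ⊆ D × V` is injective, and the graph has size
  `≤ #{x // t.f x ≠ none} < χ ≤ κ`.
* `mk_pi_lt`: let `λ := ⨆ z, #(P z)`; `λ < κ` (`κ` regular, `#Z < κ`), so
  `#(∀ z, P z) ≤ λ' ^ #Z < κ` with `λ' = max λ 2`, as `κ` is a strong limit
  (`Pool.Agent.Helper18.TP.pow_lt_of_strongLimit` in TP/Card.lean has the last step; import it if useful).
-/

open Cardinal

namespace BT

theorem mk_small_sets {κ : Cardinal.{0}} (hreg : κ.IsRegular) (hlim : κ.IsStrongLimit) {X : Type}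
    (hX : #X ≤ κ) : #{s : Set X // #s < κ} ≤ κ := by
  rcases hX.lt_or_eq with h | h
  · have h1 : #{s : Set X // #s < κ} ≤ #(Set X) := Cardinal.mk_subtype_le _
    rw [Cardinal.mk_set] at h1
    exact (h1.trans_lt (hlim.isStrongPrelimit h)).le
  · subst h
    have h1 := Cardinal.mk_subset_mk_lt_cof (α := X) hlim.isStrongPrelimit
    rw [hreg.cof_ord] at h1
    exact h1.le

theorem mk_fun_le {κ : Cardinal.{0}} (hreg : κ.IsRegular) (hlim : κ.IsStrongLimit) {Z X : Type}
    (hZ : #Z < κ) (hX : #X ≤ κ) : #(Z → X) ≤ κ := by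
  have h0 : ℵ₀ ≤ κ := hreg.aleph0_le
  have h1 : #(Z × X) ≤ κ := by
    rw [Cardinal.mk_prod]
    simp only [Cardinal.lift_id]
    exact (mul_le_mul' hZ.le hX).trans (Cardinal.mul_eq_self h0).le
  refine le_trans ?_ (mk_small_sets hreg hlim h1)
  refine Cardinal.mk_le_of_injective (f := fun f => ⟨Set.range (fun z => (z, f z)), ?_⟩) ?_
  · exact Cardinal.mk_range_le.trans_lt hZ
  · intro f g h
    have h2 : Set.range (fun z => (z, f z)) = Set.range (fun z => (z, g z)) :=
      congrArg Subtype.val h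
    funext z
    have h3 : (z, f z) ∈ Set.range (fun z => (z, g z)) := by
      rw [← h2]; exact ⟨z, rfl⟩
    obtain ⟨w, hw⟩ := h3
    have h4 : w = z := congrArg Prod.fst hw
    have h5 : g w = f z := congrArg Prod.snd hw
    rw [← h5, h4]

theorem mk_pi_le {κ : Cardinal.{0}} (hreg : κ.IsRegular) (hlim : κ.IsStrongLimit) {Z : Type}
    (hZ : #Z < κ) {P : Z → Type} (hP : ∀ z, #(P z) ≤ κ) : #(∀ z, P z) ≤ κ := by
  have h0 : ℵ₀ ≤ κ := hreg.aleph0_le
  have h1 : #(Σ z, P z) ≤ κ := by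
    rw [Cardinal.mk_sigma]
    refine (Cardinal.sum_le_sum _ (fun _ => κ) hP).trans ?_
    rw [Cardinal.sum_const]
    simp only [Cardinal.lift_id]
    exact (mul_le_mul' hZ.le le_rfl).trans (Cardinal.mul_eq_self h0).le
  refine le_trans ?_ (mk_fun_le hreg hlim hZ h1)
  refine Cardinal.mk_le_of_injective (f := fun f z => ⟨z, f z⟩) ?_
  intro f g h
  funext z
  have h2 := congrFun h z
  simpa using h2

theorem mk_pi_lt {κ : Cardinal.{0}} (hreg : κ.IsRegular) (hlim : κ.IsStrongLimit) {Z : Type}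
    (hZ : #Z < κ) {P : Z → Type} (hP : ∀ z, #(P z) < κ) : #(∀ z, P z) < κ := by
  have h1 : (⨆ z, #(P z)) < κ := Cardinal.iSup_lt_of_isRegular hreg hZ hP
  have h2 : #(∀ z, P z) ≤ (⨆ z, #(P z)) ^ #Z := by
    rw [Cardinal.mk_pi]
    have h3 : Cardinal.prod (fun z => #(P z)) ≤ Cardinal.prod (fun _ : Z => ⨆ z, #(P z)) := by
      apply Cardinal.prod_le_prod
      intro z
      exact le_ciSup Cardinal.bddAbove_of_small z
    refine h3.trans ?_
    rw [Cardinal.prod_const]
    simp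
  refine h2.trans_lt ?_
  have h4 : (⨆ z, #(P z)) * #Z < κ := Cardinal.mul_lt_of_lt hlim.aleph0_le h1 hZ
  calc (⨆ z, #(P z)) ^ #Z ≤ (2 ^ (⨆ z, #(P z))) ^ #Z :=
        Cardinal.power_le_power_right (Cardinal.cantor _).le
    _ = 2 ^ ((⨆ z, #(P z)) * #Z) := by rw [← Cardinal.power_mul]
    _ < κ := hlim.isStrongPrelimit h4

theorem mk_Pf_le {κ χ : Cardinal.{0}} (hreg : κ.IsRegular) (hlim : κ.IsStrongLimit) {D V : Type}
    (Rel : D → V → Prop) (hD : #D ≤ κ) (hV : #V ≤ κ) (hχ : χ ≤ κ) : #(Pf D V Rel χ) ≤ κ := by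
  have h0 : ℵ₀ ≤ κ := hreg.aleph0_le
  have h1 : #(D × V) ≤ κ := by
    rw [Cardinal.mk_prod]
    simp only [Cardinal.lift_id]
    exact (mul_le_mul' hD hV).trans (Cardinal.mul_eq_self h0).le
  refine le_trans ?_ (mk_small_sets hreg hlim h1)
  refine Cardinal.mk_le_of_injective (f := fun t => ⟨{p | t.f p.1 = some p.2}, ?_⟩) ?_
  · refine lt_of_le_of_lt ?_ (t.small.trans_le hχ)
    refine Cardinal.mk_le_of_injective
      (f := fun p : {p : D × V | t.f p.1 = some p.2} => (⟨p.1.1, ?_⟩ : {x : D // t.f x ≠ none})) ?_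
    · have hp : t.f p.1.1 = some p.1.2 := p.2
      rw [hp]
      simp
    · intro p q h
      have h2 : p.1.1 = q.1.1 := congrArg Subtype.val h
      have hp : t.f p.1.1 = some p.1.2 := p.2
      have hq : t.f q.1.1 = some q.1.2 := q.2
      rw [h2, hq] at hp
      have h3 : q.1.2 = p.1.2 := Option.some.inj hp
      exact Subtype.ext (Prod.ext h2 h3.symm)
  · intro t u h
    have h2 : {p : D × V | t.f p.1 = some p.2} = {p : D × V | u.f p.1 = some p.2} :=
      congrArg Subtype.val h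
    apply Pf.ext'
    intro x
    have h3 : ∀ y, t.f x = some y ↔ u.f x = some y := fun y => by
      have h4 : ((x, y) ∈ {p : D × V | t.f p.1 = some p.2}) ↔
          ((x, y) ∈ {p : D × V | u.f p.1 = some p.2}) := by rw [h2]
      exact h4
    cases hx : t.f x with
    | some y => exact ((h3 y).1 hx).symm
    | none =>
      cases hy : u.f x with
      | some y =>
        rw [(h3 y).2 hy] at hx
        exact absurd hx (by simp)
      | none => rfl

end BT
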