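import Pool.Agent.Helper18.BT.Closed

/-!
# Decompositions of a product over a linear order
-/

open Cardinal

namespace BT

section

variable {Ω : Type} [LinearOrder Ω] {P : Ω → Type}

open Classical in
/-- glue a condition on the coordinates `≤ η` and one on the coordinates `> η` -/
noncomputable def glue (η : Ω) (s : ∀ ζ : {ζ // ζ ≤ η}, P ζ.1) (e : ∀ ζ : {ζ // η < ζ}, P ζ.1) :
    ∀ ζ, P ζ := fun ζ => if h : ζ ≤ η then s ⟨ζ, h⟩ else e ⟨ζ, not_le.mp h⟩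

/-- the coordinates `≤ η` -/
def low (η : Ω) (r : ∀ ζ, P ζ) : ∀ ζ : {ζ // ζ ≤ η}, P ζ.1 := fun ζ => r ζ.1

/-- the coordinates `> η` -/
def high (η : Ω) (r : ∀ ζ, P ζ) : ∀ ζ : {ζ // η < ζ}, P ζ.1 := fun ζ => r ζ.1

theorem glue_of_le {η ζ : Ω} (h : ζ ≤ η) (s : ∀ ζ : {ζ // ζ ≤ η}, P ζ.1)
    (e : ∀ ζ : {ζ // η < ζ}, P ζ.1) : glue η s e ζ = s ⟨ζ, h⟩ := by
  unfold glue
  exact dif_pos h

theorem glue_of_lt {η ζ : Ω} (h : η < ζ) (s : ∀ ζ : {ζ // ζ ≤ η}, P ζ.1)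
    (e : ∀ ζ : {ζ // η < ζ}, P ζ.1) : glue η s e ζ = e ⟨ζ, h⟩ := by
  unfold glue
  exact dif_neg (not_le.mpr h)

@[simp] theorem low_glue (η : Ω) (s : ∀ ζ : {ζ // ζ ≤ η}, P ζ.1)
    (e : ∀ ζ : {ζ // η < ζ}, P ζ.1) : low η (glue η s e) = s :=
  funext fun ζ => glue_of_le ζ.2 s e

@[simp] theorem high_glue (η : Ω) (s : ∀ ζ : {ζ // ζ ≤ η}, P ζ.1)
    (e : ∀ ζ : {ζ // η < ζ}, P ζ.1) : high η (glue η s e) = e :=
  funext fun ζ => glue_of_lt ζ.2 s e

@[simp] theorem glue_low_high (η : Ω) (r : ∀ ζ, P ζ) : glue η (low η r) (high η r) = r := by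
  funext ζ
  rcases le_or_gt ζ η with h | h
  · rw [glue_of_le h]; rfl
  · rw [glue_of_lt h]; rfl

variable [∀ ζ, Preorder (P ζ)]

theorem glue_mono {η : Ω} {s s' : ∀ ζ : {ζ // ζ ≤ η}, P ζ.1} {e e' : ∀ ζ : {ζ // η < ζ}, P ζ.1}
    (hs : s' ≤ s) (he : e' ≤ e) : glue η s' e' ≤ glue η s e := by
  intro ζ
  rcases le_or_gt ζ η with h | h
  · rw [glue_of_le h, glue_of_le h]; exact hs _
  · rw [glue_of_lt h, glue_of_lt h]; exact he _

theorem low_mono {η : Ω} {r r' : ∀ ζ, P ζ} (h : r' ≤ r) : low η r' ≤ low η r :=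
  fun ζ => h ζ.1

theorem high_mono {η : Ω} {r r' : ∀ ζ, P ζ} (h : r' ≤ r) : high η r' ≤ high η r :=
  fun ζ => h ζ.1

/-- the product as a product of two factors -/
noncomputable def isoTwo (P : Ω → Type) [∀ ζ, Preorder (P ζ)] (η : Ω) :
    ((∀ ζ : {ζ // ζ ≤ η}, P ζ.1) × (∀ ζ : {ζ // η < ζ}, P ζ.1)) ≃o (∀ ζ, P ζ) where
  toFun p := glue η p.1 p.2
  invFun r := (low η r, high η r)
  left_inv p := by simp
  right_inv r := by simp
  map_rel_iff' := by
    intro p q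
    constructor
    · intro h
      have h1 := low_mono (η := η) h
      have h2 := high_mono (η := η) h
      change low η (glue η p.1 p.2) ≤ low η (glue η q.1 q.2) at h1
      change high η (glue η p.1 p.2) ≤ high η (glue η q.1 q.2) at h2
      rw [low_glue, low_glue] at h1
      rw [high_glue, high_glue] at h2
      exact ⟨h1, h2⟩
    · intro h
      exact glue_mono h.1 h.2

open Classical in
/-- the product as a product of three factors -/
noncomputable def isoThree (P : Ω → Type) [∀ ζ, Preorder (P ζ)] (ξ : Ω) :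
    ((∀ ζ : {ζ // ζ < ξ}, P ζ.1) × P ξ × (∀ ζ : {ζ // ξ < ζ}, P ζ.1)) ≃o (∀ ζ, P ζ) where
  toFun p := fun ζ => if h : ζ < ξ then p.1 ⟨ζ, h⟩ else
    if h' : ξ < ζ then p.2.2 ⟨ζ, h'⟩ else (le_antisymm (not_lt.mp h') (not_lt.mp h)) ▸ p.2.1
  invFun r := (fun ζ => r ζ.1, r ξ, fun ζ => r ζ.1)
  left_inv p := by
    refine Prod.ext ?_ (Prod.ext ?_ ?_)
    · funext ζ
      simp [ζ.2]
    · simp
    · funext ζ
      simp [ζ.2, (ζ.2 : ξ < ζ.1).le]
  right_inv r := by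
    funext ζ
    rcases lt_trichotomy ζ ξ with h | h | h
    · simp [h]
    · subst h
      simp
    · simp [h]
  map_rel_iff' := by
    intro p q
    constructor
    · intro h
      refine ⟨fun ζ => ?_, ?_, fun ζ => ?_⟩
      · have h1 := h ζ.1
        simpa [ζ.2] using h1
      · have h1 := h ξ
        simpa using h1
      · have h1 := h ζ.1
        have h2 : ¬ ζ.1 < ξ := not_lt.mpr (ζ.2 : ξ < ζ.1).le
        simpa [ζ.2, h2] using h1
    · intro h ζ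
      rcases lt_trichotomy ζ ξ with h1 | h1 | h1
      · simpa [h1] using h.1 ⟨ζ, h1⟩
      · subst h1
        simpa using h.2.1
      · have h2 : ¬ ζ < ξ := not_lt.mpr h1.le
        simpa [h1, h2] using h.2.2 ⟨ζ, h1⟩

end

end BT
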