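import Pool.Agent.Helper18.BT.D01
import Pool.Agent.Helper18.BT.Prod

/-!
# BT-D06: fusion in a full support product, the recursion

PROOF.  Recursion over `η : Ω` (`WellFounded.fix`).  At `η ∈ Z₀`, given `tail η'` for `η' < η`: if there is a
common lower bound `e₀` in `Tail η := ∀ ζ : {ζ // η < ζ}, P ζ` of `high η r₀` and of all
`fun ζ => tail η' ⟨ζ, _⟩` (`η' ∈ Z₀`, `η' < η`), choose one, and let `tail η ≤ e₀` be given by
`exists_red` (D01) with `S := {s : ∀ ζ : {ζ // ζ ≤ η}, P ζ // s ≤ low η r₀}` (`#S ≤ μ η`), `E := Tail η`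
(`hE`), `K := Kη η`, `D k s e := Dk k (glue η s e)` (open by `glue_mono`; dense: `glue η s e ≤ r₀`
since `s ≤ low η r₀`, `e ≤ e₀ ≤ high η r₀`, `glue_low_high`; from `r' ≤ glue η s e` take `s' := low η r'`,
`e' := high η r'`).  If there is no such lower bound (or `η ∉ Z₀`) let `tail η := high η r₀`.
By well-founded induction on `η ∈ Z₀` the lower bound exists: by the induction hypothesis the sequence
`η' ↦ (fun ζ => tail η' ⟨ζ, _⟩)` on `{η' // η' < η ∧ η' ∈ Z₀}` is decreasing and consists of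
conditions `≤ high η r₀`; use `hE η`, `hΩμ η` (if the index set is empty take `e₀ := high η r₀`).
Then read off the three properties.
-/

open Cardinal

namespace BT

theorem exists_tails {Ω : Type} [LinearOrder Ω] [WellFoundedLT Ω] {P : Ω → Type}
    [∀ ζ, Preorder (P ζ)] (μ : Ω → Cardinal.{0}) (Z₀ : Set Ω) (hμ0 : ∀ η ∈ Z₀, ℵ₀ ≤ μ η)
    (hS : ∀ η ∈ Z₀, #(∀ ζ : {ζ // ζ ≤ η}, P ζ.1) ≤ μ η)
    (hE : ∀ η ∈ Z₀, SeqClosed (∀ ζ : {ζ // η < ζ}, P ζ.1) (μ η))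
    (hΩμ : ∀ η ∈ Z₀, #{η' : Ω // η' < η} ≤ μ η)
    {K : Type} (Kη : Ω → Set K) (hKη : ∀ η ∈ Z₀, #(Kη η) ≤ μ η)
    (Dk : K → (∀ ζ, P ζ) → Prop) (hopen : ∀ k r r', r' ≤ r → Dk k r → Dk k r')
    (r₀ : ∀ ζ, P ζ) (hdense : ∀ k r, r ≤ r₀ → ∃ r' ≤ r, Dk k r') :
    ∃ tail : ∀ η, ∀ ζ : {ζ // η < ζ}, P ζ.1, (∀ η ∈ Z₀, tail η ≤ high η r₀) ∧
      (∀ η ∈ Z₀, ∀ η' ∈ Z₀, ∀ h : η' < η, ∀ ζ : {ζ // η < ζ},
        tail η ζ ≤ tail η' ⟨ζ.1, h.trans ζ.2⟩) ∧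
      ∀ η ∈ Z₀, ∀ k ∈ Kη η, ∀ s ≤ low η r₀, ∃ s' ≤ s, Dk k (glue η s' (tail η)) := by
  classical
  -- one step
  have step : ∀ η, ∀ _ : η ∈ Z₀, ∀ e₀ : (∀ ζ : {ζ // η < ζ}, P ζ.1), e₀ ≤ high η r₀ →
      ∃ e ≤ e₀, ∀ k ∈ Kη η, ∀ s ≤ low η r₀, ∃ s' ≤ s, Dk k (glue η s' e) := by
    intro η hη e₀ he₀
    have hSη : #{s : (∀ ζ : {ζ // ζ ≤ η}, P ζ.1) // s ≤ low η r₀} ≤ μ η :=
      (Cardinal.mk_subtype_le _).trans (hS η hη)
    obtain ⟨e, he, h⟩ := exists_red (S := {s : (∀ ζ : {ζ // ζ ≤ η}, P ζ.1) // s ≤ low η r₀})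
      (E := ∀ ζ : {ζ // η < ζ}, P ζ.1) (hμ0 η hη) hSη (hE η hη) (K := Kη η) (hKη η hη)
      (fun k s e => Dk k.1 (glue η s.1 e)) e₀
      (fun k s e e' hee hD => hopen k.1 _ _ (glue_mono le_rfl hee) hD)
      (by
        rintro ⟨k, hk⟩ ⟨s, hs⟩ e hee
        have h1 : glue η s e ≤ r₀ := by
          have h2 := glue_mono (η := η) hs (hee.trans he₀)
          rwa [glue_low_high] at h2
        obtain ⟨r', hr', hD⟩ := hdense k _ h1
        have h3 : low η r' ≤ s := by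
          have h4 := low_mono (η := η) hr'
          rwa [low_glue] at h4
        have h5 : high η r' ≤ e := by
          have h4 := high_mono (η := η) hr'
          rwa [high_glue] at h4
        refine ⟨⟨low η r', h3.trans hs⟩, h3, high η r', h5, ?_⟩
        simp only [glue_low_high]
        exact hD)
    refine ⟨e, he, fun k hk s hs => ?_⟩
    obtain ⟨s', hs', hD⟩ := h ⟨k, hk⟩ ⟨s, hs⟩
    exact ⟨s'.1, hs', hD⟩
  choose c hc1 hc2 using step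
  -- the recursion
  let Q : ∀ η, (∀ η', η' < η → ∀ ζ : {ζ // η' < ζ}, P ζ.1) → (∀ ζ : {ζ // η < ζ}, P ζ.1) → Prop :=
    fun η rec e₀ => e₀ ≤ high η r₀ ∧ ∀ η' (h : η' < η), η' ∈ Z₀ → ∀ ζ : {ζ // η < ζ},
      e₀ ζ ≤ rec η' h ⟨ζ.1, h.trans ζ.2⟩
  let F : ∀ η, (∀ η', η' < η → ∀ ζ : {ζ // η' < ζ}, P ζ.1) → (∀ ζ : {ζ // η < ζ}, P ζ.1) :=
    fun η rec => if h : η ∈ Z₀ ∧ ∃ e₀, Q η rec e₀ then
      c η h.1 h.2.choose h.2.choose_spec.1 else high η r₀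
  let tail : ∀ η, ∀ ζ : {ζ // η < ζ}, P ζ.1 := (wellFounded_lt (α := Ω)).fix F
  have htail : ∀ η, tail η = F η (fun η' _ => tail η') := by
    intro η
    exact (wellFounded_lt (α := Ω)).fix_eq F η
  have hgood : ∀ η ∈ Z₀, (∃ e₀, Q η (fun η' _ => tail η') e₀) → (tail η ≤ high η r₀) ∧
      (∀ η' (h : η' < η), η' ∈ Z₀ → ∀ ζ : {ζ // η < ζ}, tail η ζ ≤ tail η' ⟨ζ.1, h.trans ζ.2⟩) ∧
      ∀ k ∈ Kη η, ∀ s ≤ low η r₀, ∃ s' ≤ s, Dk k (glue η s' (tail η)) := by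
    intro η hη hex
    have h1 : tail η = c η hη hex.choose hex.choose_spec.1 := by
      rw [htail]
      exact dif_pos (⟨hη, hex⟩ : η ∈ Z₀ ∧ ∃ e₀, Q η (fun η' _ => tail η') e₀)
    have h2 := hc1 η hη hex.choose hex.choose_spec.1
    have h3 := hc2 η hη hex.choose hex.choose_spec.1
    rw [← h1] at h2 h3
    refine ⟨h2.trans hex.choose_spec.1, ?_, h3⟩
    intro η' h hη' ζ
    exact (h2 ζ).trans (hex.choose_spec.2 η' h hη' ζ)
  have hex : ∀ η, η ∈ Z₀ → ∃ e₀, Q η (fun η' _ => tail η') e₀ := by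
    intro η
    induction η using WellFoundedLT.induction with
    | ind η ih =>
      intro hη
      have hJ : #{η' : Ω // η' < η ∧ η' ∈ Z₀} ≤ μ η :=
        (Cardinal.mk_subtype_mono (fun x hx => hx.1)).trans (hΩμ η hη)
      rcases isEmpty_or_nonempty {η' : Ω // η' < η ∧ η' ∈ Z₀} with hJe | ⟨⟨j0⟩⟩
      · refine ⟨high η r₀, le_rfl, ?_⟩
        intro η' h hη'
        exact (hJe.false ⟨η', h, hη'⟩).elim
      · obtain ⟨e₀, he₀⟩ := hE η hη {η' : Ω // η' < η ∧ η' ∈ Z₀} hJ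
          (fun j => fun ζ => tail j.1 ⟨ζ.1, j.2.1.trans ζ.2⟩) (by
            intro a b hab
            rcases eq_or_lt_of_le hab with h | h
            · rw [h]
            · intro ζ
              exact (hgood b.1 b.2.2 (ih b.1 b.2.1 b.2.2)).2.1 a.1 h a.2.2
                ⟨ζ.1, b.2.1.trans ζ.2⟩)
        refine ⟨e₀, ?_, ?_⟩
        · intro ζ
          exact (he₀ j0 ζ).trans
            ((hgood j0.1 j0.2.2 (ih j0.1 j0.2.1 j0.2.2)).1 ⟨ζ.1, j0.2.1.trans ζ.2⟩)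
        · intro η' h hη' ζ
          exact he₀ ⟨η', h, hη'⟩ ζ
  exact ⟨tail, fun η hη => (hgood η hη (hex η hη)).1,
    fun η hη η' hη' h ζ => (hgood η hη (hex η hη)).2.1 η' h hη' ζ,
    fun η hη => (hgood η hη (hex η hη)).2.2⟩

end BT
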