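import Pool.Agent.Helper18.BT.D06
import Pool.Agent.Helper18.BT.RO

/-!
# BT-D07: fusion in a full support product, covering

PROOF.  Let `r₀ ∈ b` (`b ≠ ⊥`).  Apply `exists_tails` with `Dk k r := ∃ y, r ∈ φ k y` (open; dense below
`r₀`: `r ≤ r₀` is in `b ≤ ⨆ y, φ k y`, `RO.mem_iSup`).  Let `r' ζ` be a lower bound in `P ζ` of `r₀ ζ` and of
all `tail η ⟨ζ, _⟩` for `η ∈ Z₀`, `η < ζ`: the sequence on `{η // η ∈ Z₀ ∧ η < ζ}` is decreasing and below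
`r₀ ζ`, use `hP ζ` (if the index set is empty take `r₀ ζ`).  For `η ∈ Z₀`, `k ∈ Kη η`, `s ≤ low η r₀` choose
`s'` and `y_{η,k,s}` with `glue η s' (tail η) ∈ φ k y_{η,k,s}`.  Let `Z` be the set of all these `y`:
`#Z ≤ ∑_{η} #(Kη η) * #(∀ ζ : {ζ // ζ ≤ η}, P ζ) ≤ #Ω * ν * ν ≤ ν`.
`c :=` the regular open set generated by `r'` (`RO.cl (· ≤ r')`); `c ≤ b` as `r' ≤ r₀`; `c ≠ ⊥`.
`c ≤ ⨆ y : Z, φ k y`: let `k ∈ Kη η`, `r'' ≤ r'`.  Then `s := low η r'' ≤ low η r₀`; take `s' ≤ s` and `y` as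
chosen; `r''' := glue η s' (high η r'') ≤ glue η s' (tail η)` (`r'' ζ ≤ r' ζ ≤ tail η ζ` for `ζ > η`),
so `r''' ∈ φ k y`, and `r''' ≤ r''`.
-/

open Cardinal

namespace BT

theorem cov_fusion {Ω : Type} [LinearOrder Ω] [WellFoundedLT Ω] {P : Ω → Type}
    [∀ ζ, Preorder (P ζ)] (μ : Ω → Cardinal.{0}) (Z₀ : Set Ω) (hμ0 : ∀ η ∈ Z₀, ℵ₀ ≤ μ η)
    (hS : ∀ η ∈ Z₀, #(∀ ζ : {ζ // ζ ≤ η}, P ζ.1) ≤ μ η)
    (hE : ∀ η ∈ Z₀, SeqClosed (∀ ζ : {ζ // η < ζ}, P ζ.1) (μ η))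
    (hΩμ : ∀ η ∈ Z₀, #{η' : Ω // η' < η} ≤ μ η)
    (hP : ∀ ζ, SeqClosed (P ζ) #Ω) {ν : Cardinal.{0}} (hν : ℵ₀ ≤ ν) (hΩν : #Ω ≤ ν)
    (hμν : ∀ η ∈ Z₀, μ η ≤ ν)
    {K : Type} (Kη : Ω → Set K) (hKη : ∀ η ∈ Z₀, #(Kη η) ≤ μ η)
    (hK : ∀ k, ∃ η ∈ Z₀, k ∈ Kη η) {Y : Type} (φ : K → Y → RO (∀ ζ, P ζ))
    {b : RO (∀ ζ, P ζ)} (hb : b ≠ ⊥) (hφ : ∀ k, b ≤ ⨆ y, φ k y) :
    ∃ c ≤ b, c ≠ ⊥ ∧ ∃ Z : Set Y, #Z ≤ ν ∧ ∀ k, c ≤ ⨆ y : Z, φ k y.1 := by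
  classical
  obtain ⟨r₀, hr₀⟩ : ∃ p, b.1 p := by
    by_contra hcon
    push Not at hcon
    exact hb (RO.eq_bot_iff.2 hcon)
  obtain ⟨tail, ht1, ht2, ht3⟩ := exists_tails μ Z₀ hμ0 hS hE hΩμ Kη hKη
    (fun k r => ∃ y, (φ k y).1 r)
    (fun k r r' hr => by
      rintro ⟨y, hy⟩
      exact ⟨y, (φ k y).down hr hy⟩) r₀
    (fun k r hr => by
      have h1 : (⨆ y, φ k y).1 r := hφ k r (b.down hr hr₀)
      rw [RO.mem_iSup] at h1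
      obtain ⟨r', hr', y, hy⟩ := h1 r le_rfl
      exact ⟨r', hr', y, hy⟩)
  -- the limit condition
  have hlim : ∀ ζ, ∃ e : P ζ, e ≤ r₀ ζ ∧ ∀ η ∈ Z₀, ∀ h : η < ζ, e ≤ tail η ⟨ζ, h⟩ := by
    intro ζ
    rcases isEmpty_or_nonempty {η // η ∈ Z₀ ∧ η < ζ} with hE' | ⟨⟨η0⟩⟩
    · exact ⟨r₀ ζ, le_rfl, fun η hη h => (hE'.false ⟨η, hη, h⟩).elim⟩
    · obtain ⟨e, he⟩ := hP ζ {η // η ∈ Z₀ ∧ η < ζ} (Cardinal.mk_subtype_le _)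
        (fun η => tail η.1 ⟨ζ, η.2.2⟩) (by
          intro η' η hle
          rcases eq_or_lt_of_le hle with h | h
          · subst h; exact le_rfl
          · exact ht2 η.1 η.2.1 η'.1 η'.2.1 h ⟨ζ, η.2.2⟩)
      refine ⟨e, (he η0).trans (ht1 η0.1 η0.2.1 ⟨ζ, η0.2.2⟩), fun η hη h => he ⟨η, hη, h⟩⟩
  choose r' hr'1 hr'2 using hlim
  have hr'r₀ : r' ≤ r₀ := fun ζ => hr'1 ζ
  -- the possible values
  have hval : ∀ t : (Σ η : Z₀, (Kη η.1 × {s : ∀ ζ : {ζ // ζ ≤ η.1}, P ζ.1 // s ≤ low η.1 r₀})),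
      ∃ y, ∃ s' ≤ t.2.2.1, (φ t.2.1.1 y).1 (glue t.1.1 s' (tail t.1.1)) := by
    intro t
    obtain ⟨s', hs', y, hy⟩ := ht3 t.1.1 t.1.2 t.2.1.1 t.2.1.2 t.2.2.1 t.2.2.2
    exact ⟨y, s', hs', hy⟩
  choose yf sf hsf hyf using hval
  refine ⟨RO.cl (fun p => p ≤ r') (fun p q hq hp => hq.trans hp), ?_, ?_, Set.range yf, ?_, ?_⟩
  · intro p hp
    refine b.of_dense fun q hq => ?_
    obtain ⟨r, hr, hrr⟩ := hp q hq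
    exact ⟨r, hr, b.down (hrr.trans hr'r₀) hr₀⟩
  · intro hbot
    refine RO.not_mem_bot r' ?_
    rw [← hbot, RO.mem_cl]
    exact fun q hq => ⟨q, le_rfl, hq⟩
  · refine Cardinal.mk_range_le.trans ?_
    rw [Cardinal.mk_sigma]
    have h1 : ∀ η : Z₀,
        #(Kη η.1 × {s : ∀ ζ : {ζ // ζ ≤ η.1}, P ζ.1 // s ≤ low η.1 r₀}) ≤ ν := by
      intro η
      rw [Cardinal.mk_prod, Cardinal.lift_id, Cardinal.lift_id]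
      calc #(Kη η.1) * #{s : ∀ ζ : {ζ // ζ ≤ η.1}, P ζ.1 // s ≤ low η.1 r₀}
          ≤ μ η.1 * μ η.1 := mul_le_mul' (hKη η.1 η.2)
            ((Cardinal.mk_subtype_le _).trans (hS η.1 η.2))
        _ = μ η.1 := Cardinal.mul_eq_self (hμ0 η.1 η.2)
        _ ≤ ν := hμν η.1 η.2
    refine (Cardinal.sum_le_sum _ (fun _ => ν) h1).trans ?_
    rw [Cardinal.sum_const']
    calc #Z₀ * ν ≤ ν * ν := mul_le_mul' ((Cardinal.mk_set_le _).trans hΩν) le_rfl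
      _ = ν := Cardinal.mul_eq_self hν
  · intro k p hp
    rw [RO.mem_iSup]
    intro q hq
    obtain ⟨r, hr, hrr⟩ := hp q hq
    obtain ⟨η, hη, hk⟩ := hK k
    have hs : low η r ≤ low η r₀ := low_mono (hrr.trans hr'r₀)
    have h1 := hsf ⟨⟨η, hη⟩, ⟨k, hk⟩, ⟨low η r, hs⟩⟩
    have h2 := hyf ⟨⟨η, hη⟩, ⟨k, hk⟩, ⟨low η r, hs⟩⟩
    set s' := sf ⟨⟨η, hη⟩, ⟨k, hk⟩, ⟨low η r, hs⟩⟩ with hs'
    have h3 : glue η s' (high η r) ≤ glue η s' (tail η) :=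
      glue_mono le_rfl (fun ζ => (hrr ζ.1).trans (hr'2 ζ.1 η hη ζ.2))
    have h4 : glue η s' (high η r) ≤ r := by
      calc glue η s' (high η r) ≤ glue η (low η r) (high η r) := glue_mono h1 le_rfl
        _ = r := glue_low_high η r
    exact ⟨glue η s' (high η r), h4.trans hr,
      ⟨yf ⟨⟨η, hη⟩, ⟨k, hk⟩, ⟨low η r, hs⟩⟩, ⟨_, rfl⟩⟩, (φ k _).down h3 h2⟩

end BT
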