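import Pool.Agent.Helper18.BT.Defs
import Pool.Agent.Helper18.BT.C04
import Pool.Agent.Helper18.BT.Closed

/-!
# BT-D08: a distributive forcing preserves the tree property at a successor cardinal

PROOF.  Let `I := (succ μ).ord.ToType`, `N := μ.ord.ToType`; `#I ≤ succ μ`, `#N ≤ succ μ`.
(1) Below every `b ≠ ⊥` there are `c ≤ b`, `c ≠ ⊥` and `R` with: `R α x ≤ D α x ⊔ cᶜ`, `c ≤ ⨆ x, R α x`,
`c ⊓ R α x ⊓ R β y ≤ le α x β y` for `α ≤ β`.  Proof: apply `hdist` to the index set
`J := (I × N) ⊕ (I × N × I × N)` (`#J ≤ succ μ`) and `Y := Bool`, `n j true :=` the truth value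
(`D α x`, resp. `le α x β y`), `n j false :=` its complement: `c ≤ b`, `c ≠ ⊥`, which decides all of them:
`T := {p : I × N // c ≤ D p.1 p.2}`, and `p ≤ q` iff `c ≤ le p.1 p.2 q.1 q.2` (for all other pairs the
value is disjoint from `c`).  By the axioms of `IsTreeName` and `c ≠ ⊥` this is a partial order
(antisymmetry: `lev` gives the same level, then `uniq` with `refl`), every `q ∈ T` of level `β` has for
every `α ≤ β` exactly one predecessor of level `α` (`pred`: `c ≤ ⨆ x, le α x β y`, so some
`c ⊓ le α x β y ≠ ⊥`, hence decided; `uniq`), comparability of predecessors: if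
`(α, x), (β, y) ≤ (γ, z)`, `α ≤ β`, then the predecessor of `(β, y)` of level `α` is one of `(γ, z)`, so it
is `(α, x)`.  So `{s // s < q}` is isomorphic to `Set.Iio β` and is well-ordered, the height of `q` is
`typein β` (`Pool.Agent.Helper18.TP.height`, TP/Tree.lean).  `IsKTree (succ μ) T`: levels are nonempty (`ne`
and decided) and of size `≤ #N = μ`.  `hTP` gives a cofinal branch `b'`; `R α x := tv (∃ t ∈ b', t.1 = (α, x))`
(two comparable elements of a chain).
(2) Glue (as `thread_glue` in A14): maximal antichain / `exists_disjoint` over the set of all `c` with a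
witness `R_c` (`R_c α x ⊓ c ≤ D α x`): for disjoint `b_k` with join `⊤` and `b_k ≤ c_k`,
`R α x := ⨆ k, b_k ⊓ R_k α x`.
-/

open Cardinal

namespace BT

open Pool.Agent.Helper18.TP (TreeProperty IsTreeOrder height IsKTree IsCofinalBranch)

section tree

variable {B : Type} [CompleteBooleanAlgebra B] {I N : Type} [LinearOrder I]
  {D : I → N → B} {le : I → N → I → N → B}

/-- `c` decides all truth values. -/
private structure Dec (D : I → N → B) (le : I → N → I → N → B) (c : B) : Prop where
  ne : c ≠ ⊥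
  dD : ∀ α x, c ⊓ D α x ≠ ⊥ → c ≤ D α x
  dle : ∀ α x β y, c ⊓ le α x β y ≠ ⊥ → c ≤ le α x β y

/-- The tree decided by `c`. -/
private def TT (D : I → N → B) (_le : I → N → I → N → B) (c : B) (_hT : IsTreeName D _le)
    (_hc : Dec D _le c) : Type :=
  {p : I × N // c ≤ D p.1 p.2}

variable {c : B} (hT : IsTreeName D le) (hc : Dec D le c)

omit [LinearOrder I] in
include hc in
private lemma bot_of {a : B} (h1 : c ≤ a) (h2 : a = ⊥) : False :=
  hc.ne (le_bot_iff.1 (h1.trans h2.le))

private instance : PartialOrder (TT D le c hT hc) where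
  le p q := c ≤ le p.1.1 p.1.2 q.1.1 q.1.2
  le_refl p := p.2.trans (hT.refl _ _)
  le_trans p q r h1 h2 := (le_inf h1 h2).trans (hT.trans _ _ _ _ _ _)
  le_antisymm p q h1 h2 := by
    obtain ⟨⟨α, x⟩, hp⟩ := p
    obtain ⟨⟨β, y⟩, hq⟩ := q
    simp only at h1 h2 hp hq
    have h3 : α ≤ β := by
      by_contra h
      exact bot_of hc h1 (hT.lev _ _ _ _ h)
    have h4 : β ≤ α := by
      by_contra h
      exact bot_of hc h2 (hT.lev _ _ _ _ h)
    obtain rfl := le_antisymm h3 h4
    have h5 : x = y := by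
      by_contra h
      exact bot_of hc (le_inf h1 (hq.trans (hT.refl _ _))) (hT.uniq _ _ _ _ _ h)
    subst h5
    rfl

private lemma le_def (p q : TT D le c hT hc) : p ≤ q ↔ c ≤ le p.1.1 p.1.2 q.1.1 q.1.2 := Iff.rfl

/-- the level -/
private def lv (p : TT D le c hT hc) : I := p.1.1

private lemma lv_le {p q : TT D le c hT hc} (h : p ≤ q) : lv hT hc p ≤ lv hT hc q := by
  by_contra h1
  exact bot_of hc h (hT.lev _ _ _ _ h1)

private lemma exists_pr (q : TT D le c hT hc) (α : I) (h : α ≤ lv hT hc q) :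
    ∃ p : TT D le c hT hc, lv hT hc p = α ∧ p ≤ q := by
  have h1 : c ≤ ⨆ x, le α x q.1.1 q.1.2 := q.2.trans (hT.pred _ _ _ h)
  obtain ⟨x, hx⟩ := exists_inf_ne_bot hc.ne h1
  have h2 := hc.dle _ _ _ _ hx
  exact ⟨⟨(α, x), h2.trans ((hT.dom _ _ _ _).trans inf_le_left)⟩, rfl, h2⟩

private lemma eq_of_lv {p p' q : TT D le c hT hc} (h : p ≤ q) (h' : p' ≤ q)
    (he : lv hT hc p = lv hT hc p') : p = p' := by
  obtain ⟨⟨α, x⟩, hp⟩ := p
  obtain ⟨⟨β, y⟩, hq⟩ := p'
  simp only [lv] at he
  subst he
  have h5 : x = y := by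
    by_contra h1
    exact bot_of hc (le_inf h h') (hT.uniq _ _ _ _ _ h1)
  subst h5
  rfl

private lemma le_iff_lv {p p' q : TT D le c hT hc} (h : p ≤ q) (h' : p' ≤ q) :
    p ≤ p' ↔ lv hT hc p ≤ lv hT hc p' := by
  constructor
  · exact lv_le hT hc
  · intro h1
    obtain ⟨u, hu, hu'⟩ := exists_pr hT hc p' _ h1
    have := eq_of_lv hT hc (hu'.trans h') h hu
    rw [← this]
    exact hu'

private lemma lt_iff_lv {p p' q : TT D le c hT hc} (h : p ≤ q) (h' : p' ≤ q) :
    p < p' ↔ lv hT hc p < lv hT hc p' := by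
  rw [lt_iff_le_not_ge, lt_iff_le_not_ge, le_iff_lv hT hc h h', le_iff_lv hT hc h' h]

private noncomputable def iso (t : TT D le c hT hc) :
    ((· < ·) : {s : TT D le c hT hc // s < t} → {s : TT D le c hT hc // s < t} → Prop) ≃r
      (Subrel ((· < ·) : I → I → Prop) (· < lv hT hc t)) where
  toEquiv := Equiv.ofBijective
    (fun s => ⟨lv hT hc s.1, (lt_iff_lv hT hc s.2.le le_rfl).1 s.2⟩) (by
      constructor
      · intro a b hab
        apply Subtype.ext
        exact eq_of_lv hT hc a.2.le b.2.le (congrArg Subtype.val hab)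
      · rintro ⟨α, hα⟩
        have hα' : α < lv hT hc t := hα
        obtain ⟨p, hp, hp'⟩ := exists_pr hT hc t α hα'.le
        refine ⟨⟨p, (lt_iff_lv hT hc hp' le_rfl).2 (by rw [hp]; exact hα')⟩, ?_⟩
        apply Subtype.ext
        exact hp)
  map_rel_iff' := by
    intro a b
    exact (lt_iff_lv hT hc a.2.le b.2.le).symm

variable [WellFoundedLT I]

private lemma tree : IsTreeOrder (TT D le c hT hc) := by
  intro t
  exact (iso hT hc t).toRelEmbedding.isWellOrder

private lemma height_eq (t : TT D le c hT hc) :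
    height _ (tree hT hc) t = Ordinal.typein (α := I) (· < ·) (lv hT hc t) := by
  have i1 := tree hT hc t
  unfold height
  rw [← Ordinal.type_subrel]
  apply Ordinal.type_eq.mpr
  exact ⟨iso hT hc t⟩

end tree

section main

variable {B : Type} [CompleteBooleanAlgebra B]

private lemma branch_of_dec {μ : Cardinal.{0}} (hTP : TreeProperty (Order.succ μ))
    {D : (Order.succ μ).ord.ToType → μ.ord.ToType → B}
    {le : (Order.succ μ).ord.ToType → μ.ord.ToType → (Order.succ μ).ord.ToType →
      μ.ord.ToType → B} (hT : IsTreeName D le) {c : B} (hc : Dec D le c) :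
    ∃ r : (Order.succ μ).ord.ToType → μ.ord.ToType, ∀ α β, α ≤ β → c ≤ le α (r α) β (r β) := by
  have hinj : ∀ {a b : (Order.succ μ).ord.ToType},
      Ordinal.typein (α := (Order.succ μ).ord.ToType) (· < ·) a =
      Ordinal.typein (α := (Order.succ μ).ord.ToType) (· < ·) b → a = b :=
    fun h => Ordinal.typein_injective _ h
  have hK : IsKTree (Order.succ μ) (TT D le c hT hc) := by
    refine ⟨tree hT hc, ?_, ?_, ?_⟩
    · intro t
      rw [height_eq]
      exact Ordinal.typein_lt_self _
    · intro α hα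
      have h1 : α < Ordinal.type (α := (Order.succ μ).ord.ToType) (· < ·) := by
        rw [Ordinal.type_toType]
        exact hα
      obtain ⟨x, hx⟩ := exists_inf_ne_bot hc.ne
        (le_top.trans (hT.ne (Ordinal.enum (α := (Order.succ μ).ord.ToType) (· < ·) ⟨α, h1⟩)).ge)
      refine ⟨⟨(_, x), hc.dD _ _ hx⟩, ?_⟩
      rw [height_eq]
      exact Ordinal.typein_enum _ h1
    · intro α hα
      have h1 : #{t : TT D le c hT hc // height _ (tree hT hc) t = α} ≤ #(μ.ord.ToType) := by
        refine Cardinal.mk_le_of_injective (f := fun t => t.1.1.2) ?_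
        intro t t' htt
        have h2 : lv hT hc t.1 = lv hT hc t'.1 := by
          apply hinj
          rw [← height_eq, ← height_eq, t.2, t'.2]
        have h3 : t.1.1 = t'.1.1 := Prod.ext h2 htt
        exact Subtype.ext (Subtype.ext h3)
      refine lt_of_le_of_lt h1 ?_
      rw [Cardinal.mk_ord_toType]
      exact Order.lt_succ μ
  obtain ⟨b, hb1, hb2⟩ := hTP (TT D le c hT hc) hK
  have hex : ∀ α : (Order.succ μ).ord.ToType, ∃ t ∈ b, lv hT hc t = α := by
    intro α
    obtain ⟨t, ht, ht'⟩ := hb2 (Ordinal.typein (α := (Order.succ μ).ord.ToType) (· < ·) α)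
      (Ordinal.typein_lt_self _)
    refine ⟨t, ht, ?_⟩
    apply hinj
    rw [← height_eq]
    exact ht'
  choose t ht ht' using hex
  refine ⟨fun α => (t α).1.2, ?_⟩
  have hlv : ∀ α, (t α).1.1 = α := ht'
  have hle : ∀ α β, t α ≤ t β → c ≤ le α (t α).1.2 β (t β).1.2 := by
    intro α β h
    have h2 : c ≤ le (t α).1.1 (t α).1.2 (t β).1.1 (t β).1.2 := h
    rw [hlv, hlv] at h2
    exact h2
  intro α β hαβ
  rcases eq_or_lt_of_le hαβ with rfl | hlt
  · exact hle _ _ le_rfl
  · apply hle
    have hne : t α ≠ t β := by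
      intro h
      have := congrArg (lv hT hc) h
      rw [ht', ht'] at this
      exact hlt.ne this
    rcases hb1 (ht α) (ht β) hne with h | h
    · exact h
    · exfalso
      have h3 := lv_le hT hc h
      rw [ht', ht'] at h3
      exact absurd hlt (not_lt.mpr h3)

private abbrev Ix (μ : Cardinal.{0}) : Type := (Order.succ μ).ord.ToType

private abbrev Nx (μ : Cardinal.{0}) : Type := μ.ord.ToType

theorem bTreeProperty_of_bdist {B : Type} [CompleteBooleanAlgebra B] {μ : Cardinal.{0}}
    (hμ : ℵ₀ ≤ μ) (hdist : BDist B (Order.succ μ)) (hTP : TreeProperty (Order.succ μ)) :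
    BTreeProperty B μ := by
  intro D le hT
  -- local branches
  have hloc : ∀ b : B, b ≠ ⊥ → ∃ c ≤ b, c ≠ ⊥ ∧ ∃ r : Ix μ → Nx μ, ∀ α β, α ≤ β →
      c ≤ le α (r α) β (r β) := by
    intro b hb
    have hmu' : ℵ₀ ≤ Order.succ μ := hμ.trans (Order.le_succ μ)
    have hIN : #(Ix μ × Nx μ) ≤ Order.succ μ := by
      rw [Cardinal.mk_prod, Cardinal.lift_id, Cardinal.lift_id, Cardinal.mk_ord_toType,
        Cardinal.mk_ord_toType]
      calc Order.succ μ * μ ≤ Order.succ μ * Order.succ μ :=
            mul_le_mul' le_rfl (Order.le_succ μ)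
        _ = Order.succ μ := Cardinal.mul_eq_self hmu'
    have hJ : #((Ix μ × Nx μ) ⊕ ((Ix μ × Nx μ) × (Ix μ × Nx μ))) ≤ Order.succ μ := by
      rw [Cardinal.mk_sum, Cardinal.lift_id, Cardinal.lift_id, Cardinal.mk_prod (Ix μ × Nx μ) (Ix μ × Nx μ),
        Cardinal.lift_id]
      calc #(Ix μ × Nx μ) + #(Ix μ × Nx μ) * #(Ix μ × Nx μ) ≤
            Order.succ μ + Order.succ μ * Order.succ μ := by
            exact add_le_add hIN (mul_le_mul' hIN hIN)
        _ = Order.succ μ := by
            rw [Cardinal.mul_eq_self hmu', Cardinal.add_eq_self hmu']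
    obtain ⟨c, hcb, hc, f, hf⟩ := hdist ((Ix μ × Nx μ) ⊕ ((Ix μ × Nx μ) × (Ix μ × Nx μ))) hJ Bool
      (fun j v => match j, v with
        | Sum.inl p, true => D p.1 p.2
        | Sum.inl p, false => (D p.1 p.2)ᶜ
        | Sum.inr p, true => le p.1.1 p.1.2 p.2.1 p.2.2
        | Sum.inr p, false => (le p.1.1 p.1.2 p.2.1 p.2.2)ᶜ) b hb (by
          intro j
          refine le_top.trans ?_
          rcases j with p | p
          · rw [iSup_bool_eq]
            simp
          · rw [iSup_bool_eq]
            simp)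
    refine ⟨c, hcb, hc, ?_⟩
    apply branch_of_dec hTP hT
    refine ⟨hc, ?_, ?_⟩
    · intro α x h
      have h1 := hf (Sum.inl (α, x))
      cases hfj : f (Sum.inl (α, x)) with
      | true =>
        rw [hfj] at h1
        exact h1
      | false =>
        rw [hfj] at h1
        exfalso
        apply h
        exact inf_eq_bot_of_le_compl h1
    · intro α x β y h
      have h1 := hf (Sum.inr ((α, x), (β, y)))
      cases hfj : f (Sum.inr ((α, x), (β, y))) with
      | true =>
        rw [hfj] at h1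
        exact h1
      | false =>
        rw [hfj] at h1
        exfalso
        apply h
        exact inf_eq_bot_of_le_compl h1
  -- gluing
  let S : Type := {c : B // ∃ r : Ix μ → Nx μ, ∀ α β, α ≤ β → c ≤ le α (r α) β (r β)}
  choose r hr using fun i : S => i.2
  obtain ⟨ψ, h1, h2, h3⟩ := exists_disjoint (fun i : S => i.1)
  have hsup : (⨆ i, ψ i) = ⊤ := by
    rw [h3]
    apply top_le_iff.1
    apply le_of_inf_compl_eq_bot
    by_contra hne
    obtain ⟨d, hd, hdn, hd'⟩ := hloc _ hne
    have h4 : d ≤ ⨆ i : S, i.1 := le_iSup (fun i : S => i.1) ⟨d, hd'⟩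
    exact hdn (le_bot_iff.1 ((le_inf h4 (hd.trans inf_le_right)).trans (inf_compl_self _).le))
  refine ⟨fun α x => ⨆ i, ψ i ⊓ tv (r i α = x), ?_, ?_, ?_⟩
  · intro α x
    refine iSup_le fun i => ?_
    by_cases h : r i α = x
    · subst h
      exact inf_le_left.trans ((h1 i).trans ((hr i α α le_rfl).trans
        ((hT.dom _ _ _ _).trans inf_le_left)))
    · rw [tv_false h, inf_bot_eq]
      exact bot_le
  · intro α
    rw [← hsup]
    refine le_antisymm ?_ ?_
    · rw [hsup]; exact le_top
    · refine iSup_le fun i => ?_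
      refine le_iSup_of_le (r i α) (le_iSup_of_le i ?_)
      rw [tv_true rfl, inf_top_eq]
  · intro α β hαβ x y
    rw [iSup_inf_iSup]
    refine iSup_le fun ij => ?_
    obtain ⟨i, j⟩ := ij
    by_cases hij : i = j
    · subst hij
      by_cases hx : r i α = x
      · by_cases hy : r i β = y
        · subst hx
          subst hy
          exact (inf_le_left.trans inf_le_left).trans ((h1 i).trans (hr i α β hαβ))
        · simp only [tv_false hy, inf_bot_eq]
          exact bot_le
      · simp only [tv_false hx, inf_bot_eq, bot_inf_eq]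
        exact bot_le
    · calc (ψ i ⊓ tv (r i α = x)) ⊓ (ψ j ⊓ tv (r j β = y)) ≤ ψ i ⊓ ψ j :=
            inf_le_inf inf_le_left inf_le_left
        _ = ⊥ := h2 i j hij
        _ ≤ _ := bot_le

end main

end BT
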