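import Pool.Agent.Helper18.BT.Defs

/-!
# BT-D09: from names of trees to names of inverse systems

`T` is a name for a tree with levels `{α} × D α`, `D α ⊆ N`.  We make all levels equal to `N` by adding
twins: the system is `π'_{αβ}(y) = π_{αβ}(ρ_β(y))` for `α < β`, where `ρ_β : N → D β` is a retraction.

PROOF.  For every `α` choose (`exists_disjoint` applied to `D α`) a name `m α : N → B` of an element of
`D α`: `m α x ≤ D α x`, `m α x ⊓ m α x' = ⊥` for `x ≠ x'`, `⨆ x, m α x = ⊤`.
`ρ α x y := (D α y ⊓ tv (x = y)) ⊔ ((D α y)ᶜ ⊓ m α x)` is the truth value of `ρ_α(y) = x`: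
functional in `x`, total, `ρ α x y ≤ D α x`, `D α y ⊓ ρ α x y ≤ tv (x = y)`.
`P α β x y := tv (x = y)` if `α = β`, `⨆ z, ρ β z y ⊓ le α x β z` if `α < β`, `⊥` otherwise (classical `if`).
`total`: for `α < β`: `⊤ = ⨆ z, ρ β z y`, `ρ β z y ≤ D β z ≤ ⨆ x, le α x β z`.
`func`: `uniq`.  `refl` clear.
`trans`: for `α < β < γ`: `P α β x y ⊓ P β γ y z = ⨆ w v, ρ β w y ⊓ le α x β w ⊓ ρ γ v z ⊓ le β y γ v`; as
`le β y γ v ≤ D β y`, `ρ β w y` forces `w = y`, so this is `≤ le α x β y ⊓ le β y γ v ⊓ ρ γ v z ≤ P α γ x z`.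
The cases with equalities are easy.
Back: let `R` be a thread, `IsThread T' ⊤ R`.  `I` has no largest element.  Put
`R' α x := R α x ⊓ D α x`.  `⨆ x, R' α x = ⊤`: take `β > α`; `⊤ ≤ ⨆ x, R α x`, `⊤ ≤ ⨆ y, R β y`,
`R α x ⊓ R β y ≤ P α β x y ≤ ⨆ z, le α x β z ≤ D α x`.  chain: for `α < β`:
`R' α x ⊓ R' β y ≤ P α β x y ⊓ D β y ≤ le α x β y` (`ρ β z y ⊓ D β y` forces `z = y`); for `α = β`:
`R α x ⊓ R α y ≤ P α α x y = tv (x = y)`, and `refl`.
-/

open Cardinal

namespace BT

section retract

variable {B : Type} [CompleteBooleanAlgebra B] {N : Type}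

/-- the truth value of `ρ y = x`, where `ρ` is the retraction onto `D` given by the name `m` of an
element of `D` -/
private def retr (D m : N → B) (x y : N) : B := (D y ⊓ tv (x = y)) ⊔ ((D y)ᶜ ⊓ m x)

private lemma retr_func {D m : N → B} (hm : ∀ x x', x ≠ x' → m x ⊓ m x' = ⊥) {x x' : N}
    (y : N) (hx : x ≠ x') : retr D m x y ⊓ retr D m x' y = ⊥ := by
  rw [← le_bot_iff]
  unfold retr
  rw [inf_sup_left, inf_sup_right, inf_sup_right]
  refine sup_le (sup_le ?_ ?_) (sup_le ?_ ?_)
  · by_cases h : x = y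
    · have h' : ¬ x' = y := fun h1 => hx (h.trans h1.symm)
      rw [tv_false h', inf_bot_eq, inf_bot_eq]
    · rw [tv_false h, inf_bot_eq, bot_inf_eq]
  · calc (D y)ᶜ ⊓ m x ⊓ (D y ⊓ tv (x' = y)) ≤ D y ⊓ (D y)ᶜ :=
          le_inf (inf_le_right.trans inf_le_left) (inf_le_left.trans inf_le_left)
      _ = ⊥ := inf_compl_self _
  · calc D y ⊓ tv (x = y) ⊓ ((D y)ᶜ ⊓ m x') ≤ D y ⊓ (D y)ᶜ :=
          le_inf (inf_le_left.trans inf_le_left) (inf_le_right.trans inf_le_left)
      _ = ⊥ := inf_compl_self _
  · calc (D y)ᶜ ⊓ m x ⊓ ((D y)ᶜ ⊓ m x') ≤ m x ⊓ m x' :=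
          le_inf (inf_le_left.trans inf_le_right) (inf_le_right.trans inf_le_right)
      _ = ⊥ := hm x x' hx

private lemma retr_total {D m : N → B} (hm : ⨆ x, m x = ⊤) (y : N) :
    ⨆ x, retr D m x y = ⊤ := by
  rw [eq_top_iff, ← sup_compl_eq_top (x := D y)]
  refine sup_le ?_ ?_
  · refine le_trans ?_ (le_iSup (fun x => retr D m x y) y)
    unfold retr
    rw [tv_true rfl, inf_top_eq]
    exact le_sup_left
  · calc (D y)ᶜ = (D y)ᶜ ⊓ ⨆ x, m x := by rw [hm, inf_top_eq]
      _ = ⨆ x, (D y)ᶜ ⊓ m x := inf_iSup_eq _ _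
      _ ≤ ⨆ x, retr D m x y := iSup_mono (fun x => le_sup_right)

private lemma retr_le {D m : N → B} (hm : ∀ x, m x ≤ D x) (x y : N) : retr D m x y ≤ D x := by
  unfold retr
  refine sup_le ?_ (inf_le_right.trans (hm x))
  by_cases h : x = y
  · rw [h]; exact inf_le_left
  · rw [tv_false h, inf_bot_eq]; exact bot_le

private lemma retr_inf (D m : N → B) (x y : N) : D y ⊓ retr D m x y ≤ tv (x = y) := by
  unfold retr
  rw [inf_sup_left]
  refine sup_le (inf_le_right.trans inf_le_right) ?_
  calc D y ⊓ ((D y)ᶜ ⊓ m x) ≤ D y ⊓ (D y)ᶜ := le_inf inf_le_left (inf_le_right.trans inf_le_left)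
    _ = ⊥ := inf_compl_self _
    _ ≤ _ := bot_le

end retract

theorem exists_branch_of_thread {B : Type} [CompleteBooleanAlgebra B] {I N : Type} [LinearOrder I]
    (hI : ∀ α : I, ∃ β, α < β)
    (h : ∀ T : BSys B I N, ∃ R, IsThread T ⊤ R)
    (D : I → N → B) (le : I → N → I → N → B) (hT : IsTreeName D le) :
    ∃ R, IsBranchName D le R := by
  classical
  have hm := fun α => exists_disjoint (D α)
  choose m hm1 hm2 hm3 using hm
  have hm3' : ∀ α, ⨆ x, m α x = ⊤ := fun α => (hm3 α).trans (hT.ne α)
  let ρ : I → N → N → B := fun α x y => retr (D α) (m α) x y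
  let P : I → I → N → N → B := fun α β x y =>
    if α = β then tv (x = y) else if α < β then ⨆ z, ρ β z y ⊓ le α x β z else ⊥
  have hPeq : ∀ α x y, P α α x y = tv (x = y) := by
    intro α x y
    simp only [P, if_true]
  have hPlt : ∀ α β x y, α < β → P α β x y = ⨆ z, ρ β z y ⊓ le α x β z := by
    intro α β x y h
    simp only [P]
    rw [if_neg h.ne, if_pos h]
  have hρD : ∀ β z y, ρ β z y ≤ D β z := fun β z y => retr_le (hm1 β) z y
  have hρtv : ∀ β z y, D β y ⊓ ρ β z y ≤ tv (z = y) := fun β z y => retr_inf (D β) (m β) z y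
  let T : BSys B I N :=
    { P := P
      total := by
        intro α β hαβ y
        rcases hαβ.eq_or_lt with rfl | hlt
        · rw [eq_top_iff]
          refine le_trans ?_ (le_iSup (fun x => P α α x y) y)
          rw [hPeq, tv_true rfl]
        · rw [eq_top_iff, ← retr_total (hm3' β) y]
          refine iSup_le (fun z => ?_)
          have h1 : ρ β z y ≤ ⨆ x, le α x β z := (hρD β z y).trans (hT.pred α β z hlt.le)
          calc retr (D β) (m β) z y = ρ β z y ⊓ ⨆ x, le α x β z := (inf_eq_left.mpr h1).symm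
            _ = ⨆ x, ρ β z y ⊓ le α x β z := inf_iSup_eq _ _
            _ ≤ ⨆ x, P α β x y := iSup_mono (fun x => by
                rw [hPlt α β x y hlt]
                exact le_iSup (fun z => ρ β z y ⊓ le α x β z) z)
      func := by
        intro α β hαβ x x' y hx
        rcases hαβ.eq_or_lt with rfl | hlt
        · rw [hPeq, hPeq]
          by_cases h : x = y
          · have h' : ¬ x' = y := fun h1 => hx (h.trans h1.symm)
            rw [tv_false h', inf_bot_eq]
          · rw [tv_false h, bot_inf_eq]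
        · rw [hPlt α β x y hlt, hPlt α β x' y hlt, ← le_bot_iff, iSup_inf_eq]
          refine iSup_le (fun z => ?_)
          rw [inf_iSup_eq]
          refine iSup_le (fun z' => ?_)
          by_cases hz : z = z'
          · subst hz
            calc ρ β z y ⊓ le α x β z ⊓ (ρ β z y ⊓ le α x' β z) ≤ le α x β z ⊓ le α x' β z :=
                  le_inf (inf_le_left.trans inf_le_right) (inf_le_right.trans inf_le_right)
              _ = ⊥ := hT.uniq α x x' β z hx
          · calc ρ β z y ⊓ le α x β z ⊓ (ρ β z' y ⊓ le α x' β z') ≤ ρ β z y ⊓ ρ β z' y :=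
                  le_inf (inf_le_left.trans inf_le_left) (inf_le_right.trans inf_le_left)
              _ = ⊥ := retr_func (hm2 β) y hz
      trans := by
        intro α β γ hαβ hβγ x y z
        rcases hαβ.eq_or_lt with rfl | hlt
        · rw [hPeq]
          by_cases h : x = y
          · rw [h]; exact inf_le_right
          · rw [tv_false h, bot_inf_eq]; exact bot_le
        · rcases hβγ.eq_or_lt with rfl | hlt'
          · rw [hPeq]
            by_cases h : y = z
            · rw [h]; exact inf_le_left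
            · rw [tv_false h, inf_bot_eq]; exact bot_le
          · rw [hPlt α β x y hlt, hPlt β γ y z hlt', hPlt α γ x z (hlt.trans hlt'), iSup_inf_eq]
            refine iSup_le (fun w => ?_)
            rw [inf_iSup_eq]
            refine iSup_le (fun v => ?_)
            refine le_trans ?_ (le_iSup (fun v => ρ γ v z ⊓ le α x γ v) v)
            by_cases hw : w = y
            · subst hw
              refine le_inf (inf_le_right.trans inf_le_left) ?_
              exact le_trans (le_inf (inf_le_left.trans inf_le_right)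
                (inf_le_right.trans inf_le_right)) (hT.trans α x β w γ v)
            · have h1 : ρ β w y ⊓ le α x β w ⊓ (ρ γ v z ⊓ le β y γ v) ≤ D β y ⊓ ρ β w y :=
                le_inf ((inf_le_right.trans inf_le_right).trans ((hT.dom β y γ v).trans inf_le_left))
                  (inf_le_left.trans inf_le_left)
              refine (h1.trans (hρtv β w y)).trans ?_
              rw [tv_false hw]
              exact bot_le
      refl := by
        intro α x
        rw [hPeq, tv_true rfl] }
  obtain ⟨R, hR⟩ := h T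
  have hRcoh : ∀ α β, α ≤ β → ∀ x y, R α x ⊓ R β y ≤ P α β x y := by
    intro α β hαβ x y
    have h1 := hR.coh α β hαβ x y
    rwa [top_inf_eq] at h1
  refine ⟨fun α x => R α x ⊓ D α x, fun α x => inf_le_right, ?_, ?_⟩
  · intro α
    obtain ⟨β, hβ⟩ := hI α
    rw [eq_top_iff]
    calc (⊤ : B) ≤ (⨆ x, R α x) ⊓ ⨆ y, R β y := le_inf (hR.total α) (hR.total β)
      _ = ⨆ x, ⨆ y, R α x ⊓ R β y := by
        rw [iSup_inf_eq]
        exact iSup_congr (fun x => inf_iSup_eq _ _)
      _ ≤ ⨆ x, R α x ⊓ D α x := by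
        refine iSup_mono (fun x => iSup_le (fun y => le_inf inf_le_left ?_))
        refine (hRcoh α β hβ.le x y).trans ?_
        rw [hPlt α β x y hβ]
        exact iSup_le (fun z => inf_le_right.trans ((hT.dom α x β z).trans inf_le_left))
  · intro α β hαβ x y
    rcases hαβ.eq_or_lt with rfl | hlt
    · have h1 : R α x ⊓ D α x ⊓ (R α y ⊓ D α y) ≤ tv (x = y) := by
        rw [← hPeq α x y]
        exact (le_inf (inf_le_left.trans inf_le_left) (inf_le_right.trans inf_le_left)).trans
          (hRcoh α α le_rfl x y)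
      by_cases hxy : x = y
      · subst hxy
        exact (inf_le_left.trans inf_le_right).trans (hT.refl α x)
      · rw [tv_false hxy] at h1
        exact h1.trans bot_le
    · have h1 : R α x ⊓ D α x ⊓ (R β y ⊓ D β y) ≤ (⨆ z, ρ β z y ⊓ le α x β z) ⊓ D β y := by
        rw [← hPlt α β x y hlt]
        exact le_inf ((le_inf (inf_le_left.trans inf_le_left)
          (inf_le_right.trans inf_le_left)).trans (hRcoh α β hlt.le x y))
          (inf_le_right.trans inf_le_right)
      refine h1.trans ?_
      rw [iSup_inf_eq]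
      refine iSup_le (fun z => ?_)
      by_cases hz : z = y
      · subst hz
        exact inf_le_left.trans inf_le_right
      · have h2 : ρ β z y ⊓ le α x β z ⊓ D β y ≤ D β y ⊓ ρ β z y :=
          le_inf inf_le_right (inf_le_left.trans inf_le_left)
        refine (h2.trans (hρtv β z y)).trans ?_
        rw [tv_false hz]
        exact bot_le

end BT
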