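import Pool.Agent.Helper18.BT.Levy
import Pool.Agent.Helper18.BT.D02
import Pool.Agent.Helper18.BT.D05

/-!
# BT-D10: cardinal facts about the product of Levy collapses

PROOFS.  `Om` is the set of countable ordinals: `#Om = ℵ_1`, and `#{η : Om // η < ζ} ≤ ℵ₀`
(`Cardinal.mk_Iio_toType_ord_lt` or similar).  The `κ ζ` are uncountable, regular, strong limits
(`IndSupercompact`), `ℵ_3 < κ ζ` (strong limit above `ℵ_2`).
* `chi_reg`: `ℵ_3` is regular; a successor of an infinite cardinal is regular; if `{η // η < ζ}` is empty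
  the supremum is `0` and the maximum is `ℵ_3`.  (The maximum of two cardinals is one of them; if it is
  the successor, then it is `≥ ℵ_3`, so the supremum is infinite.)
* `sup_lt`: `⨆ η : {η // η < ζ}, κ η < κ ζ` by regularity (`Cardinal.iSup_lt_of_isRegular` or
  `iSup_lt_of_lt_cof_ord`).  `chi_lt`: and `κ ζ` is a limit cardinal.
* `lt_chi`: `κ η ≤ sup < succ sup`.
* `nu`: `nu κ := ⨆ ζ, κ ζ`.  `κ ζ < nu κ` (`κ` is strictly increasing, `Om` has no last element);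
  `nu_lim`: every `x < nu κ` is `< κ ζ` for some `ζ` (`exists_lt_of_lt_ciSup`), which is a strong limit.
  `nu_cof`: `(nu κ).ord.cof ≤ #Om = ℵ_1` (the `(κ ζ).ord` are cofinal), and `cof` is not countable: a
  countable set of cardinals `< nu κ` is bounded by the `κ ζ_n`, `n ∈ ℕ`, and countably many `ζ_n` are
  bounded in `Om` by some `ζ`, so everything is `≤ κ ζ < nu κ`.
* `mk_low`: `mk_pi_le` (D05) with `Z = {ζ // ζ ≤ η}` (countable), `#(Col κ ζ) ≤ κ ζ ≤ κ η` by `mk_Pf_le`.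
* `mk_lt`: `mk_pi_lt` with `Z = {ζ // ζ < ξ}`, `#(Col κ ζ) ≤ κ ζ < κ ξ`.
* closure: D02 and `lt_chi`.
-/

open Cardinal

namespace BT

/-- the supremum of the `κ ζ` -/
noncomputable def nu (κ : Om → Cardinal.{0}) : Cardinal.{0} := ⨆ ζ, κ ζ

theorem mk_Om : #Om = ℵ_ 1 := Cardinal.mk_ord_toType _

private theorem reg_one : (ℵ_ 1 : Cardinal.{0}).IsRegular := Cardinal.isRegular_aleph_one

private theorem noMax_Om : NoMaxOrder Om := Cardinal.noMaxOrder reg_one.aleph0_le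

theorem mk_Iio_Om (ζ : Om) : #{η : Om // η < ζ} ≤ ℵ₀ := by
  have h : #(Set.Iio ζ) < ℵ_ 1 := Cardinal.mk_Iio_toType_ord_lt ζ
  have h' : #(Set.Iio ζ) < Order.succ ℵ₀ := by
    rw [Cardinal.succ_aleph0]
    exact h
  exact Order.lt_succ_iff.1 h'

theorem exists_gt_Om (ζ : Om) : ∃ ξ : Om, ζ < ξ := by
  have := noMax_Om
  exact exists_gt ζ

theorem mk_Iic_Om (ζ : Om) : #{η : Om // η ≤ ζ} ≤ ℵ₀ := by
  obtain ⟨ξ, hξ⟩ := exists_gt_Om ζ
  refine le_trans ?_ (mk_Iio_Om ξ)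
  refine Cardinal.mk_le_of_injective (f := fun η : {η : Om // η ≤ ζ} =>
    (⟨η.1, lt_of_le_of_lt η.2 hξ⟩ : {η : Om // η < ξ})) ?_
  intro a b h
  have h1 := congrArg Subtype.val h
  exact Subtype.ext h1

/-- countable sets of countable ordinals are bounded -/
theorem exists_ub_Om (f : ℕ → Om) : ∃ ξ : Om, ∀ n, f n < ξ := by
  have h1 : (⋃ n, Set.Iic (f n)).Countable := by
    refine Set.countable_iUnion (fun n => ?_)
    rw [← Cardinal.le_aleph0_iff_set_countable]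
    exact mk_Iic_Om (f n)
  have h2 : ∃ ξ, ξ ∉ (⋃ n, Set.Iic (f n)) := by
    by_contra hcon
    push Not at hcon
    have h3 : (⋃ n, Set.Iic (f n)) = (Set.univ : Set Om) := Set.eq_univ_of_forall hcon
    rw [h3, ← Cardinal.le_aleph0_iff_set_countable, Cardinal.mk_univ, mk_Om] at h1
    exact absurd h1 (not_le.2 (by
      rw [← Cardinal.succ_aleph0]; exact Order.lt_succ ℵ₀))
  obtain ⟨ξ, hξ⟩ := h2
  refine ⟨ξ, fun n => ?_⟩
  by_contra hn
  exact hξ (Set.mem_iUnion.2 ⟨n, not_lt.1 hn⟩)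

section

variable {κ : Om → Cardinal.{0}} (hκ : LevyHyp κ)

include hκ

theorem LevyHyp.aleph3_lt (ζ : Om) : ℵ_ 3 < κ ζ := by
  have h1 : (ℵ_ 3 : Cardinal.{0}) = Order.succ (ℵ_ 2) := by
    rw [Cardinal.succ_aleph]
    norm_num
  rw [h1]
  exact (hκ.ind ζ).lim.isSuccLimit.succ_lt (hκ.big ζ)

theorem LevyHyp.sup_lt (ζ : Om) : (⨆ η : {η // η < ζ}, κ η.1) < κ ζ := by
  refine Cardinal.iSup_lt_of_isRegular (hκ.ind ζ).reg ?_ (fun η => hκ.mono η.2)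
  exact (mk_Iio_Om ζ).trans_lt (hκ.ind ζ).unc

theorem LevyHyp.chi_reg (ζ : Om) : (chi κ ζ).IsRegular := by
  have h3 : (ℵ_ 3 : Cardinal.{0}).IsRegular := by
    have h1 := Cardinal.isRegular_aleph_add_one.{0} 2
    have h2 : (2 : Ordinal.{0}) + 1 = 3 := by norm_num
    rwa [h2] at h1
  unfold chi
  rcases le_total (Order.succ (⨆ η : {η // η < ζ}, κ η.1)) (ℵ_ 3) with h | h
  · rw [max_eq_left h]; exact h3
  · rw [max_eq_right h]
    apply Cardinal.isRegular_succ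
    by_contra hlt
    rw [not_le] at hlt
    have h4 : Order.succ (⨆ η : {η // η < ζ}, κ η.1) ≤ ℵ₀ := Order.succ_le_of_lt hlt
    have h5 : (ℵ_ 3 : Cardinal.{0}) ≤ ℵ₀ := h.trans h4
    have h6 : (ℵ₀ : Cardinal.{0}) < ℵ_ 3 := by
      rw [← Cardinal.aleph_zero, Cardinal.aleph_lt_aleph]
      norm_num
    exact absurd h5 (not_le.2 h6)

theorem LevyHyp.chi_lt (ζ : Om) : chi κ ζ < κ ζ :=
  max_lt (hκ.aleph3_lt ζ) ((hκ.ind ζ).lim.isSuccLimit.succ_lt (hκ.sup_lt ζ))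

theorem LevyHyp.lt_chi {η ζ : Om} (h : η < ζ) : κ η < chi κ ζ := by
  refine lt_of_lt_of_le ?_ (le_max_right _ _)
  rw [Order.lt_succ_iff]
  exact le_ciSup (f := fun η : {η // η < ζ} => κ η.1) Cardinal.bddAbove_of_small ⟨η, h⟩

theorem LevyHyp.aleph3_le_chi (ζ : Om) : ℵ_ 3 ≤ chi κ ζ := le_max_left _ _

theorem LevyHyp.lt_nu (ζ : Om) : κ ζ < nu κ := by
  obtain ⟨ξ, hξ⟩ := exists_gt_Om ζ
  exact (hκ.mono hξ).trans_le (le_ciSup (f := κ) Cardinal.bddAbove_of_small ξ)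

theorem LevyHyp.exists_lt {x : Cardinal.{0}} (h : x < nu κ) : ∃ ζ, x < κ ζ := by
  have : Nonempty Om := by
    rw [← Cardinal.mk_ne_zero_iff, mk_Om]
    exact reg_one.ne_zero
  exact exists_lt_of_lt_ciSup h

theorem LevyHyp.nu_lim : (nu κ).IsStrongLimit := by
  have : Nonempty Om := by
    rw [← Cardinal.mk_ne_zero_iff, mk_Om]
    exact reg_one.ne_zero
  refine ⟨?_, ?_⟩
  · have h := hκ.lt_nu (Classical.arbitrary Om)
    exact ((hκ.ind _).reg.pos.trans h).ne'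
  · intro x hx
    obtain ⟨ζ, hζ⟩ := hκ.exists_lt hx
    exact ((hκ.ind ζ).lim.isStrongPrelimit hζ).trans (hκ.lt_nu ζ)

theorem LevyHyp.nu_cof : (nu κ).ord.cof = ℵ_ 1 := by
  have hlt : ∀ ζ : Om, (κ ζ).ord < (nu κ).ord := fun ζ => Cardinal.ord_lt_ord.2 (hκ.lt_nu ζ)
  let f : Om → (nu κ).ord.ToType := fun ζ => Ordinal.ToType.mk ⟨(κ ζ).ord, hlt ζ⟩
  have hf : StrictMono f := by
    intro a b hab
    apply Ordinal.ToType.mk.strictMono
    exact Cardinal.ord_lt_ord.2 (hκ.mono hab)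
  have hf' : IsCofinal (Set.range f) := by
    intro x
    obtain ⟨⟨o, ho⟩, rfl⟩ := (Ordinal.ToType.mk (o := (nu κ).ord)).surjective x
    have h1 : o.card < nu κ := Cardinal.lt_ord.1 ho
    obtain ⟨ζ, hζ⟩ := hκ.exists_lt h1
    refine ⟨f ζ, ⟨ζ, rfl⟩, ?_⟩
    apply Ordinal.ToType.mk.monotone
    exact (Cardinal.lt_ord.2 hζ).le
  have h2 := Order.cof_congr_of_strictMono hf hf'
  rw [Ordinal.cof_toType, Ordinal.cof_toType] at h2
  rw [← h2]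
  exact reg_one.cof_ord

private theorem LevyHyp.mk_col_le (ζ : Om) : #(Col κ ζ) ≤ κ ζ := by
  have h0 := (hκ.ind ζ).reg.aleph0_le
  refine mk_Pf_le (hκ.ind ζ).reg (hκ.ind ζ).lim _ ?_ ?_ (hκ.chi_lt ζ).le
  · rw [Cardinal.mk_prod]
    simp only [Cardinal.lift_id, Cardinal.mk_ord_toType]
    exact (mul_le_mul' le_rfl (hκ.chi_lt ζ).le).trans (Cardinal.mul_eq_self h0).le
  · rw [Cardinal.mk_ord_toType]

theorem LevyHyp.mk_low (η : Om) : #(∀ ζ : {ζ // ζ ≤ η}, Col κ ζ.1) ≤ κ η := by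
  refine mk_pi_le (hκ.ind η).reg (hκ.ind η).lim ((mk_Iic_Om η).trans_lt (hκ.ind η).unc) ?_
  intro ζ
  exact (hκ.mk_col_le ζ.1).trans (hκ.mono.monotone ζ.2)

theorem LevyHyp.mk_lt (ξ : Om) : #(∀ ζ : {ζ // ζ < ξ}, Col κ ζ.1) < κ ξ := by
  refine mk_pi_lt (hκ.ind ξ).reg (hκ.ind ξ).lim ((mk_Iio_Om ξ).trans_lt (hκ.ind ξ).unc) ?_
  intro ζ
  exact (hκ.mk_col_le ζ.1).trans_lt (hκ.mono ζ.2)

theorem LevyHyp.closed_col {ζ : Om} {μ : Cardinal.{0}} (hμ : μ < chi κ ζ) :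
    SeqClosed (Col κ ζ) μ :=
  Pf.seqClosed _ (hκ.chi_reg ζ) hμ

theorem LevyHyp.closed_high (η : Om) : SeqClosed (∀ ζ : {ζ // η < ζ}, Col κ ζ.1) (κ η) :=
  SeqClosed.pi (fun ζ => hκ.closed_col (hκ.lt_chi ζ.2))

theorem LevyHyp.dirClosed_high (η : Om) : DirClosed (κ η) (∀ ζ : {ζ // η < ζ}, Col κ ζ.1) :=
  DirClosed.pi (fun ζ => Pf.dirClosed _ (hκ.chi_reg ζ.1) (hκ.lt_chi ζ.2).le)

private theorem LevyHyp.aleph2_lt_chi (ζ : Om) : ℵ_ 2 < chi κ ζ := by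
  refine lt_of_lt_of_le ?_ (hκ.aleph3_le_chi ζ)
  rw [Cardinal.aleph_lt_aleph]
  norm_num

theorem LevyHyp.closed_levy : SeqClosed (Levy κ) (ℵ_ 2) :=
  SeqClosed.pi (fun ζ => hκ.closed_col (hκ.aleph2_lt_chi ζ))

theorem LevyHyp.closed_lt (ξ : Om) : SeqClosed (∀ ζ : {ζ // ζ < ξ}, Col κ ζ.1) (ℵ_ 2) :=
  SeqClosed.pi (fun ζ => hκ.closed_col (hκ.aleph2_lt_chi ζ.1))

end

end BT
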