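import Pool.Agent.Helper18.BT.D03
import Pool.Agent.Helper18.BT.D04
import Pool.Agent.Helper18.BT.D07
import Pool.Agent.Helper18.BT.D10
import Pool.Agent.Helper18.BT.C09

/-!
# BT-D11: covering and runs for the product of the Levy collapses

PROOFS.
* `covN_small`: `closed_levy`, `SeqClosed.bdist` (D02), `BDist.mono`, `BDist.covN` (D03).
* `covN_kappa`: `isoTwo (Col κ) η`, `covN_prod` (D04) with `S := ∀ ζ : {ζ // ζ ≤ η}, Col κ ζ`
  (`mk_low`), `E := ∀ ζ : {ζ // η < ζ}, Col κ ζ` (`closed_high`), and transport along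
  `ROcongr (isoTwo …)` (C09; `covN_congr` below: apply `e.symm` to the family and `e` to the result).
* `covN_sup`: `Z₀` is `{η // η < ζ}` without largest element, or all of `Om`; `λ := ⨆ η : Z₀, κ η`.
  Let `#K ≤ λ`.  By an injection `K → λ.ord.ToType` put
  `Kη η := {k | typein (image of k) < (κ η).ord}`; `#(Kη η) ≤ κ η`; every `k` is in some
  `Kη η`, `η ∈ Z₀` (`card` of `typein` is `< λ`, so `< κ η` for some `η`, `exists_lt_of_lt_ciSup`).
  `cov_fusion` (D07) with `μ := κ`, `ν := λ` (`ℵ₀ ≤ λ`, `#Om = ℵ_1 ≤ κ η ≤ λ`; `hP`: `closed_col`,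
  `ℵ_1 < ℵ_3 ≤ chi`; `hΩμ`: countable).
* `run_levy`: for `#W < nu κ` take `η` with `#W ≤ κ η` (`exists_lt`), `run_prod` (D04) and
  `run_congr (ROcongr (isoTwo (Col κ) η))`.
* `hub`: a subset of size `≤ ν` of `(succ ν).ord.ToType` has an upper bound
  (`Pool.Agent.Helper18.TP.upDir_ord` in TP/TreeThm.lean).
-/

open Cardinal

namespace BT

theorem covN_congr {B B' : Type} [CompleteBooleanAlgebra B] [CompleteBooleanAlgebra B']
    (e : B ≃o B') {μ : Cardinal.{0}} (h : CovN B μ) : CovN B' μ := by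
  intro K hK Y φ b hb hφ
  have hb' : e.symm b ≠ ⊥ := by
    intro h0
    apply hb
    have h1 := congrArg e h0
    rwa [e.apply_symm_apply, e.map_bot] at h1
  have hφ' : ∀ k, e.symm b ≤ ⨆ y, e.symm (φ k y) := by
    intro k
    rw [← OrderIso.map_iSup]
    exact e.symm.monotone (hφ k)
  obtain ⟨c, hc, hc0, Z, hZ, hcZ⟩ := h K hK Y (fun k y => e.symm (φ k y)) (e.symm b) hb' hφ'
  refine ⟨e c, ?_, ?_, Z, hZ, fun k => ?_⟩
  · have h1 := e.monotone hc
    rwa [e.apply_symm_apply] at h1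
  · intro h0
    apply hc0
    have h1 := congrArg e.symm h0
    rwa [e.symm_apply_apply, e.symm.map_bot] at h1
  · have h1 := e.monotone (hcZ k)
    rw [OrderIso.map_iSup] at h1
    simpa using h1

section

variable {κ : Om → Cardinal.{0}} (hκ : LevyHyp κ)

include hκ

theorem LevyHyp.covN_small {μ : Cardinal.{0}} (hμ : μ ≤ ℵ_ 2) : CovN (RO (Levy κ)) μ :=
  (hκ.closed_levy.bdist.mono hμ).covN

theorem LevyHyp.covN_kappa (η : Om) : CovN (RO (Levy κ)) (κ η) :=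
  covN_congr (ROcongr (isoTwo (Col κ) η))
    (covN_prod (hκ.ind η).unc.le (hκ.mk_low η) (hκ.closed_high η))

private theorem covN_gen (Z₀ : Set Om) (hne : Z₀.Nonempty) :
    CovN (RO (Levy κ)) (⨆ η : Z₀, κ η.1) := by
  have hbdd : BddAbove (Set.range fun η : Z₀ => κ η.1) := Cardinal.bddAbove_range _
  have hle : ∀ η ∈ Z₀, κ η ≤ ⨆ η : Z₀, κ η.1 := fun η hη =>
    le_ciSup (f := fun η : Z₀ => κ η.1) hbdd ⟨η, hη⟩
  have h0 : ∀ η, ℵ₀ ≤ κ η := fun η => (hκ.ind η).unc.le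
  have h1 : ∀ η, #Om ≤ κ η := by
    intro η
    rw [mk_Om]
    refine (Cardinal.aleph_le_aleph.2 ?_).trans (hκ.aleph3_lt η).le
    norm_num
  obtain ⟨η0, hη0⟩ := hne
  intro K hK Y φ b hb hφ
  have hK' : #K ≤ #((⨆ η : Z₀, κ η.1).ord.ToType) := by
    rw [Cardinal.mk_ord_toType]
    exact hK
  obtain ⟨ι⟩ := hK'
  let Kη : Om → Set K := fun η => {k | Ordinal.typein (α := (⨆ η : Z₀, κ η.1).ord.ToType) (· < ·) (ι k) < (κ η).ord}
  have hKη : ∀ η, #(Kη η) ≤ κ η := by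
    intro η
    rw [← Cardinal.mk_ord_toType (κ η)]
    refine Cardinal.mk_le_of_injective (f := fun k : Kη η =>
      Ordinal.enum (α := (κ η).ord.ToType) (· < ·)
        ⟨Ordinal.typein (α := (⨆ η : Z₀, κ η.1).ord.ToType) (· < ·) (ι k.1), by
          rw [Set.mem_Iio, Ordinal.type_toType]
          exact k.2⟩) ?_
    intro k k' hkk
    have h2 := (Ordinal.enum_inj).1 hkk
    have h3 := congrArg Subtype.val h2
    have h4 := (Ordinal.typein_inj (α := (⨆ η : Z₀, κ η.1).ord.ToType) (· < ·)).1 h3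
    exact Subtype.ext (ι.injective h4)
  have hKK : ∀ k, ∃ η ∈ Z₀, k ∈ Kη η := by
    intro k
    have h2 : Ordinal.typein (α := (⨆ η : Z₀, κ η.1).ord.ToType) (· < ·) (ι k) <
        (⨆ η : Z₀, κ η.1).ord := Ordinal.typein_lt_self (ι k)
    rw [Cardinal.lt_ord] at h2
    have : Nonempty Z₀ := ⟨⟨η0, hη0⟩⟩
    obtain ⟨η, hη⟩ := exists_lt_of_lt_ciSup h2
    exact ⟨η.1, η.2, Cardinal.lt_ord.2 hη⟩
  exact cov_fusion κ Z₀ (fun η _ => h0 η) (fun η _ => hκ.mk_low η) (fun η _ => hκ.closed_high η)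
    (fun η _ => (mk_Iio_Om η).trans (h0 η))
    (fun ζ => hκ.closed_col (by
      rw [mk_Om]
      refine lt_of_lt_of_le ?_ (hκ.aleph3_le_chi ζ)
      exact Cardinal.aleph_lt_aleph.2 (by norm_num)))
    ((h0 η0).trans (hle η0 hη0)) ((h1 η0).trans (hle η0 hη0)) hle Kη (fun η _ => hKη η) hKK φ hb hφ

/-- all the suprema of initial segments without a largest element -/
theorem LevyHyp.covN_sup (ζ : Om) (hne : ∃ η, η < ζ) (hlim : ∀ η < ζ, ∃ η' < ζ, η < η') :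
    CovN (RO (Levy κ)) (⨆ η : {η // η < ζ}, κ η.1) :=
  covN_gen hκ {η | η < ζ} hne

theorem LevyHyp.covN_nu : CovN (RO (Levy κ)) (nu κ) := by
  have hne : (Set.univ : Set Om).Nonempty := by
    have h : #Om ≠ 0 := by
      rw [mk_Om]
      exact (Cardinal.aleph_pos 1).ne'
    obtain ⟨ζ⟩ := Cardinal.mk_ne_zero_iff.1 h
    exact ⟨ζ, trivial⟩
  have h := covN_gen hκ Set.univ hne
  have h2 : (⨆ η : (Set.univ : Set Om), κ η.1) = nu κ := by
    unfold nu
    exact (Equiv.Set.univ Om).iSup_congr fun η => rfl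
  rwa [h2] at h

theorem hub_succ {ν μ : Cardinal.{0}} (hν : ℵ₀ ≤ ν) (hμ : μ ≤ ν)
    (Z : Set (Order.succ ν).ord.ToType) (hZ : #Z ≤ μ) : ∃ β, ∀ z ∈ Z, z ≤ β := by
  obtain ⟨b, hb⟩ := Pool.Agent.Helper18.TP.upDir_ord hν Z (fun x => x.1) (hZ.trans hμ)
  exact ⟨b, fun z hz => hb ⟨z, hz⟩⟩

theorem LevyHyp.run_levy (W : Type) [LinearOrder W] [WellFoundedLT W] (hW : #W < nu κ) :
    Run (RO (Levy κ)) (Order.succ (nu κ)).ord.ToType W := by
  obtain ⟨η, hη⟩ := hκ.exists_lt hW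
  have hI : Nonempty (Order.succ (nu κ)).ord.ToType := by
    rw [← Cardinal.mk_ne_zero_iff, Cardinal.mk_ord_toType]
    exact (Order.bot_lt_succ _).ne'
  exact run_congr (ROcongr (isoTwo (Col κ) η))
    (run_prod (hκ.ind η).unc.le (hκ.mk_low η) (hκ.closed_high η) hI
      (fun Z hZ => hub_succ hκ hκ.nu_lim.aleph0_le (hκ.lt_nu η).le Z hZ) W hη.le)

theorem LevyHyp.cov_levy : Cov (RO (Levy κ)) (Order.succ (nu κ)).ord.ToType (nu κ) :=
  hκ.covN_nu.cov fun Z hZ => hub_succ hκ hκ.nu_lim.aleph0_le le_rfl Z hZ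

end

end BT
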