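import Pool.Agent.Helper18.BT.D10
import Pool.Agent.Helper18.BT.C09
import Pool.Agent.Helper18.BT.C10
import Pool.Agent.Helper18.BT.C11

/-!
# BT-D12: the generic ultrafilters over the product of the Levy collapses

PROOF of `exists_ultC`.  `hκ.ind ξ` for `C := ∀ ζ : {ζ // ξ < ζ}, Col κ ζ` (`dirClosed_high`, nonempty)
and `X := I` gives `U` on `PK (κ ξ) I`; `NormalUlt.ultC`, and `UltC.push` along a function
`s : PK (κ ξ) I → I` with `x ≤ s a` for all `x ∈ a` (exists by `hI`); for `β : I` take `α := {β}`.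

PROOF of `exists_buf_levy`.  Let `η` with `τ ≤ κ η` and `ℵ_1 ≤ κ η` (`exists_lt`).  Let `ξ` be the least
element of `Om` with `η < ξ` (`exists_gt_Om`); so `ζ < ξ ↔ ζ ≤ η`.  `S := ∀ ζ : {ζ // ζ < ξ}, Col κ ζ`,
`#S ≤ κ η` (as `mk_low`, transport along the equality of the index sets).  `μ := κ η < χ := chi κ ξ`
(`lt_chi`) `< κ ξ`.  `C` as above; `SeqClosed C (κ ξ)` (`closed_high`), so
`BDist (RO C) (κ ξ)` (D02) and `#((κ ξ).ord.ToType × (chi κ ξ).ord.ToType) = κ ξ`.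
`hV`: `#(Option {y // y < x.1}) < κ ξ` (`mk_Iio_toType_ord_lt`).  `θ := ℵ_1`; `hdistP`: all three factors
are closed under sequences of length `≤ ℵ_1` (`closed_lt`, `closed_col`, `closed_high`, `SeqClosed.prod`,
`SeqClosed.bdist`).  `exists_buf` (C10) and `exists_buf_congr (ROcongr (isoThree (Col κ) ξ))` (C09).
`Distr (κ η)` implies `Distr τ` (unfold).

PROOF of `exists_buf_kappa`.  `exists_buf_dec` (C10) with `S := ∀ ζ : {ζ // ζ < ξ}, Col κ ζ` (`mk_lt`),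
then transport the `BUF` along `ROcongr (isoThree (Col κ) ξ)`: apply `noSurj_congr` after `BUF.noSurj`
(C11) – for this we state the result directly as `NoSurj`.
`I := (κ ξ).ord.ToType`; `hI` of `exists_ultC`: a subset of `I` of size `< κ ξ` is bounded (`κ ξ` regular).
-/

open Cardinal

namespace BT

section

variable {κ : Om → Cardinal.{0}} (hκ : LevyHyp κ)

include hκ

theorem LevyHyp.exists_ultC (ξ : Om) (I : Type) [Preorder I]
    (hI : ∀ Z : Set I, #Z < κ ξ → ∃ β, ∀ z ∈ Z, z ≤ β) :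
    ∃ U : (I → RO (∀ ζ : {ζ // ξ < ζ}, Col κ ζ.1)) → RO (∀ ζ : {ζ // ξ < ζ}, Col κ ζ.1),
      UltC (κ ξ) U := by
  have : Nonempty (∀ ζ : {ζ // ξ < ζ}, Col κ ζ.1) :=
    ⟨fun ζ => Pf.empty (hκ.chi_reg ζ.1).aleph0_le⟩
  obtain ⟨U, hU⟩ := (hκ.ind ξ).ind (∀ ζ : {ζ // ξ < ζ}, Col κ ζ.1) (hκ.dirClosed_high ξ) I
  choose s hs using fun a : Pool.Agent.Helper18.TP.PK (κ ξ) I => hI a.1 a.2
  have h1 : (1 : Cardinal) < κ ξ := Cardinal.one_lt_aleph0.trans_le (hκ.ind ξ).unc.le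
  refine ⟨_, hU.ultC.push (hκ.ind ξ).unc.le s fun β => ⟨⟨{β}, ?_⟩, fun a ha => ?_⟩⟩
  · rw [Cardinal.mk_singleton]
    exact h1
  · have ha' : ({β} : Set I) ⊆ a.1 := ha
    exact hs a β (ha' rfl)

private theorem card_D (ξ : Om) :
    #((κ ξ).ord.ToType × (chi κ ξ).ord.ToType) ≤ κ ξ := by
  rw [Cardinal.mk_prod, Cardinal.lift_id, Cardinal.lift_id, Cardinal.mk_ord_toType,
    Cardinal.mk_ord_toType]
  exact Cardinal.mul_le_of_le (hκ.ind ξ).unc.le le_rfl (hκ.chi_lt ξ).le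

private theorem hV_aux (ξ : Om) (x : (κ ξ).ord.ToType × (chi κ ξ).ord.ToType) :
    #(Option {y : (κ ξ).ord.ToType // y < x.1}) < κ ξ := by
  rw [Cardinal.mk_option]
  exact Cardinal.add_lt_of_lt (hκ.ind ξ).unc.le (Cardinal.mk_Iio_toType_ord_lt x.1)
    (Cardinal.one_lt_aleph0.trans_le (hκ.ind ξ).unc.le)

theorem LevyHyp.exists_buf_levy (I : Type) [Preorder I]
    (hI : ∀ Z : Set I, #Z ≤ nu κ → ∃ β, ∀ z ∈ Z, z ≤ β) {τ : Cardinal.{0}} (hτ : τ < nu κ) :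
    ∃ G : BUF (RO (Levy κ)) I τ, G.Mixing ∧ G.Closed (ℵ_ 1) ∧ G.Distr τ := by
  classical
  obtain ⟨η, hη⟩ := hκ.exists_lt hτ
  -- the successor of `η`
  obtain ⟨ξ, hξ, hmin⟩ := WellFounded.has_min (wellFounded_lt (α := Om)) {ξ | η < ξ}
    (exists_gt_Om η)
  have hξ' : η < ξ := hξ
  have hle : ∀ ζ, ζ < ξ → ζ ≤ η := by
    intro ζ hζ
    by_contra h
    exact hmin ζ (not_le.1 h) hζ
  have hS : #(∀ ζ : {ζ // ζ < ξ}, Col κ ζ.1) ≤ κ η := by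
    refine le_trans ?_ (hκ.mk_low η)
    refine Cardinal.mk_le_of_injective
      (f := fun (f : ∀ ζ : {ζ // ζ < ξ}, Col κ ζ.1) (ζ : {ζ // ζ ≤ η}) =>
        f ⟨ζ.1, lt_of_le_of_lt ζ.2 hξ'⟩) ?_
    intro f g hfg
    funext ζ
    exact congrFun hfg ⟨ζ.1, hle ζ.1 ζ.2⟩
  have h3 : ℵ_ 1 < ℵ_ 3 := Cardinal.aleph_lt_aleph.2 (by norm_num)
  have h13 : ℵ_ 1 < κ η := h3.trans (hκ.aleph3_lt η)
  have hηξ : κ η < κ ξ := hκ.mono hξ'
  obtain ⟨U, hU⟩ := hκ.exists_ultC ξ I fun Z hZ => hI Z (hZ.le.trans (hκ.lt_nu ξ).le)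
  have hdP : BDist (RO ((∀ ζ : {ζ // ζ < ξ}, Col κ ζ.1) × Col κ ξ ×
      (∀ ζ : {ζ // ξ < ζ}, Col κ ζ.1))) (ℵ_ 1) := by
    apply SeqClosed.bdist
    apply SeqClosed.prod
    · exact (hκ.closed_lt ξ).mono (Cardinal.aleph_le_aleph.2 (by norm_num))
    · apply SeqClosed.prod
      · exact hκ.closed_col (h3.trans_le (hκ.aleph3_le_chi ξ))
      · exact (hκ.closed_high ξ).mono (h13.trans hηξ).le
  obtain ⟨G, hG1, hG2, hG3⟩ := exists_buf_congr (ROcongr (isoThree (Col κ) ξ))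
    (exists_buf (τ := τ) hU (hκ.ind ξ).unc.le (hκ.chi_reg ξ) (hκ.chi_lt ξ) (hV_aux hκ ξ)
      ((hκ.closed_high ξ).mono (card_D hκ ξ)).bdist (hκ.ind η).unc.le (hκ.lt_chi hξ') h13.le
      (hη.trans hηξ) hS ((hκ.closed_high ξ).mono hηξ.le) ((hκ.closed_high ξ).mono hηξ.le).bdist hdP)
  exact ⟨G, hG1, hG2, fun K hK => hG3 K (hK.trans hη.le)⟩

theorem LevyHyp.noSurj_kappa (ξ : Om) (X : Type) (hX : #X < κ ξ) :
    NoSurj (RO (Levy κ)) X (κ ξ).ord.ToType := by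
  have hreg := (hκ.ind ξ).reg
  have hbd : ∀ Z : Set (κ ξ).ord.ToType, #Z < κ ξ → ∃ β, ∀ z ∈ Z, z ≤ β := by
    intro Z hZ
    have h1 : ¬ IsCofinal Z := by
      intro h
      have h2 := Order.cof_le h
      rw [Ordinal.cof_toType, hreg.cof_ord] at h2
      exact absurd h2 (not_le.mpr hZ)
    rw [not_isCofinal_iff] at h1
    obtain ⟨b, hb⟩ := h1
    exact ⟨b, fun z hz => (hb z hz).le⟩
  obtain ⟨U, hU⟩ := hκ.exists_ultC ξ (κ ξ).ord.ToType hbd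
  obtain ⟨G⟩ := exists_buf_dec (τ := #X) hU (hκ.ind ξ).unc.le (hκ.chi_lt ξ) (hκ.chi_reg ξ).aleph0_le
    (hκ.mk_lt ξ) (hV_aux hκ ξ) ((hκ.closed_high ξ).mono (card_D hκ ξ)).bdist hX
  have hne : Nonempty (κ ξ).ord.ToType := by
    rw [← Cardinal.mk_ne_zero_iff, Cardinal.mk_ord_toType]
    exact (Cardinal.aleph0_pos.trans (hκ.ind ξ).unc).ne'
  have := Cardinal.noMaxOrder (hκ.ind ξ).unc.le
  refine noSurj_congr (ROcongr (isoThree (Col κ) ξ)) (G.noSurj le_rfl hne fun α => ?_)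
  obtain ⟨β, hβ⟩ := exists_gt α
  exact ⟨β, not_le.2 hβ⟩

end

end BT
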