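import Pool.Agent.Helper18.BT.Levy

/-!
# BT-D13: names of the collapsing functions

PROOFS.
* `bColl_of_le`: if `ρ ≤ μ` there is a partial function `g` from `μ.out` onto `ρ.out` (inverse of an
  injection): `f x y := tv (x = j y)` for an injection `j : ρ.out → μ.out`; functional because `j` is
  injective; `⨆ x, f x y = ⊤` (`x = j y`).
* `bColl_mono`: if `ρ ≤ μ` and `BColl B ρ σ` then `BColl B μ σ`: `f' x y := ⨆ z, tv (x = j z) ⊓ f z y`.
* `bColl_levy`: `ρ < κ ζ`.  Let `a : (κ ζ).ord.ToType` with `typein a = ρ.ord`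
  (`ρ.ord < (κ ζ).ord`); `{y // y < a}` has size `ρ`, let `i : ρ.out ≃ {y // y < a}`; let
  `k : (chi κ ζ).out ≃ (chi κ ζ).ord.ToType`.
  `f x y := {r | (r ζ).f (a, k x) = some (i y)}`: as an element of `RO (Levy κ)` it is the regular open
  set `RO.cl (fun r => (r ζ).f (a, k x) = some (i y).1) _` (open because `≤` is extension).
  Functional: no condition has two values.  `⨆ x, f x y = ⊤` (`RO.eq_top_iff`, `RO.mem_iSup`): given
  `r`, since `#{x // (r ζ).f x ≠ none} < chi κ ζ` there is `x` with `(r ζ).f (a, k x) = none`; extend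
  `r ζ` by the value `i y` at `(a, k x)` (`(i y).1 < a` is the relation `Rel`; size: union with a
  singleton, `chi κ ζ` infinite), leave the other coordinates.
-/

open Cardinal

namespace BT

theorem bColl_of_le (B : Type) [CompleteBooleanAlgebra B] {ρ μ : Cardinal.{0}} (h : ρ ≤ μ) :
    BColl B μ ρ := by
  classical
  have h1 : #ρ.out ≤ #μ.out := by rw [Cardinal.mk_out, Cardinal.mk_out]; exact h
  obtain ⟨j⟩ := h1
  refine ⟨fun x y => tv (x = j y), ?_, ?_⟩
  · intro x y y' hyy
    change tv (x = j y) ⊓ tv (x = j y') = ⊥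
    by_cases h2 : x = j y
    · by_cases h3 : x = j y'
      · exact absurd (j.injective (h2.symm.trans h3)) hyy
      · rw [tv_false h3, inf_bot_eq]
    · rw [tv_false h2, bot_inf_eq]
  · intro y
    rw [← top_le_iff]
    refine le_trans ?_ (le_iSup _ (j y))
    change ⊤ ≤ tv (j y = j y)
    rw [tv_true rfl]

theorem bColl_mono {B : Type} [CompleteBooleanAlgebra B] {ρ μ σ : Cardinal.{0}} (h : ρ ≤ μ)
    (h' : BColl B ρ σ) : BColl B μ σ := by
  classical
  have h1 : #ρ.out ≤ #μ.out := by rw [Cardinal.mk_out, Cardinal.mk_out]; exact h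
  obtain ⟨j⟩ := h1
  obtain ⟨f, hf, hft⟩ := h'
  refine ⟨fun x y => ⨆ z, tv (x = j z) ⊓ f z y, ?_, ?_⟩
  · intro x y y' hyy
    rw [← le_bot_iff]
    change (⨆ z, tv (x = j z) ⊓ f z y) ⊓ (⨆ z, tv (x = j z) ⊓ f z y') ≤ ⊥
    rw [iSup_inf_eq]
    refine iSup_le fun z => ?_
    rw [inf_iSup_eq]
    refine iSup_le fun z' => ?_
    by_cases h2 : x = j z
    · by_cases h3 : x = j z'
      · have h4 : z = z' := j.injective (h2.symm.trans h3)
        subst h4
        calc tv (x = j z) ⊓ f z y ⊓ (tv (x = j z) ⊓ f z y') ≤ f z y ⊓ f z y' :=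
              inf_le_inf inf_le_right inf_le_right
          _ ≤ ⊥ := (hf z y y' hyy).le
      · rw [tv_false h3, bot_inf_eq, inf_bot_eq]
    · rw [tv_false h2, bot_inf_eq, bot_inf_eq]
  · intro y
    rw [← top_le_iff, ← hft y]
    refine iSup_le fun z => le_trans ?_ (le_iSup _ (j z))
    change f z y ≤ ⨆ z', tv (j z = j z') ⊓ f z' y
    refine le_trans ?_ (le_iSup _ z)
    rw [tv_true rfl, top_inf_eq]

theorem bColl_levy (κ : Om → Cardinal.{0}) (ζ : Om) {ρ : Cardinal.{0}} (hρ : ρ < κ ζ) :
    BColl (RO (Levy κ)) (chi κ ζ) ρ := by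
  classical
  have hχ : ℵ₀ ≤ chi κ ζ := (Cardinal.aleph0_le_aleph 3).trans (le_max_left _ _)
  -- the ordinal `a`
  have h1 : ρ.ord < Ordinal.type (α := (κ ζ).ord.ToType) (· < ·) := by
    rw [Ordinal.type_toType]
    exact Cardinal.ord_lt_ord.mpr hρ
  obtain ⟨a, ha⟩ := Ordinal.typein_surj (α := (κ ζ).ord.ToType) (· < ·) h1
  have h2 : #ρ.out = #{y : (κ ζ).ord.ToType // y < a} := by
    have h3 := Ordinal.card_typein (α := (κ ζ).ord.ToType) (r := (· < ·)) a
    rw [ha, Cardinal.card_ord] at h3
    rw [Cardinal.mk_out]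
    exact h3
  obtain ⟨i⟩ := Cardinal.eq.mp h2
  have h3 : #(chi κ ζ).out = #(chi κ ζ).ord.ToType := by
    rw [Cardinal.mk_out, Cardinal.mk_ord_toType]
  obtain ⟨k⟩ := Cardinal.eq.mp h3
  have hopen : ∀ x y, ∀ p q : Levy κ, q ≤ p → (p ζ).f (a, k x) = some (i y).1 →
      (q ζ).f (a, k x) = some (i y).1 := fun x y p q hq hp => hq ζ _ _ hp
  refine ⟨fun x y => RO.cl (fun r : Levy κ => (r ζ).f (a, k x) = some (i y).1) (hopen x y), ?_, ?_⟩
  · intro x y y' hyy
    rw [RO.eq_bot_iff]
    intro p hp
    rw [RO.mem_inf, RO.mem_cl, RO.mem_cl] at hp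
    obtain ⟨r, hr, h4⟩ := hp.1 p (le_refl _)
    obtain ⟨r', hr', h5⟩ := hp.2 r hr
    have h6 := hopen x y r r' hr' h4
    rw [h5] at h6
    have h7 : (i y').1 = (i y).1 := Option.some.inj h6
    exact hyy (i.injective (Subtype.ext h7)).symm
  · intro y
    rw [RO.eq_top_iff]
    intro p
    rw [RO.mem_iSup]
    intro q _
    -- a free coordinate
    obtain ⟨x, hx⟩ : ∃ x, (q ζ).f (a, k x) = none := by
      by_contra hcon
      push Not at hcon
      have h4 : #(chi κ ζ).out ≤ #{x // (q ζ).f x ≠ none} :=
        Cardinal.mk_le_of_injective (f := fun x => (⟨(a, k x), hcon x⟩ :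
          {x // (q ζ).f x ≠ none})) (by
            intro x x' hxx
            have h5 := congrArg Subtype.val hxx
            exact k.injective (Prod.mk.inj h5).2)
      rw [Cardinal.mk_out] at h4
      exact absurd (h4.trans_lt (q ζ).small) (lt_irrefl _)
    -- the new condition
    let u : Col κ ζ :=
      { f := fun z => if z = (a, k x) then some (i y).1 else (q ζ).f z
        small := by
          have h5 : #{z // (if z = (a, k x) then some (i y).1 else (q ζ).f z) ≠ none} ≤
              #(insert (a, k x) {z | (q ζ).f z ≠ none} : Set _) := by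
            apply Cardinal.mk_le_mk_of_subset
            intro z hz
            by_cases h6 : z = (a, k x)
            · left; exact h6
            · right
              intro h7
              apply hz
              rw [if_neg h6]
              exact h7
          refine h5.trans_lt (Cardinal.mk_insert_le.trans_lt ?_)
          exact Cardinal.add_lt_of_lt hχ (q ζ).small (Cardinal.one_lt_aleph0.trans_le hχ)
        rel := by
          intro z w hzw
          by_cases h6 : z = (a, k x)
          · rw [if_pos h6] at hzw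
            have h7 : (i y).1 = w := Option.some.inj hzw
            rw [← h7, h6]
            exact (i y).2
          · rw [if_neg h6] at hzw
            exact (q ζ).rel z w hzw }
    refine ⟨Function.update q ζ u, ?_, x, ?_⟩
    · intro ζ'
      by_cases h6 : ζ' = ζ
      · subst h6
        rw [Function.update_self]
        intro z w hzw
        change (if z = (a, k x) then some (i y).1 else (q ζ').f z) = some w
        by_cases h7 : z = (a, k x)
        · rw [h7, hx] at hzw
          simp at hzw
        · rw [if_neg h7]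
          exact hzw
      · rw [Function.update_of_ne h6]
    · rw [RO.mem_cl]
      intro r hr
      refine ⟨r, le_refl _, ?_⟩
      have h6 := hr ζ
      rw [Function.update_self] at h6
      apply h6
      change (if (a, k x) = (a, k x) then some (i y).1 else (q ζ).f (a, k x)) = some (i y).1
      rw [if_pos rfl]

end BT
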