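import Pool.Agent.Helper18.BT.D10

/-!
# BT-D14: the cardinals of the extension

`B` is arbitrary; only the listed facts about the cardinals `κ ζ`, `chi κ ζ` are used.

PROOF.  Let `c : Ordinal → Cardinal` be defined by (`Ordinal.limitRecOn` or well-founded recursion)
`c 0 = ℵ₀`, `c (succ ξ) = sInf {μ | c ξ < μ ∧ BCard B μ}`, `c ξ = ⨆ η : Set.Iio ξ, c η` for limit `ξ`.
(1) If `ℵ₀ ≤ μ`, `BCard B μ ∨ μ = ℵ₀ ∨ μ` arbitrary, `μ < ρ < nu κ` and there is no `μ'` with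
`μ < μ' ≤ ρ`, `BCard B μ'`, then `BColl B μ ρ`: let `ζ` be least with `ρ < κ ζ` (`exists_lt`).
`ρ ≥ ⨆ η < ζ, κ η =: σ`.  `ρ ≠ ℵ_1, ℵ_2` (BCard), so, as `ρ > μ ≥ ℵ₀`, `ρ ≥ ℵ_3`.
If `σ ≥ ℵ₀` (i.e. `ζ` is not the least element) then `BCard B σ` (`bcard_sup`: if `x < σ` then
`x < κ η` for some `η < ζ`, and `NoSurj B x.out (κ η).out` implies `NoSurj B x.out σ.out`), so `ρ ≠ σ`,
`ρ ≥ succ σ`; hence `ρ ≥ chi κ ζ` in all cases; `ρ ≠ chi κ ζ` (BCard), so `chi κ ζ < ρ`, and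
`chi κ ζ ≤ μ` (else `μ < chi κ ζ ≤ ρ` is a BCard).  `h4` gives `BColl B (chi κ ζ) ρ`, and `hmono` gives
`BColl B μ ρ`.
(2) By induction on `ξ < ω_1`: `c ξ < nu κ`, `ℵ₀ ≤ c ξ`, `BAleph B ξ (c ξ)`, `c` strictly increasing: at
successors the set is nonempty and contains a `κ ζ < nu κ` (`exists_lt`), so the infimum is attained
(`csInf_mem`), `< nu κ`; for `ρ < c (succ ξ)`: if `ρ ≤ c ξ` use `hle`, otherwise (1) (`not_mem` below the
infimum).  At limits `ξ < ω_1` (countable cofinality) the supremum is `< nu κ` since `nu κ` has cofinality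
`ℵ_1` (`nu_cof`): `BAleph.lim`.
(3) `⨆ ξ < ω_1, c ξ = nu κ`: `≤` by (2).  `≥`: by induction on `ζ : Om` there is `ξ < ω_1` with
`κ ζ ≤ c ξ`: choose `ξ_η` for `η < ζ` and let `ξ₀ ≥ 3` be a countable ordinal above all `ξ_η`
(`ζ` has countably many predecessors); `c ξ₀ ≥ ℵ_3` (strictly increasing) and `c ξ₀ ≥ ⨆ η < ζ, κ η`; so
`c (succ ξ₀) ≥ chi κ ζ`, and `c (succ (succ ξ₀)) ≥ κ ζ`: it is a BCard `> chi κ ζ`, and a cardinal `ρ`
with `chi κ ζ < ρ < κ ζ` is not a BCard (`h4` contradicts `BCard` since `B` is nontrivial).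
`BAleph.lim` for `ξ = ω_1` (`Ordinal.omega 1`, a limit) gives `BAleph B ω_1 (nu κ)`;
`BAleph.succ` with `h5`, `hle` gives the second claim (`ρ < succ ν → ρ ≤ ν`).
`BAleph B 2 (ℵ_ 2)`: `BAleph.succ` twice from `zero` with `h3`, `hle` (`ρ < ℵ_1 → ρ ≤ ℵ₀`,
`ρ < ℵ_2 → ρ ≤ ℵ_1`).
-/

open Cardinal Ordinal

namespace BT

section aux

variable (B : Type) [CompleteBooleanAlgebra B]

/-- the next cardinal of the extension above `x` -/
private noncomputable def nx (x : Cardinal.{0}) : Cardinal.{0} := sInf {μ | x < μ ∧ BCard B μ}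

/-- the infinite cardinals of the extension -/
private noncomputable def cc (ξ : Ordinal.{0}) : Cardinal.{0} :=
  limitRecOn (motive := fun _ => Cardinal.{0}) ξ ℵ₀ (fun _ x => nx B x)
    (fun o _ f => ⨆ η : Set.Iio o, f η.1 η.2)

private theorem cc_zero : cc B 0 = ℵ₀ := limitRecOn_zero _ _ _

private theorem cc_add_one (ξ : Ordinal.{0}) : cc B (ξ + 1) = nx B (cc B ξ) :=
  limitRecOn_add_one (motive := fun _ => Cardinal.{0}) ξ ℵ₀ (fun _ x => nx B x)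
    (fun o _ f => ⨆ η : Set.Iio o, f η.1 η.2)

private theorem cc_limit (ξ : Ordinal.{0}) (h : Order.IsSuccLimit ξ) :
    cc B ξ = ⨆ η : Set.Iio ξ, cc B η.1 :=
  limitRecOn_limit (motive := fun _ => Cardinal.{0}) ξ ℵ₀ (fun _ x => nx B x)
    (fun o _ f => ⨆ η : Set.Iio o, f η.1 η.2) h

variable {B}

private theorem not_bcard [Nontrivial B] {ρ σ : Cardinal.{0}} (h : ρ < σ) (h1 : BColl B ρ σ) :
    ¬ BCard B σ := by
  intro h2
  obtain ⟨f, hf, hf2⟩ := h1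
  have h3 := h2 ρ h f hf
  have h4 : (⨅ y, ⨆ x, f x y) = ⊤ := by
    rw [iInf_eq_top]
    exact hf2
  rw [h4] at h3
  exact top_ne_bot h3

end aux

theorem baleph_levy {κ : Om → Cardinal.{0}} (hκ : LevyHyp κ) (B : Type)
    [CompleteBooleanAlgebra B] [Nontrivial B]
    (hns : ∀ X X' Y Y' : Type, NoSurj B X' Y' → #X ≤ #X' → #Y' ≤ #Y → NoSurj B X Y)
    (hle : ∀ ρ μ : Cardinal.{0}, ρ ≤ μ → BColl B μ ρ)
    (hmono : ∀ ρ μ σ : Cardinal.{0}, ρ ≤ μ → BColl B ρ σ → BColl B μ σ)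
    (h1 : ∀ ζ, BCard B (κ ζ)) (h2 : ∀ ζ, BCard B (chi κ ζ)) (h3 : BCard B (ℵ_ 1))
    (h3' : BCard B (ℵ_ 2)) (h4 : ∀ ζ ρ, ρ < κ ζ → BColl B (chi κ ζ) ρ)
    (h5 : BCard B (Order.succ (nu κ))) :
    BAleph B 2 (ℵ_ 2) ∧ BAleph B (ω_ 1) (nu κ) ∧
      BAleph B (Order.succ (ω_ 1)) (Order.succ (nu κ)) := by
  classical
  have hsmall : ∀ x : Cardinal.{0}, x < ℵ_ 3 → x ≤ ℵ_ 2 := by
    intro x hx
    have e : (ℵ_ 3 : Cardinal.{0}) = Order.succ (ℵ_ 2) := by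
      rw [Cardinal.succ_aleph]; norm_num
    rw [e] at hx
    exact Order.lt_succ_iff.1 hx
  have hs2 : (ℵ_ 2 : Cardinal.{0}) = Order.succ (ℵ_ 1) := by
    rw [Cardinal.succ_aleph]; norm_num
  have hs1 : (ℵ_ 1 : Cardinal.{0}) = Order.succ ℵ₀ := by
    rw [Cardinal.succ_aleph0]
  -- suprema of cardinals
  have hsup : ∀ ζ : Om, (∃ η, η < ζ) → BCard B (⨆ η : {η // η < ζ}, κ η.1) := by
    rintro ζ ⟨η₀, hη₀⟩ x hx
    have : Nonempty {η // η < ζ} := ⟨⟨η₀, hη₀⟩⟩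
    obtain ⟨η, hη⟩ := exists_lt_of_lt_ciSup hx
    refine hns _ _ _ _ (h1 η.1 x hη) le_rfl ?_
    rw [Cardinal.mk_out, Cardinal.mk_out]
    exact le_ciSup (f := fun η : {η // η < ζ} => κ η.1) Cardinal.bddAbove_of_small η
  -- step (1)
  have key : ∀ μ ρ : Cardinal.{0}, ℵ₀ ≤ μ → μ < ρ → ρ < nu κ →
      (∀ μ', μ < μ' → μ' ≤ ρ → ¬ BCard B μ') → BColl B μ ρ := by
    intro μ ρ hμ hμρ hρ hno
    have hex : ∃ ζ, ρ < κ ζ := hκ.exists_lt hρ
    obtain ⟨ζ, hζ, hmin⟩ : ∃ ζ, ρ < κ ζ ∧ ∀ η < ζ, ¬ ρ < κ η := by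
      obtain ⟨ζ, h7, h8⟩ := WellFounded.has_min (wellFounded_lt (α := Om)) {ζ | ρ < κ ζ} hex
      exact ⟨ζ, h7, fun η hη hlt => h8 η hlt hη⟩
    have hσ : (⨆ η : {η // η < ζ}, κ η.1) ≤ ρ :=
      ciSup_le' (fun η => not_lt.1 (hmin η.1 η.2))
    have hσ' : (⨆ η : {η // η < ζ}, κ η.1) < ρ := by
      refine lt_of_le_of_ne hσ (fun he => ?_)
      by_cases hne : ∃ η, η < ζ
      · exact hno ρ hμρ le_rfl (he ▸ hsup ζ hne)
      · have hemp : IsEmpty {η // η < ζ} := ⟨fun η => hne ⟨η.1, η.2⟩⟩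
        rw [ciSup_of_empty] at he
        have h0 : ρ = 0 := he.symm
        rw [h0] at hμρ
        exact absurd hμρ (not_lt.2 bot_le)
    have h3ρ : ℵ_ 3 ≤ ρ := by
      by_contra hlt
      have h5' := hsmall ρ (not_le.1 hlt)
      rcases h5'.lt_or_eq with h6 | h6
      · rw [hs2] at h6
        have h7 := Order.lt_succ_iff.1 h6
        rcases h7.lt_or_eq with h8 | h8
        · rw [hs1] at h8
          have h9 := Order.lt_succ_iff.1 h8
          exact absurd (hμρ.trans_le h9) (not_lt.2 hμ)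
        · exact hno ρ hμρ le_rfl (h8 ▸ h3)
      · exact hno ρ hμρ le_rfl (h6 ▸ h3')
    have hchi : chi κ ζ ≤ ρ := max_le h3ρ (Order.succ_le_of_lt hσ')
    have hchi2 : chi κ ζ ≤ μ := by
      by_contra hlt
      exact hno (chi κ ζ) (not_le.1 hlt) hchi (h2 ζ)
    exact hmono _ _ _ hchi2 (h4 ζ ρ hζ)
  -- the next cardinal
  have hnx : ∀ x : Cardinal.{0}, x < nu κ →
      x < nx B x ∧ BCard B (nx B x) ∧ nx B x < nu κ ∧ (ℵ₀ ≤ x → ∀ ρ < nx B x, BColl B x ρ) := by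
    intro x hx
    obtain ⟨ζ, hζ⟩ := hκ.exists_lt hx
    have hmem : κ ζ ∈ {μ | x < μ ∧ BCard B μ} := ⟨hζ, h1 ζ⟩
    have hin := csInf_mem (s := {μ | x < μ ∧ BCard B μ}) ⟨κ ζ, hmem⟩
    have hlt : nx B x < nu κ := (csInf_le' hmem).trans_lt (hκ.lt_nu ζ)
    refine ⟨hin.1, hin.2, hlt, fun h0 ρ hρ => ?_⟩
    rcases le_or_gt ρ x with h6 | h6
    · exact hle _ _ h6
    · refine key x ρ h0 h6 (hρ.trans hlt) (fun μ' h7 h8 h9 => ?_)
      exact absurd (csInf_le' (show μ' ∈ {μ | x < μ ∧ BCard B μ} from ⟨h7, h9⟩))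
        (not_le.2 (h8.trans_lt hρ))
  -- countable suprema
  have hctb : ∀ ξ : Ordinal.{0}, ξ < ω_ 1 → Countable (Set.Iio ξ) := by
    intro ξ hξ
    rw [← Cardinal.mk_le_aleph0_iff, Cardinal.mk_Iio_ordinal, Cardinal.lift_le_aleph0]
    have h6 : ξ.card < ℵ_ 1 := by
      rw [← Cardinal.lt_ord, Cardinal.ord_aleph]
      exact hξ
    rw [hs1] at h6
    exact Order.lt_succ_iff.1 h6
  -- step (2)
  have P : ∀ ξ : Ordinal.{0}, ξ < ω_ 1 → cc B ξ < nu κ ∧ ℵ₀ ≤ cc B ξ ∧ BAleph B ξ (cc B ξ) ∧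
      ∀ η < ξ, cc B η ≤ cc B ξ := by
    intro ξ
    induction ξ using Ordinal.limitRecOn with
    | zero =>
      intro _
      rw [cc_zero]
      refine ⟨?_, le_rfl, BAleph.zero, fun η hη => absurd hη (not_lt.2 bot_le)⟩
      have : Nonempty Om := by
        rw [← Cardinal.mk_ne_zero_iff, mk_Om]
        exact (Cardinal.isRegular_aleph_one).ne_zero
      have ζ := Classical.arbitrary Om
      exact (hκ.ind ζ).unc.trans (hκ.lt_nu ζ)
    | add_one ξ ih =>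
      intro hξ
      have hlt : ξ < ξ + 1 := by
        rw [← Order.succ_eq_add_one]; exact Order.lt_succ ξ
      obtain ⟨a1, a2, a3, a4⟩ := ih (hlt.trans hξ)
      obtain ⟨b1, b2, b3, b4⟩ := hnx _ a1
      rw [cc_add_one]
      refine ⟨b3, a2.trans b1.le, ?_, fun η hη => ?_⟩
      · rw [← Order.succ_eq_add_one]
        exact BAleph.succ ξ _ _ a3 b1 b2 (b4 a2)
      · rw [← Order.succ_eq_add_one, Order.lt_succ_iff] at hη
        rcases hη.lt_or_eq with h6 | h6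
        · exact (a4 η h6).trans b1.le
        · rw [h6]; exact b1.le
    | limit ξ hl ih =>
      intro hξ
      have hb : BddAbove (Set.range (fun η : Set.Iio ξ => cc B η.1)) := Cardinal.bddAbove_of_small
      have hle' : ∀ η (hη : η < ξ), cc B η ≤ cc B ξ := by
        intro η hη
        rw [cc_limit B ξ hl]
        exact le_ciSup hb ⟨η, hη⟩
      have h0 : (0 : Ordinal.{0}) < ξ := hl.bot_lt
      refine ⟨?_, ?_, ?_, hle'⟩
      · rw [cc_limit B ξ hl]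
        have hz : ∀ η : Set.Iio ξ, ∃ ζ, cc B η.1 < κ ζ := fun η =>
          hκ.exists_lt (ih η.1 η.2 (lt_trans η.2 hξ)).1
        choose z hz using hz
        have := hctb ξ hξ
        have : Nonempty (Set.Iio ξ) := ⟨⟨0, h0⟩⟩
        obtain ⟨e, he⟩ := exists_surjective_nat (Set.Iio ξ)
        obtain ⟨ζ, hζ⟩ := exists_ub_Om (fun n => z (e n))
        refine lt_of_le_of_lt (ciSup_le' (fun η => ?_)) (hκ.lt_nu ζ)
        obtain ⟨n, rfl⟩ := he η
        exact (hz (e n)).le.trans (hκ.mono (hζ n)).le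
      · have := hle' 0 h0
        rwa [cc_zero] at this
      · rw [cc_limit B ξ hl]
        exact BAleph.lim ξ (cc B) hl (fun η hη => (ih η hη (lt_trans hη hξ)).2.2.1)
  have hmonoc : ∀ η ξ : Ordinal.{0}, η ≤ ξ → ξ < ω_ 1 → cc B η ≤ cc B ξ := by
    intro η ξ h hξ
    rcases h.lt_or_eq with h6 | h6
    · exact (P ξ hξ).2.2.2 η h6
    · rw [h6]
  have hω : Order.IsSuccLimit (ω_ 1 : Ordinal.{0}) := Cardinal.isSuccLimit_omega 1
  have hadd : ∀ ξ : Ordinal.{0}, ξ < ω_ 1 → ξ + 1 < ω_ 1 := by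
    intro ξ hξ
    rw [← Order.succ_eq_add_one]
    exact hω.succ_lt hξ
  have hsucc : ∀ ξ : Ordinal.{0}, ξ < ω_ 1 → Order.succ (cc B ξ) ≤ cc B (ξ + 1) := by
    intro ξ hξ
    rw [cc_add_one]
    exact Order.succ_le_of_lt (hnx _ (P ξ hξ).1).1
  have hω0 : (0 : Ordinal.{0}) < ω_ 1 := hω.bot_lt
  -- step (3)
  have hcov : ∀ ζ : Om, ∃ ξ : Ordinal.{0}, ξ < ω_ 1 ∧ κ ζ ≤ cc B ξ := by
    intro ζ
    induction ζ using WellFoundedLT.induction with
    | ind ζ ih =>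
      choose! x hx1 hx2 using ih
      have : Countable {η : Om // η < ζ} := by
        rw [← Cardinal.mk_le_aleph0_iff]
        exact mk_Iio_Om ζ
      have hlt0 : (⨆ η : {η : Om // η < ζ}, x η.1) < ω_ 1 :=
        Ordinal.iSup_lt_omega_one (fun η => hx1 η.1 η.2)
      set ξ₀ : Ordinal.{0} := ⨆ η : {η : Om // η < ζ}, x η.1 with hξ₀
      have hs0 : (⨆ η : {η // η < ζ}, κ η.1) ≤ cc B ξ₀ := by
        refine ciSup_le' (fun η => (hx2 η.1 η.2).trans (hmonoc _ _ ?_ hlt0))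
        exact Ordinal.le_iSup (fun η : {η : Om // η < ζ} => x η.1) η
      have hs0' : Order.succ (⨆ η : {η // η < ζ}, κ η.1) ≤ cc B (ξ₀ + 1) :=
        (Order.succ_le_succ hs0).trans (hsucc _ hlt0)
      have h1' : ℵ_ 1 ≤ cc B (0 + 1) := by
        rw [hs1]
        refine le_trans ?_ (hsucc 0 hω0)
        rw [cc_zero]
      have h2' : ℵ_ 2 ≤ cc B (0 + 1 + 1) := by
        rw [hs2]
        exact (Order.succ_le_succ h1').trans (hsucc _ (hadd _ hω0))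
      have h3'' : ℵ_ 3 ≤ cc B (0 + 1 + 1 + 1) := by
        have e : (ℵ_ 3 : Cardinal.{0}) = Order.succ (ℵ_ 2) := by
          rw [Cardinal.succ_aleph]; norm_num
        rw [e]
        exact (Order.succ_le_succ h2').trans (hsucc _ (hadd _ (hadd _ hω0)))
      set ξ₁ : Ordinal.{0} := max (0 + 1 + 1 + 1) (ξ₀ + 1) with hξ₁
      have hlt1 : ξ₁ < ω_ 1 := max_lt (hadd _ (hadd _ (hadd _ hω0))) (hadd _ hlt0)
      have hchi : chi κ ζ ≤ cc B ξ₁ :=
        max_le (h3''.trans (hmonoc _ _ (le_max_left _ _) hlt1))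
          (hs0'.trans (hmonoc _ _ (le_max_right _ _) hlt1))
      refine ⟨ξ₁ + 1, hadd _ hlt1, ?_⟩
      rw [cc_add_one]
      obtain ⟨b1, b2, -, -⟩ := hnx _ (P ξ₁ hlt1).1
      by_contra hcon
      exact not_bcard (hchi.trans_lt b1) (h4 ζ _ (not_le.1 hcon)) b2
  have hsupc : (⨆ ξ : Set.Iio (ω_ 1 : Ordinal.{0}), cc B ξ.1) = nu κ := by
    have hb : BddAbove (Set.range (fun η : Set.Iio (ω_ 1 : Ordinal.{0}) => cc B η.1)) :=
      Cardinal.bddAbove_of_small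
    apply le_antisymm
    · exact ciSup_le' (fun ξ => (P ξ.1 ξ.2).1.le)
    · refine ciSup_le' (fun ζ => ?_)
      obtain ⟨ξ, hξ, h6⟩ := hcov ζ
      exact h6.trans (le_ciSup hb ⟨ξ, hξ⟩)
  have hA : BAleph B (ω_ 1) (nu κ) := by
    rw [← hsupc]
    exact BAleph.lim (ω_ 1) (cc B) hω (fun η hη => (P η hη).2.2.1)
  refine ⟨?_, hA, ?_⟩
  · have a1 : BAleph B (Order.succ 0) (ℵ_ 1) := by
      refine BAleph.succ 0 _ _ BAleph.zero ?_ h3 (fun ρ hρ => hle _ _ ?_)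
      · rw [hs1]; exact Order.lt_succ _
      · rw [hs1] at hρ
        exact Order.lt_succ_iff.1 hρ
    have a2 : BAleph B (Order.succ (Order.succ 0)) (ℵ_ 2) := by
      refine BAleph.succ _ _ _ a1 ?_ h3' (fun ρ hρ => hle _ _ ?_)
      · rw [hs2]; exact Order.lt_succ _
      · rw [hs2] at hρ
        exact Order.lt_succ_iff.1 hρ
    have e : (Order.succ (Order.succ 0) : Ordinal.{0}) = 2 := by
      rw [Order.succ_eq_add_one, Order.succ_eq_add_one]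
      norm_num
    rwa [e] at a2
  · exact BAleph.succ _ _ _ hA (Order.lt_succ _) h5
      (fun ρ hρ => hle _ _ (Order.lt_succ_iff.1 hρ))

end BT
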