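import Pool.Agent.Helper18.BT.D08
import Pool.Agent.Helper18.BT.D09
import Pool.Agent.Helper18.BT.D11
import Pool.Agent.Helper18.BT.D12
import Pool.Agent.Helper18.BT.D13
import Pool.Agent.Helper18.BT.D14
import Pool.Agent.Helper18.BT.A17

/-!
# BT-D15: the final theorem

PROOF.  `B := RO (Levy κ)`, nontrivial (`⊥ ≠ ⊤`, `RO.not_mem_bot`, there is a condition).
`BTreeProperty B (ℵ_ 1)`: D08 with `μ = ℵ_1`, `succ ℵ_1 = ℵ_2`, `BDist B (ℵ_ 2)` from
`closed_levy` and `SeqClosed.bdist` (D02).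
BCard's: `CovN.noSurj` (D03) with `covN_small` (`ℵ_1`, `ℵ_2`, and `chi κ ζ = ℵ_3` if `ζ` is the least
element), `covN_kappa` (`chi κ ζ = succ (κ η)` if `{η // η < ζ}` has the largest element `η`),
`covN_sup` (`ζ` limit), `covN_nu` (`succ (nu κ)`); for `κ ζ`: `noSurj_kappa` (D12) and `NoSurj.mono`.
D13 for the collapses.  `baleph_levy` (D14).
`BTreeProperty B (nu κ)`: D09 (`I = (succ ν).ord.ToType` has no largest element; `N = ν.ord.ToType`) and
`exists_thread_top` (A17) with `ν := nu κ`: `nu_lim`, `nu_cof`, `cov_levy`, `run_levy`, `CovN.noSurj` for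
`covN_nu`; `hns2`: for `#X < nu κ` take `η` with `#X ≤ κ η`, `W := (succ (κ η)).ord.ToType`,
`covN_kappa`; `hG`: `exists_buf_levy` (D12) with `hub_succ` (D11).
-/

open Cardinal Ordinal

namespace BT

open Pool.Agent.Helper18.TP (TreeProperty)

/-- covering at all smaller cardinals makes `κ` a cardinal of the extension -/
private lemma bCard_of_covN {B : Type} [CompleteBooleanAlgebra B] {μ κ : Cardinal.{0}}
    (h : CovN B μ) (hκ : κ = Order.succ μ) : BCard B κ := by
  intro ρ hρ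
  refine h.noSurj (X := ρ.out) (Z' := κ.out) ?_ ?_
  · rw [Cardinal.mk_out]
    rw [hκ] at hρ
    exact Order.lt_succ_iff.1 hρ
  · rw [Cardinal.mk_out, hκ]
    exact Order.lt_succ μ

private lemma succ_aleph (n : ℕ) : Order.succ (ℵ_ (n : Ordinal.{0})) = ℵ_ ((n + 1 : ℕ) : Ordinal.{0}) := by
  rw [Cardinal.succ_aleph]
  congr 1

private lemma succ_aleph1 : Order.succ (ℵ_ (1 : Ordinal.{0})) = ℵ_ 2 := by
  have := succ_aleph 1
  simpa using this

private lemma succ_aleph2 : Order.succ (ℵ_ (2 : Ordinal.{0})) = ℵ_ 3 := by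
  have := succ_aleph 2
  simpa using this

private lemma succ_aleph0 : Order.succ (ℵ₀ : Cardinal.{0}) = ℵ_ 1 := by
  exact Cardinal.succ_aleph0

section

variable {κ : Om → Cardinal.{0}} (hκ : LevyHyp κ)

include hκ

private lemma bCard_chi (ζ : Om) : BCard (RO (Levy κ)) (chi κ ζ) := by
  by_cases hne : ∃ η, η < ζ
  · by_cases hlim : ∀ η < ζ, ∃ η' < ζ, η < η'
    · refine bCard_of_covN (hκ.covN_sup ζ hne hlim) ?_
      obtain ⟨η, hη⟩ := hne
      unfold chi
      refine max_eq_right ?_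
      have h1 : κ η ≤ ⨆ η : {η // η < ζ}, κ η.1 :=
        le_ciSup (f := fun η : {η // η < ζ} => κ η.1) Cardinal.bddAbove_of_small ⟨η, hη⟩
      exact ((hκ.aleph3_lt η).le.trans h1).trans (Order.le_succ _)
    · push Not at hlim
      obtain ⟨η, hη, hmax⟩ := hlim
      refine bCard_of_covN (hκ.covN_kappa η) ?_
      have h1 : (⨆ η : {η // η < ζ}, κ η.1) = κ η := by
        apply le_antisymm
        · have : Nonempty {η // η < ζ} := ⟨⟨η, hη⟩⟩
          exact ciSup_le fun η' => hκ.mono.monotone (hmax η'.1 η'.2)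
        · exact le_ciSup (f := fun η : {η // η < ζ} => κ η.1) Cardinal.bddAbove_of_small ⟨η, hη⟩
      unfold chi
      rw [h1]
      exact max_eq_right ((hκ.aleph3_lt η).le.trans (Order.le_succ _))
  · push Not at hne
    refine bCard_of_covN (hκ.covN_small le_rfl) ?_
    rw [succ_aleph2]
    have hE : IsEmpty {η // η < ζ} := ⟨fun η => absurd η.2 (not_lt.2 (hne η.1))⟩
    unfold chi
    rw [ciSup_of_empty]
    refine max_eq_left ?_
    rw [Order.succ_le_iff]
    exact lt_of_le_of_lt bot_le (Cardinal.aleph_pos 3)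

private lemma bCard_kappa (ζ : Om) : BCard (RO (Levy κ)) (κ ζ) := by
  intro ρ hρ
  have h := hκ.noSurj_kappa ζ ρ.out (by rw [Cardinal.mk_out]; exact hρ)
  refine h.mono le_rfl ?_
  rw [Cardinal.mk_out, Cardinal.mk_ord_toType]

end

theorem final (hTP : TreeProperty.{0} (ℵ_ 2)) {κ : Om → Cardinal.{0}} (hκ : LevyHyp κ) :
    Nontrivial (RO (Levy κ)) ∧ BAleph (RO (Levy κ)) 2 (ℵ_ 2) ∧
      BTreeProperty (RO (Levy κ)) (ℵ_ 1) ∧ BAleph (RO (Levy κ)) (ω_ 1) (nu κ) ∧
      BAleph (RO (Levy κ)) (Order.succ (ω_ 1)) (Order.succ (nu κ)) ∧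
      BTreeProperty (RO (Levy κ)) (nu κ) := by
  classical
  have hν0 : ℵ₀ ≤ nu κ := hκ.nu_lim.aleph0_le
  have hnt : Nontrivial (RO (Levy κ)) := by
    obtain ⟨e, _⟩ := hκ.closed_levy PEmpty (by simp) (fun j => j.elim) (fun j => j.elim)
    refine ⟨⟨⊥, ⊤, fun h => ?_⟩⟩
    exact RO.not_mem_bot e (h ▸ RO.mem_top e)
  have hb := baleph_levy hκ (RO (Levy κ)) (fun X X' Y Y' h h1 h2 => h.mono h1 h2)
    (fun ρ μ h => bColl_of_le _ h) (fun ρ μ σ h h' => bColl_mono h h')
    (bCard_kappa hκ) (bCard_chi hκ)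
    (bCard_of_covN (hκ.covN_small (μ := ℵ₀) (Cardinal.aleph0_le_aleph 2)) succ_aleph0.symm)
    (bCard_of_covN (hκ.covN_small (μ := ℵ_ 1) (by
      rw [← succ_aleph1]; exact Order.le_succ _)) succ_aleph1.symm)
    (fun ζ ρ h => bColl_levy κ ζ h) (bCard_of_covN hκ.covN_nu rfl)
  refine ⟨hnt, hb.1, ?_, hb.2.1, hb.2.2, ?_⟩
  · refine bTreeProperty_of_bdist (Cardinal.aleph0_le_aleph 1) ?_ ?_
    · rw [succ_aleph1]
      exact hκ.closed_levy.bdist
    · rw [succ_aleph1]
      exact hTP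
  · intro D le hT
    have hsν : ℵ₀ ≤ Order.succ (nu κ) := hν0.trans (Order.le_succ _)
    -- no largest element
    have hNM : ∀ α : (Order.succ (nu κ)).ord.ToType, ∃ β, α < β := by
      have := Cardinal.noMaxOrder hsν
      exact fun α => exists_gt α
    refine exists_branch_of_thread hNM (fun T => ?_) D le hT
    have hNne : Nonempty (nu κ).ord.ToType := by
      rw [← Cardinal.mk_ne_zero_iff, Cardinal.mk_ord_toType]
      exact (Cardinal.aleph0_pos.trans_le hν0).ne'
    have hIne : Nonempty (Order.succ (nu κ)).ord.ToType := by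
      rw [← Cardinal.mk_ne_zero_iff, Cardinal.mk_ord_toType]
      exact (Cardinal.aleph0_pos.trans_le hsν).ne'
    have hcof : (nu κ).ord.cof < nu κ := by
      rw [hκ.nu_cof]
      have ζ : Om := by
        have : Nonempty Om := by
          rw [← Cardinal.mk_ne_zero_iff, Cardinal.mk_ord_toType]
          exact (Cardinal.aleph_pos 1).ne'
        exact Classical.choice this
      calc ℵ_ 1 < ℵ_ 2 := by rw [← succ_aleph1]; exact Order.lt_succ _
        _ < κ ζ := hκ.big ζ
        _ < nu κ := hκ.lt_nu ζ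
    refine exists_thread_top T hκ.nu_lim hcof (by rw [Cardinal.mk_ord_toType]) hNne hIne
      (fun α β => ⟨max α β, le_max_left _ _, le_max_right _ _⟩) hκ.cov_levy hκ.run_levy
      (fun X Z hX hZ => hκ.covN_nu.noSurj hX hZ) ?_ ?_
    · intro X hX
      obtain ⟨η, hη⟩ := hκ.exists_lt hX
      refine ⟨(Order.succ (κ η)).ord.ToType, inferInstance, inferInstance, ?_, ?_⟩
      · rw [Cardinal.mk_ord_toType]
        exact (Order.succ_le_iff.2 (Cardinal.cantor _)).trans_lt (hκ.nu_lim.isStrongPrelimit (hκ.lt_nu η))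
      · refine (hκ.covN_kappa η).noSurj hη.le ?_
        rw [Cardinal.mk_ord_toType]
        exact Order.lt_succ _
    · intro τ hτ
      obtain ⟨G, h1, h2, h3⟩ := hκ.exists_buf_levy (Order.succ (nu κ)).ord.ToType
        (fun Z hZ => by
          first
            | exact hub_succ hκ hν0 le_rfl Z hZ
            | exact hub_succ hν0 le_rfl Z hZ) hτ
      refine ⟨G, h1, ?_, h3⟩
      rw [hκ.nu_cof]
      exact h2

end BT
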