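import Pool.Agent.Helper18.BT.Defs
import Pool.Agent.Helper18.BT.D08

/-!
# BT-D16: over the two-valued algebra `Prop` the Boolean valued notions are the usual ones

PROOF of `bTreeProperty_prop`.  `μ` infinite, `I := (succ μ).ord.ToType`, `N := μ.ord.ToType`.
(→) Let `T` be a `succ μ`-tree (TP/Tree.lean).  Every level `{t // height t = typein α}` (`α : I`) is
nonempty of size `≤ μ`, so there is an injection `ι_α` from the level into `N`.  Put `D α x := ∃ t` in
the level `α` with `ι_α t = x`, `le α x β y := ∃ s t`, `s` in level `α`, `t` in level `β`, `ι_α s = x`,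
`ι_β t = y`, `s ≤ t`.  `IsTreeName D le` (with `⊤ = True`; `iSup` over `Prop` is `∃`): `lev` because
`height` is monotone (`height_lt`), `pred` by `exists_pred`, `uniq` by `eq_of_height`.  A branch name `R`
gives the chain `{t | ∃ α, t` in level `α`, `R α (ι_α t)}`, which meets all levels.
(←) Like the first part of the proof of `bTreeProperty_of_bdist` in D08 (you may import D08 and use
`bTreeProperty_of_bdist` with `B := Prop`: `BDist Prop ν` holds for all `ν`, take `c := b = True`, and
choose).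
PROOF of `bAleph_prop`.  (→) induction: `BCard Prop μ'` and `BColl Prop μ ρ` for all `ρ < μ'` give
`μ' = succ μ` (if `succ μ < μ'` then `μ` maps onto `succ μ`, impossible) and `aleph_succ`; at limits
`aleph` is continuous (`aleph_limit`).  (←) induction on `ξ` with `f := aleph`; `BCard Prop κ` for
infinite `κ`: a partial function from `ρ < κ` onto `κ` does not exist.
-/

open Cardinal Ordinal

namespace BT

open Pool.Agent.Helper18.TP (TreeProperty IsTreeOrder height IsKTree IsCofinalBranch
  height_lt exists_pred eq_of_height)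

private lemma iSup_prop_top {ι : Type} {p : ι → Prop} : (⨆ i, p i) = ⊤ ↔ ∃ i, p i := by
  rw [iSup_Prop_eq]
  constructor
  · intro h
    exact h.symm ▸ trivial
  · intro h
    exact eq_true h

private lemma inf_prop_bot {p q : Prop} (h : p → q → False) : p ⊓ q = ⊥ :=
  eq_false (fun hpq => h hpq.1 hpq.2)

private lemma bdist_prop (ν : Cardinal.{0}) : BDist Prop ν := by
  intro J _ Y n b hb h
  have hb' : b := by
    by_contra h1
    exact hb (eq_false h1)
  refine ⟨b, le_rfl, hb, ?_⟩
  have h2 : ∀ j, ∃ y, n j y := by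
    intro j
    have h3 := h j hb'
    rw [iSup_Prop_eq] at h3
    exact h3
  choose f hf using h2
  exact ⟨f, fun j _ => hf j⟩

section tree

variable {μ : Cardinal.{0}} {T : Type} [PartialOrder T]

private abbrev II (μ : Cardinal.{0}) : Type := (Order.succ μ).ord.ToType

private abbrev NN (μ : Cardinal.{0}) : Type := μ.ord.ToType

private noncomputable def ti (α : II μ) : Ordinal.{0} :=
  Ordinal.typein (α := II μ) (· < ·) α

private lemma ti_lt (α : II μ) : ti α < (Order.succ μ).ord := Ordinal.typein_lt_self _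

private lemma ti_surj {o : Ordinal.{0}} (h : o < (Order.succ μ).ord) : ∃ α : II μ, ti α = o := by
  have h1 : o < Ordinal.type (α := II μ) (· < ·) := by
    rw [Ordinal.type_toType]
    exact h
  exact ⟨Ordinal.enum (α := II μ) (· < ·) ⟨o, h1⟩, Ordinal.typein_enum _ h1⟩

private lemma ti_inj {α β : II μ} (h : ti α = ti β) : α = β :=
  Ordinal.typein_injective _ h

private lemma ti_le {α β : II μ} : ti α ≤ ti β ↔ α ≤ β := by
  unfold ti
  rw [Ordinal.typein_le_typein]
  exact not_lt

private lemma exists_emb (hK : IsKTree (Order.succ μ) T) (α : II μ) :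
    ∃ ι : T → NN μ, ∀ s t, height T hK.tree s = ti α → height T hK.tree t = ti α →
      ι s = ι t → s = t := by
  classical
  have h1 : #{t : T // height T hK.tree t = ti α} ≤ #(NN μ) := by
    rw [Cardinal.mk_ord_toType]
    exact Order.lt_succ_iff.1 (hK.small _ (ti_lt α))
  obtain ⟨e⟩ := h1
  obtain ⟨t0, ht0⟩ := hK.nonempty _ (ti_lt α)
  refine ⟨fun t => if h : height T hK.tree t = ti α then e ⟨t, h⟩ else e ⟨t0, ht0⟩, ?_⟩
  intro s t hs ht hst
  simp only [dif_pos hs, dif_pos ht] at hst
  exact congrArg Subtype.val (e.injective hst)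

private lemma branch_of_prop (hB : BTreeProperty Prop μ) (hK : IsKTree (Order.succ μ) T) :
    ∃ b, IsCofinalBranch (Order.succ μ) T hK.tree b := by
  choose ι hι using fun α : II μ => exists_emb hK α
  let D : II μ → NN μ → Prop := fun α x => ∃ t : T, height T hK.tree t = ti α ∧ ι α t = x
  let le : II μ → NN μ → II μ → NN μ → Prop := fun α x β y =>
    ∃ s t : T, height T hK.tree s = ti α ∧ height T hK.tree t = ti β ∧ ι α s = x ∧ ι β t = y ∧
      s ≤ t
  have hT : IsTreeName D le := by
    refine ⟨?_, ?_, ?_, ?_, ?_, ?_, ?_⟩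
    · intro α
      rw [iSup_prop_top]
      obtain ⟨t, ht⟩ := hK.nonempty _ (ti_lt α)
      exact ⟨ι α t, t, ht, rfl⟩
    · rintro α x β y ⟨s, t, hs, ht, hx, hy, _⟩
      exact ⟨⟨s, hs, hx⟩, ⟨t, ht, hy⟩⟩
    · rintro α x ⟨t, ht, hx⟩
      exact ⟨t, t, ht, ht, hx, hx, le_rfl⟩
    · rintro α x β y γ z ⟨⟨s, t, hs, ht, hx, hy, hst⟩, ⟨t', u, ht', hu, hy', hz, htu⟩⟩
      have h1 : t = t' := hι β _ _ ht ht' (hy.trans hy'.symm)
      subst h1
      exact ⟨s, u, hs, hu, hx, hz, hst.trans htu⟩
    · intro α x β y hαβ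
      apply eq_false
      rintro ⟨s, t, hs, ht, _, _, hst⟩
      apply hαβ
      rw [← ti_le, ← hs, ← ht]
      rcases eq_or_lt_of_le hst with h | h
      · rw [h]
      · exact (height_lt hK.tree h).le
    · intro α β y hαβ hy
      obtain ⟨t, ht, hy⟩ := hy
      rw [iSup_Prop_eq]
      obtain ⟨s, hst, hs⟩ := exists_pred hK.tree t (ti α) (by rw [ht]; exact ti_le.2 hαβ)
      exact ⟨ι α s, s, t, hs, ht, rfl, hy, hst⟩
    · intro α x x' β y hxx
      apply inf_prop_bot
      rintro ⟨s, t, hs, ht, hx, hy, hst⟩ ⟨s', t', hs', ht', hx', hy', hst'⟩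
      have h1 : t = t' := hι β _ _ ht ht' (hy.trans hy'.symm)
      subst h1
      have h2 : s = s' := eq_of_height hK.tree hst hst' (hs.trans hs'.symm)
      subst h2
      exact hxx (hx.symm.trans hx')
  obtain ⟨R, hR⟩ := hB D le hT
  have hle : ∀ α β (s t : T), height T hK.tree s = ti α → height T hK.tree t = ti β →
      R α (ι α s) → R β (ι β t) → α ≤ β → s ≤ t := by
    intro α β s t hs ht hRs hRt hαβ
    obtain ⟨s', t', hs', ht', hx, hy, hst⟩ := hR.chain α β hαβ _ _ ⟨hRs, hRt⟩
    have h1 := hι α _ _ hs' hs hx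
    have h2 := hι β _ _ ht' ht hy
    rw [← h1, ← h2]
    exact hst
  refine ⟨{t | ∃ α : II μ, height T hK.tree t = ti α ∧ R α (ι α t)}, ?_, ?_⟩
  · rintro s ⟨α, hs, hRs⟩ t ⟨β, ht, hRt⟩ _
    rcases le_total α β with h | h
    · exact Or.inl (hle α β s t hs ht hRs hRt h)
    · exact Or.inr (hle β α t s ht hs hRt hRs h)
  · intro o ho
    obtain ⟨α, rfl⟩ := ti_surj ho
    have h1 := hR.total α
    rw [iSup_prop_top] at h1
    obtain ⟨x, hx⟩ := h1
    obtain ⟨t, ht, htx⟩ := hR.sub α x hx
    subst htx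
    exact ⟨t, ⟨α, ht, hx⟩, ht⟩

end tree

theorem bTreeProperty_prop {μ : Cardinal.{0}} (hμ : ℵ₀ ≤ μ) :
    BTreeProperty Prop μ ↔ TreeProperty (Order.succ μ) := by
  constructor
  · intro hB T _ hK
    exact branch_of_prop hB hK
  · exact bTreeProperty_of_bdist hμ (bdist_prop _)

private lemma le_of_func {X Y : Type} {f : X → Y → Prop} (hf : IsFunc f)
    (h : ∀ y, ∃ x, f x y) : #Y ≤ #X := by
  choose g hg using h
  refine Cardinal.mk_le_of_injective (f := g) ?_
  intro y y' hyy
  by_contra hne
  have h1 := hf (g y) y y' hne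
  have h2 : f (g y) y ⊓ f (g y) y' := ⟨hg y, by rw [hyy]; exact hg y'⟩
  rw [h1] at h2
  exact h2

private lemma bCard_prop (κ : Cardinal.{0}) : BCard Prop κ := by
  intro ρ hρ f hf
  apply eq_false
  intro h
  rw [iInf_Prop_eq] at h
  have h1 : #(κ.out) ≤ #(ρ.out) := by
    apply le_of_func hf
    intro y
    have h2 := h y
    rw [iSup_Prop_eq] at h2
    exact h2
  rw [Cardinal.mk_out, Cardinal.mk_out] at h1
  exact absurd hρ (not_lt.2 h1)

private lemma bColl_prop (ρ κ : Cardinal.{0}) : BColl Prop ρ κ ↔ κ ≤ ρ := by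
  constructor
  · rintro ⟨f, hf, h⟩
    have h1 : #(κ.out) ≤ #(ρ.out) := by
      apply le_of_func hf
      intro y
      exact iSup_prop_top.1 (h y)
    rwa [Cardinal.mk_out, Cardinal.mk_out] at h1
  · intro h
    have h1 : #(κ.out) ≤ #(ρ.out) := by
      rw [Cardinal.mk_out, Cardinal.mk_out]
      exact h
    obtain ⟨e⟩ := h1
    refine ⟨fun x y => e y = x, ?_, ?_⟩
    · intro x y y' hne
      apply inf_prop_bot
      intro h2 h3
      exact hne (e.injective (h2.trans h3.symm))
    · intro y
      exact iSup_prop_top.2 ⟨e y, rfl⟩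

theorem bAleph_prop (ξ : Ordinal.{0}) (μ : Cardinal.{0}) : BAleph Prop ξ μ ↔ μ = ℵ_ ξ := by
  constructor
  · intro h
    induction h with
    | zero => exact Cardinal.aleph_zero.symm
    | succ ξ μ μ' _ h1 _ h3 ih =>
      rw [Cardinal.aleph_succ, ← ih]
      apply le_antisymm
      · by_contra h
        rw [not_le] at h
        have h4 := (bColl_prop μ (Order.succ μ)).1 (h3 _ h)
        exact absurd (Order.lt_succ μ) (not_lt.2 h4)
      · exact Order.succ_le_of_lt h1
    | lim ξ f hlim _ ih =>
      rw [Cardinal.aleph_limit hlim]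
      apply iSup_congr
      intro η
      exact ih η.1 η.2
  · rintro rfl
    induction ξ using Ordinal.limitRecOn with
    | zero =>
      rw [Cardinal.aleph_zero]
      exact BAleph.zero
    | add_one ξ ih =>
      rw [← Order.succ_eq_add_one]
      refine BAleph.succ ξ (ℵ_ ξ) _ ih ?_ (bCard_prop _) ?_
      · exact Cardinal.aleph_lt_aleph.2 (Order.lt_succ ξ)
      · intro ρ hρ
        rw [bColl_prop]
        have h1 : ρ < ℵ_ (Order.succ ξ) := hρ
        rw [Cardinal.aleph_succ] at h1
        exact Order.lt_succ_iff.1 h1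
    | limit ξ hlim ih =>
      rw [Cardinal.aleph_limit hlim]
      exact BAleph.lim ξ (fun η => ℵ_ η) hlim ih

end BT
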