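import Pool.Agent.Helper18.BT.RO

/-!
# Partial functions of size less than `χ`
-/

open Cardinal

namespace BT

/-- The forcing notion of partial functions `t` from `D` to `V` of size less than `χ` with
`Rel x (t x)` for all `x` in the domain, ordered by reverse inclusion. -/
structure Pf (D V : Type) (Rel : D → V → Prop) (χ : Cardinal.{0}) : Type where
  f : D → Option V
  small : #{x : D // f x ≠ none} < χ
  rel : ∀ x y, f x = some y → Rel x y

namespace Pf

variable {D V : Type} {Rel : D → V → Prop} {χ : Cardinal.{0}}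

@[ext] theorem ext' {t u : Pf D V Rel χ} (h : ∀ x, t.f x = u.f x) : t = u := by
  cases t; cases u
  congr
  exact funext h

instance : PartialOrder (Pf D V Rel χ) where
  le t u := ∀ x y, u.f x = some y → t.f x = some y
  le_refl t x y h := h
  le_trans t u v h1 h2 x y h := h1 x y (h2 x y h)
  le_antisymm t u h1 h2 := by
    apply Pf.ext'
    intro x
    cases hx : u.f x with
    | some y => rw [h1 x y hx]
    | none =>
      cases hy : t.f x with
      | none => rfl
      | some y => rw [h2 x y hy] at hx; exact absurd hx (by simp)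

theorem le_def {t u : Pf D V Rel χ} : t ≤ u ↔ ∀ x y, u.f x = some y → t.f x = some y := Iff.rfl

/-- the empty condition -/
def empty (hχ : ℵ₀ ≤ χ) : Pf D V Rel χ where
  f _ := none
  small := by
    have : IsEmpty {x : D // (none : Option V) ≠ none} := ⟨fun x => x.2 rfl⟩
    rw [Cardinal.mk_eq_zero]
    exact Cardinal.aleph0_pos.trans_le hχ
  rel x y h := by simp at h

theorem le_empty (hχ : ℵ₀ ≤ χ) (t : Pf D V Rel χ) : t ≤ empty hχ := by
  intro x y h
  have h' : (none : Option V) = some y := h
  simp at h'

/-- `t` together with the part of `u` outside the domain of `t` -/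
def merge (hχ : ℵ₀ ≤ χ) (t u : Pf D V Rel χ) : Pf D V Rel χ where
  f x := (t.f x).orElse (fun _ => u.f x)
  small := by
    have h1 : #{x : D // (t.f x).orElse (fun _ => u.f x) ≠ none} ≤
        #({x : D | t.f x ≠ none} ∪ {x : D | u.f x ≠ none} : Set D) := by
      apply Cardinal.mk_le_mk_of_subset
      intro x hx
      by_cases h : t.f x = none
      · right
        intro h2
        apply hx
        rw [h]
        exact h2
      · left; exact h
    exact (h1.trans (Cardinal.mk_union_le _ _)).trans_lt
      (Cardinal.add_lt_of_lt hχ t.small u.small)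
  rel x y h := by
    cases hx : t.f x with
    | some z =>
      rw [hx] at h
      have h2 : z = y := by simpa using h
      exact h2 ▸ t.rel x z hx
    | none =>
      rw [hx] at h
      exact u.rel x y h

open Classical in
/-- the part of `u` outside the domain of `t` -/
noncomputable def diff (u t : Pf D V Rel χ) : Pf D V Rel χ where
  f x := if t.f x = none then u.f x else none
  small := by
    refine lt_of_le_of_lt ?_ u.small
    apply Cardinal.mk_le_mk_of_subset
    intro x hx h2
    apply hx
    show (if t.f x = none then u.f x else none) = none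
    rw [h2]
    simp
  rel x y h := by
    split_ifs at h with h1
    exact u.rel x y h

theorem merge_f (hχ : ℵ₀ ≤ χ) (t u : Pf D V Rel χ) (x : D) :
    (merge hχ t u).f x = (t.f x).orElse (fun _ => u.f x) := rfl

open Classical in
theorem diff_f (u t : Pf D V Rel χ) (x : D) :
    (diff u t).f x = if t.f x = none then u.f x else none := by
  unfold diff
  simp

theorem merge_le_left (hχ : ℵ₀ ≤ χ) (t u : Pf D V Rel χ) : merge hχ t u ≤ t := by
  intro x y h
  rw [merge_f, h]
  rfl

/-- if the domains are disjoint then `merge t u` extends `u` -/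
theorem merge_le_right (hχ : ℵ₀ ≤ χ) (t u : Pf D V Rel χ)
    (h : ∀ x, t.f x ≠ none → u.f x = none) : merge hχ t u ≤ u := by
  intro x y hx
  rw [merge_f]
  have h1 : t.f x = none := by
    by_contra hcon
    rw [h x hcon] at hx
    simp at hx
  rw [h1]
  exact hx

theorem merge_diff (hχ : ℵ₀ ≤ χ) {t u : Pf D V Rel χ} (h : u ≤ t) : merge hχ t (diff u t) = u := by
  apply Pf.ext'
  intro x
  rw [merge_f, diff_f]
  cases hx : t.f x with
  | some y => rw [h x y hx]; rfl
  | none => simp

theorem diff_le_of_le {t u v : Pf D V Rel χ} (h : u ≤ v) (hd : ∀ x, t.f x ≠ none → v.f x = none) :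
    diff u t ≤ v := by
  intro x y hx
  rw [diff_f]
  have h1 : t.f x = none := by
    by_contra hcon
    rw [hd x hcon] at hx
    simp at hx
  rw [if_pos h1]
  exact h x y hx

theorem merge_mono_right (hχ : ℵ₀ ≤ χ) (t : Pf D V Rel χ) {u u' : Pf D V Rel χ} (h : u' ≤ u) :
    merge hχ t u' ≤ merge hχ t u := by
  intro x y hx
  rw [merge_f] at hx ⊢
  cases ht : t.f x with
  | some z => rw [ht] at hx; exact hx
  | none =>
    rw [ht] at hx
    exact h x y hx

/-- monotonicity in the first argument, if the new part avoids the domain of `u` -/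
theorem merge_mono_left (hχ : ℵ₀ ≤ χ) {t t' u : Pf D V Rel χ} (h : t' ≤ t)
    (hd : ∀ x, t'.f x ≠ none → u.f x = none) : merge hχ t' u ≤ merge hχ t u := by
  intro x y hx
  rw [merge_f] at hx ⊢
  cases ht : t.f x with
  | some z =>
    rw [ht] at hx
    rw [h x z ht]
    exact hx
  | none =>
    rw [ht] at hx
    have hx' : u.f x = some y := hx
    have h1 : t'.f x = none := by
      by_contra hcon
      rw [hd x hcon] at hx'
      simp at hx'
    rw [h1]
    exact hx'

/-- A decreasing (or just directed) family of fewer than `χ` conditions has a greatest lower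
bound, the union. -/
theorem exists_union (hχ : χ.IsRegular) {J : Type} (hJ : #J < χ) (t : J → Pf D V Rel χ)
    (ht : ∀ i j, ∃ k, t k ≤ t i ∧ t k ≤ t j) :
    ∃ u : Pf D V Rel χ, (∀ j, u ≤ t j) ∧ ∀ x y, u.f x = some y → ∃ j, (t j).f x = some y := by
  classical
  let g : D → Option V := fun x =>
    if h : ∃ j, (t j).f x ≠ none then (t h.choose).f x else none
  have hg : ∀ x y, g x = some y → ∃ j, (t j).f x = some y := by
    intro x y h
    by_cases h1 : ∃ j, (t j).f x ≠ none
    · simp only [g] at h
      rw [dif_pos h1] at h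
      exact ⟨_, h⟩
    · simp only [g] at h
      rw [dif_neg h1] at h
      simp at h
  have hg2 : ∀ j x y, (t j).f x = some y → g x = some y := by
    intro j x y h
    have h1 : ∃ j, (t j).f x ≠ none := ⟨j, by rw [h]; simp⟩
    simp only [g]
    rw [dif_pos h1]
    obtain ⟨k, hk1, hk2⟩ := ht j h1.choose
    have h2 := hk1 x y h
    cases h3 : (t h1.choose).f x with
    | none => exact absurd h3 h1.choose_spec
    | some z =>
      have h4 := hk2 x z h3
      rw [h2] at h4
      rw [h4]
  refine ⟨⟨g, ?_, ?_⟩, ?_, ?_⟩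
  · have h1 : #{x : D // g x ≠ none} ≤ #(⋃ j, {x : D | (t j).f x ≠ none} : Set D) := by
      apply Cardinal.mk_le_mk_of_subset
      intro x hx
      cases hy : g x with
      | none => exact absurd hy hx
      | some y =>
        obtain ⟨j, hj⟩ := hg x y hy
        exact Set.mem_iUnion.mpr ⟨j, by
          show (t j).f x ≠ none
          rw [hj]; simp⟩
    refine h1.trans_lt ?_
    refine (Cardinal.mk_iUnion_le_sum_mk).trans_lt ?_
    refine Cardinal.sum_lt_of_isRegular hχ hJ (fun j => (t j).small)
  · intro x y h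
    obtain ⟨j, hj⟩ := hg x y h
    exact (t j).rel x y hj
  · intro j x y h
    exact hg2 j x y h
  · exact hg

end Pf

section lift

variable {S E C : Type} [Preorder S] [Preorder E] [Preorder C]

/-- an element of the regular open algebra of `C` as an element of the one of `S × E × C` -/
def lift (x : RO C) : RO (S × E × C) :=
  ⟨fun p => x.1 p.2.2, by
    intro p
    constructor
    · intro h q hq
      exact ⟨q, le_refl _, x.down hq.2.2 h⟩
    · intro h
      refine x.of_dense fun c hc => ?_
      obtain ⟨r, hr, h1⟩ := h (p.1, p.2.1, c) ⟨le_refl _, le_refl _, hc⟩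
      exact ⟨r.2.2, hr.2.2, h1⟩⟩

/-- the section of an element of the regular open algebra of `S × E × C` -/
def sec (s : S) (t : E) (x : RO (S × E × C)) : RO C :=
  ⟨fun c => x.1 (s, t, c), by
    intro c
    constructor
    · intro h q hq
      exact ⟨q, le_refl _, x.down (show (s, t, q) ≤ (s, t, c) from ⟨le_refl _, le_refl _, hq⟩) h⟩
    · intro h
      refine x.of_dense fun q hq => ?_
      obtain ⟨c', hc', h1⟩ := h q.2.2 hq.2.2
      exact ⟨(q.1, q.2.1, c'), ⟨le_refl _, le_refl _, hc'⟩,
        x.down (show (q.1, q.2.1, c') ≤ (s, t, c') from ⟨hq.1, hq.2.1, le_refl _⟩) h1⟩⟩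

@[simp] theorem mem_lift {x : RO C} {p : S × E × C} : (lift x).1 p ↔ x.1 p.2.2 := Iff.rfl

@[simp] theorem mem_sec {s : S} {t : E} {x : RO (S × E × C)} {c : C} :
    (sec s t x).1 c ↔ x.1 (s, t, c) := Iff.rfl

end lift

/-- `U` is a name for a `κ`-complete ultrafilter on the ground model preorder `I` which contains
all cones. -/
structure UltC {A : Type} [CompleteBooleanAlgebra A] {I : Type} [Preorder I] (κ : Cardinal.{0})
    (U : (I → A) → A) : Prop where
  const : ∀ c, U (fun _ => c) = c
  compl : ∀ φ, U (fun a => (φ a)ᶜ) = (U φ)ᶜ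
  inf : ∀ (K : Type) (φ : K → I → A), #K < κ → U (fun a => ⨅ k, φ k a) = ⨅ k, U (φ k)
  cone : ∀ α : I, U (fun a => tv (α ≤ a)) = ⊤

section Q

variable {D V : Type} {Rel : D → V → Prop} {χ κ : Cardinal.{0}} {S C I : Type} [Preorder S]
  [Preorder C] [Preorder I]

/-- Names (over `C`) for functions from `I` to `Pf D V Rel χ` whose class modulo `U` has an empty
standard part. -/
def QC (Rel : D → V → Prop) (χ : Cardinal.{0}) (U : (I → RO C) → RO C) : Type :=
  {h : I → Pf D V Rel χ → RO C // IsFunc h ∧ (∀ a, ⨆ u, h a u = ⊤) ∧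
    ∀ x, U (fun a => ⨆ u, tv (u.f x = none) ⊓ h a u) = ⊤}

/-- the truth value of `h' ≤ h` modulo `U` -/
def QC.le {U : (I → RO C) → RO C} (h' h : QC Rel χ U) : RO C :=
  U (fun a => ⨆ u', ⨆ u, tv (u' ≤ u) ⊓ h'.1 a u' ⊓ h.1 a u)

/-- For `s ∈ S`, `t ∈ Pf` the truth value of: `(s, t ∪ h(a))` forces that `a` is in `X`. -/
def QC.W (hχ : ℵ₀ ≤ χ) {U : (I → RO C) → RO C} (h : QC Rel χ U) (s : S) (t : Pf D V Rel χ)
    (X : I → RO (S × Pf D V Rel χ × C)) (a : I) : RO C :=
  ⨆ u, h.1 a u ⊓ sec s (Pf.merge hχ t u) (X a)

end Q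

end BT
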