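import Pool.Agent.Helper18.TP.TreeThm
import Pool.Agent.Helper18.BT.Pf

/-!
# Definitions for the final theorem

`B` is a complete Boolean algebra; the definitions describe statements of the Boolean valued model
`V^B` in terms of names: a name for a subset of a ground model set `Y` is a function `Y → B`, a name
for a partial function from `X` to `Y` is a function `f : X → Y → B` with `IsFunc f`.
-/

open Cardinal

namespace BT

open Pool.Agent.Helper18.TP (PK TreeProperty)

/-- Every directed subset of size less than `κ` of the forcing notion `C` has a lower bound. -/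
def DirClosed (κ : Cardinal.{0}) (C : Type) [Preorder C] : Prop :=
  ∀ s : Set C, s.Nonempty → #s < κ → DirectedOn (· ≥ ·) s → ∃ c, ∀ x ∈ s, c ≤ x

/-- `U` is a name for a normal fine `κ`-complete ultrafilter on `P_κ X`: `U φ` is the truth value of:
the set with the name `φ` is in the ultrafilter. -/
structure NormalUlt {A : Type} [CompleteBooleanAlgebra A] (κ : Cardinal.{0}) (X : Type)
    (U : (PK κ X → A) → A) : Prop where
  const : ∀ c, U (fun _ => c) = c
  compl : ∀ φ, U (fun a => (φ a)ᶜ) = (U φ)ᶜ
  inf : ∀ (K : Type) (φ : K → PK κ X → A), #K < κ → U (fun a => ⨅ k, φ k a) = ⨅ k, U (φ k)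
  fine : ∀ x : X, U (fun a => tv (x ∈ a.1)) = ⊤
  normal : ∀ φ : X → PK κ X → A, U (fun a => ⨆ x, tv (x ∈ a.1) ⊓ φ x a) ≤ ⨆ x, U (φ x)

/-- `κ` is an indestructible supercompact cardinal: in every extension by a forcing notion `C` all
of whose directed subsets of size less than `κ` have lower bounds (and which therefore adds no
members of `P_κ X`) there is, for every set `X`, a normal fine `κ`-complete ultrafilter on
`P_κ X`. -/
structure IndSupercompact (κ : Cardinal.{0}) : Prop where
  unc : ℵ₀ < κ
  reg : κ.IsRegular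
  lim : κ.IsStrongLimit
  ind : ∀ (C : Type) [Preorder C] [Nonempty C], DirClosed κ C → ∀ X : Type,
    ∃ U : (PK κ X → RO C) → RO C, NormalUlt κ X U

section

variable {B : Type} [CompleteBooleanAlgebra B]

/-- The truth value of all the following statements is `⊤`: the set of all `(α, x)` with `x ∈ D α` is
a tree with the order `le`, the level of `(α, x)` is `α`, and all levels are nonempty. -/
structure IsTreeName {I N : Type} [LinearOrder I] (D : I → N → B) (le : I → N → I → N → B) :
    Prop where
  ne : ∀ α, ⨆ x, D α x = ⊤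
  dom : ∀ α x β y, le α x β y ≤ D α x ⊓ D β y
  refl : ∀ α x, D α x ≤ le α x α x
  trans : ∀ α x β y γ z, le α x β y ⊓ le β y γ z ≤ le α x γ z
  lev : ∀ α x β y, ¬ α ≤ β → le α x β y = ⊥
  pred : ∀ α β y, α ≤ β → D β y ≤ ⨆ x, le α x β y
  uniq : ∀ α x x' β y, x ≠ x' → le α x β y ⊓ le α x' β y = ⊥

/-- The truth value of: `R` is a chain of the tree which meets all levels, is `⊤`. -/
structure IsBranchName {I N : Type} [LinearOrder I] (D : I → N → B) (le : I → N → I → N → B)
    (R : I → N → B) : Prop where
  sub : ∀ α x, R α x ≤ D α x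
  total : ∀ α, ⨆ x, R α x = ⊤
  chain : ∀ α β, α ≤ β → ∀ x y, R α x ⊓ R β y ≤ le α x β y

end

variable (B : Type) [CompleteBooleanAlgebra B]

/-- `V^B` satisfies: every tree of height `μ⁺` (the successor of the ground model cardinal `μ`) all of
whose levels are nonempty of size at most `μ` has a cofinal branch.  Up to isomorphism, the `α`-th
level is a subset of `{α} × μ`. -/
def BTreeProperty (μ : Cardinal.{0}) : Prop :=
  ∀ (D : (Order.succ μ).ord.ToType → μ.ord.ToType → B)
    (le : (Order.succ μ).ord.ToType → μ.ord.ToType → (Order.succ μ).ord.ToType →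
      μ.ord.ToType → B), IsTreeName D le → ∃ R, IsBranchName D le R

/-- `V^B` satisfies: `κ` is a cardinal. -/
def BCard (κ : Cardinal.{0}) : Prop := ∀ ρ < κ, NoSurj B ρ.out κ.out

/-- `V^B` satisfies: there is a function from `ρ` onto `κ`. -/
def BColl (ρ κ : Cardinal.{0}) : Prop :=
  ∃ f : ρ.out → κ.out → B, IsFunc f ∧ ∀ y, ⨆ x, f x y = ⊤

/-- `V^B` satisfies: `μ = ℵ_ξ`. -/
inductive BAleph : Ordinal.{0} → Cardinal.{0} → Prop
  | zero : BAleph 0 ℵ₀
  | succ (ξ : Ordinal.{0}) (μ μ' : Cardinal.{0}) : BAleph ξ μ → μ < μ' → BCard B μ' →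
      (∀ ρ < μ', BColl B μ ρ) → BAleph (Order.succ ξ) μ'
  | lim (ξ : Ordinal.{0}) (f : Ordinal.{0} → Cardinal.{0}) : Order.IsSuccLimit ξ →
      (∀ η < ξ, BAleph η (f η)) → BAleph ξ (⨆ η : Set.Iio ξ, f η)

end BT
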