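import Pool.Agent.Helper18.BT.Defs
import Pool.Agent.Helper18.BT.Prod

/-!
# The full support product of Levy collapses
-/

open Cardinal

namespace BT

/-- the countable ordinals -/
abbrev Om : Type := (ℵ_ 1 : Cardinal.{0}).ord.ToType

/-- `χ_ζ`: the maximum of `ℵ_3` and the successor of `sup_{η < ζ} κ_η`. -/
noncomputable def chi (κ : Om → Cardinal.{0}) (ζ : Om) : Cardinal.{0} :=
  max (ℵ_ 3) (Order.succ (⨆ η : {η // η < ζ}, κ η.1))

/-- The Levy collapse of all cardinals below `κ_ζ` to `χ_ζ`. -/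
abbrev Col (κ : Om → Cardinal.{0}) (ζ : Om) : Type :=
  Pf ((κ ζ).ord.ToType × (chi κ ζ).ord.ToType) (κ ζ).ord.ToType (fun x y => y < x.1) (chi κ ζ)

/-- The full support product of the Levy collapses. -/
abbrev Levy (κ : Om → Cardinal.{0}) : Type := ∀ ζ, Col κ ζ

/-- the hypothesis on the sequence of cardinals -/
structure LevyHyp (κ : Om → Cardinal.{0}) : Prop where
  mono : StrictMono κ
  big : ∀ ζ, ℵ_ 2 < κ ζ
  ind : ∀ ζ, IndSupercompact (κ ζ)

end BT
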