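import Pool.Agent.Helper18.BT.Core

/-!
# Names for inverse systems, for generic ultrafilters and for families of positive sets

All structures live in the Boolean valued model over `B`; `I`, `N` are ground model sets.
-/

open Cardinal

namespace BT

/-- `X` is a set of names closed under mixing; `agree b x y` means that `b` forces `x = y`. -/
structure Mix (B : Type) [CompleteBooleanAlgebra B] (X : Type) where
  agree : B → X → X → Prop
  mix : ∀ (K : Type) (b : K → B) (x : K → X), (∀ k l, k ≠ l → b k ⊓ b l = ⊥) →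
    ∃ y, ∀ k, agree (b k) y (x k)

/-- fullness (the maximum principle) -/
theorem Mix.full {B : Type} [CompleteBooleanAlgebra B] {X : Type} (M : Mix B X) {b : B}
    (Φ : X → B) (hext : ∀ c x y, M.agree c x y → c ⊓ Φ y ≤ Φ x) (h : b ≤ ⨆ x, Φ x) :
    ∃ x, b ≤ Φ x := by
  obtain ⟨ψ, h1, h2, h3⟩ := exists_disjoint Φ
  obtain ⟨y, hy⟩ := M.mix X ψ id h2
  refine ⟨y, h.trans ?_⟩
  rw [← h3]
  refine iSup_le (fun x => ?_)
  calc ψ x ≤ ψ x ⊓ Φ x := le_inf le_rfl (h1 x)
    _ ≤ Φ y := hext _ _ _ (hy x)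

/-- names for subsets of a ground model set -/
def Mix.sub (B : Type) [CompleteBooleanAlgebra B] (Y : Type) : Mix B (Y → B) where
  agree b A A' := ∀ y, b ⊓ A y = b ⊓ A' y
  mix K b A hb := by
    classical
    refine ⟨fun y => ⨆ k, b k ⊓ A k y, fun k y => ?_⟩
    apply le_antisymm
    · rw [inf_iSup_eq]
      refine iSup_le (fun l => ?_)
      by_cases hkl : k = l
      · subst hkl
        exact le_inf inf_le_left (inf_le_right.trans inf_le_right)
      · rw [← inf_assoc, hb k l hkl, bot_inf_eq]; exact bot_le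
    · exact le_inf inf_le_left (le_iSup_of_le k le_rfl)

/-- names for ground model indexed families -/
def Mix.pi {B : Type} [CompleteBooleanAlgebra B] {Z : Type} {X : Z → Type}
    (M : ∀ z, Mix B (X z)) : Mix B (∀ z, X z) where
  agree b f g := ∀ z, (M z).agree b (f z) (g z)
  mix K b f hb := by
    have h := fun z => (M z).mix K b (fun k => f k z) hb
    choose y hy using h
    exact ⟨y, fun k z => hy z k⟩

/-- pairs of names -/
def Mix.prod {B : Type} [CompleteBooleanAlgebra B] {X Y : Type} (M : Mix B X) (M' : Mix B Y) :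
    Mix B (X × Y) where
  agree b p q := M.agree b p.1 q.1 ∧ M'.agree b p.2 q.2
  mix K b f hb := by
    obtain ⟨x, hx⟩ := M.mix K b (fun k => (f k).1) hb
    obtain ⟨y, hy⟩ := M'.mix K b (fun k => (f k).2) hb
    exact ⟨(x, y), fun k => ⟨hx k, hy k⟩⟩

/-- names for partial functions -/
def Mix.func (B : Type) [CompleteBooleanAlgebra B] (X Y : Type) :
    Mix B {f : X → Y → B // IsFunc f} where
  agree b f g := ∀ x y, b ⊓ f.1 x y = b ⊓ g.1 x y
  mix K b f hb := by
    classical
    have key : ∀ k x y, b k ⊓ (⨆ l, b l ⊓ (f l).1 x y) = b k ⊓ (f k).1 x y := by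
      intro k x y
      apply le_antisymm
      · rw [inf_iSup_eq]
        refine iSup_le (fun l => ?_)
        by_cases hkl : k = l
        · subst hkl
          exact le_inf inf_le_left (inf_le_right.trans inf_le_right)
        · rw [← inf_assoc, hb k l hkl, bot_inf_eq]; exact bot_le
      · exact le_inf inf_le_left (le_iSup_of_le k le_rfl)
    refine ⟨⟨fun x y => ⨆ k, b k ⊓ (f k).1 x y, ?_⟩, key⟩
    intro x y y' hy
    rw [iSup_inf_eq]
    simp only [iSup_eq_bot]
    intro k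
    rw [inf_assoc]
    have h1 : (f k).1 x y ⊓ (⨆ l, b l ⊓ (f l).1 x y') ⊓ b k = ⊥ := by
      rw [inf_assoc, inf_comm _ (b k), key, ← inf_assoc, inf_comm _ (b k), inf_assoc,
        (f k).2 x y y' hy, inf_bot_eq]
    rw [inf_comm]; exact h1

/-- A name for an inverse system over the ground model preorder `I`, all of whose levels are the
ground model set `N`: `P α β x y` is the truth value of `π_{αβ}(y) = x`. -/
structure BSys (B : Type) [CompleteBooleanAlgebra B] (I : Type) [Preorder I] (N : Type) where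
  P : I → I → N → N → B
  total : ∀ {α β : I}, α ≤ β → ∀ y, ⨆ x, P α β x y = ⊤
  func : ∀ {α β : I}, α ≤ β → ∀ x x' y, x ≠ x' → P α β x y ⊓ P α β x' y = ⊥
  trans : ∀ {α β γ : I}, α ≤ β → β ≤ γ → ∀ x y z, P α β x y ⊓ P β γ y z ≤ P α γ x z
  refl : ∀ α x, P α α x x = ⊤

section sys

variable {B : Type} [CompleteBooleanAlgebra B] {I : Type} [Preorder I] {N : Type}
  (T : BSys B I N)

/-- the image of the set `A` of points of level `β` in level `α` -/
def BSys.img (α β : I) (A : N → B) : N → B := fun x => ⨆ y, A y ⊓ T.P α β x y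

/-- the preimage in level `β` of the set `A` of points of level `α` -/
def BSys.pre (α β : I) (A : N → B) : N → B := fun y => ⨆ x, A x ⊓ T.P α β x y

/-- For a name `d` of a partial function choosing a point `d a` of the level `a`: the set of all
`a ≥ α` such that the projection of `d a` to level `α` is in `A`. -/
def BSys.hit (d : I → N → B) (α : I) (A : N → B) : I → B :=
  fun a => tv (α ≤ a) ⊓ ⨆ x, ⨆ y, A x ⊓ T.P α a x y ⊓ d a y

/-- A notion of positivity for sets of points of the levels. -/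
structure PosSys (τ : Cardinal.{0}) where
  pos : I → (N → B) → B
  mono : ∀ {α : I} {c : B} {A A' : N → B}, (∀ x, c ⊓ A x ≤ A' x) → c ⊓ pos α A ≤ pos α A'
  img : ∀ {α β : I}, α ≤ β → ∀ A, pos β A ≤ pos α (T.img α β A)
  pre : ∀ {α β : I}, α ≤ β → ∀ A, pos α A ≤ pos β (T.pre α β A)
  supr : ∀ (α : I) (K : Type) (A : K → N → B), #K ≤ τ →
    pos α (fun x => ⨆ k, A k x) ≤ ⨆ k, pos α (A k)
  ne : ∀ α A, pos α A ≤ ⨆ x, A x

end sys

/-- `dj A` is the truth value of: the sets `A ζ` are pairwise disjoint. -/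
def dj {B : Type} [CompleteBooleanAlgebra B] {M Z : Type} (A : M → Z → B) : B :=
  ⨅ ζ, ⨅ ζ', ⨅ _ : ζ ≠ ζ', ⨅ x, (A ζ x ⊓ A ζ' x)ᶜ

/-- A name for a forcing notion `Q` together with a name for a generic ultrafilter on the ground
model preorder `I`: the members of `Q` are names for conditions, `le q q'` is the truth value of
`q ≤ q'`, and `F q A` the truth value of: `q` forces the set with the name `A` into the
ultrafilter. -/
structure BUF (B : Type) [CompleteBooleanAlgebra B] (I : Type) [Preorder I]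
    (τ : Cardinal.{0}) where
  Q : Type
  ne : Nonempty Q
  le : Q → Q → B
  le_refl : ∀ q, le q q = ⊤
  le_trans : ∀ p q r, le p q ⊓ le q r ≤ le p r
  F : Q → (I → B) → B
  F_mono : ∀ q (c : B) (A A' : I → B), (∀ a, c ⊓ A a ≤ A' a) → c ⊓ F q A ≤ F q A'
  F_inf : ∀ q A A', F q A ⊓ F q A' ≤ F q (fun a => A a ⊓ A' a)
  F_ne : ∀ q A, F q A ≤ ⨆ a, A a
  F_cone : ∀ q (α : I), F q (fun a => tv (α ≤ a)) = ⊤
  F_le : ∀ q q' A, le q' q ⊓ F q A ≤ F q' A
  dec : ∀ (K : Type) (g : K → I → B), #K ≤ τ → (∀ a, ⨆ k, g k a = ⊤) →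
    ∀ q, ⨆ q', ⨆ k, le q' q ⊓ F q' (g k) = ⊤

section buf

variable {B : Type} [CompleteBooleanAlgebra B] {I : Type} [Preorder I] {τ : Cardinal.{0}}
  (G : BUF B I τ)

/-- the set of names of conditions is closed under mixing -/
def BUF.Mixing : Prop := ∀ (K : Type) (b : K → B) (q : K → G.Q),
  (∀ k l, k ≠ l → b k ⊓ b l = ⊥) → ∃ r, ∀ k, b k ≤ G.le r (q k) ⊓ G.le (q k) r

/-- decreasing sequences of length at most `θ` have lower bounds -/
def BUF.Closed (θ : Cardinal.{0}) : Prop :=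
  ∀ (J : Type) [LinearOrder J] [WellFoundedLT J], #J ≤ θ → ∀ (b : B) (s : J → G.Q),
    (∀ i j, i ≤ j → b ≤ G.le (s j) (s i)) → ∃ q, ∀ j, b ≤ G.le q (s j)

/-- `τ`-distributivity -/
def BUF.Distr (μ : Cardinal.{0}) : Prop :=
  ∀ (K : Type), #K ≤ μ → ∀ (D : K → G.Q → B), (∀ k q q', G.le q' q ⊓ D k q ≤ D k q') →
    ∀ b : B, (∀ k q, b ≤ ⨆ q', G.le q' q ⊓ D k q') →
    ∀ q, b ≤ ⨆ q', G.le q' q ⊓ ⨅ k, D k q'

/-- the set of names of conditions, as a set of names closed under mixing -/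
def BUF.mixQ (hG : G.Mixing) : Mix B G.Q where
  agree b q q' := b ≤ G.le q q' ⊓ G.le q' q
  mix := hG

/-- the positive sets below the condition `q₀` -/
def BUF.pos {N : Type} (T : BSys B I N) (d : I → N → B) (q₀ : G.Q) (α : I) (A : N → B) : B :=
  ⨆ q, G.le q q₀ ⊓ G.F q (T.hit d α A)

end buf

section cov

variable (B : Type) [CompleteBooleanAlgebra B] (I : Type) [Preorder I]

/-- Every family of at most `ν` many elements of `I` in the extension is bounded by an element of
`I` of the ground model. -/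
def Cov (ν : Cardinal.{0}) : Prop :=
  ∀ (K : Type), #K ≤ ν → ∀ φ : K → I → B, (∀ k α β, α ≤ β → φ k α ≤ φ k β) →
    ∀ b : B, b ≠ ⊥ → (∀ k, b ≤ ⨆ α, φ k α) → ∃ c ≤ b, c ≠ ⊥ ∧ ∃ β, ∀ k, c ≤ φ k β

/-- Sequences of length `W` of elements of `I`, each an upper bound for the preceding ones and for
a name computed from the preceding ones, can be chosen in the ground model. -/
def Run (W : Type) [LinearOrder W] : Prop :=
  ∀ φ : I → I → B, (∀ x y y', y ≤ y' → φ x y ≤ φ x y') → ∀ b : B, b ≠ ⊥ →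
    (∀ x, b ≤ ⨆ y, φ x y) →
    ∃ c ≤ b, c ≠ ⊥ ∧ ∃ (z z' : W → I) (t : I), (∀ w, z w ≤ z' w ∧ z' w ≤ t ∧ c ≤ φ (z w) (z' w)) ∧
      ∀ w w', w < w' → z' w ≤ z w'

variable {I}

/-- In the extension there is no partial function from the ground model set `X` onto the ground
model set `Y`. -/
def NoSurj (X Y : Type) : Prop :=
  ∀ f : X → Y → B, IsFunc f → ⨅ y, ⨆ x, f x y = ⊥

end cov

/-- the range of the function with the name `e` -/
def rng {B : Type} [CompleteBooleanAlgebra B] {Y N : Type} (e : Y → N → B) : N → B :=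
  fun x => ⨆ y, e y x

/-- The truth value of: there are conditions `c ζ ≤ q₀` (`ζ ∈ M`) and sets `A ζ` of points
`(α, x)` (`x` a point of the level `α`) such that the levels of the points in all `A ζ` are bounded
by an element of `I`, points in `A ζ` and in `A ζ'` are different points of the same level for
`ζ ≠ ζ'`, and `c ζ` forces that the generic point is above a point in `A ζ`. -/
def BUF.SP {B : Type} [CompleteBooleanAlgebra B] {I : Type} [Preorder I] {τ : Cardinal.{0}}
    (G : BUF B I τ) {N : Type} (T : BSys B I N) (d : I → N → B) (M : Type) (q₀ : G.Q) : B :=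
  ⨆ p : (M → G.Q) × (M → I → N → B),
    (⨅ ζ, G.le (p.1 ζ) q₀) ⊓ (⨅ ζ, G.F (p.1 ζ) (fun a => ⨆ α, T.hit d α (p.2 ζ α) a)) ⊓
    (⨅ ζ, ⨅ ζ', ⨅ _ : ζ ≠ ζ', ⨅ α, ⨅ x, ⨅ α', ⨅ x', ⨅ _ : ¬ (α = α' ∧ x ≠ x'),
      (p.2 ζ α x ⊓ p.2 ζ' α' x')ᶜ) ⊓
    (⨆ β, ⨅ ζ, ⨅ α, ⨅ _ : ¬ α ≤ β, ⨅ x, (p.2 ζ α x)ᶜ)

/-- A name for a branch (thread) of the inverse system, below `b`. -/
structure IsThread {B : Type} [CompleteBooleanAlgebra B] {I : Type} [Preorder I] {N : Type}
    (T : BSys B I N) (b : B) (R : I → N → B) : Prop where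
  total : ∀ α, b ≤ ⨆ x, R α x
  func : ∀ α x x', x ≠ x' → b ⊓ R α x ⊓ R α x' = ⊥
  coh : ∀ α β, α ≤ β → ∀ x y, b ⊓ R α x ⊓ R β y ≤ T.P α β x y

end BT
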